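import Mathlib

/-!
[RV74 B0] Resampling one coordinate.

Swap the sums; for fixed `ω` the number of `u` with `update u z ω = v` is `card Ω` if `v z = ω` and `0`
otherwise. Or: `∑ u, ∑ ω, F (update u z ω)`: the map `(u, ω) ↦ (update u z ω, u z)` is a bijection of
`(X → Ω) × Ω` (it is an involution), so the sum is `∑ u, ∑ ω, F u = card Ω * ∑ u, F u`
(`Finset.sum_product'`, `Function.Involutive.toPerm`, `Equiv.sum_comp`).
-/

namespace Pool.Agent.LibRV74

open Classical in
private theorem B0_inv {X Ω : Type} (z : X) :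
    Function.Involutive (fun p : (X → Ω) × Ω => (Function.update p.1 z p.2, p.1 z)) := by
  intro p
  simp

open Classical in
theorem resample {X Ω : Type} [Fintype X] [Fintype Ω] (z : X) (F : (X → Ω) → ℝ) :
    (Nat.card Ω : ℝ) * ∑ u : X → Ω, F u = ∑ u : X → Ω, ∑ ω : Ω, F (Function.update u z ω) := by
  have h1 : ∑ u : X → Ω, ∑ ω : Ω, F (Function.update u z ω) =
      ∑ p : (X → Ω) × Ω, F (Function.update p.1 z p.2) :=
    (Fintype.sum_prod_type (fun p : (X → Ω) × Ω => F (Function.update p.1 z p.2))).symm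
  have h2 : ∑ p : (X → Ω) × Ω, F (Function.update p.1 z p.2) =
      ∑ p : (X → Ω) × Ω, F p.1 :=
    Equiv.sum_comp (B0_inv (Ω := Ω) z).toPerm (fun p : (X → Ω) × Ω => F p.1)
  have h3 : ∑ p : (X → Ω) × Ω, F p.1 = ∑ u : X → Ω, ∑ _ω : Ω, F u :=
    Fintype.sum_prod_type (fun p : (X → Ω) × Ω => F p.1)
  rw [h1, h2, h3]
  simp only [Finset.sum_const, Finset.card_univ, nsmul_eq_mul, Nat.card_eq_fintype_card]
  rw [Finset.mul_sum]

end Pool.Agent.LibRV74
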