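import Pool.Agent.LibRV74.B0

/-!
[RV74 B1] Variance of a sum of independent centred variables.

Expand the square (`sq`, `Finset.sum_mul_sum`), exchange the sums (`Finset.sum_comm`). Diagonal terms:
`(h (u x) - p)^2 ≤ 1` as `0 ≤ p ≤ 1` follows from `hp` (or use the given `hp0 hp1`), at most `S.card`
of them. Off diagonal, `x ≠ z`: `∑ u, (h (u x) - p) * (h (u z) - p) = 0` by `resample z` (the inner sum is
`(h (u x) - p) * ∑ ω, (h ω - p) = 0`; `card Ω ≠ 0` as `Nonempty Ω`).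
-/

namespace Pool.Agent.LibRV74

open Classical in
private theorem B1_off {X Ω : Type} [Fintype X] [Fintype Ω] [Nonempty Ω] {h : Ω → ℝ} {p : ℝ}
    (hp : ∑ ω : Ω, h ω = p * Nat.card Ω) {x z : X} (hxz : x ≠ z) :
    ∑ u : X → Ω, (h (u x) - p) * (h (u z) - p) = 0 := by
  have hc : (Nat.card Ω : ℝ) ≠ 0 := by
    have : 0 < Nat.card Ω := Nat.card_pos
    exact_mod_cast this.ne'
  have h1 := resample z (fun u : X → Ω => (h (u x) - p) * (h (u z) - p))
  have h2 : ∀ u : X → Ω, ∑ ω : Ω, (h (Function.update u z ω x) - p) *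
      (h (Function.update u z ω z) - p) = 0 := by
    intro u
    have h3 : ∀ ω : Ω, (h (Function.update u z ω x) - p) * (h (Function.update u z ω z) - p) =
        (h (u x) - p) * (h ω - p) := by
      intro ω
      rw [Function.update_self, Function.update_of_ne hxz]
    rw [Finset.sum_congr rfl fun ω _ => h3 ω, ← Finset.mul_sum, Finset.sum_sub_distrib, hp,
      Finset.sum_const, Finset.card_univ, nsmul_eq_mul, Nat.card_eq_fintype_card]
    ring
  have h4 : (Nat.card Ω : ℝ) * ∑ u : X → Ω, (h (u x) - p) * (h (u z) - p) = 0 := by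
    rw [h1]
    exact Finset.sum_eq_zero fun u _ => h2 u
  exact (mul_eq_zero.1 h4).resolve_left hc

open Classical in
theorem var_le {X Ω : Type} [Fintype X] [Fintype Ω] [Nonempty Ω] {h : Ω → ℝ} (h0 : ∀ ω, 0 ≤ h ω)
    (h1 : ∀ ω, h ω ≤ 1) {p : ℝ} (hp0 : 0 ≤ p) (hp1 : p ≤ 1)
    (hp : ∑ ω : Ω, h ω = p * Nat.card Ω) (S : Finset X) :
    ∑ u : X → Ω, (∑ x ∈ S, (h (u x) - p)) ^ 2 ≤ S.card * (Nat.card (X → Ω) : ℝ) := by
  have e1 : ∀ u : X → Ω, (∑ x ∈ S, (h (u x) - p)) ^ 2 =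
      ∑ x ∈ S, ∑ z ∈ S, (h (u x) - p) * (h (u z) - p) := by
    intro u
    rw [sq, Finset.sum_mul_sum]
  have e2 : ∑ u : X → Ω, (∑ x ∈ S, (h (u x) - p)) ^ 2 =
      ∑ x ∈ S, ∑ z ∈ S, ∑ u : X → Ω, (h (u x) - p) * (h (u z) - p) := by
    rw [Finset.sum_congr rfl fun u _ => e1 u, Finset.sum_comm]
    exact Finset.sum_congr rfl fun x _ => Finset.sum_comm
  have e3 : ∀ x ∈ S, ∑ z ∈ S, ∑ u : X → Ω, (h (u x) - p) * (h (u z) - p) =
      ∑ u : X → Ω, (h (u x) - p) * (h (u x) - p) := by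
    intro x hx
    rw [Finset.sum_eq_single x (fun z _ hz => B1_off hp (Ne.symm hz)) (fun hc => absurd hx hc)]
  rw [e2, Finset.sum_congr rfl e3]
  have e4 : ∀ x ∈ S, ∑ u : X → Ω, (h (u x) - p) * (h (u x) - p) ≤ (Nat.card (X → Ω) : ℝ) := by
    intro x _
    have e5 : ∀ u : X → Ω, (h (u x) - p) * (h (u x) - p) ≤ 1 := by
      intro u
      have a0 := h0 (u x)
      have a1 := h1 (u x)
      nlinarith
    calc ∑ u : X → Ω, (h (u x) - p) * (h (u x) - p) ≤ ∑ _u : X → Ω, (1 : ℝ) :=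
          Finset.sum_le_sum fun u _ => e5 u
      _ = (Nat.card (X → Ω) : ℝ) := by
          rw [Finset.sum_const, Finset.card_univ, nsmul_eq_mul, mul_one, Nat.card_eq_fintype_card]
  calc ∑ x ∈ S, ∑ u : X → Ω, (h (u x) - p) * (h (u x) - p)
      ≤ ∑ _x ∈ S, (Nat.card (X → Ω) : ℝ) := Finset.sum_le_sum e4
    _ = S.card * (Nat.card (X → Ω) : ℝ) := by
        rw [Finset.sum_const, nsmul_eq_mul]

end Pool.Agent.LibRV74
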