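import Pool.Agent.LibRV74.B0

/-!
[RV74 B2] Almost positive covariance: the pair `x ≠ z`.

Write `G x z u = ∑ ω, b x (update u z ω) * (h ω - p)`. Apply `resample x` and then `resample z` to
`F u = b x u * b z u * ((h (u x) - p) * (h (u z) - p))`: with `u' = update (update u x α) z β` one has
`u' x = α`, `u' z = β`, `b x u' = b x (update u z β)` (`Function.update_comm`, `hb`) and
`b z u' = b z (update u x α)` (`hb`); so `(card Ω)^2 * ∑ u, F u = ∑ u, G x z u * G z x u`.
Here `|G| ≤ card Ω`, `-(τ card Ω) ≤ G`, hence `|G x z| ≤ G x z + 2 τ card Ω` and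
`G x z * G z x ≤ (G x z + 2 τ card Ω) * card Ω`. Finally `∑ u, G x z u = card Ω * ∑ u, b x u * (h (u z) - p)`
by `resample z` again. Divide by `(card Ω)^2 > 0`.
-/

namespace Pool.Agent.LibRV74

open Classical in
theorem pair_le {X Ω : Type} [Fintype X] [Fintype Ω] [Nonempty Ω] {h : Ω → ℝ} (h0 : ∀ ω, 0 ≤ h ω)
    (h1 : ∀ ω, h ω ≤ 1) {p : ℝ} (hp0 : 0 ≤ p) (hp1 : p ≤ 1)
    {b : X → (X → Ω) → ℝ} (b0 : ∀ x u, 0 ≤ b x u) (b1 : ∀ x u, b x u ≤ 1)
    (hb : ∀ x u ω, b x (Function.update u x ω) = b x u) {τ : ℝ} (hτ0 : 0 ≤ τ)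
    (hτ : ∀ x z, x ≠ z → ∀ u : X → Ω,
      -(τ * Nat.card Ω) ≤ ∑ ω : Ω, b x (Function.update u z ω) * (h ω - p))
    {x z : X} (hxz : x ≠ z) :
    ∑ u : X → Ω, b x u * b z u * ((h (u x) - p) * (h (u z) - p)) ≤
      ∑ u : X → Ω, b x u * (h (u z) - p) + 2 * τ * Nat.card (X → Ω) := by
  have hzx : z ≠ x := fun h' => hxz h'.symm
  have hN : (0 : ℝ) < (Nat.card Ω : ℝ) := by
    exact_mod_cast Nat.card_pos
  have hcard : (Fintype.card Ω : ℝ) = (Nat.card Ω : ℝ) := by
    rw [Nat.card_eq_fintype_card]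
  have hcard2 : (Fintype.card (X → Ω) : ℝ) = (Nat.card (X → Ω) : ℝ) := by
    rw [Nat.card_eq_fintype_card]
  have habs : ∀ ω, |h ω - p| ≤ 1 := fun ω => by
    rw [abs_le]
    constructor
    · linarith [h0 ω]
    · linarith [h1 ω]
  have hstep1 : (Nat.card Ω : ℝ) * ((Nat.card Ω : ℝ) *
      ∑ u : X → Ω, b x u * b z u * ((h (u x) - p) * (h (u z) - p))) =
      ∑ u : X → Ω, (∑ ω : Ω, b x (Function.update u z ω) * (h ω - p)) *
        (∑ ω : Ω, b z (Function.update u x ω) * (h ω - p)) := by
    rw [resample x (fun u : X → Ω => b x u * b z u * ((h (u x) - p) * (h (u z) - p))),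
      resample z (fun u : X → Ω => ∑ ω : Ω, (fun u : X → Ω =>
        b x u * b z u * ((h (u x) - p) * (h (u z) - p))) (Function.update u x ω))]
    refine Finset.sum_congr rfl fun u _ => ?_
    rw [Finset.sum_mul_sum]
    refine Finset.sum_congr rfl fun β _ => ?_
    refine Finset.sum_congr rfl fun α _ => ?_
    have e1 : Function.update (Function.update u z β) x α x = α := Function.update_self _ _ _
    have e2 : Function.update (Function.update u z β) x α z = β := by
      rw [Function.update_of_ne hzx, Function.update_self]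
    have e3 : b x (Function.update (Function.update u z β) x α) = b x (Function.update u z β) :=
      hb x _ α
    have e4 : b z (Function.update (Function.update u z β) x α) = b z (Function.update u x α) := by
      rw [Function.update_comm hzx]
      exact hb z _ β
    show b x (Function.update (Function.update u z β) x α) *
        b z (Function.update (Function.update u z β) x α) *
        ((h (Function.update (Function.update u z β) x α x) - p) *
          (h (Function.update (Function.update u z β) x α z) - p)) =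
      b x (Function.update u z β) * (h β - p) * (b z (Function.update u x α) * (h α - p))
    rw [e1, e2, e3, e4]
    ring
  have hstep3 : (Nat.card Ω : ℝ) * ∑ u : X → Ω, b x u * (h (u z) - p) =
      ∑ u : X → Ω, ∑ ω : Ω, b x (Function.update u z ω) * (h ω - p) := by
    rw [resample z (fun u : X → Ω => b x u * (h (u z) - p))]
    refine Finset.sum_congr rfl fun u _ => ?_
    refine Finset.sum_congr rfl fun ω _ => ?_
    show b x (Function.update u z ω) * (h (Function.update u z ω z) - p) = _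
    rw [Function.update_self]
  have hG : ∀ (y w : X) (u : X → Ω),
      |∑ ω : Ω, b y (Function.update u w ω) * (h ω - p)| ≤ (Nat.card Ω : ℝ) := fun y w u => by
    calc |∑ ω : Ω, b y (Function.update u w ω) * (h ω - p)|
        ≤ ∑ ω : Ω, |b y (Function.update u w ω) * (h ω - p)| := Finset.abs_sum_le_sum_abs _ _
      _ ≤ ∑ _ω : Ω, (1 : ℝ) := by
          refine Finset.sum_le_sum fun ω _ => ?_
          rw [abs_mul, abs_of_nonneg (b0 y _)]
          exact mul_le_one₀ (b1 y _) (abs_nonneg _) (habs ω)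
      _ = (Nat.card Ω : ℝ) := by
          rw [Finset.sum_const, Finset.card_univ, nsmul_eq_mul, mul_one, hcard]
  have hstep2 : ∀ u : X → Ω, (∑ ω : Ω, b x (Function.update u z ω) * (h ω - p)) *
      (∑ ω : Ω, b z (Function.update u x ω) * (h ω - p)) ≤
      (∑ ω : Ω, b x (Function.update u z ω) * (h ω - p)) * (Nat.card Ω : ℝ) +
        2 * τ * (Nat.card Ω : ℝ) * (Nat.card Ω : ℝ) := fun u => by
    have h2 := hτ x z hxz u
    have h3 := hG z x u
    set A := ∑ ω : Ω, b x (Function.update u z ω) * (h ω - p)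
    set B := ∑ ω : Ω, b z (Function.update u x ω) * (h ω - p)
    have h4 : |A| ≤ A + 2 * τ * (Nat.card Ω : ℝ) := by
      have h5 : 0 ≤ τ * (Nat.card Ω : ℝ) := mul_nonneg hτ0 hN.le
      rw [abs_le]
      constructor
      · linarith
      · linarith
    calc A * B ≤ |A * B| := le_abs_self _
      _ = |A| * |B| := abs_mul _ _
      _ ≤ (A + 2 * τ * (Nat.card Ω : ℝ)) * (Nat.card Ω : ℝ) :=
          mul_le_mul h4 h3 (abs_nonneg _) ((abs_nonneg _).trans h4)
      _ = A * (Nat.card Ω : ℝ) + 2 * τ * (Nat.card Ω : ℝ) * (Nat.card Ω : ℝ) := by ring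
  have hfin : (Nat.card Ω : ℝ) * ((Nat.card Ω : ℝ) *
      ∑ u : X → Ω, b x u * b z u * ((h (u x) - p) * (h (u z) - p))) ≤
      (Nat.card Ω : ℝ) * ((Nat.card Ω : ℝ) *
      (∑ u : X → Ω, b x u * (h (u z) - p) + 2 * τ * Nat.card (X → Ω))) := by
    rw [hstep1]
    calc ∑ u : X → Ω, (∑ ω : Ω, b x (Function.update u z ω) * (h ω - p)) *
          (∑ ω : Ω, b z (Function.update u x ω) * (h ω - p))
        ≤ ∑ u : X → Ω, ((∑ ω : Ω, b x (Function.update u z ω) * (h ω - p)) * (Nat.card Ω : ℝ) +
          2 * τ * (Nat.card Ω : ℝ) * (Nat.card Ω : ℝ)) :=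
          Finset.sum_le_sum fun u _ => hstep2 u
      _ = (∑ u : X → Ω, ∑ ω : Ω, b x (Function.update u z ω) * (h ω - p)) * (Nat.card Ω : ℝ) +
          (Nat.card (X → Ω) : ℝ) * (2 * τ * (Nat.card Ω : ℝ) * (Nat.card Ω : ℝ)) := by
          rw [Finset.sum_add_distrib, ← Finset.sum_mul, Finset.sum_const, Finset.card_univ,
            nsmul_eq_mul, hcard2]
      _ = (Nat.card Ω : ℝ) * ((Nat.card Ω : ℝ) *
          (∑ u : X → Ω, b x u * (h (u z) - p) + 2 * τ * Nat.card (X → Ω))) := by
          rw [← hstep3]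
          ring
  exact le_of_mul_le_mul_left (le_of_mul_le_mul_left hfin hN) hN

end Pool.Agent.LibRV74
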