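import Pool.Agent.LibRV74.B1
import Pool.Agent.LibRV74.B2

/-!
[RV74 B3] The second moment.

Expand the square and exchange the sums. Diagonal: each term `≤ 1`, together `≤ N * card`.
For fixed `x` the sum over `z ≠ x` is by `pair_le` at most
`∑ u, b x u * ∑ z ≠ x, (h (u z) - p) + N * 2 τ * card ≤ ∑ u, |∑ z ∈ univ.erase x, (h (u z) - p)| + 2 N τ card`,
and by Cauchy-Schwarz (`Finset.inner_mul_le_norm_mul_norm` or `inner_mul_le_norm_mul_norm`, simplest: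
`Finset.sum_mul_sq_le_sq_mul_sq`) with `var_le` the sum of the absolute values is
`≤ √(card * (N * card)) = √N * card`.
-/

namespace Pool.Agent.LibRV74

open Classical in
private theorem B3_abs {X Ω : Type} [Fintype X] [Fintype Ω] [Nonempty Ω] {h : Ω → ℝ}
    (h0 : ∀ ω, 0 ≤ h ω) (h1 : ∀ ω, h ω ≤ 1) {p : ℝ} (hp0 : 0 ≤ p) (hp1 : p ≤ 1)
    (hp : ∑ ω : Ω, h ω = p * Nat.card Ω) (S : Finset X) :
    ∑ u : X → Ω, |∑ z ∈ S, (h (u z) - p)| ≤ √(Nat.card X) * Nat.card (X → Ω) := by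
  have hcs := sq_sum_le_card_mul_sum_sq (s := (Finset.univ : Finset (X → Ω)))
    (f := fun u => |∑ z ∈ S, (h (u z) - p)|)
  simp only [sq_abs] at hcs
  have hv := var_le h0 h1 hp0 hp1 hp S
  have hM : ((Finset.univ : Finset (X → Ω)).card : ℝ) = (Nat.card (X → Ω) : ℝ) := by
    rw [Nat.card_eq_fintype_card, Finset.card_univ]
  rw [hM] at hcs
  have hM0 : (0 : ℝ) ≤ (Nat.card (X → Ω) : ℝ) := Nat.cast_nonneg _
  have hSN : (S.card : ℝ) ≤ (Nat.card X : ℝ) := by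
    rw [Nat.card_eq_fintype_card]
    exact_mod_cast Finset.card_le_univ S
  have h2 : (∑ u : X → Ω, |∑ z ∈ S, (h (u z) - p)|) ^ 2 ≤
      (√(Nat.card X) * Nat.card (X → Ω)) ^ 2 := by
    rw [mul_pow, Real.sq_sqrt (Nat.cast_nonneg _)]
    calc (∑ u : X → Ω, |∑ z ∈ S, (h (u z) - p)|) ^ 2
        ≤ (Nat.card (X → Ω) : ℝ) * ∑ u : X → Ω, (∑ z ∈ S, (h (u z) - p)) ^ 2 := hcs
      _ ≤ (Nat.card (X → Ω) : ℝ) * ((S.card : ℝ) * (Nat.card (X → Ω) : ℝ)) :=
          mul_le_mul_of_nonneg_left hv hM0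
      _ ≤ (Nat.card (X → Ω) : ℝ) * ((Nat.card X : ℝ) * (Nat.card (X → Ω) : ℝ)) :=
          mul_le_mul_of_nonneg_left (mul_le_mul_of_nonneg_right hSN hM0) hM0
      _ = (Nat.card X : ℝ) * (Nat.card (X → Ω) : ℝ) ^ 2 := by ring
  exact (abs_le_of_sq_le_sq' h2 (mul_nonneg (Real.sqrt_nonneg _) hM0)).2

open Classical in
private theorem B3_row {X Ω : Type} [Fintype X] [Fintype Ω] [Nonempty Ω] {h : Ω → ℝ}
    (h0 : ∀ ω, 0 ≤ h ω) (h1 : ∀ ω, h ω ≤ 1) {p : ℝ} (hp0 : 0 ≤ p) (hp1 : p ≤ 1)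
    (hp : ∑ ω : Ω, h ω = p * Nat.card Ω)
    {b : X → (X → Ω) → ℝ} (b0 : ∀ x u, 0 ≤ b x u) (b1 : ∀ x u, b x u ≤ 1)
    (hb : ∀ x u ω, b x (Function.update u x ω) = b x u) {τ : ℝ} (hτ0 : 0 ≤ τ)
    (hτ : ∀ x z, x ≠ z → ∀ u : X → Ω,
      -(τ * Nat.card Ω) ≤ ∑ ω : Ω, b x (Function.update u z ω) * (h ω - p)) (x : X) :
    ∑ z : X, ∑ u : X → Ω, b x u * b z u * ((h (u x) - p) * (h (u z) - p)) ≤
      (1 + √(Nat.card X) + 2 * (Nat.card X : ℝ) * τ) * Nat.card (X → Ω) := by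
  have hM : ((Finset.univ : Finset (X → Ω)).card : ℝ) = (Nat.card (X → Ω) : ℝ) := by
    rw [Nat.card_eq_fintype_card, Finset.card_univ]
  have hM0 : (0 : ℝ) ≤ (Nat.card (X → Ω) : ℝ) := Nat.cast_nonneg _
  have hdiag : ∑ u : X → Ω, b x u * b x u * ((h (u x) - p) * (h (u x) - p)) ≤
      (Nat.card (X → Ω) : ℝ) := by
    calc ∑ u : X → Ω, b x u * b x u * ((h (u x) - p) * (h (u x) - p))
        ≤ ∑ _u : X → Ω, (1 : ℝ) := by
          refine Finset.sum_le_sum fun u _ => ?_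
          have e1 : b x u * b x u ≤ 1 := mul_le_one₀ (b1 x u) (b0 x u) (b1 x u)
          have e2 : (h (u x) - p) * (h (u x) - p) ≤ 1 := by
            have a1 := h0 (u x)
            have a2 := h1 (u x)
            nlinarith
          exact mul_le_one₀ e1 (mul_self_nonneg _) e2
      _ = (Nat.card (X → Ω) : ℝ) := by
          rw [Finset.sum_const, nsmul_eq_mul, mul_one, hM]
  have hcard : ((Finset.univ.erase x).card : ℝ) ≤ (Nat.card X : ℝ) := by
    rw [Nat.card_eq_fintype_card]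
    exact_mod_cast Finset.card_le_univ _
  have hoff : ∑ z ∈ Finset.univ.erase x,
      ∑ u : X → Ω, b x u * b z u * ((h (u x) - p) * (h (u z) - p)) ≤
      √(Nat.card X) * Nat.card (X → Ω) + Nat.card X * (2 * τ * Nat.card (X → Ω)) := by
    calc ∑ z ∈ Finset.univ.erase x,
          ∑ u : X → Ω, b x u * b z u * ((h (u x) - p) * (h (u z) - p))
        ≤ ∑ z ∈ Finset.univ.erase x,
          (∑ u : X → Ω, b x u * (h (u z) - p) + 2 * τ * Nat.card (X → Ω)) := by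
          refine Finset.sum_le_sum fun z hz => ?_
          exact pair_le h0 h1 hp0 hp1 b0 b1 hb hτ0 hτ (Finset.ne_of_mem_erase hz).symm
      _ = ∑ u : X → Ω, b x u * (∑ z ∈ Finset.univ.erase x, (h (u z) - p)) +
          ((Finset.univ.erase x).card : ℝ) * (2 * τ * Nat.card (X → Ω)) := by
          rw [Finset.sum_add_distrib, Finset.sum_comm, Finset.sum_const, nsmul_eq_mul]
          congr 1
          exact Finset.sum_congr rfl fun u _ => (Finset.mul_sum _ _ _).symm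
      _ ≤ ∑ u : X → Ω, |∑ z ∈ Finset.univ.erase x, (h (u z) - p)| +
          (Nat.card X : ℝ) * (2 * τ * Nat.card (X → Ω)) := by
          refine add_le_add (Finset.sum_le_sum fun u _ => ?_)
            (mul_le_mul_of_nonneg_right hcard (by positivity))
          calc b x u * (∑ z ∈ Finset.univ.erase x, (h (u z) - p))
              ≤ b x u * |∑ z ∈ Finset.univ.erase x, (h (u z) - p)| :=
                mul_le_mul_of_nonneg_left (le_abs_self _) (b0 x u)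
            _ ≤ 1 * |∑ z ∈ Finset.univ.erase x, (h (u z) - p)| :=
                mul_le_mul_of_nonneg_right (b1 x u) (abs_nonneg _)
            _ = _ := one_mul _
      _ ≤ √(Nat.card X) * Nat.card (X → Ω) + Nat.card X * (2 * τ * Nat.card (X → Ω)) :=
          add_le_add (B3_abs h0 h1 hp0 hp1 hp _) le_rfl
  rw [← Finset.add_sum_erase _ _ (Finset.mem_univ x)]
  calc _ ≤ (Nat.card (X → Ω) : ℝ) +
        (√(Nat.card X) * Nat.card (X → Ω) + Nat.card X * (2 * τ * Nat.card (X → Ω))) :=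
        add_le_add hdiag hoff
    _ = _ := by ring

open Classical in
theorem moment_le {X Ω : Type} [Fintype X] [Fintype Ω] [Nonempty Ω] {h : Ω → ℝ}
    (h0 : ∀ ω, 0 ≤ h ω) (h1 : ∀ ω, h ω ≤ 1) {p : ℝ} (hp0 : 0 ≤ p) (hp1 : p ≤ 1)
    (hp : ∑ ω : Ω, h ω = p * Nat.card Ω)
    {b : X → (X → Ω) → ℝ} (b0 : ∀ x u, 0 ≤ b x u) (b1 : ∀ x u, b x u ≤ 1)
    (hb : ∀ x u ω, b x (Function.update u x ω) = b x u) {τ : ℝ} (hτ0 : 0 ≤ τ)
    (hτ : ∀ x z, x ≠ z → ∀ u : X → Ω,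
      -(τ * Nat.card Ω) ≤ ∑ ω : Ω, b x (Function.update u z ω) * (h ω - p)) :
    ∑ u : X → Ω, (∑ x : X, b x u * (h (u x) - p)) ^ 2 ≤
      ((Nat.card X : ℝ) + Nat.card X * √(Nat.card X) + 2 * (Nat.card X : ℝ) ^ 2 * τ) *
        Nat.card (X → Ω) := by
  have hexp : ∑ u : X → Ω, (∑ x : X, b x u * (h (u x) - p)) ^ 2 =
      ∑ x : X, ∑ z : X, ∑ u : X → Ω, b x u * b z u * ((h (u x) - p) * (h (u z) - p)) := by
    have e1 : ∀ u : X → Ω, (∑ x : X, b x u * (h (u x) - p)) ^ 2 =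
        ∑ x : X, ∑ z : X, b x u * b z u * ((h (u x) - p) * (h (u z) - p)) := by
      intro u
      rw [sq, Finset.sum_mul_sum]
      refine Finset.sum_congr rfl fun x _ => Finset.sum_congr rfl fun z _ => ?_
      ring
    rw [Finset.sum_congr rfl fun u _ => e1 u, Finset.sum_comm]
    exact Finset.sum_congr rfl fun x _ => Finset.sum_comm
  rw [hexp]
  have hcardX : ((Finset.univ : Finset X).card : ℝ) = (Nat.card X : ℝ) := by
    rw [Nat.card_eq_fintype_card, Finset.card_univ]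
  calc ∑ x : X, ∑ z : X, ∑ u : X → Ω, b x u * b z u * ((h (u x) - p) * (h (u z) - p))
      ≤ ∑ _x : X, (1 + √(Nat.card X) + 2 * (Nat.card X : ℝ) * τ) * Nat.card (X → Ω) :=
        Finset.sum_le_sum fun x _ => B3_row h0 h1 hp0 hp1 hp b0 b1 hb hτ0 hτ x
    _ = (Nat.card X : ℝ) *
        ((1 + √(Nat.card X) + 2 * (Nat.card X : ℝ) * τ) * Nat.card (X → Ω)) := by
        rw [Finset.sum_const, nsmul_eq_mul, hcardX]
    _ = _ := by ring

end Pool.Agent.LibRV74
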