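import Pool.Agent.LibRV74.B3

/-!
[RV74 B4] Chebyshev.

Put `D u = ∑ x, (h (u x) - p)`, `Z u = ∑ x, b x u * (h (u x) - p)`, `N = card X`. If `η N < D - 2 Z` then
`(η N / 2)^2 ≤ D^2` or `(η N / 4)^2 ≤ Z^2`, so `1 ≤ 4 D^2 / (η N)^2 + 16 Z^2 / (η N)^2`. Sum over `u`
(the number of `u` in the set is `∑ u, if .. then 1 else 0`, `Nat.card_eq_fintype_card`,
`Fintype.card_subtype`), use `var_le` with `S = univ` (`≤ N card`) and `moment_le`:
`[4 N + 16 (N + N √N + 2 N² τ)] / (η N)² ≤ 36 / (η² √N) + 32 τ / η²`, as `√N ≤ N`, `√N * √N = N`.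
-/

namespace Pool.Agent.LibRV74

open Classical in
theorem tail_le {X Ω : Type} [Fintype X] [Nonempty X] [Fintype Ω] [Nonempty Ω] {h : Ω → ℝ}
    (h0 : ∀ ω, 0 ≤ h ω) (h1 : ∀ ω, h ω ≤ 1) {p : ℝ} (hp0 : 0 ≤ p) (hp1 : p ≤ 1)
    (hp : ∑ ω : Ω, h ω = p * Nat.card Ω)
    {b : X → (X → Ω) → ℝ} (b0 : ∀ x u, 0 ≤ b x u) (b1 : ∀ x u, b x u ≤ 1)
    (hb : ∀ x u ω, b x (Function.update u x ω) = b x u) {τ : ℝ} (hτ0 : 0 ≤ τ)
    (hτ : ∀ x z, x ≠ z → ∀ u : X → Ω,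
      -(τ * Nat.card Ω) ≤ ∑ ω : Ω, b x (Function.update u z ω) * (h ω - p))
    {η : ℝ} (hη : 0 < η) :
    (Nat.card {u : X → Ω // η * Nat.card X <
      ∑ x : X, (h (u x) - p) - 2 * ∑ x : X, b x u * (h (u x) - p)} : ℝ) ≤
      (36 / (η ^ 2 * √(Nat.card X)) + 32 * τ / η ^ 2) * Nat.card (X → Ω) := by
  set N : ℝ := (Nat.card X : ℝ) with hN
  have hN1 : (1 : ℝ) ≤ N := by
    rw [hN]
    exact_mod_cast Nat.card_pos (α := X)
  have hN0 : 0 < N := by linarith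
  set K : ℝ := (Nat.card (X → Ω) : ℝ) with hK
  have hK0 : 0 ≤ K := by rw [hK]; positivity
  have hηN : 0 < η * N := mul_pos hη hN0
  have hV : ∑ u : X → Ω, (∑ x : X, (h (u x) - p)) ^ 2 ≤ N * K := by
    have h2 := var_le (X := X) (Ω := Ω) h0 h1 hp0 hp1 hp Finset.univ
    rwa [Finset.card_univ, ← Nat.card_eq_fintype_card] at h2
  have hM : ∑ u : X → Ω, (∑ x : X, b x u * (h (u x) - p)) ^ 2 ≤
      (N + N * √N + 2 * N ^ 2 * τ) * K := moment_le h0 h1 hp0 hp1 hp b0 b1 hb hτ0 hτ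
  have hcard : (Nat.card {u : X → Ω // η * N <
      ∑ x : X, (h (u x) - p) - 2 * ∑ x : X, b x u * (h (u x) - p)} : ℝ) =
      ∑ u : X → Ω, if η * N < ∑ x : X, (h (u x) - p) - 2 * ∑ x : X, b x u * (h (u x) - p)
        then (1 : ℝ) else 0 := by
    rw [Nat.card_eq_fintype_card, Fintype.card_subtype, Finset.card_filter]
    push_cast
    rfl
  rw [hcard]
  have hpt : ∀ u : X → Ω, (if η * N < ∑ x : X, (h (u x) - p) - 2 * ∑ x : X, b x u * (h (u x) - p)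
        then (1 : ℝ) else 0) ≤ 4 / (η * N) ^ 2 * (∑ x : X, (h (u x) - p)) ^ 2 +
        16 / (η * N) ^ 2 * (∑ x : X, b x u * (h (u x) - p)) ^ 2 := by
    intro u
    split_ifs with hu
    · set D := ∑ x : X, (h (u x) - p) with hD
      set Z := ∑ x : X, b x u * (h (u x) - p) with hZ
      have e : 4 / (η * N) ^ 2 * D ^ 2 + 16 / (η * N) ^ 2 * Z ^ 2 =
          (4 * D ^ 2 + 16 * Z ^ 2) / (η * N) ^ 2 := by ring
      rw [e, le_div_iff₀ (by positivity), one_mul]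
      rcases le_or_gt (η * N / 2) D with h3 | h3
      · have h4 : (η * N / 2) ^ 2 ≤ D ^ 2 := by
          apply pow_le_pow_left₀ (by positivity) h3
        nlinarith [sq_nonneg Z]
      · have h5 : η * N / 4 ≤ -Z := by linarith
        have h6 : (η * N / 4) ^ 2 ≤ (-Z) ^ 2 := pow_le_pow_left₀ (by positivity) h5 2
        nlinarith [sq_nonneg D]
    · positivity
  refine (Finset.sum_le_sum fun u _ => hpt u).trans ?_
  rw [Finset.sum_add_distrib, ← Finset.mul_sum, ← Finset.mul_sum]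
  have h7 : 4 / (η * N) ^ 2 * ∑ u : X → Ω, (∑ x : X, (h (u x) - p)) ^ 2 ≤
      4 / (η * N) ^ 2 * (N * K) := mul_le_mul_of_nonneg_left hV (by positivity)
  have h8 : 16 / (η * N) ^ 2 * ∑ u : X → Ω, (∑ x : X, b x u * (h (u x) - p)) ^ 2 ≤
      16 / (η * N) ^ 2 * ((N + N * √N + 2 * N ^ 2 * τ) * K) :=
    mul_le_mul_of_nonneg_left hM (by positivity)
  refine (add_le_add h7 h8).trans ?_
  have hs1 : 1 ≤ √N := by
    rw [← Real.sqrt_one]
    exact Real.sqrt_le_sqrt hN1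
  have hs0 : 0 < √N := by linarith
  have hsN : √N * √N = N := Real.mul_self_sqrt hN0.le
  have e2 : 4 / (η * N) ^ 2 * (N * K) + 16 / (η * N) ^ 2 * ((N + N * √N + 2 * N ^ 2 * τ) * K) =
      ((20 + 16 * √N) / (η ^ 2 * N) + 32 * τ / η ^ 2) * K := by
    field_simp
    ring
  rw [e2]
  refine mul_le_mul_of_nonneg_right ?_ hK0
  have e3 : (20 + 16 * √N) / (η ^ 2 * N) ≤ 36 / (η ^ 2 * √N) := by
    rw [div_le_div_iff₀ (by positivity) (by positivity)]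
    have h9 : (20 + 16 * √N) * √N ≤ 36 * N := by nlinarith
    calc (20 + 16 * √N) * (η ^ 2 * √N) = η ^ 2 * ((20 + 16 * √N) * √N) := by ring
      _ ≤ η ^ 2 * (36 * N) := mul_le_mul_of_nonneg_left h9 (by positivity)
      _ = 36 * (η ^ 2 * N) := by ring
  linarith

end Pool.Agent.LibRV74
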