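import Pool.Agent.LibRV74.Z0

/-!
[RV74 C0] The number of families with a hit in a given set.

`card_hit`: union bound over `g ∈ S`; for one `g` the number of `ω` with `ω g = top` is
`card (W → A) / card A` (the map `ω ↦ (update ω g a)_a`; or `#{ω | ω g = a}` does not depend on `a`
and the sum over `a` is `card (W → A)`).
`sum_hh`: the number of `ω` without a hit is `(card A - 1) ^ card W` (functions to `{a // a ≠ top}`).
-/

namespace Pool.Agent.LibRV74

variable {W A : Type} [Fintype W] [Fintype A]

open Classical in
private theorem C0_one (top : A) (g : W) :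
    ((Finset.univ.filter fun ω : W → A => ω g = top).card : ℝ) =
      (Fintype.card (W → A) : ℝ) / Fintype.card A := by
  have hA : (Fintype.card A : ℝ) ≠ 0 := by
    have : 0 < Fintype.card A := Fintype.card_pos_iff.2 ⟨top⟩
    exact_mod_cast this.ne'
  let e : {ω : W → A // ω g = top} × A ≃ (W → A) :=
    { toFun := fun p => Function.update p.1.1 g p.2
      invFun := fun f => (⟨Function.update f g top, by simp⟩, f g)
      left_inv := by
        rintro ⟨⟨ω, hω⟩, a⟩
        refine Prod.ext (Subtype.ext ?_) ?_
        · show Function.update (Function.update ω g a) g top = ω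
          rw [Function.update_idem, ← hω, Function.update_eq_self]
        · show Function.update ω g a g = a
          simp
      right_inv := by
        intro f
        show Function.update (Function.update f g top) g (f g) = f
        rw [Function.update_idem, Function.update_eq_self] }
  have h1 := Fintype.card_congr e
  rw [Fintype.card_prod, Fintype.card_subtype] at h1
  rw [eq_div_iff hA]
  exact_mod_cast h1

theorem card_hit (top : A) (S : Finset W) :
    (Nat.card {ω : W → A // ∃ g ∈ S, ω g = top} : ℝ) ≤
      S.card / Nat.card A * Nat.card (W → A) := by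
  classical
  rw [Nat.card_eq_fintype_card, Nat.card_eq_fintype_card, Nat.card_eq_fintype_card,
    Fintype.card_subtype]
  have h1 : (Finset.univ.filter fun ω : W → A => ∃ g ∈ S, ω g = top) =
      S.biUnion fun g => Finset.univ.filter fun ω => ω g = top := by
    ext ω
    simp
  rw [h1]
  calc ((S.biUnion fun g => Finset.univ.filter fun ω : W → A => ω g = top).card : ℝ)
      ≤ ((∑ g ∈ S, (Finset.univ.filter fun ω : W → A => ω g = top).card : ℕ) : ℝ) := by
        exact_mod_cast Finset.card_biUnion_le
    _ = S.card * ((Fintype.card (W → A) : ℝ) / Fintype.card A) := by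
        push_cast
        rw [Finset.sum_congr rfl (fun g _ => C0_one top g), Finset.sum_const, nsmul_eq_mul]
    _ = S.card / Fintype.card A * Fintype.card (W → A) := by ring

open Classical in
theorem sum_hh (top : A) : ∑ ω : W → A, hh top ω =
    (1 - (1 - 1 / (Nat.card A : ℝ)) ^ Nat.card W) * Nat.card (W → A) := by
  have hA : (Fintype.card A : ℝ) ≠ 0 := by
    have : 0 < Fintype.card A := Fintype.card_pos_iff.2 ⟨top⟩
    exact_mod_cast this.ne'
  have hA1 : 1 ≤ Fintype.card A := Fintype.card_pos_iff.2 ⟨top⟩
  have h1 : ∑ ω : W → A, hh top ω =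
      ((Finset.univ.filter fun ω : W → A => ∃ g, ω g = top).card : ℝ) := by
    rw [Finset.card_filter]
    push_cast
    refine Finset.sum_congr rfl fun ω _ => ?_
    unfold hh
    by_cases h : ∃ g, ω g = top
    · rw [if_pos h, if_pos h]
    · rw [if_neg h, if_neg h]
  have h2 : (Finset.univ.filter fun ω : W → A => ∃ g, ω g = top).card +
      (Finset.univ.filter fun ω : W → A => ¬ ∃ g, ω g = top).card = Fintype.card (W → A) := by
    rw [Finset.card_filter_add_card_filter_not]
    exact Finset.card_univ
  let e : {ω : W → A // ¬ ∃ g, ω g = top} ≃ (W → {a : A // a ≠ top}) :=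
    { toFun := fun p g => ⟨p.1 g, fun h => p.2 ⟨g, h⟩⟩
      invFun := fun f => ⟨fun g => (f g).1, fun ⟨g, h⟩ => (f g).2 h⟩
      left_inv := fun _ => rfl
      right_inv := fun _ => rfl }
  have h3 := Fintype.card_congr e
  rw [Fintype.card_subtype, Fintype.card_fun, Fintype.card_subtype_compl,
    Fintype.card_subtype_eq] at h3
  have h4 : ((Fintype.card A - 1 : ℕ) : ℝ) = Fintype.card A - 1 := by
    push_cast [hA1]
    ring
  rw [h1, Nat.card_eq_fintype_card, Nat.card_eq_fintype_card, Nat.card_eq_fintype_card]
  have h5 : (1 - 1 / (Fintype.card A : ℝ)) ^ Fintype.card W * Fintype.card (W → A) =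
      ((Fintype.card A - 1 : ℕ) : ℝ) ^ Fintype.card W := by
    rw [h4, Fintype.card_fun]
    push_cast
    rw [← mul_pow]
    congr 1
    field_simp
  have h6 : ((Finset.univ.filter fun ω : W → A => ∃ g, ω g = top).card : ℝ) +
      ((Finset.univ.filter fun ω : W → A => ¬ ∃ g, ω g = top).card : ℝ) =
      Fintype.card (W → A) := by exact_mod_cast h2
  rw [h3] at h6
  push_cast at h6 h5
  rw [sub_mul, one_mul, h5]
  linarith

end Pool.Agent.LibRV74
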