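import Pool.Agent.LibRV74.Z0

/-!
[RV74 C1] It suffices to bound the probability for each background `w`.

Double counting. Let `V = {w // ∀ x g, w x g ≠ top}` (nonempty, as `A` has an element different from
`top`). The map `(u, w) ↦ (mix top u w, fun x g => if u x g = top then w x g else u x g)` is an involution of
`(X → W → A) × V`. So `∑ w : V, #{u // P (mix top u w)} = #{f // P f} * card V`; the left side is
`≤ card V * (β * card)`. Divide by `card V > 0`.
-/

namespace Pool.Agent.LibRV74

private theorem C1_equiv {X W A : Type} (top : A) :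
    ∃ e : ({w : X → W → A // ∀ x g, w x g ≠ top} × (X → W → A)) ≃
      ({w : X → W → A // ∀ x g, w x g ≠ top} × (X → W → A)),
      ∀ p, (e p).2 = mix top p.2 p.1.1 := by
  classical
  obtain ⟨F, hF1, hF2⟩ : ∃ F : ({w : X → W → A // ∀ x g, w x g ≠ top} × (X → W → A)) →
      ({w : X → W → A // ∀ x g, w x g ≠ top} × (X → W → A)),
      (∀ p x g, (F p).1.1 x g = if p.2 x g = top then p.1.1 x g else p.2 x g) ∧
      ∀ p x g, (F p).2 x g = if p.2 x g = top then top else p.1.1 x g := by
    refine ⟨fun p => (⟨fun x g => if p.2 x g = top then p.1.1 x g else p.2 x g, ?_⟩,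
      fun x g => if p.2 x g = top then top else p.1.1 x g), fun p x g => rfl, fun p x g => rfl⟩
    intro x g
    by_cases h : p.2 x g = top
    · simp only [h, if_true]
      exact p.1.2 x g
    · simp only [h, if_false]
      exact h
  have hinv : Function.Involutive F := by
    intro p
    refine Prod.ext (Subtype.ext ?_) ?_
    · funext x g
      rw [hF1, hF2, hF1]
      have h1 := p.1.2 x g
      by_cases h : p.2 x g = top
      · simp only [h, if_true]
      · simp only [h, if_false, h1]
    · funext x g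
      rw [hF2, hF2, hF1]
      have h1 := p.1.2 x g
      by_cases h : p.2 x g = top
      · simp only [h, if_true]
      · simp only [h, if_false, h1]
  refine ⟨hinv.toPerm, fun p => ?_⟩
  funext x g
  show (F p).2 x g = mix top p.2 p.1.1 x g
  rw [hF2]
  unfold mix
  by_cases h : p.2 x g = top
  · simp only [h, if_true]
  · simp only [h, if_false]

private theorem C1_count {X W A : Type} [Finite X] [Finite W] [Finite A] (top : A)
    [Fintype {w : X → W → A // ∀ x g, w x g ≠ top}] (P : (X → W → A) → Prop) :
    ∑ w : {w : X → W → A // ∀ x g, w x g ≠ top}, Nat.card {u : X → W → A // P (mix top u w.1)} =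
      ∑ _w : {w : X → W → A // ∀ x g, w x g ≠ top}, Nat.card {f : X → W → A // P f} := by
  obtain ⟨e, he⟩ := C1_equiv (X := X) (W := W) top
  rw [← Nat.card_sigma, ← Nat.card_sigma]
  have h1 : Nat.card ((w : {w : X → W → A // ∀ x g, w x g ≠ top}) ×
      {u : X → W → A // P (mix top u w.1)}) =
      Nat.card {p : {w : X → W → A // ∀ x g, w x g ≠ top} × (X → W → A) //
        P (mix top p.2 p.1.1)} :=
    Nat.card_congr (Equiv.subtypeProdEquivSigmaSubtype
      (fun (w : {w : X → W → A // ∀ x g, w x g ≠ top}) (u : X → W → A) =>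
        P (mix top u w.1))).symm
  have h2 : Nat.card ((_w : {w : X → W → A // ∀ x g, w x g ≠ top}) ×
      {f : X → W → A // P f}) =
      Nat.card {p : {w : X → W → A // ∀ x g, w x g ≠ top} × (X → W → A) // P p.2} :=
    Nat.card_congr (Equiv.subtypeProdEquivSigmaSubtype
      (fun (_w : {w : X → W → A // ∀ x g, w x g ≠ top}) (f : X → W → A) => P f)).symm
  rw [h1, h2]
  exact Nat.card_congr (e.subtypeEquiv fun p => by rw [he])

theorem bg_le {X W A : Type} [Finite X] [Finite W] [Finite A] {top : A} (hA : 2 ≤ Nat.card A)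
    {P : (X → W → A) → Prop} {β : ℝ}
    (h : ∀ w : X → W → A, (∀ x g, w x g ≠ top) →
      (Nat.card {u : X → W → A // P (mix top u w)} : ℝ) ≤ β * Nat.card (X → W → A)) :
    (Nat.card {f : X → W → A // P f} : ℝ) ≤ β * Nat.card (X → W → A) := by
  have : Fintype {w : X → W → A // ∀ x g, w x g ≠ top} := Fintype.ofFinite _
  have hnt : Nontrivial A := Finite.one_lt_card_iff_nontrivial.1 (by omega)
  obtain ⟨a0, ha0⟩ := exists_ne top
  have hV : 0 < Fintype.card {w : X → W → A // ∀ x g, w x g ≠ top} :=
    Fintype.card_pos_iff.2 ⟨⟨fun _ _ => a0, fun _ _ => ha0⟩⟩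
  have hV' : (0 : ℝ) < Fintype.card {w : X → W → A // ∀ x g, w x g ≠ top} := by exact_mod_cast hV
  have h1 := C1_count top P
  have h2 : (∑ w : {w : X → W → A // ∀ x g, w x g ≠ top},
      (Nat.card {u : X → W → A // P (mix top u w.1)} : ℝ)) =
      ∑ _w : {w : X → W → A // ∀ x g, w x g ≠ top}, (Nat.card {f : X → W → A // P f} : ℝ) := by
    exact_mod_cast h1
  have h3 : (∑ w : {w : X → W → A // ∀ x g, w x g ≠ top},
      (Nat.card {u : X → W → A // P (mix top u w.1)} : ℝ)) ≤
      ∑ _w : {w : X → W → A // ∀ x g, w x g ≠ top}, β * (Nat.card (X → W → A) : ℝ) :=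
    Finset.sum_le_sum fun w _ => h w.1 w.2
  rw [h2, Finset.sum_const, Finset.sum_const, Finset.card_univ, nsmul_eq_mul, nsmul_eq_mul] at h3
  exact le_of_mul_le_mul_left h3 hV'

end Pool.Agent.LibRV74
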