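import Pool.Agent.LibRV74.C0

/-!
[RV74 C2] Almost positive covariance.

`β ω = bb top a0 acc w x (update u z ω)` and `ω0 = fun _ => a0` (no hit). `bb_upd`: `update_idem`.
Case `β ω0 = 0`: if `ω` has no hit then `mix` has the same value for `ω` and `ω0` (`z ≠ x`), so `β ω = 0`;
if it has one, `β ω * (1 - p) ≥ 0`. So the sum is `≥ 0`.
Case `β ω0 = 1`: `acc` holds for `f0 = mix top (update (update u z ω0) x a0) w`, let `C` be as in `Loc`,
`S = {g | (z, g) ∈ C}` (`S.card ≤ T`). If `ω` has no hit in `S`, then the family for `ω` agrees with `f0`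
on `C`, so `β ω = 1`. Hence the sum is `∑ (hh ω - p) - ∑_{β ω = 0} (hh ω - p) ≥ 0 - #{ω | hit in S}`
(`|hh - p| ≤ 1`), and `card_hit`.
-/

namespace Pool.Agent.LibRV74

variable {X W A : Type} [Fintype X] [Fintype W] [Fintype A]

open Classical in
theorem bb_upd (top a0 : A) (acc : X → (X → W → A) → Prop) (w : X → W → A) (x : X)
    (u : X → W → A) (ω : W → A) :
    bb top a0 acc w x (Function.update u x ω) = bb top a0 acc w x u := by
  unfold bb
  rw [Function.update_idem]

open Classical in
private theorem C2_mix {top a0 : A} (h0 : a0 ≠ top) (w : X → W → A) {x z : X} (hxz : x ≠ z)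
    (u : X → W → A) (ω : W → A) (y : X) (g : W) (h : y = z → ω g ≠ top) :
    mix top (Function.update (Function.update u z ω) x fun _ => a0) w y g =
      mix top (Function.update (Function.update u z fun _ => a0) x fun _ => a0) w y g := by
  unfold mix
  by_cases hy : y = x
  · subst hy
    simp [Function.update_self]
  · rw [Function.update_of_ne hy, Function.update_of_ne hy]
    by_cases hz : y = z
    · subst hz
      rw [Function.update_self, Function.update_self, if_neg (h rfl), if_neg h0]
    · rw [Function.update_of_ne hz, Function.update_of_ne hz]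

open Classical in
theorem cov_ge {top a0 : A} (h0 : a0 ≠ top) {T : ℕ} {acc : X → (X → W → A) → Prop}
    (hL : Loc T acc) {w : X → W → A} (hw : ∀ x g, w x g ≠ top) {p : ℝ} (hp0 : 0 ≤ p) (hp1 : p ≤ 1)
    (hp : ∑ ω : W → A, hh top ω = p * Nat.card (W → A)) {x z : X} (hxz : x ≠ z)
    (u : X → W → A) :
    -((T / Nat.card A : ℝ) * Nat.card (W → A)) ≤
      ∑ ω : W → A, bb top a0 acc w x (Function.update u z ω) * (hh top ω - p) := by
  have hN : (0 : ℝ) ≤ Nat.card (W → A) := Nat.cast_nonneg _
  by_cases hb : acc x (mix top (Function.update (Function.update u z fun _ => a0) x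
      fun _ => a0) w)
  · obtain ⟨C, hCT, hC⟩ := hL x _ hb
    set S : Finset W := (C.filter fun q => q.1 = z).image Prod.snd with hS
    have hST : S.card ≤ T :=
      (Finset.card_image_le.trans (Finset.card_filter_le _ _)).trans hCT
    have hβ : ∀ ω : W → A, (¬ ∃ g ∈ S, ω g = top) →
        bb top a0 acc w x (Function.update u z ω) = 1 := by
      intro ω hω
      unfold bb
      rw [if_pos]
      refine hC _ fun q hq => ?_
      refine C2_mix h0 w hxz u ω q.1 q.2 fun hqz => ?_
      intro htop
      refine hω ⟨q.2, ?_, htop⟩
      rw [hS, Finset.mem_image]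
      exact ⟨q, Finset.mem_filter.2 ⟨hq, hqz⟩, rfl⟩
    have hpt : ∀ ω : W → A, (hh top ω - p) - (if ∃ g ∈ S, ω g = top then (1 : ℝ) else 0) ≤
        bb top a0 acc w x (Function.update u z ω) * (hh top ω - p) := by
      intro ω
      by_cases hω : ∃ g ∈ S, ω g = top
      · have h1 : hh top ω = 1 := by
          unfold hh
          rw [if_pos]
          obtain ⟨g, _, hg⟩ := hω
          exact ⟨g, hg⟩
        rw [if_pos hω, h1]
        have h2 : 0 ≤ bb top a0 acc w x (Function.update u z ω) := by
          unfold bb
          split_ifs <;> norm_num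
        have h3 := mul_nonneg h2 (sub_nonneg.2 hp1)
        linarith
      · rw [if_neg hω, hβ ω hω]
        linarith
    have hsum := Finset.sum_le_sum fun ω (_ : ω ∈ (Finset.univ : Finset (W → A))) => hpt ω
    rw [Finset.sum_sub_distrib, Finset.sum_sub_distrib, hp, Finset.sum_const, Finset.card_univ,
      nsmul_eq_mul, ← Nat.card_eq_fintype_card, mul_comm p, sub_self, zero_sub] at hsum
    refine le_trans (neg_le_neg ?_) hsum
    have h4 : ∑ ω : W → A, (if ∃ g ∈ S, ω g = top then (1 : ℝ) else 0) =
        Nat.card {ω : W → A // ∃ g ∈ S, ω g = top} := by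
      rw [Finset.sum_boole, Nat.card_eq_fintype_card, Fintype.card_subtype]
    rw [h4]
    refine (card_hit top S).trans ?_
    gcongr
  · have h1 : 0 ≤ ∑ ω : W → A, bb top a0 acc w x (Function.update u z ω) * (hh top ω - p) := by
      refine Finset.sum_nonneg fun ω _ => ?_
      by_cases hω : ∃ g, ω g = top
      · have h1 : hh top ω = 1 := by
          unfold hh
          rw [if_pos hω]
        rw [h1]
        have h2 : 0 ≤ bb top a0 acc w x (Function.update u z ω) := by
          unfold bb
          split_ifs <;> norm_num
        exact mul_nonneg h2 (sub_nonneg.2 hp1)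
      · have h2 : bb top a0 acc w x (Function.update u z ω) = 0 := by
          unfold bb
          rw [if_neg]
          intro hacc
          apply hb
          have h3 : mix top (Function.update (Function.update u z ω) x fun _ => a0) w =
              mix top (Function.update (Function.update u z fun _ => a0) x fun _ => a0) w := by
            funext y g
            exact C2_mix h0 w hxz u ω y g fun _ htop => hω ⟨g, htop⟩
          rwa [h3] at hacc
        rw [h2, zero_mul]
    refine le_trans ?_ h1
    have h5 : (0 : ℝ) ≤ T / Nat.card A * Nat.card (W → A) := by positivity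
    linarith

end Pool.Agent.LibRV74
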