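import Pool.Agent.LibRV74.Z0

/-!
[RV74 C3] The number of errors without a collision.

Write `X_x = hh top (u x)`, `b_x = bb top a0 acc w x u`. `(∃ g, mix top u w x g = top) ↔ ∃ g, u x g = top`.
For each `x`: `X_x b_x + (1 - X_x) (1 - b_x) ≤ [x is counted]`: if `X_x = b_x = 1` then `acc x (mix top u w)`
since there is no collision; if `X_x = b_x = 0` then `mix top (update u x a0) w = mix top u w`, so not
`acc x (mix top u w)`. Sum over `x`: the left side is
`(1 - p) + b_x (2 p - 1) - (X_x - p) + 2 b_x (X_x - p)`, and `(1 - p) + b (2 p - 1) ≥ min p (1 - p)`.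
-/

namespace Pool.Agent.LibRV74

variable {X W A : Type} [Fintype X] [Fintype W] [Fintype A]

theorem err_ge {top a0 : A} (h0 : a0 ≠ top) {acc : X → (X → W → A) → Prop}
    {w : X → W → A} (hw : ∀ x g, w x g ≠ top) {p : ℝ} {u : X → W → A}
    (hc : ¬ Coll top a0 acc w u) :
    Nat.card X * min p (1 - p) - (∑ x : X, (hh top (u x) - p) -
        2 * ∑ x : X, bb top a0 acc w x u * (hh top (u x) - p)) ≤
      Nat.card {x : X // (∃ g, mix top u w x g = top) ↔ acc x (mix top u w)} := by
  classical
  have hmix : ∀ x : X, (∃ g, mix top u w x g = top) ↔ ∃ g, u x g = top := by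
    intro x
    constructor
    · rintro ⟨g, hg⟩
      refine ⟨g, ?_⟩
      by_contra hne
      unfold mix at hg
      rw [if_neg hne] at hg
      exact hw x g hg
    · rintro ⟨g, hg⟩
      refine ⟨g, ?_⟩
      unfold mix
      rw [if_pos hg]
  have key : ∀ x : X, min p (1 - p) - (hh top (u x) - p) +
      2 * (bb top a0 acc w x u * (hh top (u x) - p)) ≤
        if ((∃ g, mix top u w x g = top) ↔ acc x (mix top u w)) then (1 : ℝ) else 0 := by
    intro x
    have h1 : min p (1 - p) ≤ p := min_le_left _ _
    have h2 : min p (1 - p) ≤ 1 - p := min_le_right _ _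
    have hge : (0 : ℝ) ≤ if ((∃ g, mix top u w x g = top) ↔ acc x (mix top u w))
        then (1 : ℝ) else 0 := by
      split_ifs <;> norm_num
    by_cases hX : ∃ g, u x g = top
    · have e1 : hh top (u x) = 1 := by
        unfold hh
        rw [if_pos hX]
      by_cases hb : acc x (mix top (Function.update u x fun _ => a0) w)
      · have e2 : bb top a0 acc w x u = 1 := by
          unfold bb
          rw [if_pos hb]
        have h3 : acc x (mix top u w) := by
          by_contra h4
          exact hc ⟨x, hb, h4⟩
        rw [if_pos (iff_of_true ((hmix x).2 hX) h3), e1, e2]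
        linarith
      · have e2 : bb top a0 acc w x u = 0 := by
          unfold bb
          rw [if_neg hb]
        rw [e1, e2]
        linarith
    · have e1 : hh top (u x) = 0 := by
        unfold hh
        rw [if_neg hX]
      by_cases hb : acc x (mix top (Function.update u x fun _ => a0) w)
      · have e2 : bb top a0 acc w x u = 1 := by
          unfold bb
          rw [if_pos hb]
        rw [e1, e2]
        linarith
      · have e2 : bb top a0 acc w x u = 0 := by
          unfold bb
          rw [if_neg hb]
        have e3 : mix top (Function.update u x fun _ => a0) w = mix top u w := by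
          funext y g
          unfold mix
          by_cases hy : y = x
          · subst hy
            have h5 : u y g ≠ top := fun h => hX ⟨g, h⟩
            rw [Function.update_self, if_neg h0, if_neg h5]
          · rw [Function.update_of_ne hy]
        have h3 : ¬ acc x (mix top u w) := by
          rw [← e3]
          exact hb
        rw [if_pos (iff_of_false (fun h => hX ((hmix x).1 h)) h3), e1, e2]
        linarith
  have hcard : ((Nat.card {x : X // (∃ g, mix top u w x g = top) ↔ acc x (mix top u w)} : ℕ) : ℝ) =
      ∑ x : X, if ((∃ g, mix top u w x g = top) ↔ acc x (mix top u w)) then (1 : ℝ) else 0 := by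
    rw [Nat.card_eq_fintype_card, Fintype.card_subtype, Finset.card_filter]
    push_cast
    rfl
  rw [hcard]
  have hsum := Finset.sum_le_sum fun x (_ : x ∈ (Finset.univ : Finset X)) => key x
  rw [Finset.sum_add_distrib, Finset.sum_sub_distrib, ← Finset.mul_sum, Finset.sum_const,
    Finset.card_univ, nsmul_eq_mul] at hsum
  rw [Nat.card_eq_fintype_card]
  linarith

end Pool.Agent.LibRV74
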