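import Pool.Agent.LibRV74.B0
import Pool.Agent.LibRV74.C0

/-!
[RV74 C5] Collisions are rare.

Union bound over `x`. For fixed `x` and `u`: let `f0 = mix top (update u x a0) w`; if `acc x f0`, let `C` be
as in `Loc` and `S = {g | (x, g) ∈ C}`; if `ω` has no hit in `S`, then `mix top (update u x ω) w`
agrees with `f0` on `C`, so `acc x` holds there. So for each `u` at most `#{ω | hit in S} ≤ T / card A * card (W → A)`
of the `update u x ω` are in the event for `x` (`card_hit`); `resample x` for the indicator of the event
(the family `update (update u x ω) x a0 = update u x a0`).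
-/

namespace Pool.Agent.LibRV74

variable {X W A : Type} [Fintype X] [Fintype W] [Fintype A]

open Classical in
/-- The event for `x`. -/
private def C5_E (top a0 : A) (acc : X → (X → W → A) → Prop) (w : X → W → A) (x : X)
    (u : X → W → A) : Prop :=
  acc x (mix top (Function.update u x fun _ => a0) w) ∧ ¬ acc x (mix top u w)

omit [Fintype X] in
open Classical in
/-- The event after resampling: a hit in a small set is needed. -/
private theorem C5_fibre {top a0 : A} (h0 : a0 ≠ top) {T : ℕ} {acc : X → (X → W → A) → Prop}
    (hL : Loc T acc) (w : X → W → A) (x : X) (u : X → W → A) :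
    (∑ ω : W → A, if C5_E top a0 acc w x (Function.update u x ω) then (1 : ℝ) else 0) ≤
      T / Nat.card A * Nat.card (W → A) := by
  rw [← Finset.sum_filter, Finset.sum_const, nsmul_eq_mul, mul_one]
  by_cases hacc : acc x (mix top (Function.update u x fun _ => a0) w)
  · obtain ⟨C, hCT, hC⟩ := hL x _ hacc
    set S : Finset W := (C.filter fun q => q.1 = x).image Prod.snd with hS
    have hST : S.card ≤ T := (Finset.card_image_le.trans (Finset.card_filter_le _ _)).trans hCT
    have hsub : (Finset.univ.filter fun ω : W → A => C5_E top a0 acc w x (Function.update u x ω)) ⊆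
        Finset.univ.filter fun ω : W → A => ∃ g ∈ S, ω g = top := by
      intro ω hω
      rw [Finset.mem_filter] at hω ⊢
      refine ⟨Finset.mem_univ _, ?_⟩
      by_contra hcon
      push Not at hcon
      refine hω.2.2 (hC _ fun q hq => ?_)
      by_cases hqx : q.1 = x
      · have hqS : q.2 ∈ S := Finset.mem_image.2 ⟨q, Finset.mem_filter.2 ⟨hq, hqx⟩, rfl⟩
        have h1 := hcon q.2 hqS
        unfold mix
        rw [hqx, Function.update_self, Function.update_self, if_neg h1, if_neg h0]
      · unfold mix
        rw [Function.update_of_ne hqx, Function.update_of_ne hqx]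
    have h2 := card_hit top S
    rw [Nat.card_eq_fintype_card, Fintype.card_subtype] at h2
    calc ((Finset.univ.filter fun ω : W → A => C5_E top a0 acc w x (Function.update u x ω)).card : ℝ)
        ≤ ((Finset.univ.filter fun ω : W → A => ∃ g ∈ S, ω g = top).card : ℝ) := by
          exact_mod_cast Finset.card_le_card hsub
      _ ≤ S.card / Nat.card A * Nat.card (W → A) := h2
      _ ≤ T / Nat.card A * Nat.card (W → A) := by
          have : (S.card : ℝ) ≤ T := by exact_mod_cast hST
          gcongr
  · have hempty : (Finset.univ.filter fun ω : W → A =>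
        C5_E top a0 acc w x (Function.update u x ω)) = ∅ := by
      rw [Finset.filter_eq_empty_iff]
      rintro ω - ⟨h1, -⟩
      rw [Function.update_idem] at h1
      exact hacc h1
    rw [hempty, Finset.card_empty, Nat.cast_zero]
    positivity

open Classical in
/-- The event for one `x` is rare. -/
private theorem C5_one {top a0 : A} (h0 : a0 ≠ top) {T : ℕ} {acc : X → (X → W → A) → Prop}
    (hL : Loc T acc) (w : X → W → A) (x : X) :
    (∑ u : X → W → A, if C5_E top a0 acc w x u then (1 : ℝ) else 0) ≤
      T / Nat.card A * Nat.card (X → W → A) := by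
  have h1 := resample (Ω := W → A) x (fun u => if C5_E top a0 acc w x u then (1 : ℝ) else 0)
  have h2 : (∑ u : X → W → A, ∑ ω : W → A,
      if C5_E top a0 acc w x (Function.update u x ω) then (1 : ℝ) else 0) ≤
      ∑ _u : X → W → A, (T / Nat.card A * Nat.card (W → A) : ℝ) :=
    Finset.sum_le_sum fun u _ => C5_fibre h0 hL w x u
  rw [Finset.sum_const, nsmul_eq_mul, Finset.card_univ, ← Nat.card_eq_fintype_card] at h2
  haveI : Nonempty (W → A) := ⟨fun _ => a0⟩
  have hpos : 0 < (Nat.card (W → A) : ℝ) := by exact_mod_cast Nat.card_pos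
  have h3 : (Nat.card (W → A) : ℝ) * (∑ u : X → W → A, if C5_E top a0 acc w x u then (1 : ℝ) else 0) ≤
      (Nat.card (W → A) : ℝ) * (T / Nat.card A * Nat.card (X → W → A)) := by
    rw [h1]
    refine h2.trans (le_of_eq ?_)
    ring
  exact le_of_mul_le_mul_left h3 hpos

theorem coll_le {top a0 : A} (h0 : a0 ≠ top) {T : ℕ} {acc : X → (X → W → A) → Prop}
    (hL : Loc T acc) {w : X → W → A} (hw : ∀ x g, w x g ≠ top) :
    (Nat.card {u : X → W → A // Coll top a0 acc w u} : ℝ) ≤
      Nat.card X * (T / Nat.card A) * Nat.card (X → W → A) := by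
  classical
  have h1 : (Nat.card {u : X → W → A // Coll top a0 acc w u} : ℝ) =
      ∑ u : X → W → A, if Coll top a0 acc w u then (1 : ℝ) else 0 := by
    rw [← Finset.sum_filter, Finset.sum_const, nsmul_eq_mul, mul_one, Nat.card_eq_fintype_card,
      Fintype.card_subtype]
  have h2 : ∀ u : X → W → A, (if Coll top a0 acc w u then (1 : ℝ) else 0) ≤
      ∑ x : X, if C5_E top a0 acc w x u then (1 : ℝ) else 0 := by
    intro u
    by_cases hc : Coll top a0 acc w u
    · rw [if_pos hc]
      obtain ⟨x, hx⟩ := hc
      have h3 : (if C5_E top a0 acc w x u then (1 : ℝ) else 0) = 1 := if_pos hx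
      exact h3.symm.le.trans
        (Finset.single_le_sum (f := fun x : X => if C5_E top a0 acc w x u then (1 : ℝ) else 0)
          (fun y _ => by split_ifs <;> norm_num) (Finset.mem_univ x))
    · rw [if_neg hc]
      exact Finset.sum_nonneg fun y _ => by split_ifs <;> norm_num
  rw [h1]
  calc (∑ u : X → W → A, if Coll top a0 acc w u then (1 : ℝ) else 0)
      ≤ ∑ u : X → W → A, ∑ x : X, if C5_E top a0 acc w x u then (1 : ℝ) else 0 :=
        Finset.sum_le_sum fun u _ => h2 u
    _ = ∑ x : X, ∑ u : X → W → A, if C5_E top a0 acc w x u then (1 : ℝ) else 0 := Finset.sum_comm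
    _ ≤ ∑ _x : X, (T / Nat.card A * Nat.card (X → W → A) : ℝ) :=
        Finset.sum_le_sum fun x _ => C5_one h0 hL w x
    _ = Nat.card X * (T / Nat.card A) * Nat.card (X → W → A) := by
        rw [Finset.sum_const, nsmul_eq_mul, Finset.card_univ, ← Nat.card_eq_fintype_card]
        ring

end Pool.Agent.LibRV74
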