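import Pool.Agent.LibRV74.B4
import Pool.Agent.LibRV74.C1
import Pool.Agent.LibRV74.C2
import Pool.Agent.LibRV74.C3
import Pool.Agent.LibRV74.C5

/-!
[RV74 C4] Few errors are unlikely.

`bg_le`; for a background `w`: by `err_ge`, if the number of errors is `< (min p (1-p) - η) N` then there is a
collision or `η N < D - 2 Z`. `coll_le` and `tail_le` (`Ω = W → A`, `h = hh top`, `b = bb top a0 acc w`,
`τ = T / card A`, `cov_ge`, `bb_upd`, `sum_hh`; `0 ≤ p ≤ 1` as `0 ≤ (1 - 1 / card A) ≤ 1`).
-/

namespace Pool.Agent.LibRV74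

private theorem C4_union {U : Type} [Finite U] (p q r : U → Prop) (h : ∀ u, p u → q u ∨ r u) :
    (Nat.card {u : U // p u} : ℝ) ≤ Nat.card {u : U // q u} + Nat.card {u : U // r u} := by
  classical
  have := Fintype.ofFinite U
  have h1 : Nat.card {u : U // p u} ≤ Nat.card {u : U // q u} + Nat.card {u : U // r u} := by
    rw [Nat.card_eq_fintype_card, Nat.card_eq_fintype_card, Nat.card_eq_fintype_card,
      Fintype.card_subtype, Fintype.card_subtype, Fintype.card_subtype]
    refine (Finset.card_le_card ?_).trans (Finset.card_union_le _ _)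
    intro u hu
    rw [Finset.mem_filter] at hu
    rw [Finset.mem_union, Finset.mem_filter, Finset.mem_filter]
    rcases h u hu.2 with h2 | h2
    · exact Or.inl ⟨Finset.mem_univ _, h2⟩
    · exact Or.inr ⟨Finset.mem_univ _, h2⟩
  exact_mod_cast h1

theorem fin_le {X W A : Type} [Finite X] [Finite W] [Finite A] [Nonempty X] {top : A}
    (hA : 2 ≤ Nat.card A) {T : ℕ} {acc : X → (X → W → A) → Prop} (hL : Loc T acc) {p η : ℝ}
    (hp : p = 1 - (1 - 1 / (Nat.card A : ℝ)) ^ Nat.card W) (hη : 0 < η) :
    (Nat.card {f : X → W → A // (Nat.card {x : X // (∃ g, f x g = top) ↔ acc x f} : ℝ) <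
      (min p (1 - p) - η) * Nat.card X} : ℝ) ≤
      (36 / (η ^ 2 * √(Nat.card X)) + (32 / η ^ 2 + Nat.card X) * (T / Nat.card A)) *
        Nat.card (X → W → A) := by
  classical
  have := Fintype.ofFinite X
  have := Fintype.ofFinite W
  have := Fintype.ofFinite A
  have hA' : (2 : ℝ) ≤ Nat.card A := by exact_mod_cast hA
  have : Nontrivial A := Finite.one_lt_card_iff_nontrivial.mp (by omega)
  have : Nonempty A := ⟨top⟩
  obtain ⟨a0, h0⟩ := exists_ne top
  have hq0 : 0 ≤ 1 - 1 / (Nat.card A : ℝ) := by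
    rw [sub_nonneg, div_le_one (by linarith)]
    linarith
  have hq1 : 1 - 1 / (Nat.card A : ℝ) ≤ 1 := by
    have : 0 ≤ 1 / (Nat.card A : ℝ) := by positivity
    linarith
  have hp0 : 0 ≤ p := by
    rw [hp, sub_nonneg]
    exact pow_le_one₀ hq0 hq1
  have hp1 : p ≤ 1 := by
    rw [hp]
    have := pow_nonneg hq0 (Nat.card W)
    linarith
  have hpp : ∑ ω : W → A, hh top ω = p * Nat.card (W → A) := by
    rw [hp]
    exact sum_hh top
  have hh0 : ∀ ω : W → A, 0 ≤ hh top ω := by
    intro ω
    unfold hh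
    split_ifs <;> norm_num
  have hh1 : ∀ ω : W → A, hh top ω ≤ 1 := by
    intro ω
    unfold hh
    split_ifs <;> norm_num
  refine bg_le (top := top) hA (P := fun f => (Nat.card {x : X // (∃ g, f x g = top) ↔ acc x f} : ℝ) <
      (min p (1 - p) - η) * Nat.card X) ?_
  intro w hw
  have hb0 : ∀ (x : X) (u : X → W → A), 0 ≤ bb top a0 acc w x u := by
    intro x u
    unfold bb
    split_ifs <;> norm_num
  have hb1 : ∀ (x : X) (u : X → W → A), bb top a0 acc w x u ≤ 1 := by
    intro x u
    unfold bb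
    split_ifs <;> norm_num
  have hτ0 : (0 : ℝ) ≤ T / Nat.card A := by positivity
  have h1 := coll_le h0 hL hw
  have h2 := tail_le hh0 hh1 hp0 hp1 hpp hb0 hb1 (fun x u ω => bb_upd top a0 acc w x u ω) hτ0
    (fun x z hxz u => cov_ge h0 hL hw hp0 hp1 hpp hxz u) hη
  have h3 := C4_union (fun u : X → W → A => (Nat.card {x : X // (∃ g, mix top u w x g = top) ↔
      acc x (mix top u w)} : ℝ) < (min p (1 - p) - η) * Nat.card X)
    (fun u => Coll top a0 acc w u)
    (fun u => η * Nat.card X < ∑ x : X, (hh top (u x) - p) -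
      2 * ∑ x : X, bb top a0 acc w x u * (hh top (u x) - p)) (by
      intro u hu
      by_cases hc : Coll top a0 acc w u
      · exact Or.inl hc
      · right
        have h4 := err_ge h0 hw (p := p) hc
        have h5 : Nat.card X * min p (1 - p) - (∑ x : X, (hh top (u x) - p) -
            2 * ∑ x : X, bb top a0 acc w x u * (hh top (u x) - p)) <
            (min p (1 - p) - η) * Nat.card X := lt_of_le_of_lt h4 hu
        have h6 : (min p (1 - p) - η) * Nat.card X =
            Nat.card X * min p (1 - p) - η * Nat.card X := by ring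
        rw [h6] at h5
        linarith)
  refine h3.trans ((add_le_add h1 h2).trans (le_of_eq ?_))
  ring

end Pool.Agent.LibRV74
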