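import Pool.Agent.LibRV74.Z0

/-!
[RV74 E1] The cells and the blocks.

`cell i z y = 1^i 0 z y`: `i` is the number of leading ones, then `z ++ y` with `z` of length `n + (m - n)` and
`y` of length `2^m` (see `io_injective` in LibRO74/F-files: grep). `oA_io`: `Function.Injective.extend_apply`;
`oA_of`: `Function.extend_apply'`. `card_WW`: `WZ T l` is in bijection with `T × Vector Bool (l - s)`
(`z = t ++ z2`, all `t` of length `s ≤ l`), so it has `T.card * 2^(l-s)` elements, `l = m - n`.
-/

namespace Pool.Agent.LibRV74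

open Pool.Agent.LibNexp Pool.Agent.LibBHN Pool.Agent.LibRO74

private theorem E1_cell_inj {i i' : ℕ} {y y' z z' : List Bool} (hz : z.length = z'.length)
    (h : cell i z y = cell i' z' y') : i = i' ∧ z = z' ∧ y = y' := by
  unfold cell at h
  induction i generalizing i' with
  | zero =>
    cases i' with
    | zero =>
      simp only [List.replicate_zero, List.nil_append, List.cons.injEq, true_and] at h
      obtain ⟨h1, h2⟩ := List.append_inj h hz
      exact ⟨rfl, h1, h2⟩
    | succ i' => simp [List.replicate_succ] at h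
  | succ i ih =>
    cases i' with
    | zero => simp [List.replicate_succ] at h
    | succ i' =>
      simp only [List.replicate_succ, List.cons_append, List.cons.injEq, true_and] at h
      obtain ⟨h1, h2, h3⟩ := ih h
      exact ⟨by rw [h1], h2, h3⟩

theorem iA_injective (T : Finset (List Bool)) (m n : ℕ) : Function.Injective (iA T m n) := by
  rintro ⟨⟨x, ⟨z, y⟩⟩, i⟩ ⟨⟨x', ⟨z', y'⟩⟩, i'⟩ h
  unfold iA at h
  obtain ⟨h1, h2, h3⟩ := E1_cell_inj (by
    rw [List.length_append, List.length_append]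
    show x.1.length + z.1.1.length = x'.1.length + z'.1.1.length
    rw [x.2, x'.2, z.1.2, z'.1.2]) h
  obtain ⟨h4, h5⟩ := List.append_inj h2 (by
    show x.1.length = x'.1.length
    rw [x.2, x'.2])
  have e1 : x = x' := Subtype.ext h4
  have e2 : z = z' := Subtype.ext (Subtype.ext h5)
  have e3 : y = y' := Subtype.ext h3
  have e4 : i = i' := Fin.ext (by simpa using h1)
  rw [e1, e2, e3, e4]

theorem oA_io (T : Finset (List Bool)) (m n : ℕ) (f : XX n → WW T m n → CC m n)
    (O : List Bool → Bool) (q : (XX n × WW T m n) × Fin (2 ^ m + (m - n))) :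
    oA T m n f O (iA T m n q) = f q.1.1 q.1.2 q.2 := by
  unfold oA
  rw [(iA_injective T m n).extend_apply]

theorem oA_of {T : Finset (List Bool)} {m n : ℕ} {f : XX n → WW T m n → CC m n}
    {O : List Bool → Bool} {s : List Bool} (h : ∀ q, iA T m n q ≠ s) :
    oA T m n f O s = O s := by
  unfold oA
  rw [Function.extend_apply']
  rintro ⟨q, hq⟩
  exact h q hq

theorem card_CC (m n : ℕ) : Nat.card (CC m n) = 2 ^ (2 ^ m + (m - n)) := by
  rw [Nat.card_eq_fintype_card, Fintype.card_fun, Fintype.card_bool, Fintype.card_fin]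

private theorem E1_vec (l : ℕ) : Nat.card (List.Vector Bool l) = 2 ^ l := by
  rw [Nat.card_eq_fintype_card, card_vector, Fintype.card_bool]

private theorem E1_WZ {T : Finset (List Bool)} {s l : ℕ} (hT : ∀ t ∈ T, t.length = s)
    (hs : s ≤ l) : Nat.card (WZ T l) * 2 ^ s = T.card * 2 ^ l := by
  have hlen : ∀ q : {t // t ∈ T} × List.Vector Bool (l - s), (q.1.1 ++ q.2.1).length = l := by
    intro q
    rw [List.length_append, hT _ q.1.2, q.2.2]
    omega
  have hb : Function.Bijective (fun q : {t // t ∈ T} × List.Vector Bool (l - s) =>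
      (⟨⟨q.1.1 ++ q.2.1, hlen q⟩, q.1.1, q.1.2, q.2.1, rfl⟩ : WZ T l)) := by
    constructor
    · rintro ⟨⟨t, ht⟩, z⟩ ⟨⟨t', ht'⟩, z'⟩ h
      have h1 : t ++ z.1 = t' ++ z'.1 := congrArg (fun w : WZ T l => w.1.1) h
      obtain ⟨h2, h3⟩ := List.append_inj h1 (by rw [hT t ht, hT t' ht'])
      subst h2
      have h4 : z = z' := Subtype.ext h3
      rw [h4]
    · rintro ⟨⟨z, hz⟩, t, ht, z2, h⟩
      have h1 : z = t ++ z2 := h
      subst h1
      have h2 : z2.length = l - s := by
        rw [List.length_append, hT t ht] at hz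
        omega
      exact ⟨(⟨t, ht⟩, ⟨z2, h2⟩), rfl⟩
  have h0 : Nat.card (WZ T l) = Nat.card ({t // t ∈ T} × List.Vector Bool (l - s)) :=
    (Nat.card_eq_of_bijective _ hb).symm
  rw [h0, Nat.card_prod, E1_vec]
  have h3 : Nat.card {t // t ∈ T} = T.card := by
    rw [Nat.card_eq_fintype_card, Fintype.card_coe]
  rw [h3, mul_assoc, ← pow_add, Nat.sub_add_cancel hs]

theorem card_WW {T : Finset (List Bool)} {s m n : ℕ} (hT : ∀ t ∈ T, t.length = s)
    (hs : n + s ≤ m) : Nat.card (WW T m n) * 2 ^ s = T.card * Nat.card (CC m n) := by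
  have h1 := E1_WZ hT (show s ≤ m - n by omega)
  rw [card_CC, Nat.card_prod, E1_vec]
  calc Nat.card (WZ T (m - n)) * 2 ^ 2 ^ m * 2 ^ s
      = Nat.card (WZ T (m - n)) * 2 ^ s * 2 ^ 2 ^ m := by ring
    _ = T.card * 2 ^ (2 ^ m + (m - n)) := by rw [h1, pow_add]; ring

end Pool.Agent.LibRV74
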