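import Pool.Agent.LibRV74.E1

/-!
[RV74 E2] The language in terms of the blocks.

`n ≤ m` by `mm_ge`. `Hit O z q` for `z = x ++ (t ++ z2)` of length `m` and `q = 0^(m-n)`: some `y` of length
`2^m` with `O (cell i z y)` for `1 ≤ i ≤ 2^m + (m - n)`: these are the cells `iA T m n ((x, (t ++ z2, y)), i - 1)`
(`oA_io`); `f x g = tp m n` iff all of them are `true`.
-/

namespace Pool.Agent.LibRV74

open Pool.Agent.LibNexp Pool.Agent.LibBHN Pool.Agent.LibRO74

theorem al_iff {T : Finset (List Bool)} {m n k : ℕ} (hm : m = mm k n)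
    (f : XX n → WW T m n → CC m n) (O : List Bool → Bool) (x : XX n) :
    x.1 ∈ AL (oA T m n f O) k T ↔ ∃ g, f x g = tp m n := by
  subst hm
  have hx : x.1.length = n := x.2
  have hge : 5 * n ≤ mm k n := mm_ge k n
  constructor
  · rintro ⟨t, ht, z2, hlen, y, hy, hc⟩
    rw [hx] at hlen hc
    have hl2 : (t ++ z2).length = mm k n - n := by
      have h1 : (x.1 ++ (t ++ z2)).length = x.1.length + (t ++ z2).length :=
        List.length_append
      omega
    rw [hlen] at hy
    refine ⟨(⟨⟨t ++ z2, hl2⟩, t, ht, z2, rfl⟩, ⟨y, hy⟩), ?_⟩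
    funext j
    have hj := j.2
    have h := hc (j + 1) (by omega) (by rw [hlen, List.length_replicate]; omega)
    have h2 := oA_io T (mm k n) n f O
      ((x, ((⟨⟨t ++ z2, hl2⟩, t, ht, z2, rfl⟩, ⟨y, hy⟩) : WW T (mm k n) n)), j)
    exact h2.symm.trans h
  · rintro ⟨g, hg⟩
    obtain ⟨⟨z, t, ht, z2, hz⟩, y⟩ := g
    have hzl : z.1.length = mm k n - n := z.2
    have hyl : y.1.length = 2 ^ mm k n := y.2
    have hlen : (x.1 ++ (t ++ z2)).length = mm k n := by
      rw [← hz, List.length_append]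
      omega
    refine ⟨t, ht, z2, by rw [hx]; exact hlen, y.1, by rw [hlen]; exact hyl, ?_⟩
    intro i hi1 hi2
    rw [hlen, List.length_replicate, hx] at hi2
    have h2 := oA_io T (mm k n) n f O
      ((x, ((⟨z, t, ht, z2, hz⟩, y) : WW T (mm k n) n)), ⟨i - 1, by omega⟩)
    have h3 : iA T (mm k n) n
        ((x, ((⟨z, t, ht, z2, hz⟩, y) : WW T (mm k n) n)), ⟨i - 1, by omega⟩) =
        cell i (x.1 ++ (t ++ z2)) y.1 := by
      show cell (i - 1 + 1) (x.1 ++ z.1) y.1 = _
      rw [Nat.sub_add_cancel hi1, hz]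
    rw [h3] at h2
    rw [h2]
    show f x (⟨z, t, ht, z2, hz⟩, y) _ = true
    rw [hg]
    rfl

end Pool.Agent.LibRV74
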