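import Pool.Agent.LibRV74.E1

/-!
[RV74 E3] Acceptance depends on at most `T0` blocks.

`acc_use` (LibNexp/Use) gives `Q` with `Q.card ≤ T0`. `C` = the image of `Q` (of those `s ∈ Q` with
`∃ q, iA T m n q = s`) under `s ↦ (the q).1`. If `f' = f` on `C` then `oA f' O s = oA f O s` for `s ∈ Q`
(`oA_io` for cells, `oA_of` for the others).
-/

namespace Pool.Agent.LibRV74

open Pool.Agent.LibNexp Pool.Agent.LibBHN Pool.Agent.LibRO74

theorem acc_local (T : Finset (List Bool)) (m n : ℕ) (O : List Bool → Bool) (p : Prog) (T0 : ℕ)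
    (v : List Bool) :
    Loc T0 fun (x : XX n) (f : XX n → WW T m n → CC m n) =>
      Acc (oA T m n f O) p T0 (pair x.1 v) := by
  classical
  intro x f hacc
  obtain ⟨Q, hQc, hQ⟩ := acc_use hacc
  obtain ⟨F, hF1, hF2⟩ : ∃ F : List Bool → Finset (XX n × WW T m n), (∀ s, (F s).card ≤ 1) ∧
      ∀ s, (∃ q, iA T m n q = s) → ∃ q, iA T m n q = s ∧ q.1 ∈ F s := by
    refine ⟨fun s => if h : ∃ q, iA T m n q = s then {h.choose.1} else ∅, ?_, ?_⟩
    · intro s
      by_cases h : ∃ q, iA T m n q = s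
      · simp only [h, dite_true, Finset.card_singleton, le_refl]
      · simp only [h, dite_false, Finset.card_empty, Nat.zero_le]
    · intro s h
      refine ⟨h.choose, h.choose_spec, ?_⟩
      simp only [h, dite_true, Finset.mem_singleton]
  refine ⟨Q.biUnion F, ?_, ?_⟩
  · refine (Finset.card_biUnion_le_card_mul Q F 1 fun s _ => hF1 s).trans ?_
    rw [mul_one]
    exact hQc
  · intro f' hf'
    refine hQ _ fun s hs => ?_
    by_cases h : ∃ q, iA T m n q = s
    · obtain ⟨q, hq, hqF⟩ := hF2 s h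
      rw [← hq, oA_io, oA_io, hf' q.1 (Finset.mem_biUnion.2 ⟨s, hs, hqF⟩)]
    · have h' : ∀ q, iA T m n q ≠ s := fun q hq => h ⟨q, hq⟩
      rw [oA_of h', oA_of h']

end Pool.Agent.LibRV74
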