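import Pool.Agent.LibRV74.E1

/-!
[RV74 E4] The density is close to `1/2`.

Choose `s` large and `T` a set of `⌊2^s * log 2⌋₊` strings of length `s` (there are `2^s`), `lam = T.card / 2^s`,
`|lam - log 2| ≤ 2^(-s)`, so `|exp (-lam) - 1/2| ≤ δ / 2` (continuity of `exp` at `- log 2`; `lam` can be
chosen from the sequence `⌊2^s * log 2⌋₊ / 2^s → log 2`). For `n ≥ s` one has `n + s ≤ mm k n`
(`mm_ge`), so `card WW = lam * a` with `a = card CC = 2 ^ (2^m + (m - n))` (`card_WW`, `card_CC`), and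
`(1 - 1/a)^(card WW) = ((1 - 1/a)^a)^lam` (`Real.rpow_natCast`, `Real.rpow_mul`) tends to `exp (-lam)`
(`Real.tendsto_one_add_div_pow_exp` with `t = -1`, composed with `a → ∞`; `rpow` is continuous at
`exp (-1)`). For `n` large `a ≥ n`.
-/

namespace Pool.Agent.LibRV74

open Filter Pool.Agent.LibNexp Pool.Agent.LibBHN Pool.Agent.LibRO74

private theorem E4_s {δ : ℝ} (hδ : 0 < δ) : ∃ s : ℕ,
    |Real.exp (-((⌊Real.log 2 * (2 : ℝ) ^ s⌋₊ : ℝ) / (2 : ℝ) ^ s)) - 1 / 2| ≤ δ / 2 := by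
  have h1 : Tendsto (fun s : ℕ => (2 : ℝ) ^ s) atTop atTop :=
    tendsto_pow_atTop_atTop_of_one_lt (by norm_num)
  have h2 : Tendsto (fun s : ℕ => (⌊Real.log 2 * (2 : ℝ) ^ s⌋₊ : ℝ) / (2 : ℝ) ^ s) atTop
      (nhds (Real.log 2)) :=
    (tendsto_nat_floor_mul_div_atTop (Real.log_nonneg (by norm_num))).comp h1
  have h3 : Tendsto (fun s : ℕ => Real.exp (-((⌊Real.log 2 * (2 : ℝ) ^ s⌋₊ : ℝ) / (2 : ℝ) ^ s)))
      atTop (nhds (1 / 2)) := by
    have h4 := (Real.continuous_exp.tendsto (-Real.log 2)).comp h2.neg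
    have h5 : Real.exp (-Real.log 2) = 1 / 2 := by
      rw [Real.exp_neg, Real.exp_log (by norm_num)]
      norm_num
    rw [h5] at h4
    exact h4
  have h6 := (Metric.tendsto_nhds.1 h3 (δ / 2) (by positivity)).exists
  obtain ⟨s, hs⟩ := h6
  refine ⟨s, ?_⟩
  rw [Real.dist_eq] at hs
  exact hs.le

private theorem E4_T (s c : ℕ) (hc : c ≤ 2 ^ s) :
    ∃ T : Finset (List Bool), (∀ t ∈ T, t.length = s) ∧ T.card = c := by
  classical
  have h1 : ((Finset.univ : Finset (Fin s → Bool)).image List.ofFn).card = 2 ^ s := by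
    rw [Finset.card_image_of_injective _ List.ofFn_injective, Finset.card_univ]
    simp
  obtain ⟨T, hT, hc'⟩ := Finset.exists_subset_card_eq (h1.symm ▸ hc)
  refine ⟨T, fun t ht => ?_, hc'⟩
  obtain ⟨f, -, rfl⟩ := Finset.mem_image.1 (hT ht)
  exact List.length_ofFn

private theorem E4_exp (lam : ℝ) (a : ℕ → ℕ) (ha : Tendsto a atTop atTop) :
    Tendsto (fun n : ℕ => ((1 - 1 / (a n : ℝ)) ^ (a n)) ^ lam) atTop (nhds (Real.exp (-lam))) := by
  have h1 := (Real.tendsto_one_add_div_pow_exp (-1)).comp ha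
  have h2 : Tendsto (fun n : ℕ => (1 - 1 / (a n : ℝ)) ^ (a n)) atTop (nhds (Real.exp (-1))) := by
    refine h1.congr fun n => ?_
    show (1 + -1 / (a n : ℝ)) ^ (a n) = _
    congr 1
    ring
  have h3 := h2.rpow_const (p := lam) (Or.inl (Real.exp_pos _).ne')
  have h4 : Real.exp (-1) ^ lam = Real.exp (-lam) := by
    rw [← Real.exp_mul]
    congr 1
    ring
  rw [h4] at h3
  exact h3

theorem dens {δ : ℝ} (hδ : 0 < δ) : ∃ (s : ℕ) (T : Finset (List Bool)),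
    (∀ t ∈ T, t.length = s) ∧ ∀ k : ℕ, ∀ᶠ n : ℕ in atTop,
    |(1 - 1 / (Nat.card (CC (mm k n) n) : ℝ)) ^ Nat.card (WW T (mm k n) n) - 1 / 2| ≤ δ := by
  obtain ⟨s, hs⟩ := E4_s hδ
  have hc : ⌊Real.log 2 * (2 : ℝ) ^ s⌋₊ ≤ 2 ^ s := by
    have h1 : Real.log 2 * (2 : ℝ) ^ s ≤ (2 : ℝ) ^ s := by
      have h2 : Real.log 2 ≤ 1 := by
        have := Real.log_two_lt_d9
        linarith
      exact mul_le_of_le_one_left (by positivity) h2
    have h3 := Nat.floor_le_floor h1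
    have h4 : ⌊(2 : ℝ) ^ s⌋₊ = 2 ^ s := by
      have h5 : ((2 : ℝ) ^ s) = ((2 ^ s : ℕ) : ℝ) := by push_cast; rfl
      rw [h5, Nat.floor_natCast]
    omega
  obtain ⟨c, hcdef⟩ : ∃ c, c = ⌊Real.log 2 * (2 : ℝ) ^ s⌋₊ := ⟨_, rfl⟩
  rw [← hcdef] at hs hc
  obtain ⟨T, hT, hTc⟩ := E4_T s c hc
  refine ⟨s, T, hT, fun k => ?_⟩
  have ha : Tendsto (fun n : ℕ => Nat.card (CC (mm k n) n)) atTop atTop := by
    refine tendsto_atTop_mono (fun n => ?_) tendsto_id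
    show n ≤ Nat.card (CC (mm k n) n)
    rw [card_CC]
    have h1 := mm_ge k n
    have h2 : mm k n < 2 ^ mm k n := Nat.lt_two_pow_self
    have h3 : 2 ^ mm k n + (mm k n - n) < 2 ^ (2 ^ mm k n + (mm k n - n)) := Nat.lt_two_pow_self
    omega
  have hlim := E4_exp ((c : ℝ) / (2 : ℝ) ^ s) (fun n => Nat.card (CC (mm k n) n)) ha
  have hev := Metric.tendsto_nhds.1 hlim (δ / 2) (by positivity)
  filter_upwards [hev, eventually_ge_atTop (max s 1)] with n hn hns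
  rw [Real.dist_eq] at hn
  have hm : n + s ≤ mm k n := by
    have h1 := mm_ge k n
    have h2 : s ≤ n := le_trans (le_max_left _ _) hns
    omega
  have hW := card_WW (T := T) (m := mm k n) (n := n) hT hm
  have hcc := card_CC (mm k n) n
  obtain ⟨a, haa⟩ : ∃ a, a = Nat.card (CC (mm k n) n) := ⟨_, rfl⟩
  obtain ⟨W, hWW⟩ : ∃ W, W = Nat.card (WW T (mm k n) n) := ⟨_, rfl⟩
  rw [← haa] at hW hn hcc
  rw [← hWW] at hW
  rw [← haa, ← hWW]
  rw [hTc] at hW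
  have ha1 : 1 ≤ a := by
    rw [hcc]
    exact Nat.one_le_two_pow
  have ha1' : (1 : ℝ) ≤ (a : ℝ) := by exact_mod_cast ha1
  have h0 : (0 : ℝ) ≤ 1 - 1 / (a : ℝ) := by
    have : 1 / (a : ℝ) ≤ 1 := by
      rw [div_le_one (by linarith)]
      exact ha1'
    linarith
  have hWr : (W : ℝ) = (a : ℝ) * ((c : ℝ) / (2 : ℝ) ^ s) := by
    have h1 : ((W * 2 ^ s : ℕ) : ℝ) = ((c * a : ℕ) : ℝ) := by rw [hW]
    push_cast at h1
    field_simp
    linarith
  have hpow : (1 - 1 / (a : ℝ)) ^ W = ((1 - 1 / (a : ℝ)) ^ a) ^ ((c : ℝ) / (2 : ℝ) ^ s) := by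
    rw [← Real.rpow_natCast _ W, hWr, Real.rpow_mul h0, Real.rpow_natCast]
  rw [hpow]
  have h9 := abs_sub_le (((1 - 1 / (a : ℝ)) ^ a) ^ ((c : ℝ) / (2 : ℝ) ^ s))
    (Real.exp (-((c : ℝ) / (2 : ℝ) ^ s))) (1 / 2)
  linarith

end Pool.Agent.LibRV74
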