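import Pool.Agent.LibRV74.C4
import Pool.Agent.LibRV74.E2
import Pool.Agent.LibRV74.E3

/-!
[RV74 F1] One advice string.

`fin_le` with `X = XX n`, `W = WW T m n`, `A = CC m n`, `top = tp m n`, `acc` of `acc_local`,
`p = 1 - (1 - 1 / card A) ^ card W`, `η = δ / 2`: `min p (1 - p) ≥ 1 / 2 - δ / 2`, so the event is contained in
that of `fin_le`. `errA = Nat.card {x : XX n // (∃ g, f x g = tp m n) ↔ acc x f}` by `al_iff`
(`Nat.card_congr`). `Nat.card (XX n) = 2 ^ n` (`Nat.card_eq_fintype_card`, `card_vector`), `card_CC`.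
-/

namespace Pool.Agent.LibRV74

open Pool.Agent.LibNexp Pool.Agent.LibBHN Pool.Agent.LibRO74

private theorem F1_err {n m k T0 : ℕ} {T : Finset (List Bool)} (hm : m = mm k n)
    {p : Prog} {v : List Bool} {O : List Bool → Bool} {f : XX n → WW T m n → CC m n} :
    errA (oA T m n f O) k T p T0 n v =
      Nat.card {x : XX n // (∃ g, f x g = tp m n) ↔ Acc (oA T m n f O) p T0 (pair x.1 v)} := by
  unfold errA
  refine Nat.card_congr
    { toFun := fun x => ⟨⟨x.1, x.2.1⟩, ?_⟩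
      invFun := fun y => ⟨y.1.1, y.1.2, ?_⟩
      left_inv := fun _ => rfl
      right_inv := fun _ => rfl }
  · rw [← al_iff hm f O ⟨x.1, x.2.1⟩]
    exact x.2.2
  · rw [al_iff hm f O y.1]
    exact y.2

theorem one_le {n m k T0 : ℕ} {T : Finset (List Bool)} (hm : m = mm k n) {δ : ℝ} (hδ : 0 < δ)
    (hd : |(1 - 1 / (Nat.card (CC m n) : ℝ)) ^ Nat.card (WW T m n) - 1 / 2| ≤ δ / 2)
    (p : Prog) (v : List Bool) (O : List Bool → Bool) :
    (Nat.card {f : XX n → WW T m n → CC m n //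
      (errA (oA T m n f O) k T p T0 n v : ℝ) < (1 / 2 - δ) * 2 ^ n} : ℝ) ≤
      bdA δ n T0 (Nat.card (CC m n)) * Nat.card (XX n → WW T m n → CC m n) := by
  have hcX : Nat.card (XX n) = 2 ^ n := by
    rw [Nat.card_eq_fintype_card, card_vector, Fintype.card_bool]
  have hcXr : ((Nat.card (XX n) : ℕ) : ℝ) = 2 ^ n := by
    rw [hcX]
    push_cast
    rfl
  have hA : 2 ≤ Nat.card (CC m n) := by
    rw [card_CC]
    have h1 : 1 ≤ 2 ^ m + (m - n) := le_trans Nat.one_le_two_pow (Nat.le_add_right _ _)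
    calc 2 = 2 ^ 1 := (pow_one 2).symm
      _ ≤ 2 ^ (2 ^ m + (m - n)) := Nat.pow_le_pow_right (by norm_num) h1
  have hX : Nonempty (XX n) := ⟨List.Vector.replicate n false⟩
  have hη : 0 < δ / 2 := by linarith
  have key := fin_le (top := tp m n) hA (acc_local T m n O p T0 v)
    (p := 1 - (1 - 1 / (Nat.card (CC m n) : ℝ)) ^ Nat.card (WW T m n)) rfl hη
  have hb : bdA δ n T0 (Nat.card (CC m n)) =
      36 / ((δ / 2) ^ 2 * √ ((Nat.card (XX n) : ℕ) : ℝ)) +
        (32 / (δ / 2) ^ 2 + ((Nat.card (XX n) : ℕ) : ℝ)) * (T0 / Nat.card (CC m n)) := by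
    rw [hcXr]
    rfl
  rw [hb]
  refine le_trans ?_ key
  have hsub : ∀ f : XX n → WW T m n → CC m n,
      (errA (oA T m n f O) k T p T0 n v : ℝ) < (1 / 2 - δ) * 2 ^ n →
      (Nat.card {x : XX n // (∃ g, f x g = tp m n) ↔
        Acc (oA T m n f O) p T0 (pair x.1 v)} : ℝ) <
        (min (1 - (1 - 1 / (Nat.card (CC m n) : ℝ)) ^ Nat.card (WW T m n))
          (1 - (1 - (1 - 1 / (Nat.card (CC m n) : ℝ)) ^ Nat.card (WW T m n))) - δ / 2) *
          Nat.card (XX n) := by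
    intro f hf
    rw [← F1_err hm, hcXr]
    refine lt_of_lt_of_le hf ?_
    apply mul_le_mul_of_nonneg_right _ (by positivity)
    rw [abs_le] at hd
    obtain ⟨h1, h2⟩ := hd
    have h3 : 1 / 2 - δ / 2 ≤
        min (1 - (1 - 1 / (Nat.card (CC m n) : ℝ)) ^ Nat.card (WW T m n))
          (1 - (1 - (1 - 1 / (Nat.card (CC m n) : ℝ)) ^ Nat.card (WW T m n))) := by
      apply le_min <;> linarith
    linarith
  refine Nat.cast_le.mpr (Nat.card_le_card_of_injective
    (fun f : {f : XX n → WW T m n → CC m n //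
        (errA (oA T m n f O) k T p T0 n v : ℝ) < (1 / 2 - δ) * 2 ^ n} => ⟨f.1, hsub f.1 f.2⟩) ?_)
  intro f g hfg
  exact Subtype.ext (Subtype.mk.inj hfg)

end Pool.Agent.LibRV74
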