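import Pool.Agent.LibRV74.F1
import Pool.Agent.LibRO74.F3

/-!
[RV74 F2] The union over the advice strings.

`strs_le ((n - a) / 2)` (LibRO74/F3) gives the finite set of all `v` with `2 |v| + a ≤ n` (if there is one, then
`a ≤ n`); union bound, `one_le` for each `v` with `T0 = tim c k n |v|`, and `bdA` is monotone in `T0`
(`tim c k n |v| ≤ tim c k n n`, see `F2_tim_mono` in LibRO74/F2).
-/

namespace Pool.Agent.LibRV74

open Pool.Agent.LibNexp Pool.Agent.LibBHN Pool.Agent.LibRO74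

private lemma F2_cardle {F ι : Type} [Finite F] (p : F → Prop) (S : Finset ι)
    (q : ι → F → Prop) (h : ∀ f, p f → ∃ v ∈ S, q v f) (B : ℝ)
    (hB : ∀ v ∈ S, (Nat.card {f // q v f} : ℝ) ≤ B) :
    (Nat.card {f // p f} : ℝ) ≤ S.card * B := by
  classical
  have : Fintype F := Fintype.ofFinite F
  have hc : ∀ r : F → Prop, Nat.card {f // r f} = (Finset.univ.filter r).card := by
    intro r
    rw [Nat.card_eq_fintype_card, Fintype.card_subtype]
  have hsub : (Finset.univ.filter p) ⊆ S.biUnion fun v => Finset.univ.filter (q v) := by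
    intro f hf
    rw [Finset.mem_filter] at hf
    obtain ⟨v, hv, hq⟩ := h f hf.2
    rw [Finset.mem_biUnion]
    exact ⟨v, hv, Finset.mem_filter.mpr ⟨Finset.mem_univ _, hq⟩⟩
  have h1 : (Finset.univ.filter p).card ≤ ∑ v ∈ S, (Finset.univ.filter (q v)).card :=
    (Finset.card_le_card hsub).trans Finset.card_biUnion_le
  rw [hc p]
  calc (((Finset.univ.filter p).card : ℕ) : ℝ)
      ≤ ((∑ v ∈ S, (Finset.univ.filter (q v)).card : ℕ) : ℝ) := Nat.cast_le.mpr h1
    _ = ∑ v ∈ S, (((Finset.univ.filter (q v)).card : ℕ) : ℝ) := Nat.cast_sum _ _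
    _ ≤ ∑ _v ∈ S, B := by
        refine Finset.sum_le_sum fun v hv => ?_
        have h2 := hB v hv
        rw [hc (q v)] at h2
        exact h2
    _ = S.card * B := by rw [Finset.sum_const, nsmul_eq_mul]

private lemma F2_tim_mono {c k n a b : ℕ} (h : a ≤ b) : tim c k n a ≤ tim c k n b := by
  unfold tim
  refine Nat.pow_le_pow_right (by norm_num) ?_
  have h2 : (2 * n + 2 + a) ^ k ≤ (2 * n + 2 + b) ^ k := Nat.pow_le_pow_left (by omega) _
  have h1 : 2 ^ ((2 * n + 2 + a) ^ k + k) ≤ 2 ^ ((2 * n + 2 + b) ^ k + k) :=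
    Nat.pow_le_pow_right (by norm_num) (by omega)
  omega

private lemma F2_bd_mono {δ : ℝ} {n T0 T1 a : ℕ} (h : T0 ≤ T1) :
    bdA δ n T0 a ≤ bdA δ n T1 a := by
  unfold bdA
  have h1 : (T0 : ℝ) / (a : ℝ) ≤ (T1 : ℝ) / (a : ℝ) :=
    div_le_div_of_nonneg_right (Nat.cast_le.mpr h) (Nat.cast_nonneg a)
  have h2 : (0 : ℝ) ≤ 32 / (δ / 2) ^ 2 + 2 ^ n := by positivity
  have h3 := mul_le_mul_of_nonneg_left h1 h2
  linarith

private lemma F2_bd_nonneg {δ : ℝ} {n T0 a : ℕ} : 0 ≤ bdA δ n T0 a := by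
  unfold bdA
  positivity

theorem union_le {n k c a : ℕ} {T : Finset (List Bool)} {δ : ℝ} (hδ : 0 < δ)
    (hd : |(1 - 1 / (Nat.card (CC (mm k n) n) : ℝ)) ^ Nat.card (WW T (mm k n) n) - 1 / 2| ≤ δ / 2)
    (p : Prog) (O : List Bool → Bool) :
    (Nat.card {f : XX n → WW T (mm k n) n → CC (mm k n) n //
      oA T (mm k n) n f O ∈ BadA p c k T δ n a} : ℝ) ≤
      2 ^ ((n - a) / 2 + 1) * bdA δ n (tim c k n n) (Nat.card (CC (mm k n) n)) *
        Nat.card (XX n → WW T (mm k n) n → CC (mm k n) n) := by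
  obtain ⟨S, hS, hSm⟩ := strs_le ((n - a) / 2)
  have hB0 : (0 : ℝ) ≤ bdA δ n (tim c k n n) (Nat.card (CC (mm k n) n)) *
      Nat.card (XX n → WW T (mm k n) n → CC (mm k n) n) :=
    mul_nonneg F2_bd_nonneg (Nat.cast_nonneg _)
  have h := F2_cardle (F := XX n → WW T (mm k n) n → CC (mm k n) n)
    (fun f => oA T (mm k n) n f O ∈ BadA p c k T δ n a)
    (S.filter fun v => 2 * v.length + a ≤ n)
    (fun v f => (errA (oA T (mm k n) n f O) k T p (tim c k n v.length) n v : ℝ) <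
      (1 / 2 - δ) * 2 ^ n)
    (by
      intro f hf
      obtain ⟨v, hv, he⟩ := hf
      exact ⟨v, Finset.mem_filter.mpr ⟨hSm v (by omega), hv⟩, he⟩)
    (bdA δ n (tim c k n n) (Nat.card (CC (mm k n) n)) *
      Nat.card (XX n → WW T (mm k n) n → CC (mm k n) n))
    (by
      intro v hv
      have hv2 := (Finset.mem_filter.mp hv).2
      refine (one_le (T0 := tim c k n v.length) rfl hδ hd p v O).trans ?_
      exact mul_le_mul_of_nonneg_right (F2_bd_mono (F2_tim_mono (by omega)))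
        (Nat.cast_nonneg _))
  refine h.trans ?_
  rw [mul_assoc]
  refine mul_le_mul_of_nonneg_right ?_ hB0
  have h1 : (S.filter fun v => 2 * v.length + a ≤ n).card ≤ 2 ^ ((n - a) / 2 + 1) :=
    (Finset.card_filter_le _ _).trans hS
  exact_mod_cast h1

end Pool.Agent.LibRV74
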