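import Pool.Agent.LibRV74.E1

/-!
[RV74 F3] The bound is summable.

`large c k` (LibRO74/N1): `2 * 2^n * tim c k n n ≤ 2 ^ (2 ^ m)`, `m = mm k n ≥ 5 n`, and
`card CC = 2 ^ (2^m + (m - n)) ≥ 2 ^ (2^m) * 2 ^ (4 n)` (`card_CC`), so `tim / card CC ≤ 2 ^ (-5 n)`.
With `a = aA q n ≤ n` for `n` large, `2 ^ ((n - a) / 2 + 1) ≤ 2 * 2 ^ (n/2) * 2 ^ (-a/2)` (real exponents) and
`2 ^ (-a/2) ≤ n ^ (-(1 + 1/(q+1)))`, as `a ≥ 2 (1 + 1/(q+1)) log_2 n`. So the first term is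
`≤ 288 / δ² * n ^ (-(1 + 1/(q+1)))` (`Real.summable_nat_rpow`; `√(2^n) = 2^(n/2)`), the second is
`≤ 2 * 2^n * (128 / δ² + 2^n) * 2 ^ (-5n) ≤ (C / 8^n)`. Compare `term1` in LibRO74/T3.
-/

namespace Pool.Agent.LibRV74

open Filter Pool.Agent.LibNexp Pool.Agent.LibBHN Pool.Agent.LibRO74

private lemma F3_sq (m : ℕ) (h : 16 ≤ m) : m ^ 4 ≤ 2 ^ m := by
  induction m, h using Nat.le_induction with
  | base => norm_num
  | succ k hk ih =>
    have h1 : (k + 1) ^ 4 ≤ 2 * k ^ 4 := by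
      have h3 : 16 * k ^ 3 ≤ k ^ 4 := by
        calc 16 * k ^ 3 ≤ k * k ^ 3 := Nat.mul_le_mul_right _ hk
          _ = k ^ 4 := by ring
      have h4 : k ^ 2 ≤ k ^ 3 := Nat.pow_le_pow_right (by omega) (by norm_num)
      have h5 : k ≤ k ^ 3 := by
        calc k = k ^ 1 := (pow_one k).symm
          _ ≤ k ^ 3 := Nat.pow_le_pow_right (by omega) (by norm_num)
      have h6 : 1 ≤ k ^ 3 := Nat.one_le_pow _ _ (by omega)
      have h7 : (k + 1) ^ 4 = k ^ 4 + 4 * k ^ 3 + 6 * k ^ 2 + 4 * k + 1 := by ring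
      omega
    have h2 : 2 ^ (k + 1) = 2 * 2 ^ k := by ring
    omega

/-- `aA q n ≤ n` for large `n`. -/
private lemma F3_a (q n : ℕ) (hn : 16 ≤ n) : aA q n ≤ n := by
  have hn1 : (1 : ℝ) ≤ n := by
    have : 1 ≤ n := by omega
    exact_mod_cast this
  have hlg0 : 0 ≤ Real.logb 2 n := Real.logb_nonneg (by norm_num) hn1
  have hq0 : (0 : ℝ) ≤ q := Nat.cast_nonneg q
  have hq1 : 1 / ((q : ℝ) + 1) ≤ 1 := by
    rw [div_le_one (by positivity)]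
    linarith
  unfold aA
  rw [Nat.ceil_le]
  have h1 : 4 * Real.logb 2 n ≤ n := by
    have h2 : (n : ℝ) ^ 4 ≤ 2 ^ n := by exact_mod_cast F3_sq n hn
    have h3 : Real.logb 2 ((n : ℝ) ^ 4) ≤ Real.logb 2 ((2 : ℝ) ^ n) :=
      Real.logb_le_logb_of_le (by norm_num) (by positivity) h2
    rw [Real.logb_pow, Real.logb_pow, Real.logb_self_eq_one (by norm_num)] at h3
    push_cast at h3
    linarith
  have h4 : (1 / ((q : ℝ) + 1)) * Real.logb 2 n ≤ 1 * Real.logb 2 n :=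
    mul_le_mul_of_nonneg_right hq1 hlg0
  calc 2 * (1 + 1 / ((q : ℝ) + 1)) * Real.logb 2 n
      = 2 * Real.logb 2 n + 2 * ((1 / ((q : ℝ) + 1)) * Real.logb 2 n) := by ring
    _ ≤ 4 * Real.logb 2 n := by linarith
    _ ≤ n := h1

/-- `2 ^ (aA q n) ≥ (n ^ (1 + 1/(q+1))) ^ 2`. -/
private lemma F3_pow (q n : ℕ) (hn : 1 ≤ n) :
    ((n : ℝ) ^ (1 + 1 / ((q : ℝ) + 1))) ^ 2 ≤ 2 ^ (aA q n) := by
  have hn0 : (0 : ℝ) < n := by exact_mod_cast hn
  have h1 : 2 * (1 + 1 / ((q : ℝ) + 1)) * Real.logb 2 n ≤ (aA q n : ℝ) := Nat.le_ceil _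
  calc ((n : ℝ) ^ (1 + 1 / ((q : ℝ) + 1))) ^ 2
      = (n : ℝ) ^ (2 * (1 + 1 / ((q : ℝ) + 1))) := by
        rw [← Real.rpow_natCast, ← Real.rpow_mul hn0.le]
        congr 1
        push_cast
        ring
    _ = ((2 : ℝ) ^ (Real.logb 2 n)) ^ (2 * (1 + 1 / ((q : ℝ) + 1))) := by
        rw [Real.rpow_logb (by norm_num) (by norm_num) hn0]
    _ = (2 : ℝ) ^ (Real.logb 2 n * (2 * (1 + 1 / ((q : ℝ) + 1)))) :=
        (Real.rpow_mul (by norm_num) _ _).symm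
    _ ≤ (2 : ℝ) ^ (aA q n : ℝ) :=
        Real.rpow_le_rpow_of_exponent_le (by norm_num) (by linarith)
    _ = 2 ^ (aA q n) := Real.rpow_natCast _ _

/-- The first term. -/
private lemma F3_one (q n : ℕ) (hn : 16 ≤ n) {δ : ℝ} (hδ : 0 < δ) :
    (2 : ℝ) ^ ((n - aA q n) / 2 + 1) * (36 / ((δ / 2) ^ 2 * √(2 ^ n))) ≤
      288 / δ ^ 2 * (1 / (n : ℝ) ^ (1 + 1 / ((q : ℝ) + 1))) := by
  have hn0 : (0 : ℝ) < n := by
    have : 0 < n := by omega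
    exact_mod_cast this
  set η : ℝ := 1 + 1 / ((q : ℝ) + 1) with hη
  have ha := F3_a q n hn
  have hp := F3_pow q n (by omega)
  rw [← hη] at hp
  set a := aA q n
  have hP : 0 < (n : ℝ) ^ η := Real.rpow_pos_of_pos hn0 _
  set P := (n : ℝ) ^ η
  set S := √((2 : ℝ) ^ n) with hS
  have hS0 : 0 < S := Real.sqrt_pos.2 (by positivity)
  have hS2 : S ^ 2 = 2 ^ n := Real.sq_sqrt (by positivity)
  set D : ℝ := (2 : ℝ) ^ ((n - a) / 2) with hD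
  have hD0 : 0 < D := by positivity
  have h1 : D ^ 2 * P ^ 2 ≤ S ^ 2 := by
    have e1 : D ^ 2 ≤ 2 ^ (n - a) := by
      rw [hD, ← pow_mul]
      exact pow_le_pow_right₀ (by norm_num) (Nat.div_mul_le_self _ _)
    calc D ^ 2 * P ^ 2 ≤ 2 ^ (n - a) * 2 ^ a :=
          mul_le_mul e1 hp (by positivity) (by positivity)
      _ = 2 ^ n := by
          rw [← pow_add]
          congr 1
          omega
      _ = S ^ 2 := hS2.symm
  have h2 : D * P ≤ S := by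
    have h3 : (D * P) ^ 2 ≤ S ^ 2 := by rw [mul_pow]; exact h1
    exact le_of_sq_le_sq h3 hS0.le
  rw [pow_succ]
  have e2 : D * 2 * (36 / ((δ / 2) ^ 2 * S)) = 288 / δ ^ 2 * (D / S) := by
    field_simp
    ring
  rw [e2]
  apply mul_le_mul_of_nonneg_left _ (by positivity)
  rw [div_le_div_iff₀ hS0 hP, one_mul]
  exact h2

/-- The second term. -/
private lemma F3_two (c k n a : ℕ) {δ : ℝ} (hδ : 0 < δ)
    (hl : 2 * 2 ^ n * tim c k n n + 2 * 4 ^ n ≤ 2 ^ (2 ^ mm k n)) :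
    (2 : ℝ) ^ ((n - a) / 2 + 1) * ((32 / (δ / 2) ^ 2 + 2 ^ n) *
      ((tim c k n n : ℕ) / (Nat.card (CC (mm k n) n) : ℝ))) ≤
      (128 / δ ^ 2 + 1) * (1 / 8) ^ n := by
  have hm := mm_ge k n
  set m := mm k n
  rw [card_CC]
  set t : ℕ := tim c k n n
  have h1 : (2 : ℝ) * 2 ^ n * t ≤ 2 ^ (2 ^ m) := by
    have h2 : 2 * 2 ^ n * t ≤ 2 ^ (2 ^ m) := by omega
    exact_mod_cast h2
  have h3 : (2 : ℝ) ^ (2 ^ m) * 2 ^ (4 * n) ≤ 2 ^ (2 ^ m + (m - n)) := by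
    rw [← pow_add]
    exact pow_le_pow_right₀ (by norm_num) (by omega)
  have h4 : (t : ℝ) / ((2 ^ (2 ^ m + (m - n)) : ℕ) : ℝ) ≤ 1 / (2 * 2 ^ n * 2 ^ (4 * n)) := by
    have e : ((2 ^ (2 ^ m + (m - n)) : ℕ) : ℝ) = (2 : ℝ) ^ (2 ^ m + (m - n)) := by
      push_cast
      rfl
    rw [e, div_le_div_iff₀ (by positivity) (by positivity), one_mul]
    calc (t : ℝ) * (2 * 2 ^ n * 2 ^ (4 * n)) = 2 * 2 ^ n * t * 2 ^ (4 * n) := by ring
      _ ≤ 2 ^ (2 ^ m) * 2 ^ (4 * n) := mul_le_mul_of_nonneg_right h1 (by positivity)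
      _ ≤ _ := h3
  have h5 : (2 : ℝ) ^ ((n - a) / 2 + 1) ≤ 2 * 2 ^ n := by
    rw [pow_succ, mul_comm]
    apply mul_le_mul_of_nonneg_left _ (by norm_num)
    exact pow_le_pow_right₀ (by norm_num) (by omega)
  have h6 : 32 / (δ / 2) ^ 2 + (2 : ℝ) ^ n ≤ (128 / δ ^ 2 + 1) * 2 ^ n := by
    have e : 32 / (δ / 2) ^ 2 = 128 / δ ^ 2 := by
      field_simp
      norm_num
    have h7 : (1 : ℝ) ≤ 2 ^ n := one_le_pow₀ (by norm_num)
    have h8 : 0 < 128 / δ ^ 2 := by positivity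
    rw [e]
    nlinarith
  have h9 : 0 < 128 / δ ^ 2 := by positivity
  calc (2 : ℝ) ^ ((n - a) / 2 + 1) * ((32 / (δ / 2) ^ 2 + 2 ^ n) *
      ((t : ℕ) / ((2 ^ (2 ^ m + (m - n)) : ℕ) : ℝ)))
      ≤ (2 * 2 ^ n) * (((128 / δ ^ 2 + 1) * 2 ^ n) * (1 / (2 * 2 ^ n * 2 ^ (4 * n)))) := by
        apply mul_le_mul h5 _ (by positivity) (by positivity)
        exact mul_le_mul h6 h4 (by positivity) (by positivity)
    _ = (128 / δ ^ 2 + 1) * (1 / 8) ^ n := by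
        have e : (2 : ℝ) ^ (4 * n) = 2 ^ n * 8 ^ n := by
          rw [show (8 : ℝ) = 2 ^ 3 by norm_num, ← pow_mul, ← pow_add]
          congr 1
          ring
        rw [e, one_div_pow]
        field_simp

theorem bd_summable (c k q : ℕ) {δ : ℝ} (hδ : 0 < δ) : ∃ f : ℕ → ℝ, Summable f ∧
    ∀ᶠ n : ℕ in atTop, 2 ^ ((n - aA q n) / 2 + 1) *
      bdA δ n (tim c k n n) (Nat.card (CC (mm k n) n)) ≤ f n := by
  refine ⟨fun n => 288 / δ ^ 2 * (1 / (n : ℝ) ^ (1 + 1 / ((q : ℝ) + 1))) +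
    (128 / δ ^ 2 + 1) * (1 / 8) ^ n, ?_, ?_⟩
  · apply Summable.add
    · apply Summable.mul_left
      apply Real.summable_one_div_nat_rpow.mpr
      have : 0 < 1 / ((q : ℝ) + 1) := by positivity
      linarith
    · apply Summable.mul_left
      exact summable_geometric_of_lt_one (by norm_num) (by norm_num)
  · filter_upwards [eventually_ge_atTop 16, large c k] with n hn hl
    unfold bdA
    rw [mul_add]
    exact add_le_add (F3_one q n hn hδ) (F3_two c k n (aA q n) hδ hl)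

end Pool.Agent.LibRV74
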