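import Pool.Agent.LibRV74.Z0

/-!
[RV74 F4] The bad event depends on finitely many cells.

Adapt `badG_dep` (LibRO74/M4) and `rlang_agree`, `M3_hit` (LibRO74/M3): `M` = maximum of
`2 * 2 ^ mm k n + 2 * mm k n + 1` and `3 * n + 2 + tim c k n n`. `|v| ≤ n` from `2 |v| + a ≤ n`. The two subtypes
in `errA` are equal (`Nat.card` of the same predicate: `simp only` / `Nat.card_congr (Equiv.subtypeEquivRight ..)`).
-/

namespace Pool.Agent.LibRV74

open Pool.Agent.LibNexp Pool.Agent.LibBHN Pool.Agent.LibRO74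

private theorem F4_hit {O O' : List Bool → Bool} {M : ℕ}
    (h : ∀ s : List Bool, s.length ≤ M → O s = O' s) {z q : List Bool}
    (hM : 2 ^ z.length + q.length + 1 + (z.length + 2 ^ z.length) ≤ M) :
    Hit O z q → Hit O' z q := by
  rintro ⟨y, hy, hc⟩
  refine ⟨y, hy, fun i h1 h2 => ?_⟩
  have hl : (cell i z y).length ≤ M := by
    simp only [cell, List.length_append, List.length_replicate, List.length_cons]
    omega
  rw [← h _ hl]
  exact hc i h1 h2

private theorem F4_al {k n M : ℕ} (hM : 2 * 2 ^ mm k n + 2 * mm k n + 1 ≤ M)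
    {O O' : List Bool → Bool} (h : ∀ s, s.length ≤ M → O s = O' s) {T : Finset (List Bool)}
    {x : List Bool} (hx : x.length = n) : x ∈ AL O k T → x ∈ AL O' k T := by
  subst hx
  rintro ⟨t, ht, z2, hz, hh⟩
  refine ⟨t, ht, z2, hz, F4_hit h ?_ hh⟩
  rw [hz, List.length_replicate]
  have : mm k x.length - x.length ≤ mm k x.length := Nat.sub_le _ _
  omega

private theorem F4_tim {c k n a : ℕ} (h : a ≤ n) : tim c k n a ≤ tim c k n n := by
  unfold tim
  have h1 : 2 * n + 2 + a ≤ 2 * n + 2 + n := by omega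
  have h3 : (2 * n + 2 + a) ^ k ≤ (2 * n + 2 + n) ^ k := Nat.pow_le_pow_left h1 k
  have h2 : 2 ^ ((2 * n + 2 + a) ^ k + k) ≤ 2 ^ ((2 * n + 2 + n) ^ k + k) :=
    Nat.pow_le_pow_right (by norm_num) (by omega)
  exact Nat.pow_le_pow_right (by norm_num) (by omega)

theorem badA_dep (p : Prog) (c k : ℕ) (T : Finset (List Bool)) (δ : ℝ) (n a : ℕ) :
    ∃ M, Dep M (BadA p c k T δ n a) := by
  refine ⟨max (2 * 2 ^ mm k n + 2 * mm k n + 1) (3 * n + 2 + tim c k n n), ?_⟩
  rintro O O' hO ⟨v, hv, hg⟩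
  have hO' : ∀ s, s.length ≤ max (2 * 2 ^ mm k n + 2 * mm k n + 1) (3 * n + 2 + tim c k n n) →
      O' s = O s := fun s hs => (hO s hs).symm
  have hvn : v.length ≤ n := by omega
  have ht : tim c k n v.length ≤ tim c k n n := F4_tim hvn
  have hE : errA O' k T p (tim c k n v.length) n v = errA O k T p (tim c k n v.length) n v := by
    unfold errA
    refine Nat.card_congr (Equiv.subtypeEquivRight fun x => ?_)
    refine and_congr_right fun hx => ?_
    have h1 : x ∈ AL O' k T ↔ x ∈ AL O k T :=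
      ⟨F4_al (le_max_left _ _) hO' hx, F4_al (le_max_left _ _) hO hx⟩
    have hl : (pair x v).length + tim c k n v.length ≤
        max (2 * 2 ^ mm k n + 2 * mm k n + 1) (3 * n + 2 + tim c k n n) := by
      rw [length_pair, hx]
      refine le_trans ?_ (le_max_right _ _)
      omega
    have h2 : Acc O' p (tim c k n v.length) (pair x v) ↔ Acc O p (tim c k n v.length) (pair x v) :=
      ⟨acc_agree fun s hs => hO' s (hs.trans hl), acc_agree fun s hs => hO s (hs.trans hl)⟩
    rw [h1, h2]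
  refine ⟨v, hv, ?_⟩
  rw [hE]
  exact hg

end Pool.Agent.LibRV74
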