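import Pool.Agent.LibRV74.F2
import Pool.Agent.LibRV74.F4

/-!
[RV74 F5] The measure of the bad event.

`rnd_inter_le` (LibRO74/Q1) with `ι = iA T m n`, `I = (XX n × WW T m n) × Fin (2 ^ m + (m - n))`, `H = univ`; the
number of `g : I → Bool` with `Function.extend ι g O ∈ BadA ..` is the number of `f` with `oA T m n f O ∈ BadA ..`
(currying; adapt `count_curry`, `card_cells`, `rnd_of`, `rnd_badT` of LibRO74/Q5), `union_le`;
measurability: `measurable_of_agree` (LibRO74/M3) with `badA_dep`.
-/

namespace Pool.Agent.LibRV74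

open Pool.Agent.LibNexp Pool.Agent.LibBHN Pool.Agent.LibRO74

/-- From functions on cells to functions on blocks. -/
private def F5_e (T : Finset (List Bool)) (m n : ℕ) :
    ((XX n × WW T m n) × Fin (2 ^ m + (m - n)) → Bool) ≃ (XX n → WW T m n → CC m n) :=
  (Equiv.curry (XX n × WW T m n) (Fin (2 ^ m + (m - n))) Bool).trans
    (Equiv.curry (XX n) (WW T m n) (CC m n))

private theorem F5_count (T : Finset (List Bool)) (m n : ℕ) (O : List Bool → Bool)
    (E : Set (List Bool → Bool)) :
    Nat.card {g : (XX n × WW T m n) × Fin (2 ^ m + (m - n)) → Bool //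
      Function.extend (iA T m n) g O ∈ E} =
    Nat.card {f : XX n → WW T m n → CC m n // oA T m n f O ∈ E} :=
  Nat.card_congr ((F5_e T m n).subtypeEquiv fun _ => Iff.rfl)

private theorem F5_card (T : Finset (List Bool)) (m n : ℕ) :
    Nat.card (XX n → WW T m n → CC m n) =
      2 ^ Fintype.card ((XX n × WW T m n) × Fin (2 ^ m + (m - n))) := by
  rw [← Nat.card_congr (F5_e T m n), Nat.card_fun, Nat.card_eq_fintype_card,
    Nat.card_eq_fintype_card, Fintype.card_bool]

theorem rnd_badA {n k : ℕ} {T : Finset (List Bool)} {δ : ℝ} (hδ : 0 < δ)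
    (hd : |(1 - 1 / (Nat.card (CC (mm k n) n) : ℝ)) ^ Nat.card (WW T (mm k n) n) - 1 / 2| ≤ δ / 2)
    (p : Prog) (c a : ℕ) :
    rnd (BadA p c k T δ n a) ≤ ENNReal.ofReal (2 ^ ((n - a) / 2 + 1) *
      bdA δ n (tim c k n n) (Nat.card (CC (mm k n) n))) := by
  classical
  obtain ⟨M, hM⟩ := badA_dep p c k T δ n a
  have h := rnd_inter_le (iA_injective T (mm k n) n) (E := BadA p c k T δ n a) (H := Set.univ)
    (b := 2 ^ ((n - a) / 2 + 1) * bdA δ n (tim c k n n) (Nat.card (CC (mm k n) n)))
    (measurable_of_agree M hM) MeasurableSet.univ (fun _ _ => Iff.rfl) (fun O => by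
      have h1 := union_le (a := a) (c := c) hδ hd p O
      rw [← F5_count, F5_card, Nat.card_eq_fintype_card, Fintype.card_subtype] at h1
      push_cast at h1
      refine le_trans (le_of_eq ?_) h1
      congr 1
      congr 1
      ext g
      simp only [Finset.mem_filter, Finset.mem_univ])
  rwa [Set.inter_univ, MeasureTheory.measure_univ, mul_one] at h

end Pool.Agent.LibRV74
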