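import Pool.Agent.LibRV74.F3
import Pool.Agent.LibRV74.F5
import Pool.Agent.LibRO74.T5

/-!
Borel-Cantelli.
-/

namespace Pool.Agent.LibRV74

open MeasureTheory Filter Pool.Agent.LibNexp Pool.Agent.LibBHN Pool.Agent.LibRO74

theorem ae_badA {k : ℕ} {T : Finset (List Bool)} {δ : ℝ} (hδ : 0 < δ)
    (hd : ∀ᶠ n : ℕ in atTop,
      |(1 - 1 / (Nat.card (CC (mm k n) n) : ℝ)) ^ Nat.card (WW T (mm k n) n) - 1 / 2| ≤ δ / 2)
    (p : Prog) (c q : ℕ) :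
    ∀ᵐ O ∂rnd, ∀ᶠ n : ℕ in atTop, O ∉ BadA p c k T δ n (aA q n) := by
  obtain ⟨f, hf, h1⟩ := bd_summable c k q hδ
  refine bcS hf ?_
  filter_upwards [hd, h1] with n hn h2
  exact (rnd_badA hδ hn p c (aA q n)).trans (ENNReal.ofReal_le_ofReal h2)

end Pool.Agent.LibRV74
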