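import Pool.Agent.LibRV74.Z0
import Pool.Agent.LibRO74.L2
import Pool.Agent.LibRO74.L0

/-!
[RV74 G1] The language is in the class.

For one `t`: the relation in `x z q`: `t' = t` (constant: `nexp_prefix` / `nexp_subst` with `[t]`),
`z = x ++ (t ++ z2)`, `|z| = mm k |x|`, `q = 0^(m - |x|)` (`|q| + |x| = |z|`, letters `0`), `Hit O z q`
(`nexp_hit`, LibRO74/L0). Closure: `nexp_ex` (bounds `|z2| ≤ |z|`, `|z|`, `|q|` polynomial in `|x|`), `NEXP.and`,
`NEXP.or`, `NEXP.reindex`, `nexp_append`, `nexp_lin`, `nexp_powAdd`; the private lemmas `L2_const`, `L2_add`,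
`L2_M` of LibRO74/L2 can be copied (names `G1_..`), and LibRO74/L3 shows the last step to `NEXPLang`.
Finite union over `t ∈ T`: induction on `T` (`Finset.induction_on`), or: `T` empty is the empty language
(e.g. the predicate `[true] <+: x ∧ [false] <+: x`), insertion is `NEXP.or`.
-/

namespace Pool.Agent.LibRV74

open Pool.Agent.LibNexp Pool.Agent.LibBHN Pool.Agent.LibRO74

variable {O : List Bool → Bool}

private theorem G1_flat (c : Bool) (l : List Bool) :
    l.flatMap (fun _ => [c]) = List.replicate l.length c := by
  induction l with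
  | nil => rfl
  | cons b l ih => rw [List.flatMap_cons, ih]; rfl

private theorem G1_const (c : Bool) {k : ℕ} (i : Fin k) :
    NEXP O fun e : Fin k → List Bool => e i = List.replicate (e i).length c := by
  refine ((nexp_subst (O := O) (fun _ => [c]) (fun _ => []) []).reindex ![i, i, i]).congr fun e => ?_
  simp [G1_flat, misc_flatMap_nil]

private theorem G1_add {k : ℕ} (i j l : Fin k) :
    NEXP O fun e : Fin k → List Bool => (e i).length + (e j).length = (e l).length := by
  have h1 : NEXP O fun e : Fin 4 → List Bool => e 3 = e 0 ++ e 1 ∧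
      (e 3).length = 1 * (e 2).length + 0 := (nexp_append 0 1 3).and (nexp_lin 1 0 2 3)
  have h2 : NEXP O fun e : Fin 3 → List Bool => ∃ z : List Bool, z = e 0 ++ e 1 ∧
      z.length = 1 * (e 2).length + 0 := by
    refine nexp_ex (R := fun e z => z = e 0 ++ e 1 ∧ z.length = 1 * (e 2).length + 0) h1
      (g := fun n => n) PolyB.id ?_
    rintro e z ⟨-, h⟩
    have := len_le_size e 2
    omega
  refine (h2.reindex ![i, j, l]).congr fun e => ?_
  simp only [Matrix.cons_val_zero, Matrix.cons_val_one, Matrix.cons_val_two, Matrix.head_cons,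
    Matrix.tail_cons, one_mul, add_zero, Matrix.cons_val]
  constructor
  · rintro ⟨z, rfl, h⟩
    rw [← h, List.length_append]
  · intro h
    exact ⟨_, rfl, by rw [List.length_append, h]⟩

private theorem G1_M (k : ℕ) : NEXP O fun e : Fin 2 → List Bool =>
    (e 1).length = mm k (e 0).length := by
  have h2 : NEXP O fun e : Fin 2 → List Bool => ∃ P Q R : List Bool,
      P.length = 3 * (e 0).length + 2 ∧ Q.length = P.length ^ k + k ∧
        R.length = 5 * (e 0).length + 0 ∧ R.length + Q.length = (e 1).length := by
    refine nexp_ex (R := fun e P => ∃ Q R : List Bool,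
      P.length = 3 * (e 0).length + 2 ∧ Q.length = P.length ^ k + k ∧
        R.length = 5 * (e 0).length + 0 ∧ R.length + Q.length = (e 1).length) ?_
        (g := fun n => 3 * n + 2) (((PolyB.const 3).mul PolyB.id).add (PolyB.const 2)) ?_
    · refine nexp_ex (R := fun (e : Fin 3 → List Bool) Q => ∃ R : List Bool,
        (e 2).length = 3 * (e 0).length + 2 ∧ Q.length = (e 2).length ^ k + k ∧
        R.length = 5 * (e 0).length + 0 ∧ R.length + Q.length = (e 1).length) ?_
        (g := fun n => n) PolyB.id ?_
      · refine nexp_ex (R := fun (e : Fin 4 → List Bool) R =>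
          (e 2).length = 3 * (e 0).length + 2 ∧ (e 3).length = (e 2).length ^ k + k ∧
          R.length = 5 * (e 0).length + 0 ∧ R.length + (e 3).length = (e 1).length) ?_
          (g := fun n => n) PolyB.id ?_
        · exact (nexp_lin 3 2 0 2).and ((nexp_powAdd k k 2 3).and
            ((nexp_lin 5 0 0 4).and (G1_add 4 3 1)))
        · rintro e R ⟨-, -, -, h⟩
          have := len_le_size e 1
          omega
      · rintro e Q ⟨R, -, -, -, h⟩
        have := len_le_size e 1
        omega
    · rintro e P ⟨Q, R, h, -⟩
      have := len_le_size e 0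
      omega
  refine h2.congr fun e => ?_
  unfold mm
  constructor
  · rintro ⟨P, Q, R, h1, h2, h3, h4⟩
    rw [← h4, h2, h1, h3]
    ring
  · intro h
    exact ⟨List.replicate (3 * (e 0).length + 2) true,
      List.replicate ((3 * (e 0).length + 2) ^ k + k) true,
      List.replicate (5 * (e 0).length) true, by simp, by simp, by simp, by simp [h]⟩

private theorem G1_mono (k : ℕ) (n s : ℕ) (h : n ≤ s) : mm k n ≤ mm k s := by
  unfold mm
  have h1 : (3 * n + 2) ^ k ≤ (3 * s + 2) ^ k := Nat.pow_le_pow_left (by omega) _
  omega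

private theorem G1_poly (k : ℕ) : PolyB fun n => mm k n :=
  ((PolyB.const 5).mul PolyB.id).add
    (((((PolyB.const 3).mul PolyB.id).add (PolyB.const 2)).pow k).add (PolyB.const k))

private theorem G1_one (k : ℕ) (t : List Bool) :
    NEXP O fun e : Fin 1 → List Bool => ∃ z2 : List Bool,
      (e 0 ++ (t ++ z2)).length = mm k (e 0).length ∧
      Hit O (e 0 ++ (t ++ z2)) (List.replicate (mm k (e 0).length - (e 0).length) false) := by
  have h : NEXP O fun e : Fin 1 → List Bool => ∃ z w q : List Bool,
      z = e 0 ++ w ∧ t <+: w ∧ z.length = mm k (e 0).length ∧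
      q = List.replicate q.length false ∧ q.length + (e 0).length = z.length ∧ Hit O z q := by
    refine nexp_ex (R := fun e z => ∃ w q : List Bool,
      z = e 0 ++ w ∧ t <+: w ∧ z.length = mm k (e 0).length ∧
      q = List.replicate q.length false ∧ q.length + (e 0).length = z.length ∧ Hit O z q) ?_
      (g := fun n => mm k n) (G1_poly k) ?_
    · refine nexp_ex (R := fun (e : Fin 2 → List Bool) w => ∃ q : List Bool,
        e 1 = e 0 ++ w ∧ t <+: w ∧ (e 1).length = mm k (e 0).length ∧
        q = List.replicate q.length false ∧ q.length + (e 0).length = (e 1).length ∧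
          Hit O (e 1) q) ?_ (g := fun n => n) PolyB.id ?_
      · refine nexp_ex (R := fun (e : Fin 3 → List Bool) q =>
          e 1 = e 0 ++ e 2 ∧ t <+: e 2 ∧ (e 1).length = mm k (e 0).length ∧
          q = List.replicate q.length false ∧ q.length + (e 0).length = (e 1).length ∧
            Hit O (e 1) q) ?_ (g := fun n => n) PolyB.id ?_
        · have hh : NEXP O fun e : Fin 4 → List Bool => Hit O (e 1) (e 3) := by
            refine ((nexp_hit (O := O)).reindex ![1, 3]).congr fun e => ?_
            simp
          have hM : NEXP O fun e : Fin 4 → List Bool => (e 1).length = mm k (e 0).length := by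
            refine ((G1_M (O := O) k).reindex ![0, 1]).congr fun e => ?_
            simp
          exact (nexp_append 0 2 1).and ((nexp_prefix t 2).and (hM.and
            ((G1_const false 3).and ((G1_add 3 0 1).and hh))))
        · rintro e q ⟨-, -, -, -, h, -⟩
          have := len_le_size e 1
          omega
      · rintro e w ⟨q, h, -⟩
        have := len_le_size e 1
        rw [h, List.length_append] at this
        omega
    · rintro e z ⟨w, q, -, -, h, -⟩
      rw [h]
      exact G1_mono k _ _ (len_le_size e 0)
  refine h.congr fun e => ?_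
  constructor
  · rintro ⟨z, w, q, h1, ⟨z2, h2⟩, h3, h4, h5, h6⟩
    refine ⟨z2, ?_, ?_⟩
    · rw [h2, ← h1, h3]
    · have h7 : mm k (e 0).length - (e 0).length = q.length := by omega
      rw [h2, ← h1, h7, ← h4]
      exact h6
  · rintro ⟨z2, h1, h2⟩
    refine ⟨_, _, _, rfl, ⟨z2, rfl⟩, h1, ?_, ?_, h2⟩
    · rw [List.length_replicate]
    · rw [List.length_replicate]
      have h3 := mm_ge k (e 0).length
      rw [h1]
      omega

theorem al_mem (O : List Bool → Bool) (k : ℕ) (T : Finset (List Bool)) :
    AL O k T ∈ NEXPLang O := by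
  classical
  show NEXP O fun e : Fin 1 → List Bool => e 0 ∈ AL O k T
  induction T using Finset.induction_on with
  | empty =>
    refine ((nexp_prefix (O := O) [true] (0 : Fin 1)).and
      (nexp_prefix (O := O) [false] (0 : Fin 1))).congr fun e => ?_
    constructor
    · rintro ⟨⟨a, ha⟩, ⟨b, hb⟩⟩
      rw [← hb] at ha
      simp at ha
    · rintro ⟨t, ht, -⟩
      simp at ht
  | insert t T _ ih =>
    refine ((G1_one (O := O) k t).or ih).congr fun e => ?_
    constructor
    · rintro (h | ⟨t', ht', h⟩)
      · exact ⟨t, Finset.mem_insert_self _ _, h⟩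
      · exact ⟨t', Finset.mem_insert_of_mem ht', h⟩
    · rintro ⟨t', ht', h⟩
      rcases Finset.mem_insert.1 ht' with rfl | h1
      · exact Or.inl h
      · exact Or.inr ⟨t', h1, h⟩

end Pool.Agent.LibRV74
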