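import Pool.Agent.LibRV74.H4

/-!
[RV74 H5] The advice which gives the number of hit strings is correct.

`pair x v ∈ AB` iff (`pair` is injective, see `pair_inj` in LibNexp; `q`, `t` are determined by `Thr`)
`val v + 2^(n-s) T.card ≤ cnt (mm k n) (fun z => FF T x z ∧ Hit O z q) + 2^(|v|-1)` (`val_Thr`, `cnt_RB`), i.e.
(by `h`) iff `nCt O k T n ≤ cnt (mm k n) (FF T x · ∧ Hit)`. As `FF T x z → FA T n z`, this holds iff there is no
hit `z` of length `mm k n` with `z = x t z2`, `t ∈ T` (all `z` of length `mm k n` are `bits (mm k n) i`, `cnt` is the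
card of a filter: `Finset.card_le_card`, strict subset if there is one), i.e. iff `x ∉ AL O k T`. If
`z = x t z2 = x' t' z2'` with `|x'| = |x|` then `x' = x`.
-/

namespace Pool.Agent.LibRV74

open Pool.Agent.LibNexp Pool.Agent.LibBHN Pool.Agent.LibRO74

private theorem H5_mono {m : ℕ} {P Q : List Bool → Prop}
    (h : ∀ z : List Bool, z.length = m → P z → Q z) : cnt m P ≤ cnt m Q := by
  classical
  unfold cnt
  refine Finset.card_le_card fun t ht => ?_
  rw [Finset.mem_filter] at ht ⊢
  exact ⟨ht.1, h _ (length_bits m t) ht.2⟩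

private theorem H5_lt {m : ℕ} {P Q : List Bool → Prop}
    (h : ∀ z : List Bool, z.length = m → P z → Q z) {z : List Bool} (hz : z.length = m)
    (h1 : Q z) (h2 : ¬ P z) : cnt m P < cnt m Q := by
  classical
  have hb : bits m (val z) = z := by
    rw [← hz]
    exact bits_val z
  unfold cnt
  refine Finset.card_lt_card ?_
  rw [Finset.ssubset_iff_of_subset]
  · refine ⟨val z, ?_, ?_⟩
    · rw [Finset.mem_filter, Finset.mem_range]
      refine ⟨?_, ?_⟩
      · rw [← hz]
        exact cnt_val_lt z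
      · rw [hb]
        exact h1
    · rw [Finset.mem_filter]
      rintro ⟨-, hP⟩
      rw [hb] at hP
      exact h2 hP
  · intro t ht
    rw [Finset.mem_filter] at ht ⊢
    exact ⟨ht.1, h _ (length_bits m t) ht.2⟩

private theorem H5_al {O : List Bool → Bool} {k n : ℕ} {T : Finset (List Bool)} {x : List Bool}
    (hx : x.length = n) : x ∉ AL O k T ↔ nCt O k T n ≤
      cnt (mm k n) (fun z => FF T x z ∧ Hit O z (List.replicate (mm k n - n) false)) := by
  unfold nCt
  constructor
  · intro hal
    refine H5_mono fun z hz hz2 => ?_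
    obtain ⟨⟨x', t, z2, h2, h3, h4⟩, h6⟩ := hz2
    refine ⟨⟨x', t, z2, h2, h3.trans hx.symm, h4, ?_⟩, h6⟩
    rintro rfl
    apply hal
    refine ⟨t, h4, z2, ?_, ?_⟩
    · rw [← h2, hz, hx]
    · rw [← h2, hx]
      exact h6
  · intro hle hal
    obtain ⟨t, ht, z2, h1, h2⟩ := hal
    rw [hx] at h1 h2
    refine absurd hle (not_le.2 (H5_lt ?_ h1 ?_ ?_))
    · rintro z - ⟨⟨x', t', z2', h3, h4, h5, -⟩, h6⟩
      exact ⟨⟨x', t', z2', h3, h4.trans hx, h5⟩, h6⟩
    · exact ⟨⟨x, t, z2, rfl, hx, ht⟩, h2⟩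
    · rintro ⟨⟨x', t', z2', h3, h4, -, h5⟩, -⟩
      exact h5 (List.append_inj h3 h4.symm).1.symm

theorem ab_correct {O : List Bool → Bool} {k s n : ℕ} {T : Finset (List Bool)} {β v : List Bool}
    (hβ : β.length = s + 1) (hβT : val β = T.card) (hv : 1 ≤ v.length) (hvn : s + v.length ≤ n)
    (h : val v + 2 ^ (n - s) * T.card = nCt O k T n + 2 ^ (v.length - 1)) :
    ∀ x : List Bool, x.length = n → (x ∉ AL O k T ↔ pair x v ∈ AB O k s T β) := by
  intro x hx
  have hmm := mm_ge k n
  rw [H5_al hx]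
  have hm : v.length ≤ mm k n + 1 := by omega
  have hc := cnt_RB (O := O) (T := T) (m := mm k n)
    (q := List.replicate (mm k n - n) false) (x := x) hv hm
  constructor
  · intro hle
    refine ⟨x, v, List.replicate (mm k n - n) false,
      v ++ (List.replicate (x.length - s - v.length) false ++
      (β ++ List.replicate (mm k x.length + 2 - (x.length - s) - β.length) false)), rfl, ?_, ?_⟩
    · exact ⟨hv, by omega, by rw [hx], rfl⟩
    · have hT : Thr k s β x v (List.replicate (mm k n - n) false)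
        (v ++ (List.replicate (x.length - s - v.length) false ++
        (β ++ List.replicate (mm k x.length + 2 - (x.length - s) - β.length) false))) :=
        ⟨hv, by omega, by rw [hx], rfl⟩
      obtain ⟨h1, h2⟩ := val_Thr hβ hT
      refine ⟨mm k n + 1, ?_, ?_⟩
      · rw [h2, hx]
      · rw [h1, hc, hβT, hx]
        omega
  · rintro ⟨x', v', q, t, h1, hT, n', h2, h3⟩
    obtain ⟨rfl, rfl⟩ := pair_injective h1
    obtain ⟨h4, h5⟩ := val_Thr hβ hT
    obtain ⟨-, -, h6, -⟩ := hT
    rw [hx] at h4 h5 h6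
    have h7 : n' = mm k n + 1 := by omega
    rw [h7, h6, hc, h4, hβT] at h3
    omega

end Pool.Agent.LibRV74
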