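import Pool.Agent.LibRV74.H9
import Pool.Agent.LibRO74.T5

/-!
[RV74 HA] The number of hit strings is close to the mean at all large lengths, almost surely.

`rnd_fib`: as in F5.lean (`F5_e`, `F5_count`, `F5_card`, `rnd_inter_le` with `H = univ`). `badC_dep`: `nCt`
depends only on the strings of length `≤ 2 * 2 ^ mm k n + 2 * mm k n + 1` (as `M3_hit`, `M3_cnt_mono` in
LibRO74/M3; both directions). `ae_badC`: `bcS` (LibRO74/T5) with `128 / n^2`
(`Real.summable_one_div_nat_pow`), `measurable_of_agree`, for `n ≥ max 4 s`.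
-/

namespace Pool.Agent.LibRV74

open MeasureTheory Filter Pool.Agent.LibNexp Pool.Agent.LibBHN Pool.Agent.LibRO74

/-- From functions on cells to functions on blocks. -/
private def HA_e (T : Finset (List Bool)) (m n : ℕ) :
    ((XX n × WW T m n) × Fin (2 ^ m + (m - n)) → Bool) ≃ (XX n → WW T m n → CC m n) :=
  (Equiv.curry (XX n × WW T m n) (Fin (2 ^ m + (m - n))) Bool).trans
    (Equiv.curry (XX n) (WW T m n) (CC m n))

private theorem HA_count (T : Finset (List Bool)) (m n : ℕ) (O : List Bool → Bool)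
    (E : Set (List Bool → Bool)) :
    Nat.card {g : (XX n × WW T m n) × Fin (2 ^ m + (m - n)) → Bool //
      Function.extend (iA T m n) g O ∈ E} =
    Nat.card {f : XX n → WW T m n → CC m n // oA T m n f O ∈ E} :=
  Nat.card_congr ((HA_e T m n).subtypeEquiv fun _ => Iff.rfl)

private theorem HA_card (T : Finset (List Bool)) (m n : ℕ) :
    Nat.card (XX n → WW T m n → CC m n) =
      2 ^ Fintype.card ((XX n × WW T m n) × Fin (2 ^ m + (m - n))) := by
  rw [← Nat.card_congr (HA_e T m n), Nat.card_fun, Nat.card_eq_fintype_card,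
    Nat.card_eq_fintype_card, Fintype.card_bool]

private theorem HA_cnt_mono {m : ℕ} {P Q : List Bool → Prop}
    (h : ∀ z : List Bool, z.length = m → P z → Q z) : cnt m P ≤ cnt m Q := by
  classical
  unfold cnt
  apply Finset.card_le_card
  intro t ht
  rw [Finset.mem_filter] at ht ⊢
  exact ⟨ht.1, h _ (length_bits _ _) ht.2⟩

private theorem HA_hit {O O' : List Bool → Bool} {M : ℕ}
    (h : ∀ s : List Bool, s.length ≤ M → O s = O' s) {z q : List Bool}
    (hM : 2 ^ z.length + q.length + 1 + (z.length + 2 ^ z.length) ≤ M) :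
    Hit O z q → Hit O' z q := by
  rintro ⟨y, hy, hc⟩
  refine ⟨y, hy, fun i h1 h2 => ?_⟩
  have hl : (cell i z y).length ≤ M := by
    simp only [cell, List.length_append, List.length_replicate, List.length_cons]
    omega
  rw [← h _ hl]
  exact hc i h1 h2

private theorem HA_nCt_le {O O' : List Bool → Bool} {k n : ℕ} (T : Finset (List Bool))
    (h : ∀ s : List Bool, s.length ≤ 2 * 2 ^ mm k n + 2 * mm k n + 1 → O s = O' s) :
    nCt O k T n ≤ nCt O' k T n := by
  unfold nCt
  refine HA_cnt_mono fun z hz hq => ⟨hq.1, HA_hit h ?_ hq.2⟩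
  rw [hz, List.length_replicate]
  have : mm k n - n ≤ mm k n := Nat.sub_le _ _
  omega

theorem rnd_fib {T : Finset (List Bool)} {m n : ℕ} {E : Set (List Bool → Bool)}
    (hE : MeasurableSet E) {b : ℝ}
    (h : ∀ O : List Bool → Bool, (Nat.card {f : XX n → WW T m n → CC m n //
      oA T m n f O ∈ E} : ℝ) ≤ b * Nat.card (XX n → WW T m n → CC m n)) :
    rnd E ≤ ENNReal.ofReal b := by
  classical
  have h' := rnd_inter_le (iA_injective T m n) (E := E) (H := Set.univ)
    (b := b) hE MeasurableSet.univ (fun _ _ => Iff.rfl) (fun O => by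
      have h1 := h O
      rw [← HA_count, HA_card, Nat.card_eq_fintype_card, Fintype.card_subtype] at h1
      push_cast at h1
      refine le_trans (le_of_eq ?_) h1
      congr 1
      congr 1
      ext g
      simp only [Finset.mem_filter, Finset.mem_univ])
  rwa [Set.inter_univ, MeasureTheory.measure_univ, mul_one] at h'

theorem badC_dep (k s : ℕ) (T : Finset (List Bool)) (n : ℕ) : ∃ M, Dep M (BadC k s T n) := by
  refine ⟨2 * 2 ^ mm k n + 2 * mm k n + 1, ?_⟩
  intro O O' hO hb
  have e : nCt O k T n = nCt O' k T n :=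
    le_antisymm (HA_nCt_le T hO) (HA_nCt_le T fun s hs => (hO s hs).symm)
  have hb' : ¬ (2 ^ (n - s) * T.card ≤ nCt O k T n + 2 ^ (n / 2 + Nat.log 2 n - 1) ∧
    nCt O k T n < 2 ^ (n - s) * T.card + 2 ^ (n / 2 + Nat.log 2 n - 1)) := hb
  rw [e] at hb'
  exact hb'

theorem ae_badC {T : Finset (List Bool)} {s : ℕ} (hT : ∀ t ∈ T, t.length = s) (k : ℕ) :
    ∀ᵐ O ∂rnd, ∀ᶠ n : ℕ in atTop, O ∉ BadC k s T n := by
  have hs : Summable fun n : ℕ => 128 / (n : ℝ) ^ 2 := by
    have h := (Real.summable_one_div_nat_pow (p := 2)).2 (by norm_num)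
    refine (h.mul_left 128).congr fun n => ?_
    rw [mul_one_div]
  refine bcS hs ?_
  refine Filter.eventually_atTop.2 ⟨max 4 s, fun n hn => ?_⟩
  obtain ⟨M, hM⟩ := badC_dep k s T n
  exact rnd_fib (T := T) (m := mm k n) (n := n) (measurable_of_agree M hM) fun O =>
    cnt_tail hT (le_of_max_le_right hn) (le_of_max_le_left hn) O

end Pool.Agent.LibRV74
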