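import Pool.Agent.LibRV74.H3
import Pool.Agent.LibRV74.H5
import Pool.Agent.LibRV74.HA

/-!
The upper bound: `n / 2 + log n` bits of advice suffice for the complement of the language.
-/

namespace Pool.Agent.LibRV74

open MeasureTheory Filter Pool.Agent.LibNexp Pool.Agent.LibBHN Pool.Agent.LibRO74

theorem card_le_of {T : Finset (List Bool)} {s : ℕ} (hT : ∀ t ∈ T, t.length = s) :
    T.card ≤ 2 ^ s := by
  classical
  have h1 : T ⊆ (Finset.univ : Finset (List.Vector Bool s)).image fun x => x.1 := by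
    intro t ht
    rw [Finset.mem_image]
    exact ⟨⟨t, hT t ht⟩, Finset.mem_univ _, rfl⟩
  have h2 := (Finset.card_le_card h1).trans Finset.card_image_le
  rw [Finset.card_univ, card_vector, Fintype.card_bool] at h2
  exact h2

theorem upper_of {O : List Bool → Bool} {k s n : ℕ} {T : Finset (List Bool)}
    (hT : ∀ t ∈ T, t.length = s) (hn : O ∉ BadC k s T n) (h1 : 1 ≤ n / 2 + Nat.log 2 n)
    (h2 : s + (n / 2 + Nat.log 2 n) ≤ n) :
    ∃ v : List Bool, v.length = n / 2 + Nat.log 2 n ∧ ∀ x : List Bool, x.length = n →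
      (x ∉ AL O k T ↔ pair x v ∈ AB O k s T (bits (s + 1) T.card)) := by
  unfold BadC at hn
  rw [Set.mem_setOf_eq, not_not] at hn
  obtain ⟨h3, h4⟩ := hn
  obtain ⟨l, hl⟩ : ∃ l, l = n / 2 + Nat.log 2 n := ⟨_, rfl⟩
  rw [← hl] at h1 h2 h3 h4 ⊢
  have h5 : 2 ^ l = 2 ^ (l - 1) + 2 ^ (l - 1) := by
    rw [← two_mul, ← pow_succ']
    congr 1
    omega
  have h6 : nCt O k T n + 2 ^ (l - 1) - 2 ^ (n - s) * T.card < 2 ^ l := by omega
  refine ⟨bits l (nCt O k T n + 2 ^ (l - 1) - 2 ^ (n - s) * T.card), length_bits _ _, ?_⟩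
  have hc := card_le_of hT
  refine ab_correct (length_bits _ _) (val_bits (hc.trans_lt ?_)) ?_ ?_ ?_
  · exact Nat.pow_lt_pow_right (by norm_num) (Nat.lt_succ_self s)
  · rw [length_bits]
    exact h1
  · rw [length_bits]
    exact h2
  · rw [length_bits, val_bits h6]
    omega

theorem half_log (s : ℕ) : ∀ᶠ n : ℕ in atTop, s + (n / 2 + Nat.log 2 n) ≤ n := by
  filter_upwards [eventually_ge_atTop (2 ^ (2 * s + 8))] with n hn
  have hn0 : n ≠ 0 := by
    have : 0 < 2 ^ (2 * s + 8) := by positivity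
    omega
  obtain ⟨t, ht⟩ : ∃ t, t = Nat.log 2 n := ⟨_, rfl⟩
  have h1 : 2 * s + 8 ≤ t := by
    rw [ht]
    exact Nat.le_log_of_pow_le (by norm_num) hn
  have h2 : 2 ^ t ≤ n := by
    rw [ht]
    exact Nat.pow_log_le_self 2 hn0
  have h3 : ∀ i : ℕ, 8 ≤ i → 4 * i ≤ 2 ^ i := by
    intro i hi
    induction i, hi using Nat.le_induction with
    | base => norm_num
    | succ i hi ih => rw [pow_succ]; omega
  have h4 := h3 t (by omega)
  rw [← ht]
  omega

theorem upper {T : Finset (List Bool)} {s : ℕ} (hT : ∀ t ∈ T, t.length = s) (k : ℕ) :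
    ∀ᵐ O ∂rnd, ∃ B ∈ NEXPLang O, ∀ᶠ n : ℕ in atTop, ∃ v : List Bool,
      (v.length : ℝ) ≤ n / 2 + Real.logb 2 n ∧
      ∀ x : List Bool, x.length = n → (x ∉ AL O k T ↔ pair x v ∈ B) := by
  filter_upwards [ae_badC hT k] with O hO
  refine ⟨_, ab_mem O k s T (bits (s + 1) T.card) (length_bits _ _), ?_⟩
  filter_upwards [hO, half_log s, eventually_ge_atTop 2] with n h1 h2 h3
  obtain ⟨v, hv, hx⟩ := upper_of hT h1 (by omega) h2
  refine ⟨v, ?_, hx⟩
  rw [hv]
  push_cast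
  refine add_le_add ?_ ?_
  · exact Nat.cast_div_le
  · have h4 : (2 : ℝ) ^ (Nat.log 2 n) ≤ n := by
      exact_mod_cast Nat.pow_log_le_self 2 (by omega)
    rw [Real.le_logb_iff_rpow_le (by norm_num) (by exact_mod_cast (by omega : 0 < n)),
      Real.rpow_natCast]
    exact h4

end Pool.Agent.LibRV74
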