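import Pool.Agent.LibRV74.E4
import Pool.Agent.LibRV74.F6
import Pool.Agent.LibRV74.G1
import Pool.Agent.LibRV74.HB

/-!
Average-case hardness at all large lengths, for almost all oracles.
-/

namespace Pool.Agent.LibRV74

open MeasureTheory Filter Pool.Agent.LibNexp Pool.Agent.LibBHN Pool.Agent.LibRO74

/-- Outside the bad event every advice of length at most `(n - a) / 2` gives many errors. -/
theorem of_notMemA {O : List Bool → Bool} {p : Prog} {c k n a : ℕ} {T : Finset (List Bool)}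
    {δ : ℝ} {B : Set (List Bool)}
    (hp : ∀ e : Fin 1 → List Bool, (∀ t σ', Run O p t (init e) σ' → e 0 ∈ B) ∧
      (e 0 ∈ B → ∃ t σ', t ≤ 2 ^ (2 ^ (size e ^ k + k) + c) ∧ Run O p t (init e) σ'))
    (hn : O ∉ BadA p c k T δ n a) (v : List Bool) (hv : 2 * v.length + a ≤ n) :
    (1 / 2 - δ) * 2 ^ n ≤
      (Nat.card {z : List Bool // z.length = n ∧ ¬ (z ∈ (AL O k T)ᶜ ↔ z ∈ {x | pair x v ∈ B})} :
        ℝ) := by
  by_contra hcon
  push Not at hcon
  refine hn ⟨v, hv, lt_of_le_of_lt (le_of_eq ?_) hcon⟩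
  unfold errA
  refine congrArg (fun i : ℕ => (i : ℝ)) (Nat.card_congr (Equiv.subtypeEquivRight fun x => ?_))
  refine and_congr_right fun hx => ?_
  have hs : size (fun _ : Fin 1 => pair x v) = 2 * n + 2 + v.length := by
    simp only [size, Finset.univ_unique, Finset.sum_singleton, length_pair, hx]
    ring
  have h2 := hp fun _ => pair x v
  have h3 : pair x v ∈ B ↔ Acc O p (tim c k n v.length) (pair x v) := by
    constructor
    · intro h
      obtain ⟨t, σ', ht, h4⟩ := h2.2 h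
      rw [hs] at ht
      exact ⟨t, σ', ht, h4⟩
    · rintro ⟨t, σ', -, h4⟩
      exact h2.1 t σ' h4
  rw [← h3]
  simp only [Set.mem_compl_iff, Set.mem_setOf_eq]
  tauto

theorem aA_le {ε : ℝ} {q n : ℕ} (hq : 1 / ((q : ℝ) + 1) ≤ ε) (hn : 1 ≤ n) {v : List Bool}
    (h : (v.length : ℝ) + (1 + ε) * Real.logb 2 n ≤ n / 2) : 2 * v.length + aA q n ≤ n := by
  have h0 : 0 ≤ Real.logb 2 n := Real.logb_nonneg (by norm_num) (by exact_mod_cast hn)
  have hε : 0 < 1 / ((q : ℝ) + 1) := by positivity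
  have h3 : 0 ≤ (1 + ε) * Real.logb 2 n := by
    have : 0 ≤ 1 + ε := by linarith
    positivity
  have hv' : ((2 * v.length : ℕ) : ℝ) ≤ n := by push_cast; linarith
  have hv : 2 * v.length ≤ n := by exact_mod_cast hv'
  have h1 : 2 * (1 + 1 / ((q : ℝ) + 1)) * Real.logb 2 n ≤ ((n - 2 * v.length : ℕ) : ℝ) := by
    rw [Nat.cast_sub hv]
    push_cast
    nlinarith
  have h2 : aA q n ≤ n - 2 * v.length := Nat.ceil_le.2 h1
  omega

theorem avg : ∀ᵐ O ∂rnd, ∀ (k : ℕ) (δ : ℝ), 0 < δ → ∃ L ∈ NEXPLang O,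
    (∀ (c : ℕ) (B : Set (List Bool)),
      NTime O (fun n => 2 ^ (2 ^ (n ^ k + k) + c)) (fun e : Fin 1 → List Bool => e 0 ∈ B) →
      ∀ ε : ℝ, 0 < ε → ∀ᶠ n : ℕ in atTop, ∀ v : List Bool,
        (v.length : ℝ) + (1 + ε) * Real.logb 2 n ≤ n / 2 →
        (1 / 2 - δ) * 2 ^ n ≤
          (Nat.card {z : List Bool // z.length = n ∧
            ¬ (z ∈ (Lᶜ : Set (List Bool)) ↔ z ∈ {x | pair x v ∈ B})} : ℝ)) ∧
    ∃ B ∈ NEXPLang O, ∀ᶠ n : ℕ in atTop, ∃ v : List Bool,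
      (v.length : ℝ) ≤ n / 2 + Real.logb 2 n ∧
      ∀ x : List Bool, x.length = n → (x ∉ L ↔ pair x v ∈ B) := by
  have hd : ∀ i : ℕ, ∃ (s : ℕ) (T : Finset (List Bool)), (∀ t ∈ T, t.length = s) ∧
      ∀ k : ℕ, ∀ᶠ n : ℕ in atTop,
      |(1 - 1 / (Nat.card (CC (mm k n) n) : ℝ)) ^ Nat.card (WW T (mm k n) n) - 1 / 2| ≤
        1 / ((i : ℝ) + 1) / 2 := fun i => dens (by positivity)
  choose s T hs hT using hd
  filter_upwards [ae_all_iff.2 fun p : Prog => ae_all_iff.2 fun c : ℕ => ae_all_iff.2 fun k : ℕ =>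
    ae_all_iff.2 fun q : ℕ => ae_all_iff.2 fun i : ℕ =>
      ae_badA (k := k) (T := T i) (δ := 1 / ((i : ℝ) + 1)) (by positivity) (hT i k) p c q,
    ae_all_iff.2 fun k : ℕ => ae_all_iff.2 fun i : ℕ => upper (hs i) k]
    with O hO hU k δ hδ
  obtain ⟨i, hi⟩ := exists_nat_one_div_lt hδ
  refine ⟨AL O k (T i), al_mem O k (T i), fun c B hB ε hε => ?_, hU k i⟩
  obtain ⟨p, hp⟩ := hB
  obtain ⟨q, hq⟩ := exists_nat_one_div_lt hε
  filter_upwards [hO p c k q i, eventually_ge_atTop 1] with n hn h1 v hv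
  refine le_trans ?_ (of_notMemA hp hn v (aA_le hq.le h1 hv))
  have : (0 : ℝ) < 2 ^ n := by positivity
  nlinarith

end Pool.Agent.LibRV74
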