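import Pool.Agent.LibRV74.Z2
import Pool.Agent.LibRV74.E1

/-!
[RV74 I4] The sum of the bounds is summable. Adapt `bd_summable` (F3.lean).

`dI i ^ 2 = (1 + i)^2 / (4 * 2^i)`. With `a = aA q n`, `a + 2 i ≤ n`: `(n - (a + 2 i)) / 2 ≤ n/2 - a/2 - i` in the
reals, so the first term is at most
`2 * 2^(n/2 - a/2 - i) * 36 * 4 * 4 * 2^i / ((1+i)^2 √(2^n)) = 1152 * 2^(-a/2) / (1+i)^2`, and
`2^(-a/2) ≤ n^(-(1 + 1/(q+1)))`, `∑ 1/(1+i)^2 ≤ 2` (e.g. `1/(1+i)^2 ≤ 2/((1+i)(2+i))`, telescoping). The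
second term: `T0 / card CC ≤ 2^(-5n)` as in F3, `(512 * 2^i + 2^n) * 2^(-5n) * 2^(n+1)`, at most `n + 1` terms.
-/

namespace Pool.Agent.LibRV74

open Filter Pool.Agent.LibNexp Pool.Agent.LibBHN Pool.Agent.LibRO74

/-- `2 ^ (aA q n) ≥ (n ^ (1 + 1/(q+1))) ^ 2`. -/
private lemma I4_pow (q n : ℕ) (hn : 1 ≤ n) :
    ((n : ℝ) ^ (1 + 1 / ((q : ℝ) + 1))) ^ 2 ≤ 2 ^ (aA q n) := by
  have hn0 : (0 : ℝ) < n := by exact_mod_cast hn
  have h1 : 2 * (1 + 1 / ((q : ℝ) + 1)) * Real.logb 2 n ≤ (aA q n : ℝ) := Nat.le_ceil _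
  calc ((n : ℝ) ^ (1 + 1 / ((q : ℝ) + 1))) ^ 2
      = (n : ℝ) ^ (2 * (1 + 1 / ((q : ℝ) + 1))) := by
        rw [← Real.rpow_natCast, ← Real.rpow_mul hn0.le]
        congr 1
        push_cast
        ring
    _ = ((2 : ℝ) ^ (Real.logb 2 n)) ^ (2 * (1 + 1 / ((q : ℝ) + 1))) := by
        rw [Real.rpow_logb (by norm_num) (by norm_num) hn0]
    _ = (2 : ℝ) ^ (Real.logb 2 n * (2 * (1 + 1 / ((q : ℝ) + 1)))) :=
        (Real.rpow_mul (by norm_num) _ _).symm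
    _ ≤ (2 : ℝ) ^ (aA q n : ℝ) :=
        Real.rpow_le_rpow_of_exponent_le (by norm_num) (by linarith)
    _ = 2 ^ (aA q n) := Real.rpow_natCast _ _

private lemma I4_dI (i : ℕ) : (dI i / 2) ^ 2 = (1 + (i : ℝ)) ^ 2 / (16 * 2 ^ i) := by
  have h : √((2 : ℝ) ^ i) ^ 2 = 2 ^ i := Real.sq_sqrt (by positivity)
  unfold dI
  rw [div_div, div_pow]
  congr 1
  calc (2 * √((2 : ℝ) ^ i) * 2) ^ 2 = 16 * √((2 : ℝ) ^ i) ^ 2 := by ring
    _ = 16 * 2 ^ i := by rw [h]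

/-- The first term. -/
private lemma I4_one (q n i : ℕ) (hn : 1 ≤ n) (hi : aA q n + 2 * i ≤ n) :
    (2 : ℝ) ^ ((n - (aA q n + 2 * i)) / 2 + 1) * (36 / ((dI i / 2) ^ 2 * √(2 ^ n))) ≤
      1152 * (1 / (n : ℝ) ^ (1 + 1 / ((q : ℝ) + 1))) * (1 / (1 + (i : ℝ)) ^ 2) := by
  have hn0 : (0 : ℝ) < n := by exact_mod_cast hn
  set η : ℝ := 1 + 1 / ((q : ℝ) + 1) with hη
  have hp := I4_pow q n hn
  rw [← hη] at hp
  set a := aA q n
  have hP : 0 < (n : ℝ) ^ η := Real.rpow_pos_of_pos hn0 _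
  set P := (n : ℝ) ^ η
  set S := √((2 : ℝ) ^ n) with hS
  have hS0 : 0 < S := Real.sqrt_pos.2 (by positivity)
  have hS2 : S ^ 2 = 2 ^ n := Real.sq_sqrt (by positivity)
  set D : ℝ := (2 : ℝ) ^ ((n - (a + 2 * i)) / 2) with hD
  have hD0 : 0 < D := by positivity
  have h1 : (D * 2 ^ i * P) ^ 2 ≤ S ^ 2 := by
    have e1 : D ^ 2 ≤ 2 ^ (n - (a + 2 * i)) := by
      rw [hD, ← pow_mul]
      exact pow_le_pow_right₀ (by norm_num) (Nat.div_mul_le_self _ _)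
    calc (D * 2 ^ i * P) ^ 2 = D ^ 2 * (2 ^ i) ^ 2 * P ^ 2 := by ring
      _ ≤ 2 ^ (n - (a + 2 * i)) * (2 ^ i) ^ 2 * 2 ^ a := by
          refine mul_le_mul ?_ hp (by positivity) (by positivity)
          exact mul_le_mul_of_nonneg_right e1 (by positivity)
      _ = 2 ^ n := by
          rw [← pow_mul, ← pow_add, ← pow_add]
          congr 1
          omega
      _ = S ^ 2 := hS2.symm
  have h2 : D * 2 ^ i * P ≤ S := le_of_sq_le_sq h1 hS0.le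
  have hi0 : (0 : ℝ) < 1 + (i : ℝ) := by positivity
  rw [pow_succ, I4_dI]
  have e2 : D * 2 * (36 / ((1 + (i : ℝ)) ^ 2 / (16 * 2 ^ i) * S)) =
      1152 * (D * 2 ^ i / S) * (1 / (1 + (i : ℝ)) ^ 2) := by
    field_simp
    ring
  rw [e2]
  refine mul_le_mul_of_nonneg_right ?_ (by positivity)
  refine mul_le_mul_of_nonneg_left ?_ (by norm_num)
  rw [div_le_div_iff₀ hS0 hP, one_mul]
  exact h2

/-- The second term. -/
private lemma I4_two (c k n b i : ℕ) (hi : i ≤ n)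
    (hl : 2 * 2 ^ n * tim c k n n + 2 * 4 ^ n ≤ 2 ^ (2 ^ mm k n)) :
    (2 : ℝ) ^ ((n - b) / 2 + 1) * ((32 / (dI i / 2) ^ 2 + 2 ^ n) *
      ((tim c k n n : ℕ) / (Nat.card (CC (mm k n) n) : ℝ))) ≤ 513 * (1 / 8) ^ n := by
  have hm := mm_ge k n
  set m := mm k n
  rw [card_CC]
  set t : ℕ := tim c k n n
  have h1 : (2 : ℝ) * 2 ^ n * t ≤ 2 ^ (2 ^ m) := by
    have h2 : 2 * 2 ^ n * t ≤ 2 ^ (2 ^ m) := by omega
    exact_mod_cast h2
  have h3 : (2 : ℝ) ^ (2 ^ m) * 2 ^ (4 * n) ≤ 2 ^ (2 ^ m + (m - n)) := by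
    rw [← pow_add]
    exact pow_le_pow_right₀ (by norm_num) (by omega)
  have h4 : (t : ℝ) / ((2 ^ (2 ^ m + (m - n)) : ℕ) : ℝ) ≤ 1 / (2 * 2 ^ n * 2 ^ (4 * n)) := by
    have e : ((2 ^ (2 ^ m + (m - n)) : ℕ) : ℝ) = (2 : ℝ) ^ (2 ^ m + (m - n)) := by
      push_cast
      rfl
    rw [e, div_le_div_iff₀ (by positivity) (by positivity), one_mul]
    calc (t : ℝ) * (2 * 2 ^ n * 2 ^ (4 * n)) = 2 * 2 ^ n * t * 2 ^ (4 * n) := by ring
      _ ≤ 2 ^ (2 ^ m) * 2 ^ (4 * n) := mul_le_mul_of_nonneg_right h1 (by positivity)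
      _ ≤ _ := h3
  have h5 : (2 : ℝ) ^ ((n - b) / 2 + 1) ≤ 2 * 2 ^ n := by
    rw [pow_succ, mul_comm]
    apply mul_le_mul_of_nonneg_left _ (by norm_num)
    exact pow_le_pow_right₀ (by norm_num) (by omega)
  have h6 : 32 / (dI i / 2) ^ 2 + (2 : ℝ) ^ n ≤ 513 * 2 ^ n := by
    have hi1 : (1 : ℝ) ≤ (1 + (i : ℝ)) ^ 2 := one_le_pow₀ (by
      have : (0 : ℝ) ≤ i := Nat.cast_nonneg i
      linarith)
    have e : 32 / (dI i / 2) ^ 2 = 512 * 2 ^ i / (1 + (i : ℝ)) ^ 2 := by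
      rw [I4_dI]
      field_simp
      norm_num
    have h7 : 512 * (2 : ℝ) ^ i / (1 + (i : ℝ)) ^ 2 ≤ 512 * 2 ^ i :=
      div_le_self (by positivity) hi1
    have h8 : (2 : ℝ) ^ i ≤ 2 ^ n := pow_le_pow_right₀ (by norm_num) hi
    rw [e]
    linarith
  have h9 : (0 : ℝ) ≤ 32 / (dI i / 2) ^ 2 + 2 ^ n := by positivity
  calc (2 : ℝ) ^ ((n - b) / 2 + 1) * ((32 / (dI i / 2) ^ 2 + 2 ^ n) *
      ((t : ℕ) / ((2 ^ (2 ^ m + (m - n)) : ℕ) : ℝ)))
      ≤ (2 * 2 ^ n) * ((513 * 2 ^ n) * (1 / (2 * 2 ^ n * 2 ^ (4 * n)))) := by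
        apply mul_le_mul h5 _ (by positivity) (by positivity)
        exact mul_le_mul h6 h4 (by positivity) (by positivity)
    _ = 513 * (1 / 8) ^ n := by
        have e : (2 : ℝ) ^ (4 * n) = 2 ^ n * 8 ^ n := by
          rw [show (8 : ℝ) = 2 ^ 3 by norm_num, ← pow_mul, ← pow_add]
          congr 1
          ring
        rw [e, one_div_pow]
        field_simp

private lemma I4_sum (N : ℕ) :
    ∑ i ∈ Finset.range (N + 1), 1 / (1 + (i : ℝ)) ^ 2 ≤ 2 - 1 / ((N : ℝ) + 1) := by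
  induction N with
  | zero => norm_num
  | succ N ih =>
    rw [Finset.sum_range_succ]
    have hN : (0 : ℝ) ≤ N := Nat.cast_nonneg N
    have h1 : 1 / (1 + ((N + 1 : ℕ) : ℝ)) ^ 2 ≤ 1 / ((N : ℝ) + 1) - 1 / (((N + 1 : ℕ) : ℝ) + 1) := by
      push_cast
      rw [div_sub_div _ _ (by positivity) (by positivity),
        div_le_div_iff₀ (by positivity) (by positivity)]
      nlinarith
    linarith

theorem bd2_summable (c k q : ℕ) : ∃ f : ℕ → ℝ, Summable f ∧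
    ∀ᶠ n : ℕ in atTop,
      ∑ i ∈ (Finset.range (n / 2 + 1)).filter (fun i => aA q n + 2 * i ≤ n),
        2 ^ ((n - (aA q n + 2 * i)) / 2 + 1) *
          bdA (dI i) n (tim c k n n) (Nat.card (CC (mm k n) n)) ≤ f n := by
  refine ⟨fun n => 2304 * (1 / (n : ℝ) ^ (1 + 1 / ((q : ℝ) + 1))) + 513 * (1 / 4) ^ n, ?_, ?_⟩
  · apply Summable.add
    · apply Summable.mul_left
      apply Real.summable_one_div_nat_rpow.mpr
      have : 0 < 1 / ((q : ℝ) + 1) := by positivity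
      linarith
    · apply Summable.mul_left
      exact summable_geometric_of_lt_one (by norm_num) (by norm_num)
  · filter_upwards [eventually_ge_atTop 1, large c k] with n hn hl
    have hn0 : (0 : ℝ) < n := by exact_mod_cast hn
    have hP : 0 < (n : ℝ) ^ (1 + 1 / ((q : ℝ) + 1)) := Real.rpow_pos_of_pos hn0 _
    set P := (n : ℝ) ^ (1 + 1 / ((q : ℝ) + 1)) with hPdef
    have hterm : ∀ i ∈ (Finset.range (n / 2 + 1)).filter (fun i => aA q n + 2 * i ≤ n),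
        (2 : ℝ) ^ ((n - (aA q n + 2 * i)) / 2 + 1) *
          bdA (dI i) n (tim c k n n) (Nat.card (CC (mm k n) n)) ≤
        1152 * (1 / P) * (1 / (1 + (i : ℝ)) ^ 2) + 513 * (1 / 8) ^ n := by
      intro i hi
      rw [Finset.mem_filter, Finset.mem_range] at hi
      unfold bdA
      rw [mul_add]
      exact add_le_add (I4_one q n i hn hi.2)
        (I4_two c k n (aA q n + 2 * i) i (by omega) hl)
    refine (Finset.sum_le_sum hterm).trans ?_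
    refine (Finset.sum_le_sum_of_subset_of_nonneg (Finset.filter_subset _ _)
      (fun i _ _ => by positivity)).trans ?_
    rw [Finset.sum_add_distrib, ← Finset.mul_sum, Finset.sum_const, Finset.card_range,
      nsmul_eq_mul]
    refine add_le_add ?_ ?_
    · have h1 := I4_sum (n / 2)
      have h2 : (0 : ℝ) ≤ 1 / (((n / 2 : ℕ) : ℝ) + 1) := by positivity
      calc 1152 * (1 / P) * ∑ i ∈ Finset.range (n / 2 + 1), 1 / (1 + (i : ℝ)) ^ 2
          ≤ 1152 * (1 / P) * 2 :=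
            mul_le_mul_of_nonneg_left (by linarith) (by positivity)
        _ = 2304 * (1 / P) := by ring
    · have h1 : ((n / 2 + 1 : ℕ) : ℝ) ≤ 2 ^ n := by
        have h2 : n / 2 + 1 ≤ 2 ^ n := by
          have h3 : n < 2 ^ n := Nat.lt_two_pow_self
          omega
        exact_mod_cast h2
      calc ((n / 2 + 1 : ℕ) : ℝ) * (513 * (1 / 8) ^ n) ≤ 2 ^ n * (513 * (1 / 8) ^ n) :=
            mul_le_mul_of_nonneg_right h1 (by positivity)
        _ = 513 * (1 / 4) ^ n := by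
            have e : (1 / 4 : ℝ) ^ n = 2 ^ n * (1 / 8) ^ n := by
              rw [← mul_pow]
              norm_num
            rw [e]
            ring

end Pool.Agent.LibRV74
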