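import Pool.Agent.LibRV74.I3
import Pool.Agent.LibRV74.I4
import Pool.Agent.LibRV74.F5
import Pool.Agent.LibRO74.T5

/-!
Borel-Cantelli for all error bounds together.
-/

namespace Pool.Agent.LibRV74

open MeasureTheory Filter Pool.Agent.LibNexp Pool.Agent.LibBHN Pool.Agent.LibRO74

theorem dI_pos (i : ℕ) : 0 < dI i := by
  unfold dI
  positivity

theorem bdA_nonneg (δ : ℝ) (n T0 a : ℕ) : 0 ≤ bdA δ n T0 a := by
  unfold bdA
  positivity

theorem ae_badU (p : Prog) (c k q : ℕ) :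
    ∀ᵐ O ∂rnd, ∀ᶠ n : ℕ in atTop, ∀ i : ℕ,
      O ∉ BadA p c k (TT n) (dI i) n (aA q n + 2 * i) := by
  obtain ⟨f, hf, h1⟩ := bd2_summable c k q
  have h2 : ∀ᵐ O ∂rnd, ∀ᶠ n : ℕ in atTop,
      O ∉ ⋃ i ∈ (Finset.range (n / 2 + 1)).filter (fun i => aA q n + 2 * i ≤ n),
        BadA p c k (TT n) (dI i) n (aA q n + 2 * i) := by
    refine bcS hf ?_
    filter_upwards [dens2 k, h1] with n hn h3
    refine (measure_biUnion_finset_le _ _).trans ?_
    refine le_trans (Finset.sum_le_sum fun i hi => rnd_badA (dI_pos i) (hn i ?_) p c _) ?_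
    · have := Finset.mem_range.1 (Finset.mem_filter.1 hi).1
      omega
    · rw [← ENNReal.ofReal_sum_of_nonneg fun i _ =>
        mul_nonneg (by positivity) (bdA_nonneg _ _ _ _)]
      exact ENNReal.ofReal_le_ofReal h3
  filter_upwards [h2] with O hO
  filter_upwards [hO] with n hn i hi
  refine hn ?_
  obtain ⟨v, hv, h4⟩ := hi
  rw [Set.mem_iUnion₂]
  refine ⟨i, ?_, v, hv, h4⟩
  rw [Finset.mem_filter, Finset.mem_range]
  omega

end Pool.Agent.LibRV74
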