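import Pool.Agent.LibRV74.J4

/-!
[RV74 J5] The advice which gives the number of hit strings is correct. Adapt `ab_correct` (H5.lean).

`pair x v ∈ AB2` iff (`val_Thr2`, `cnt_RB2`) `val v + card (TT n) ≤ cnt_x + 2^(|v|-1)` iff (by `h`)
`nCt O k (TT n) n ≤ cnt_x`, `cnt_x = cnt (mm k n) (fun z => FF (TT n) x z ∧ Hit O z q)`, iff `x ∉ AL O k (TT n)`.
-/

namespace Pool.Agent.LibRV74

open Pool.Agent.LibNexp Pool.Agent.LibBHN Pool.Agent.LibRO74

private theorem J5_mono {m : ℕ} {P Q : List Bool → Prop}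
    (h : ∀ z : List Bool, z.length = m → P z → Q z) : cnt m P ≤ cnt m Q := by
  classical
  unfold cnt
  refine Finset.card_le_card fun t ht => ?_
  rw [Finset.mem_filter] at ht ⊢
  exact ⟨ht.1, h _ (length_bits m t) ht.2⟩

private theorem J5_lt {m : ℕ} {P Q : List Bool → Prop}
    (h : ∀ z : List Bool, z.length = m → P z → Q z) {z : List Bool} (hz : z.length = m)
    (h1 : Q z) (h2 : ¬ P z) : cnt m P < cnt m Q := by
  classical
  have hb : bits m (val z) = z := by
    rw [← hz]
    exact bits_val z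
  unfold cnt
  refine Finset.card_lt_card ?_
  rw [Finset.ssubset_iff_of_subset]
  · refine ⟨val z, ?_, ?_⟩
    · rw [Finset.mem_filter, Finset.mem_range]
      refine ⟨?_, ?_⟩
      · rw [← hz]
        exact cnt_val_lt z
      · rw [hb]
        exact h1
    · rw [Finset.mem_filter]
      rintro ⟨-, hP⟩
      rw [hb] at hP
      exact h2 hP
  · intro t ht
    rw [Finset.mem_filter] at ht ⊢
    exact ⟨ht.1, h _ (length_bits m t) ht.2⟩

private theorem J5_al {O : List Bool → Bool} {k n : ℕ} {T : Finset (List Bool)} {x : List Bool}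
    (hx : x.length = n) : x ∉ AL O k T ↔ nCt O k T n ≤
      cnt (mm k n) (fun z => FF T x z ∧ Hit O z (List.replicate (mm k n - n) false)) := by
  unfold nCt
  constructor
  · intro hal
    refine J5_mono fun z hz hz2 => ?_
    obtain ⟨⟨x', t, z2, h2, h3, h4⟩, h6⟩ := hz2
    refine ⟨⟨x', t, z2, h2, h3.trans hx.symm, h4, ?_⟩, h6⟩
    rintro rfl
    apply hal
    refine ⟨t, h4, z2, ?_, ?_⟩
    · rw [← h2, hz, hx]
    · rw [← h2, hx]
      exact h6
  · intro hle hal
    obtain ⟨t, ht, z2, h1, h2⟩ := hal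
    rw [hx] at h1 h2
    refine absurd hle (not_le.2 (J5_lt ?_ h1 ?_ ?_))
    · rintro z - ⟨⟨x', t', z2', h3, h4, h5, -⟩, h6⟩
      exact ⟨⟨x', t', z2', h3, h4.trans hx, h5⟩, h6⟩
    · exact ⟨⟨x, t, z2, rfl, hx, ht⟩, h2⟩
    · rintro ⟨⟨x', t', z2', h3, h4, -, h5⟩, -⟩
      exact h5 (List.append_inj h3 h4.symm).1.symm

theorem ab2_correct {O : List Bool → Bool} {k n : ℕ} {v : List Bool}
    (hv : 1 ≤ v.length) (hvn : v.length ≤ n)
    (h : val v + (TT n).card = nCt O k (TT n) n + 2 ^ (v.length - 1)) :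
    ∀ x : List Bool, x.length = n → (x ∉ AL2 O k ↔ pair x v ∈ AB2 O k) := by
  intro x hx
  subst hx
  have hmm := mm_ge k x.length
  have hal2 : x ∉ AL2 O k ↔ x ∉ AL O k (TT x.length) := Iff.rfl
  rw [hal2, J5_al (T := TT x.length) rfl]
  have hm : v.length ≤ mm k x.length + 1 := by omega
  have hc := cnt_RB2 (O := O) (m := mm k x.length)
    (q := List.replicate (mm k x.length - x.length) false) (x := x) hv hm (by omega)
  constructor
  · intro hle
    have hT : Thr2 k x v (List.replicate (mm k x.length - x.length) false)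
        (v ++ (List.replicate (x.length - v.length) false ++
          true :: List.replicate (mm k x.length + 2 - x.length) false)) :=
      ⟨hv, hvn, rfl, rfl⟩
    obtain ⟨h1, h2⟩ := val_Thr2 hT
    refine ⟨x, v, _, _, rfl, hT, mm k x.length + 2, h2, ?_⟩
    rw [h1]
    omega
  · rintro ⟨x', v', q, t, h1, hT, n', h2, h3⟩
    obtain ⟨rfl, rfl⟩ := pair_injective h1
    obtain ⟨h4, h5⟩ := val_Thr2 hT
    obtain ⟨-, -, h6, -⟩ := hT
    have h7 : n' = mm k x.length + 2 := by omega
    rw [h7, h6, h4] at h3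
    omega

end Pool.Agent.LibRV74
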