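import Pool.Agent.LibRV74.J3
import Pool.Agent.LibRV74.J5
import Pool.Agent.LibRV74.HB

/-!
The upper bound for the language with all error bounds.
-/

namespace Pool.Agent.LibRV74

open MeasureTheory Filter Pool.Agent.LibNexp Pool.Agent.LibBHN Pool.Agent.LibRO74

theorem ae_badC2 (k : ℕ) : ∀ᵐ O ∂rnd, ∀ᶠ n : ℕ in atTop, O ∉ BadC k n (TT n) n := by
  have hs : Summable fun n : ℕ => 128 / (n : ℝ) ^ 2 := by
    have h2 : Summable fun n : ℕ => 1 / (n : ℝ) ^ 2 :=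
      Real.summable_one_div_nat_pow.2 (by norm_num)
    refine (h2.mul_left 128).congr fun n => ?_
    ring
  refine bcS hs ?_
  filter_upwards [eventually_ge_atTop 4] with n hn
  obtain ⟨M, hM⟩ := badC_dep k n (TT n) n
  exact rnd_fib (T := TT n) (m := mm k n) (n := n) (measurable_of_agree M hM) fun O =>
    cnt_tail (fun t ht => (mem_TT.1 ht).1) le_rfl hn O

theorem upper_of2 {O : List Bool → Bool} {k n : ℕ} (hn : O ∉ BadC k n (TT n) n)
    (h1 : 1 ≤ n / 2 + Nat.log 2 n) (h2 : n / 2 + Nat.log 2 n ≤ n) :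
    ∃ v : List Bool, v.length = n / 2 + Nat.log 2 n ∧ ∀ x : List Bool, x.length = n →
      (x ∉ AL2 O k ↔ pair x v ∈ AB2 O k) := by
  unfold BadC at hn
  rw [Set.mem_setOf_eq, not_not, Nat.sub_self, pow_zero, one_mul] at hn
  obtain ⟨h3, h4⟩ := hn
  obtain ⟨l, hl⟩ : ∃ l, l = n / 2 + Nat.log 2 n := ⟨_, rfl⟩
  rw [← hl] at h1 h2 h3 h4 ⊢
  have h5 : 2 ^ l = 2 ^ (l - 1) + 2 ^ (l - 1) := by
    rw [← two_mul, ← pow_succ']
    congr 1
    omega
  have h6 : nCt O k (TT n) n + 2 ^ (l - 1) - (TT n).card < 2 ^ l := by omega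
  refine ⟨bits l (nCt O k (TT n) n + 2 ^ (l - 1) - (TT n).card), length_bits _ _, ?_⟩
  refine ab2_correct ?_ ?_ ?_
  · rw [length_bits]
    exact h1
  · rw [length_bits]
    exact h2
  · rw [length_bits, val_bits h6]
    omega

theorem upper2 (k : ℕ) :
    ∀ᵐ O ∂rnd, ∃ B ∈ NEXPLang O, ∀ᶠ n : ℕ in atTop, ∃ v : List Bool,
      (v.length : ℝ) ≤ n / 2 + Real.logb 2 n ∧
      ∀ x : List Bool, x.length = n → (x ∉ AL2 O k ↔ pair x v ∈ B) := by
  filter_upwards [ae_badC2 k] with O hO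
  refine ⟨_, ab2_mem O k, ?_⟩
  filter_upwards [hO, half_log 0, eventually_ge_atTop 2] with n h1 h2 h3
  obtain ⟨v, hv, hx⟩ := upper_of2 h1 (by omega) (by omega)
  refine ⟨v, ?_, hx⟩
  rw [hv]
  push_cast
  refine add_le_add ?_ ?_
  · exact Nat.cast_div_le
  · have h4 : (2 : ℝ) ^ (Nat.log 2 n) ≤ n := by
      exact_mod_cast Nat.pow_log_le_self 2 (by omega)
    rw [Real.le_logb_iff_rpow_le (by norm_num) (by exact_mod_cast (by omega : 0 < n)),
      Real.rpow_natCast]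
    exact h4

end Pool.Agent.LibRV74
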