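import Pool.Agent.LibRV74.Z1
import Pool.Agent.LibRO74.L1
import Pool.Agent.LibRO74.L2

/-!
[RV74 H1] The counting relation is in the class (arguments `q x v s`).

Adapt `nexp_RR` (LibRO74/L1): second part literally, with `v` for `x'`. First part: `nexp_ex` for `z`, `x'`
and the rest `w` (`z = x' ++ w`), `|x'| = |x|` (`nexp_lin 1 0`), `x' ≠ x` (`nexp_ne`), `∃ t ∈ T, t <+: w`
(finite union: induction on `T`, or `NEXP.or`; `nexp_prefix`, `nexp_false`, see G1), `Hit O z q` (`nexp_hit`).
-/

namespace Pool.Agent.LibRV74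

open Pool.Agent.LibNexp Pool.Agent.LibBHN Pool.Agent.LibRO74

private theorem H1_flatMap (l : List Bool) :
    l.flatMap (fun _ => [false]) = List.replicate l.length false := by
  induction l with
  | nil => rfl
  | cons b l ih => rw [List.flatMap_cons, ih]; rfl

private theorem H1_part1 (O : List Bool → Bool) (T : Finset (List Bool)) :
    NEXP O fun e : Fin 4 → List Bool => ∃ z x' w : List Bool, e 3 = false :: z ∧
      (z = x' ++ w ∧ (x'.length = 1 * (e 1).length + 0 ∧ (x' ≠ e 1 ∧
        ((∃ t ∈ T, t <+: w) ∧ Hit O z (e 0))))) := by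
  have h1 : NEXP O fun e : Fin 7 → List Bool => e 3 = false :: e 4 ∧
      (e 4 = e 5 ++ e 6 ∧ ((e 5).length = 1 * (e 1).length + 0 ∧ (e 5 ≠ e 1 ∧
        ((∃ t ∈ T, t <+: e 6) ∧ Hit O (e 4) (e 0))))) := by
    have ha : NEXP O fun e : Fin 7 → List Bool => e 3 = false :: e 4 := by
      refine ((nexp_subst (O := O) (fun _ => []) (fun b => [b]) [false]).reindex
        ![0, 4, 3]).congr fun e => ?_
      simp [misc_flatMap_nil]
    have hh : NEXP O fun e : Fin 7 → List Bool => Hit O (e 4) (e 0) := by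
      refine ((nexp_hit (O := O)).reindex ![4, 0]).congr fun e => ?_
      simp
    exact ha.and ((nexp_append 5 6 4).and ((nexp_lin 1 0 1 5).and ((nexp_ne 5 1).and
      ((NEXP.finite_exists T (R := fun t (e : Fin 7 → List Bool) => t <+: e 6)
        fun t _ => nexp_prefix t 6).and hh))))
  refine nexp_ex (R := fun (e : Fin 4 → List Bool) z => ∃ x' w : List Bool, e 3 = false :: z ∧
      (z = x' ++ w ∧ (x'.length = 1 * (e 1).length + 0 ∧ (x' ≠ e 1 ∧
        ((∃ t ∈ T, t <+: w) ∧ Hit O z (e 0)))))) ?_ (g := fun n => n) PolyB.id ?_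
  · refine nexp_ex (R := fun (e : Fin 5 → List Bool) x' => ∃ w : List Bool, e 3 = false :: e 4 ∧
      (e 4 = x' ++ w ∧ (x'.length = 1 * (e 1).length + 0 ∧ (x' ≠ e 1 ∧
        ((∃ t ∈ T, t <+: w) ∧ Hit O (e 4) (e 0)))))) ?_ (g := fun n => n) PolyB.id ?_
    · refine nexp_ex (R := fun (e : Fin 6 → List Bool) w => e 3 = false :: e 4 ∧
        (e 4 = e 5 ++ w ∧ ((e 5).length = 1 * (e 1).length + 0 ∧ (e 5 ≠ e 1 ∧
        ((∃ t ∈ T, t <+: w) ∧ Hit O (e 4) (e 0)))))) h1 (g := fun n => n) PolyB.id ?_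
      rintro e w ⟨-, h, -⟩
      have := len_le_size e 4
      rw [h, List.length_append] at this
      omega
    · rintro e x' ⟨w, -, h, -⟩
      have := len_le_size e 4
      rw [h, List.length_append] at this
      omega
  · rintro e z ⟨x', w, h, -⟩
    have := len_le_size e 3
    rw [h, List.length_cons] at this
    omega

private theorem H1_part2 (O : List Bool → Bool) : NEXP O fun e : Fin 4 → List Bool =>
    ∃ c b : List Bool, e 3 = c ++ b ∧ [true] <+: c ∧ (c.length = 1 * (e 2).length + 0 ∧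
      b = List.replicate b.length false) := by
  have h1 : NEXP O fun e : Fin 6 → List Bool => e 3 = e 4 ++ e 5 ∧ [true] <+: e 4 ∧
      ((e 4).length = 1 * (e 2).length + 0 ∧ e 5 = List.replicate (e 5).length false) := by
    refine NEXP.and (nexp_append 4 5 3) (NEXP.and (nexp_prefix [true] 4)
      (NEXP.and (nexp_lin 1 0 2 4) ?_))
    refine ((nexp_subst (O := O) (fun _ => [false]) (fun _ => []) []).reindex
        ![5, 0, 5]).congr fun e => ?_
    simp [misc_flatMap_nil, H1_flatMap]
  refine nexp_ex (R := fun (e : Fin 4 → List Bool) c => ∃ b : List Bool, e 3 = c ++ b ∧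
    [true] <+: c ∧ (c.length = 1 * (e 2).length + 0 ∧ b = List.replicate b.length false)) ?_
    (g := fun n => n) PolyB.id ?_
  · refine nexp_ex (R := fun (e : Fin 5 → List Bool) b => e 3 = e 4 ++ b ∧ [true] <+: e 4 ∧
      ((e 4).length = 1 * (e 2).length + 0 ∧ b = List.replicate b.length false)) h1
      (g := fun n => n) PolyB.id ?_
    rintro e z ⟨h, -⟩
    have := len_le_size e 3
    rw [h, List.length_append] at this
    omega
  · rintro e z ⟨w, h, -⟩
    have := len_le_size e 3
    rw [h, List.length_append] at this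
    omega

theorem nexp_RB (O : List Bool → Bool) (T : Finset (List Bool)) :
    NEXP O fun e : Fin 4 → List Bool => RB O T (e 0) (e 1) (e 2) (e 3) := by
  refine ((H1_part1 O T).or (H1_part2 O)).congr fun e => ?_
  unfold RB FF
  refine or_congr ?_ ?_
  · constructor
    · rintro ⟨z, x', w, h1, h2, h3, h4, ⟨t, ht, z2, h5⟩, h6⟩
      refine ⟨z, h1, ⟨x', t, z2, by rw [h5]; exact h2, by omega, ht, h4⟩, h6⟩
    · rintro ⟨z, h1, ⟨x', t, z2, h2, h3, ht, h4⟩, h6⟩
      exact ⟨z, x', t ++ z2, h1, h2, by omega, h4, ⟨t, ht, z2, rfl⟩, h6⟩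
  · constructor
    · rintro ⟨c, b, h1, ⟨a, rfl⟩, h3, h4⟩
      refine ⟨a, b, by rw [h1]; rfl, ?_, h4⟩
      rw [List.length_append, List.length_singleton] at h3
      omega
    · rintro ⟨a, b, h1, h2, h3⟩
      refine ⟨true :: a, b, by rw [h1]; rfl, ⟨a, rfl⟩, ?_, h3⟩
      rw [List.length_cons]
      omega

end Pool.Agent.LibRV74
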