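import Pool.Agent.LibRV74.Z1
import Pool.Agent.LibRO74.L1
import Pool.Agent.LibRO74.L2

/-!
[RV74 H4] Arithmetic of the threshold and of the counting relation.

`cnt_RB`: exactly as `cnt_RR` (LibRO74/L1), with `FF T x z ∧ Hit O z q` for `Hit O z q`. `val_Thr`:
`val (x ++ y) = val x + 2 ^ |x| * val y` (see `L2_val`), `val (0..0) = 0`; the length: `2 * |x| ≤ 5 * |x| ≤ mm k |x|`.
-/

namespace Pool.Agent.LibRV74

open Pool.Agent.LibNexp Pool.Agent.LibBHN Pool.Agent.LibRO74

private theorem H4_val_rep (n : ℕ) : val (List.replicate n false) = 0 := by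
  induction n with
  | zero => rfl
  | succ n ih => rw [List.replicate_succ, val, ih]; rfl

private theorem H4_val_append (a b : List Bool) :
    val (a ++ b) = val a + 2 ^ a.length * val b := by
  induction a with
  | nil => simp [val]
  | cons c a ih =>
    rw [List.cons_append, val, val, ih, List.length_cons, pow_succ]
    ring

private theorem H4_dummy {m n t : ℕ} (hn : n ≤ m) (ht : t < 2 ^ m) :
    (∃ a b : List Bool, bits m t = a ++ b ∧ a.length = n ∧ b = List.replicate b.length false) ↔
      t < 2 ^ n := by
  constructor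
  · rintro ⟨a, b, h1, h2, h3⟩
    have h4 := val_bits ht
    rw [h1, H4_val_append, h3, H4_val_rep, mul_zero, add_zero] at h4
    rw [← h4, ← h2]
    exact cnt_val_lt a
  · intro h
    refine ⟨bits n t, List.replicate (m - n) false, ?_, length_bits n t, by simp⟩
    have h5 : (bits n t ++ List.replicate (m - n) false).length = m := by
      rw [List.length_append, length_bits, List.length_replicate]
      omega
    have h6 : val (bits n t ++ List.replicate (m - n) false) = t := by
      rw [H4_val_append, H4_val_rep, mul_zero, add_zero, val_bits h]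
    have h7 := bits_val (bits n t ++ List.replicate (m - n) false)
    rwa [h5, h6] at h7

theorem cnt_RB {O : List Bool → Bool} {T : Finset (List Bool)} {m : ℕ} {q x v : List Bool}
    (hv : 1 ≤ v.length) (hm : v.length ≤ m + 1) :
    cnt (m + 1) (RB O T q x v) = cnt m (fun z => FF T x z ∧ Hit O z q) + 2 ^ (v.length - 1) := by
  classical
  unfold cnt
  have hev : ∀ t : ℕ, bits (m + 1) (2 * t) = false :: bits m t := by
    intro t
    have h1 : (2 * t) % 2 = 0 := by omega
    have h2 : 2 * t / 2 = t := by omega
    rw [bits, h1, h2]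
    rfl
  have hod : ∀ t : ℕ, bits (m + 1) (2 * t + 1) = true :: bits m t := by
    intro t
    have h1 : (2 * t + 1) % 2 = 1 := by omega
    have h2 : (2 * t + 1) / 2 = t := by omega
    rw [bits, h1, h2]
    rfl
  have hRe : ∀ t : ℕ, RB O T q x v (bits (m + 1) (2 * t)) ↔
      (FF T x (bits m t) ∧ Hit O (bits m t) q) := by
    intro t
    rw [hev]
    constructor
    · rintro (⟨z, h1, h2⟩ | ⟨a, b, h1, -⟩)
      · rw [List.cons.injEq] at h1
        rw [h1.2]; exact h2
      · simp at h1
    · intro h
      exact Or.inl ⟨_, rfl, h⟩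
  have hRo : ∀ t : ℕ, t < 2 ^ m → (RB O T q x v (bits (m + 1) (2 * t + 1)) ↔
      t < 2 ^ (v.length - 1)) := by
    intro t ht
    rw [hod, ← H4_dummy (m := m) (n := v.length - 1) (by omega) ht]
    constructor
    · rintro (⟨z, h1, h2⟩ | ⟨a, b, h1, h2, h3⟩)
      · simp at h1
      · rw [List.cons.injEq] at h1
        exact ⟨a, b, h1.2, by omega, h3⟩
    · rintro ⟨a, b, h1, h2, h3⟩
      exact Or.inr ⟨a, b, by rw [h1], by omega, h3⟩
  have hsplit : (Finset.range (2 ^ (m + 1))).filter (fun t => RB O T q x v (bits (m + 1) t)) =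
      ((Finset.range (2 ^ m)).filter
        (fun t => FF T x (bits m t) ∧ Hit O (bits m t) q)).image (fun t => 2 * t) ∪
      (Finset.range (2 ^ (v.length - 1))).image (fun t => 2 * t + 1) := by
    ext t
    simp only [Finset.mem_filter, Finset.mem_range, Finset.mem_union, Finset.mem_image]
    have hle : 2 ^ (v.length - 1) ≤ 2 ^ m := Nat.pow_le_pow_right (by norm_num) (by omega)
    constructor
    · rintro ⟨h1, h2⟩
      rw [pow_succ] at h1
      rcases Nat.even_or_odd' t with ⟨u, rfl | rfl⟩
      · exact Or.inl ⟨u, ⟨by omega, (hRe u).1 h2⟩, rfl⟩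
      · exact Or.inr ⟨u, (hRo u (by omega)).1 h2, rfl⟩
    · rintro (⟨u, ⟨h1, h2⟩, rfl⟩ | ⟨u, h1, rfl⟩)
      · exact ⟨by rw [pow_succ]; omega, (hRe u).2 h2⟩
      · have hu : u < 2 ^ m := lt_of_lt_of_le h1 hle
        exact ⟨by rw [pow_succ]; omega, (hRo u hu).2 h1⟩
  have hdisj : Disjoint
      (((Finset.range (2 ^ m)).filter
        (fun t => FF T x (bits m t) ∧ Hit O (bits m t) q)).image (fun t => 2 * t))
      ((Finset.range (2 ^ (v.length - 1))).image (fun t => 2 * t + 1)) := by
    rw [Finset.disjoint_left]
    intro t h1 h2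
    rw [Finset.mem_image] at h1 h2
    obtain ⟨u, -, hu⟩ := h1
    obtain ⟨w, -, hw⟩ := h2
    omega
  rw [hsplit, Finset.card_union_of_disjoint hdisj,
    Finset.card_image_of_injective _ (fun a b h => by simpa using h),
    Finset.card_image_of_injective _ (fun a b h => by simpa using h), Finset.card_range]
  refine congrArg₂ (· + ·) (congrArg Finset.card ?_) rfl
  ext t
  simp only [Finset.mem_filter]

theorem val_Thr {k s : ℕ} {β x v q t : List Bool} (hβ : β.length = s + 1)
    (h : Thr k s β x v q t) :
    val t = val v + 2 ^ (x.length - s) * val β ∧ t.length = mm k x.length + 2 := by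
  obtain ⟨h1, h2, -, h4⟩ := h
  have h5 := mm_ge k x.length
  constructor
  · rw [h4, H4_val_append, H4_val_append, H4_val_append, H4_val_rep, H4_val_rep,
      List.length_replicate, mul_zero, add_zero, zero_add, ← mul_assoc, ← pow_add]
    have e : v.length + (x.length - s - v.length) = x.length - s := by omega
    rw [e]
  · rw [h4]
    simp only [List.length_append, List.length_replicate, hβ]
    omega

end Pool.Agent.LibRV74
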