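import Pool.Agent.LibRV74.B0
import Pool.Agent.LibRV74.C0

/-!
[RV74 H6] Chebyshev for the number of `x` with an event of small probability.

As `var_le` (B1), but the diagonal terms are `∑ ω, (h ω - p)^2 ≤ p * card Ω` (`h` = indicator of `E`, `h^2 = h`),
so `∑ u, (∑ x, (h (u x) - p))^2 ≤ card X * p * card (X → Ω)`; then Chebyshev as in B4.
`card_ex`: from `sum_hh` (C0) (`hh` is the indicator).
-/

namespace Pool.Agent.LibRV74

open Classical in
private theorem H6_off {X Ω : Type} [Fintype X] [Fintype Ω] [Nonempty Ω] {h : Ω → ℝ} {p : ℝ}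
    (hp : ∑ ω : Ω, h ω = p * Nat.card Ω) {x z : X} (hxz : x ≠ z) :
    ∑ u : X → Ω, (h (u x) - p) * (h (u z) - p) = 0 := by
  have hc : (Nat.card Ω : ℝ) ≠ 0 := by
    have : 0 < Nat.card Ω := Nat.card_pos
    exact_mod_cast this.ne'
  have h1 := resample z (fun u : X → Ω => (h (u x) - p) * (h (u z) - p))
  have h2 : ∀ u : X → Ω, ∑ ω : Ω, (h (Function.update u z ω x) - p) *
      (h (Function.update u z ω z) - p) = 0 := by
    intro u
    have h3 : ∀ ω : Ω, (h (Function.update u z ω x) - p) * (h (Function.update u z ω z) - p) =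
        (h (u x) - p) * (h ω - p) := by
      intro ω
      rw [Function.update_self, Function.update_of_ne hxz]
    rw [Finset.sum_congr rfl fun ω _ => h3 ω, ← Finset.mul_sum, Finset.sum_sub_distrib, hp,
      Finset.sum_const, Finset.card_univ, nsmul_eq_mul, Nat.card_eq_fintype_card]
    ring
  have h4 : (Nat.card Ω : ℝ) * ∑ u : X → Ω, (h (u x) - p) * (h (u z) - p) = 0 := by
    rw [h1]
    exact Finset.sum_eq_zero fun u _ => h2 u
  exact (mul_eq_zero.1 h4).resolve_left hc

open Classical in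
private theorem H6_diag {X Ω : Type} [Fintype X] [Fintype Ω] [Nonempty Ω] {h : Ω → ℝ} {p : ℝ}
    (hh2 : ∀ ω, h ω * h ω = h ω) (hp : ∑ ω : Ω, h ω = p * Nat.card Ω) (x : X) :
    ∑ u : X → Ω, (h (u x) - p) * (h (u x) - p) ≤ p * (Nat.card (X → Ω) : ℝ) := by
  have hc : (0 : ℝ) < (Nat.card Ω : ℝ) := by
    have : 0 < Nat.card Ω := Nat.card_pos
    exact_mod_cast this
  have h1 := resample x (fun u : X → Ω => (h (u x) - p) * (h (u x) - p))
  have h2 : ∀ u : X → Ω, ∑ ω : Ω, (h (Function.update u x ω x) - p) *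
      (h (Function.update u x ω x) - p) = (p - p ^ 2) * Nat.card Ω := by
    intro u
    have h3 : ∀ ω : Ω, (h (Function.update u x ω x) - p) * (h (Function.update u x ω x) - p) =
        (1 - 2 * p) * h ω + p ^ 2 := by
      intro ω
      rw [Function.update_self]
      have := hh2 ω
      linear_combination this
    rw [Finset.sum_congr rfl fun ω _ => h3 ω, Finset.sum_add_distrib, ← Finset.mul_sum, hp,
      Finset.sum_const, Finset.card_univ, nsmul_eq_mul, Nat.card_eq_fintype_card]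
    ring
  rw [Finset.sum_congr rfl fun u _ => h2 u, Finset.sum_const, Finset.card_univ, nsmul_eq_mul,
    ← Nat.card_eq_fintype_card] at h1
  have h5 : ∑ u : X → Ω, (h (u x) - p) * (h (u x) - p) =
      (p - p ^ 2) * (Nat.card (X → Ω) : ℝ) := by
    have h6 : (Nat.card Ω : ℝ) * ∑ u : X → Ω, (h (u x) - p) * (h (u x) - p) =
        (Nat.card Ω : ℝ) * ((p - p ^ 2) * (Nat.card (X → Ω) : ℝ)) := by
      rw [h1]
      ring
    exact mul_left_cancel₀ hc.ne' h6
  rw [h5]
  have h7 : (0 : ℝ) ≤ (Nat.card (X → Ω) : ℝ) := by positivity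
  nlinarith [mul_nonneg (sq_nonneg p) h7]

theorem cheb2 {X Ω : Type} [Finite X] [Finite Ω] [Nonempty Ω] (E : Ω → Prop) {R p : ℝ}
    (hR : 0 < R) (hp : (Nat.card {ω : Ω // E ω} : ℝ) = p * Nat.card Ω) :
    (Nat.card {u : X → Ω // R ≤ |(Nat.card {x : X // E (u x)} : ℝ) - Nat.card X * p|} : ℝ) ≤
      Nat.card X * p / R ^ 2 * Nat.card (X → Ω) := by
  classical
  cases nonempty_fintype X
  cases nonempty_fintype Ω
  have hh2 : ∀ ω : Ω, (if E ω then (1 : ℝ) else 0) * (if E ω then (1 : ℝ) else 0) =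
      (if E ω then (1 : ℝ) else 0) := by
    intro ω
    split_ifs <;> norm_num
  have hps : ∑ ω : Ω, (if E ω then (1 : ℝ) else 0) = p * Nat.card Ω := by
    rw [← hp, Nat.card_eq_fintype_card, Fintype.card_subtype, Finset.card_filter]
    push_cast
    rfl
  have hD : ∀ u : X → Ω, ∑ x : X, ((if E (u x) then (1 : ℝ) else 0) - p) =
      (Nat.card {x : X // E (u x)} : ℝ) - Nat.card X * p := by
    intro u
    rw [Finset.sum_sub_distrib, Finset.sum_const, Finset.card_univ, nsmul_eq_mul,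
      Nat.card_eq_fintype_card, Nat.card_eq_fintype_card, Fintype.card_subtype,
      Finset.card_filter]
    push_cast
    rfl
  have hV : ∑ u : X → Ω, (∑ x : X, ((if E (u x) then (1 : ℝ) else 0) - p)) ^ 2 ≤
      Nat.card X * (p * (Nat.card (X → Ω) : ℝ)) := by
    have e1 : ∀ u : X → Ω, (∑ x : X, ((if E (u x) then (1 : ℝ) else 0) - p)) ^ 2 =
        ∑ x : X, ∑ z : X, ((if E (u x) then (1 : ℝ) else 0) - p) *
          ((if E (u z) then (1 : ℝ) else 0) - p) := by
      intro u
      rw [sq, Finset.sum_mul_sum]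
    have e2 : ∑ u : X → Ω, (∑ x : X, ((if E (u x) then (1 : ℝ) else 0) - p)) ^ 2 =
        ∑ x : X, ∑ z : X, ∑ u : X → Ω, ((if E (u x) then (1 : ℝ) else 0) - p) *
          ((if E (u z) then (1 : ℝ) else 0) - p) := by
      rw [Finset.sum_congr rfl fun u _ => e1 u, Finset.sum_comm]
      exact Finset.sum_congr rfl fun x _ => Finset.sum_comm
    have e3 : ∀ x ∈ (Finset.univ : Finset X), ∑ z : X, ∑ u : X → Ω,
        ((if E (u x) then (1 : ℝ) else 0) - p) * ((if E (u z) then (1 : ℝ) else 0) - p) =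
        ∑ u : X → Ω, ((if E (u x) then (1 : ℝ) else 0) - p) *
          ((if E (u x) then (1 : ℝ) else 0) - p) := by
      intro x hx
      rw [Finset.sum_eq_single x
        (fun z _ hz => H6_off (h := fun ω => if E ω then (1 : ℝ) else 0) hps (Ne.symm hz))
        (fun hc => absurd hx hc)]
    rw [e2, Finset.sum_congr rfl e3]
    calc ∑ x : X, ∑ u : X → Ω, ((if E (u x) then (1 : ℝ) else 0) - p) *
          ((if E (u x) then (1 : ℝ) else 0) - p)
        ≤ ∑ _x : X, p * (Nat.card (X → Ω) : ℝ) := Finset.sum_le_sum fun x _ =>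
          H6_diag (h := fun ω => if E ω then (1 : ℝ) else 0) hh2 hps x
      _ = Nat.card X * (p * (Nat.card (X → Ω) : ℝ)) := by
          rw [Finset.sum_const, Finset.card_univ, nsmul_eq_mul, ← Nat.card_eq_fintype_card]
  have hcard : (Nat.card {u : X → Ω //
      R ≤ |(Nat.card {x : X // E (u x)} : ℝ) - Nat.card X * p|} : ℝ) =
      ∑ u : X → Ω, if R ≤ |(Nat.card {x : X // E (u x)} : ℝ) - Nat.card X * p|
        then (1 : ℝ) else 0 := by
    rw [Nat.card_eq_fintype_card, Fintype.card_subtype, Finset.card_filter]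
    push_cast
    rfl
  rw [hcard]
  have hpt : ∀ u : X → Ω, (if R ≤ |(Nat.card {x : X // E (u x)} : ℝ) - Nat.card X * p|
        then (1 : ℝ) else 0) ≤
        1 / R ^ 2 * (∑ x : X, ((if E (u x) then (1 : ℝ) else 0) - p)) ^ 2 := by
    intro u
    rw [hD]
    split_ifs with hu
    · have h1 : R ^ 2 ≤ ((Nat.card {x : X // E (u x)} : ℝ) - Nat.card X * p) ^ 2 := by
        rw [← sq_abs ((Nat.card {x : X // E (u x)} : ℝ) - Nat.card X * p)]
        exact pow_le_pow_left₀ hR.le hu 2
      have h2 : 0 < R ^ 2 := by positivity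
      rw [one_div, inv_mul_eq_div, le_div_iff₀ h2, one_mul]
      exact h1
    · positivity
  refine (Finset.sum_le_sum fun u _ => hpt u).trans ?_
  rw [← Finset.mul_sum]
  have h7 : 1 / R ^ 2 * ∑ u : X → Ω, (∑ x : X, ((if E (u x) then (1 : ℝ) else 0) - p)) ^ 2 ≤
      1 / R ^ 2 * (Nat.card X * (p * (Nat.card (X → Ω) : ℝ))) :=
    mul_le_mul_of_nonneg_left hV (by positivity)
  refine h7.trans (le_of_eq ?_)
  ring

theorem card_ex {W A : Type} [Finite W] [Finite A] (top : A) :
    (Nat.card {ω : W → A // ∃ g, ω g = top} : ℝ) =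
      (1 - (1 - 1 / (Nat.card A : ℝ)) ^ Nat.card W) * Nat.card (W → A) := by
  classical
  cases nonempty_fintype W
  cases nonempty_fintype A
  rw [← sum_hh top, Nat.card_eq_fintype_card, Fintype.card_subtype, Finset.card_filter]
  push_cast
  refine Finset.sum_congr rfl fun ω _ => ?_
  unfold hh
  by_cases h : ∃ g, ω g = top
  · rw [if_pos h, if_pos h]
  · rw [if_neg h, if_neg h]

end Pool.Agent.LibRV74
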