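import Pool.Agent.LibRV74.Z1
import Pool.Agent.LibRV74.E2

/-!
[RV74 H7] The number of hit strings in terms of the blocks.

Like `al_iff` (E2). `nCt` is the number of `z` of length `m` with `z = x' t z2`, `t ∈ T`, `|x'| = n` and
`Hit O z 0^(m-n)`: such `z` are in bijection with the pairs `(x', t ++ z2) : XX n × WZ T (m - n)` and
`Hit` is `∃ y, f x' (t ++ z2, y) = tp m n` (`oA_io`). `cnt m P` is the number of `z : List.Vector Bool m` with `P z`
(`bits`, `val`: `val_bits`, `bits_val`, `length_bits`).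
-/

namespace Pool.Agent.LibRV74

open Pool.Agent.LibNexp Pool.Agent.LibBHN Pool.Agent.LibRO74

private theorem H7_hit {T : Finset (List Bool)} {m n k : ℕ} (hm : m = mm k n)
    (f : XX n → WW T m n → CC m n) (O : List Bool → Bool) (q : XX n × WZ T (m - n)) :
    Hit (oA T m n f O) (q.1.1 ++ q.2.1.1) (List.replicate (m - n) false) ↔
      ∃ y : List.Vector Bool (2 ^ m), f q.1 (q.2, y) = tp m n := by
  obtain ⟨x, z⟩ := q
  have hx : x.1.length = n := x.2
  have hge : 5 * n ≤ m := by rw [hm]; exact mm_ge k n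
  have hzl : z.1.1.length = m - n := z.1.2
  have hlen : (x.1 ++ z.1.1).length = m := by
    rw [List.length_append]
    omega
  constructor
  · rintro ⟨y, hy, hc⟩
    have hy' : y.length = 2 ^ m := by
      rw [hlen] at hy
      exact hy
    refine ⟨⟨y, hy'⟩, ?_⟩
    funext j
    have hj := j.2
    have h := hc (j + 1) (by omega) (by rw [hlen, List.length_replicate]; omega)
    have h2 := oA_io T m n f O ((x, ((z, ⟨y, hy'⟩) : WW T m n)), j)
    exact h2.symm.trans h
  · rintro ⟨y, hg⟩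
    have hyl : y.1.length = 2 ^ m := y.2
    refine ⟨y.1, by rw [hlen]; exact hyl, ?_⟩
    intro i hi1 hi2
    rw [hlen, List.length_replicate] at hi2
    have h2 := oA_io T m n f O ((x, ((z, y) : WW T m n)), ⟨i - 1, by omega⟩)
    have h3 : iA T m n ((x, ((z, y) : WW T m n)), ⟨i - 1, by omega⟩) =
        cell i (x.1 ++ z.1.1) y.1 := by
      show cell (i - 1 + 1) (x.1 ++ z.1.1) y.1 = _
      rw [Nat.sub_add_cancel hi1]
    rw [h3] at h2
    rw [h2]
    show f x (z, y) _ = true
    have hg' : f x (z, y) = tp m n := hg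
    rw [hg']
    rfl

private theorem H7_cnt (m : ℕ) (P : List Bool → Prop) :
    cnt m P = Nat.card {j : ℕ // j < 2 ^ m ∧ P (bits m j)} := by
  classical
  unfold cnt
  symm
  refine Nat.subtype_card _ ?_
  intro j
  rw [Finset.mem_filter, Finset.mem_range]

theorem nct_eq {T : Finset (List Bool)} {m n k : ℕ} (hm : m = mm k n)
    (f : XX n → WW T m n → CC m n) (O : List Bool → Bool) :
    nCt (oA T m n f O) k T n = Nat.card {q : XX n × WZ T (m - n) //
      ∃ y : List.Vector Bool (2 ^ m), f q.1 (q.2, y) = tp m n} := by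
  have hge : 5 * n ≤ m := by rw [hm]; exact mm_ge k n
  have hlen : ∀ q : XX n × WZ T (m - n), (q.1.1 ++ q.2.1.1).length = m := by
    intro q
    have h1 : q.1.1.length = n := q.1.2
    have h2 : q.2.1.1.length = m - n := q.2.1.2
    rw [List.length_append]
    omega
  have hb : ∀ q : XX n × WZ T (m - n),
      bits m (val (q.1.1 ++ q.2.1.1)) = q.1.1 ++ q.2.1.1 := by
    intro q
    have h := bits_val (q.1.1 ++ q.2.1.1)
    rw [hlen q] at h
    exact h
  have hl : ∀ q : XX n × WZ T (m - n), val (q.1.1 ++ q.2.1.1) < 2 ^ m := by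
    intro q
    have h := val_lt (q.1.1 ++ q.2.1.1)
    rw [hlen q] at h
    exact h
  unfold nCt
  rw [H7_cnt, ← hm]
  symm
  refine Nat.card_eq_of_bijective (fun q => (⟨val (q.1.1.1 ++ q.1.2.1.1), hl q.1, ?_⟩ :
    {j : ℕ // j < 2 ^ m ∧ (FA T n (bits m j) ∧
      Hit (oA T m n f O) (bits m j) (List.replicate (m - n) false))})) ⟨?_, ?_⟩
  · rw [hb q.1]
    refine ⟨?_, (H7_hit hm f O q.1).2 q.2⟩
    obtain ⟨t, ht, z2, hz⟩ := q.1.2.2
    exact ⟨q.1.1.1, t, z2, by rw [← hz], q.1.1.2, ht⟩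
  · intro q q' h
    have h0 : val (q.1.1.1 ++ q.1.2.1.1) = val (q'.1.1.1 ++ q'.1.2.1.1) :=
      congrArg Subtype.val h
    have h1 : q.1.1.1 ++ q.1.2.1.1 = q'.1.1.1 ++ q'.1.2.1.1 :=
      val_inj ((hlen q.1).trans (hlen q'.1).symm) h0
    have h2 := List.append_inj h1 (q.1.1.2.trans q'.1.1.2.symm)
    exact Subtype.ext (Prod.ext (Subtype.ext h2.1) (Subtype.ext (Subtype.ext h2.2)))
  · rintro ⟨j, hj1, ⟨x', t, z2, hz, hx', ht⟩, hh⟩
    have hl2 : (t ++ z2).length = m - n := by
      have h := congrArg List.length hz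
      rw [length_bits, List.length_append, hx'] at h
      omega
    have hit : Hit (oA T m n f O) (x' ++ (t ++ z2)) (List.replicate (m - n) false) := by
      rw [← hz]
      exact hh
    refine ⟨⟨(⟨x', hx'⟩, ⟨⟨t ++ z2, hl2⟩, t, ht, z2, rfl⟩), ?_⟩, ?_⟩
    · exact (H7_hit hm f O (⟨x', hx'⟩, ⟨⟨t ++ z2, hl2⟩, t, ht, z2, rfl⟩)).1 hit
    · refine Subtype.ext ?_
      show val (x' ++ (t ++ z2)) = j
      rw [← hz]
      exact val_bits hj1

end Pool.Agent.LibRV74
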