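import Pool.Agent.LibRV74.E1

/-!
[RV74 H8] The mean number of hit strings.

Put `m = mm k n`, `a = card CC = 2 ^ (2^m + (m - n))`, `b = 2 ^ (2^m)`, `y = b / a = 2 ^ (-(m - n))`,
`N1 = card (XX n × WZ T (m - n))`, `N1 * 2^s = 2^n * T.card * 2^(m-n)` (`card_WW` divided by `2^(2^m)`), so
`N1 * y = 2^(n-s) * T.card ≤ 2^n` (`T.card ≤ 2^s` as all elements have length `s`). Bernoulli
(`one_add_mul_le_pow`): `p = 1 - (1 - 1/a)^b ≤ y`; `(1 - 1/a)^b ≤ exp (-y) ≤ 1 - y + y^2` gives `p ≥ y - y^2`;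
`N1 * y^2 = (N1 * y) * y ≤ 2^n * 2^(-(m-n)) ≤ 1` (`5 n ≤ m`).
-/

namespace Pool.Agent.LibRV74

open Pool.Agent.LibNexp Pool.Agent.LibBHN Pool.Agent.LibRO74

private theorem H8_pow (a y : ℝ) (b : ℕ) (ha : 1 ≤ a) (hy : (b : ℝ) * (1 / a) = y)
    (hy1 : 0 ≤ y) {p : ℝ} (hp : p = 1 - (1 - 1 / a) ^ b) : 0 ≤ p ∧ p ≤ y ∧ y - y ^ 2 ≤ p := by
  have ha0 : 0 < a := by linarith
  have h1 : 1 / a ≤ 1 := by rw [div_le_one ha0]; exact ha
  have h2 : 0 ≤ 1 / a := by positivity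
  have h3 : (1 - 1 / a) ^ b ≤ 1 := pow_le_one₀ (by linarith) (by linarith)
  have h4 : 1 + (b : ℝ) * (-(1 / a)) ≤ (1 + -(1 / a)) ^ b :=
    one_add_mul_le_pow (by linarith) b
  have h5 : (1 - 1 / a) ^ b ≤ Real.exp (-y) := by
    have h6 : 1 - 1 / a ≤ Real.exp (-(1 / a)) := by
      have := Real.add_one_le_exp (-(1 / a))
      linarith
    have h7 := pow_le_pow_left₀ (by linarith : (0 : ℝ) ≤ 1 - 1 / a) h6 b
    rw [← Real.exp_nat_mul] at h7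
    have h8 : (b : ℝ) * -(1 / a) = -y := by rw [← hy]; ring
    rwa [h8] at h7
  have h9 : Real.exp (-y) ≤ 1 - y + y ^ 2 := by
    have h10 := Real.add_one_le_exp y
    have h11 : 0 < Real.exp y := Real.exp_pos y
    have h12 : Real.exp (-y) * Real.exp y = 1 := by
      rw [← Real.exp_add, neg_add_cancel, Real.exp_zero]
    have h13 : 0 < 1 - y + y ^ 2 := by nlinarith [sq_nonneg (y - 1)]
    have h14 : 1 ≤ (1 - y + y ^ 2) * Real.exp y := by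
      have h15 : (1 - y + y ^ 2) * (y + 1) ≤ (1 - y + y ^ 2) * Real.exp y :=
        mul_le_mul_of_nonneg_left h10 h13.le
      have h16 : (1 - y + y ^ 2) * (y + 1) = 1 + y ^ 3 := by ring
      have h17 : 0 ≤ y ^ 3 := by positivity
      linarith
    exact le_of_mul_le_mul_right (h12.le.trans h14) h11
  have h18 : (1 + -(1 / a)) ^ b = (1 - 1 / a) ^ b := by rw [← sub_eq_add_neg]
  rw [h18] at h4
  have h19 : (b : ℝ) * (-(1 / a)) = -y := by rw [← hy]; ring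
  rw [h19] at h4
  refine ⟨by linarith, by linarith, by linarith⟩

private theorem H8_card {T : Finset (List Bool)} {m n s : ℕ} (hT : ∀ t ∈ T, t.length = s)
    (hs : n + s ≤ m) : Nat.card (WZ T (m - n)) * 2 ^ s = T.card * 2 ^ (m - n) ∧
      T.card ≤ 2 ^ s := by
  have h1 := card_WW (m := m) (n := n) hT hs
  have hv : ∀ l : ℕ, Nat.card (List.Vector Bool l) = 2 ^ l := by
    intro l
    rw [Nat.card_eq_fintype_card, card_vector, Fintype.card_bool]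
  rw [card_CC, Nat.card_prod, hv, pow_add] at h1
  have hB : 0 < 2 ^ 2 ^ m := Nat.two_pow_pos _
  have h2 : Nat.card (WZ T (m - n)) * 2 ^ s = T.card * 2 ^ (m - n) := by
    have h3 : 2 ^ 2 ^ m * (Nat.card (WZ T (m - n)) * 2 ^ s) =
        2 ^ 2 ^ m * (T.card * 2 ^ (m - n)) := by
      calc 2 ^ 2 ^ m * (Nat.card (WZ T (m - n)) * 2 ^ s)
          = Nat.card (WZ T (m - n)) * 2 ^ 2 ^ m * 2 ^ s := by ring
        _ = T.card * (2 ^ 2 ^ m * 2 ^ (m - n)) := h1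
        _ = 2 ^ 2 ^ m * (T.card * 2 ^ (m - n)) := by ring
    exact Nat.eq_of_mul_eq_mul_left hB h3
  refine ⟨h2, ?_⟩
  have h4 : Nat.card (WZ T (m - n)) ≤ 2 ^ (m - n) := by
    rw [← hv (m - n)]
    exact Nat.card_le_card_of_injective (fun w : WZ T (m - n) => w.1)
      fun w w' h => Subtype.ext h
  have h5 : T.card * 2 ^ (m - n) ≤ 2 ^ s * 2 ^ (m - n) := by
    rw [← h2, mul_comm (2 ^ s)]
    exact Nat.mul_le_mul_right _ h4
  exact Nat.le_of_mul_le_mul_right h5 (Nat.two_pow_pos _)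

theorem pi_bd {T : Finset (List Bool)} {k n s : ℕ} (hT : ∀ t ∈ T, t.length = s) (hs : s ≤ n)
    {p : ℝ} (hp : p = 1 - (1 - 1 / (Nat.card (CC (mm k n) n) : ℝ)) ^
      Nat.card (List.Vector Bool (2 ^ mm k n))) :
    0 ≤ p ∧ Nat.card (XX n × WZ T (mm k n - n)) * p ≤ 2 ^ n ∧
      |Nat.card (XX n × WZ T (mm k n - n)) * p - 2 ^ (n - s) * (T.card : ℝ)| ≤ 1 := by
  have hm : 5 * n ≤ mm k n := mm_ge k n
  generalize mm k n = m at hm hp ⊢
  obtain ⟨hW, hT2⟩ := H8_card (m := m) (n := n) hT (by omega)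
  have hv : ∀ l : ℕ, Nat.card (List.Vector Bool l) = 2 ^ l := by
    intro l
    rw [Nat.card_eq_fintype_card, card_vector, Fintype.card_bool]
  rw [card_CC, hv, Nat.cast_pow, Nat.cast_ofNat, pow_add] at hp
  have hL : (0 : ℝ) < 2 ^ (m - n) := by positivity
  have hL1 : (1 : ℝ) ≤ 2 ^ (m - n) := one_le_pow₀ (by norm_num)
  have hB1 : (1 : ℝ) ≤ 2 ^ 2 ^ m := one_le_pow₀ (by norm_num)
  have hy : ((2 ^ 2 ^ m : ℕ) : ℝ) * (1 / (2 ^ 2 ^ m * 2 ^ (m - n))) = 1 / 2 ^ (m - n) := by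
    rw [Nat.cast_pow, Nat.cast_ofNat]
    have hB : (2 : ℝ) ^ 2 ^ m ≠ 0 := by positivity
    field_simp
  obtain ⟨hp0, hp1, hp2⟩ := H8_pow (2 ^ 2 ^ m * 2 ^ (m - n)) (1 / 2 ^ (m - n)) (2 ^ 2 ^ m)
    (one_le_mul_of_one_le_of_one_le hB1 hL1) hy (by positivity) hp
  have hN : (Nat.card (XX n × WZ T (m - n)) : ℝ) * (1 / 2 ^ (m - n)) =
      2 ^ (n - s) * (T.card : ℝ) := by
    rw [Nat.card_prod, hv, Nat.cast_mul, Nat.cast_pow, Nat.cast_ofNat]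
    have h1 : (Nat.card (WZ T (m - n)) : ℝ) * 2 ^ s = T.card * 2 ^ (m - n) := by
      exact_mod_cast hW
    have h2 : (2 : ℝ) ^ n = 2 ^ (n - s) * 2 ^ s := by rw [← pow_add, Nat.sub_add_cancel hs]
    rw [h2, mul_one_div, div_eq_iff hL.ne']
    calc (2 : ℝ) ^ (n - s) * 2 ^ s * (Nat.card (WZ T (m - n)) : ℝ)
        = 2 ^ (n - s) * ((Nat.card (WZ T (m - n)) : ℝ) * 2 ^ s) := by ring
      _ = 2 ^ (n - s) * (T.card : ℝ) * 2 ^ (m - n) := by rw [h1]; ring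
  have hN0 : (0 : ℝ) ≤ Nat.card (XX n × WZ T (m - n)) := Nat.cast_nonneg _
  have hle : (2 : ℝ) ^ (n - s) * (T.card : ℝ) ≤ 2 ^ n := by
    have h1 : (T.card : ℝ) ≤ 2 ^ s := by exact_mod_cast hT2
    calc (2 : ℝ) ^ (n - s) * (T.card : ℝ) ≤ 2 ^ (n - s) * 2 ^ s :=
          mul_le_mul_of_nonneg_left h1 (by positivity)
      _ = 2 ^ n := by rw [← pow_add, Nat.sub_add_cancel hs]
  have hup : (Nat.card (XX n × WZ T (m - n)) : ℝ) * p ≤ 2 ^ (n - s) * (T.card : ℝ) := by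
    rw [← hN]
    exact mul_le_mul_of_nonneg_left hp1 hN0
  have hlow : 2 ^ (n - s) * (T.card : ℝ) - 1 ≤ (Nat.card (XX n × WZ T (m - n)) : ℝ) * p := by
    have h1 := mul_le_mul_of_nonneg_left hp2 hN0
    have h2 : (Nat.card (XX n × WZ T (m - n)) : ℝ) * (1 / 2 ^ (m - n) - (1 / 2 ^ (m - n)) ^ 2) =
        2 ^ (n - s) * (T.card : ℝ) - 2 ^ (n - s) * (T.card : ℝ) * (1 / 2 ^ (m - n)) := by
      rw [← hN]
      ring
    rw [h2] at h1
    have h3 : 2 ^ (n - s) * (T.card : ℝ) * (1 / 2 ^ (m - n)) ≤ 1 := by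
      rw [mul_one_div, div_le_one hL]
      exact hle.trans (pow_le_pow_right₀ (by norm_num) (by omega))
    linarith
  exact ⟨hp0, hup.trans hle, abs_le.2 ⟨by linarith, by linarith⟩⟩

end Pool.Agent.LibRV74
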