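import Pool.Agent.LibRV74.H6
import Pool.Agent.LibRV74.H7
import Pool.Agent.LibRV74.H8

/-!
[RV74 H9] The number of hit strings is close to the mean for most `f`.

Transport along `(XX n → WZ × Vector → CC) ≃ (XX n × WZ → (Vector → CC))` and use `cheb2` with
`X = XX n × WZ T (m - n)`, `Ω = List.Vector Bool (2^m) → CC m n`, `E ω = ∃ y, ω y = tp m n`, `p` of `card_ex`,
`R = 2^(l-1) - 1`, `l = n / 2 + Nat.log 2 n`. If `oA .. ∈ BadC` then `2^(l-1) ≤ |nCt - 2^(n-s) T.card|`, so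
`R ≤ |nCt - N1 p|` (`pi_bd`, `nct_eq`). `N1 p / R^2 ≤ 2^n / R^2 ≤ 128 / n^2`:
`4^(l-1) ≥ 2^n n^2 / 32` (`4^(n/2) ≥ 2^(n-1)`, `2^(Nat.log 2 n) > n / 2`) and `2^(l-1) - 1 ≥ 2^(l-1) / 2`.
-/

namespace Pool.Agent.LibRV74

open Pool.Agent.LibNexp Pool.Agent.LibBHN Pool.Agent.LibRO74

private lemma H9_num {n : ℕ} (hn : 4 ≤ n) :
    0 < (2 : ℝ) ^ (n / 2 + Nat.log 2 n - 1) - 1 ∧
    (2 : ℝ) ^ n / ((2 : ℝ) ^ (n / 2 + Nat.log 2 n - 1) - 1) ^ 2 ≤ 128 / (n : ℝ) ^ 2 := by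
  have hL : n < 2 ^ (Nat.log 2 n + 1) := Nat.lt_pow_succ_log_self (by norm_num) n
  generalize Nat.log 2 n = L at hL ⊢
  have hL1 : 1 ≤ L := by
    rcases Nat.eq_zero_or_pos L with h | h
    · subst h
      omega
    · exact h
  have h2n : 2 ≤ n / 2 := by omega
  have hb : (n : ℝ) ≤ 2 * (2 : ℝ) ^ L := by
    have h1 : ((n : ℕ) : ℝ) < ((2 ^ (L + 1) : ℕ) : ℝ) := by exact_mod_cast hL
    push_cast at h1
    rw [pow_succ] at h1
    linarith
  have ha : (2 : ℝ) ^ n ≤ 2 * ((2 : ℝ) ^ (n / 2)) ^ 2 := by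
    rw [← pow_mul, ← pow_succ']
    exact pow_le_pow_right₀ (by norm_num) (by omega)
  have ha4 : (4 : ℝ) ≤ (2 : ℝ) ^ (n / 2) := by
    calc (4 : ℝ) = 2 ^ 2 := by norm_num
      _ ≤ 2 ^ (n / 2) := pow_le_pow_right₀ (by norm_num) h2n
  have hb2 : (2 : ℝ) ≤ (2 : ℝ) ^ L := by
    calc (2 : ℝ) = 2 ^ 1 := by norm_num
      _ ≤ 2 ^ L := pow_le_pow_right₀ (by norm_num) hL1
  have hpow : (2 : ℝ) ^ (n / 2 + L - 1) = (2 : ℝ) ^ (n / 2) * (2 : ℝ) ^ L / 2 := by
    have h1 : n / 2 + L = (n / 2 + L - 1) + 1 := by omega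
    rw [← pow_add]
    conv_rhs => rw [h1, pow_succ]
    ring
  rw [hpow]
  generalize (2 : ℝ) ^ (n / 2) = a at ha ha4 ⊢
  generalize (2 : ℝ) ^ L = b at hb hb2 ⊢
  have hab : 8 ≤ a * b := by nlinarith
  have hR : a * b / 4 ≤ a * b / 2 - 1 := by linarith
  have hR0 : 0 < a * b / 2 - 1 := by linarith
  refine ⟨hR0, ?_⟩
  have hn0 : (0 : ℝ) < (n : ℝ) := by
    have : 0 < n := by omega
    exact_mod_cast this
  rw [div_le_div_iff₀ (by positivity) (by positivity)]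
  have h1 : (n : ℝ) ^ 2 ≤ (2 * b) ^ 2 := pow_le_pow_left₀ hn0.le hb 2
  have h2 : (a * b / 4) ^ 2 ≤ (a * b / 2 - 1) ^ 2 := pow_le_pow_left₀ (by linarith) hR 2
  calc (2 : ℝ) ^ n * (n : ℝ) ^ 2 ≤ (2 * a ^ 2) * (2 * b) ^ 2 :=
        mul_le_mul ha h1 (by positivity) (by positivity)
    _ = 128 * (a * b / 4) ^ 2 := by ring
    _ ≤ 128 * (a * b / 2 - 1) ^ 2 := by linarith

private lemma H9_bad {M N c : ℝ} {R : ℝ} (hM : |N - M| ≤ 1) (h : R ≤ |c - M|) :
    R - 1 ≤ |c - N| := by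
  have h1 := abs_sub_le c N M
  linarith

theorem cnt_tail {T : Finset (List Bool)} {k n s : ℕ} (hT : ∀ t ∈ T, t.length = s) (hs : s ≤ n)
    (hn : 4 ≤ n) (O : List Bool → Bool) :
    (Nat.card {f : XX n → WW T (mm k n) n → CC (mm k n) n //
      oA T (mm k n) n f O ∈ BadC k s T n} : ℝ) ≤
      128 / (n : ℝ) ^ 2 * Nat.card (XX n → WW T (mm k n) n → CC (mm k n) n) := by
  classical
  obtain ⟨p, hpdef⟩ : ∃ p : ℝ, p = 1 - (1 - 1 / (Nat.card (CC (mm k n) n) : ℝ)) ^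
      Nat.card (List.Vector Bool (2 ^ mm k n)) := ⟨_, rfl⟩
  obtain ⟨hp0, hp1, hp2⟩ := pi_bd hT hs hpdef
  have hex := card_ex (W := List.Vector Bool (2 ^ mm k n)) (tp (mm k n) n)
  rw [← hpdef] at hex
  obtain ⟨hR0, hnum⟩ := H9_num hn
  have hne : Nonempty (List.Vector Bool (2 ^ mm k n) → CC (mm k n) n) := ⟨fun _ => tp (mm k n) n⟩
  have key := cheb2 (X := XX n × WZ T (mm k n - n))
    (Ω := List.Vector Bool (2 ^ mm k n) → CC (mm k n) n)
    (fun ω => ∃ y, ω y = tp (mm k n) n) hR0 hex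
  let e : (XX n → WW T (mm k n) n → CC (mm k n) n) ≃
      (XX n × WZ T (mm k n - n) → List.Vector Bool (2 ^ mm k n) → CC (mm k n) n) :=
    { toFun := fun f q y => f q.1 (q.2, y)
      invFun := fun u x g => u (x, g.1) g.2
      left_inv := fun _ => rfl
      right_inv := fun _ => rfl }
  have hcard : Nat.card (XX n → WW T (mm k n) n → CC (mm k n) n) =
      Nat.card (XX n × WZ T (mm k n - n) → List.Vector Bool (2 ^ mm k n) → CC (mm k n) n) :=
    Nat.card_congr e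
  have hsub : ∀ f : XX n → WW T (mm k n) n → CC (mm k n) n,
      oA T (mm k n) n f O ∈ BadC k s T n →
      (2 : ℝ) ^ (n / 2 + Nat.log 2 n - 1) - 1 ≤
        |(Nat.card {x : XX n × WZ T (mm k n - n) // ∃ y, e f x y = tp (mm k n) n} : ℝ) -
          Nat.card (XX n × WZ T (mm k n - n)) * p| := by
    intro f hf
    have h1 := nct_eq (T := T) (k := k) (n := n) rfl f O
    have h2 : ¬ (2 ^ (n - s) * T.card ≤ nCt (oA T (mm k n) n f O) k T n +
        2 ^ (n / 2 + Nat.log 2 n - 1) ∧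
        nCt (oA T (mm k n) n f O) k T n < 2 ^ (n - s) * T.card +
        2 ^ (n / 2 + Nat.log 2 n - 1)) := hf
    rw [h1] at h2
    have h3 : (2 : ℝ) ^ (n / 2 + Nat.log 2 n - 1) ≤
        |(Nat.card {x : XX n × WZ T (mm k n - n) // ∃ y, e f x y = tp (mm k n) n} : ℝ) -
          2 ^ (n - s) * (T.card : ℝ)| := by
      change ¬ (2 ^ (n - s) * T.card ≤
        Nat.card {x : XX n × WZ T (mm k n - n) // ∃ y, e f x y = tp (mm k n) n} +
          2 ^ (n / 2 + Nat.log 2 n - 1) ∧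
        Nat.card {x : XX n × WZ T (mm k n - n) // ∃ y, e f x y = tp (mm k n) n} <
          2 ^ (n - s) * T.card + 2 ^ (n / 2 + Nat.log 2 n - 1)) at h2
      generalize Nat.card {x : XX n × WZ T (mm k n - n) // ∃ y, e f x y = tp (mm k n) n} = c
        at h2 ⊢
      by_cases hc : 2 ^ (n - s) * T.card ≤ c + 2 ^ (n / 2 + Nat.log 2 n - 1)
      · have h4 : 2 ^ (n - s) * T.card + 2 ^ (n / 2 + Nat.log 2 n - 1) ≤ c := by
          by_contra h5
          exact h2 ⟨hc, not_le.mp h5⟩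
        have h5 : ((2 ^ (n - s) * T.card + 2 ^ (n / 2 + Nat.log 2 n - 1) : ℕ) : ℝ) ≤ (c : ℝ) := by
          exact_mod_cast h4
        push_cast at h5
        refine le_trans ?_ (le_abs_self _)
        linarith
      · have h4 := (not_le.mp hc).le
        have h5 : ((c + 2 ^ (n / 2 + Nat.log 2 n - 1) : ℕ) : ℝ) ≤
            ((2 ^ (n - s) * T.card : ℕ) : ℝ) := by
          exact_mod_cast h4
        push_cast at h5
        refine le_trans ?_ (neg_le_abs _)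
        linarith
    exact H9_bad hp2 h3
  have hle : (Nat.card {f : XX n → WW T (mm k n) n → CC (mm k n) n //
      oA T (mm k n) n f O ∈ BadC k s T n} : ℝ) ≤
      (Nat.card {u : XX n × WZ T (mm k n - n) → List.Vector Bool (2 ^ mm k n) → CC (mm k n) n //
        (2 : ℝ) ^ (n / 2 + Nat.log 2 n - 1) - 1 ≤
        |(Nat.card {x : XX n × WZ T (mm k n - n) // ∃ y, u x y = tp (mm k n) n} : ℝ) -
          Nat.card (XX n × WZ T (mm k n - n)) * p|} : ℝ) := by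
    refine Nat.cast_le.mpr (Nat.card_le_card_of_injective
      (fun f : {f : XX n → WW T (mm k n) n → CC (mm k n) n //
        oA T (mm k n) n f O ∈ BadC k s T n} => ⟨e f.1, hsub f.1 f.2⟩) ?_)
    intro f g hfg
    exact Subtype.ext (e.injective (Subtype.mk.inj hfg))
  refine hle.trans (key.trans ?_)
  rw [hcard]
  refine mul_le_mul_of_nonneg_right ?_ (Nat.cast_nonneg _)
  refine le_trans ?_ hnum
  exact div_le_div_of_nonneg_right hp1 (by positivity)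

end Pool.Agent.LibRV74
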