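import Pool.Agent.LibRV74.Z2

/-!
[RV74 I1] The number of strings with `InT`.

`TT n` is the disjoint union over `i < n` of `{1^i 0 t' : |t'| = n - 1 - i, val t' < 2^(n-1-i) / (i+1)}`
(`Nat.le_div_iff_mul_le`: `(val t' + 1) (i + 1) ≤ M` iff `val t' < M / (i + 1)`; `i` is the number of
leading ones, hence unique). The number of `t'` of length `l` with `val t' < c`, `c ≤ 2^l`, is `c`
(`bits l`, `val_bits`, `bits_val`, `length_bits`, `cnt_val_lt`). For `n = 0` both sides are `0`.
-/

namespace Pool.Agent.LibRV74

open Pool.Agent.LibNexp Pool.Agent.LibBHN Pool.Agent.LibRO74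

private theorem I1_inj {i j : ℕ} {a b : List Bool}
    (h : List.replicate i true ++ false :: a = List.replicate j true ++ false :: b) :
    i = j ∧ a = b := by
  induction i generalizing j with
  | zero =>
    cases j with
    | zero => simpa using h
    | succ j => simp [List.replicate_succ] at h
  | succ i ih =>
    cases j with
    | zero => simp [List.replicate_succ] at h
    | succ j =>
      simp only [List.replicate_succ, List.cons_append, List.cons.injEq, true_and] at h
      obtain ⟨h1, h2⟩ := ih h
      exact ⟨by rw [h1], h2⟩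

theorem card_TT (n : ℕ) :
    (TT n).card = ∑ i ∈ Finset.range n, 2 ^ (n - 1 - i) / (i + 1) := by
  have h : ((Finset.range n).sigma fun i => Finset.range (2 ^ (n - 1 - i) / (i + 1))).card =
      (TT n).card := by
    refine Finset.card_bij (fun (p : Σ _ : ℕ, ℕ) _ =>
      List.replicate p.1 true ++ false :: bits (n - 1 - p.1) p.2) ?_ ?_ ?_
    · rintro ⟨i, c⟩ hp
      rw [Finset.mem_sigma] at hp
      have h1 : i < n := Finset.mem_range.1 hp.1
      have h2 : c < 2 ^ (n - 1 - i) / (i + 1) := Finset.mem_range.1 hp.2
      rw [mem_TT]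
      refine ⟨?_, i, bits (n - 1 - i) c, rfl, ?_⟩
      · show (List.replicate i true ++ false :: bits (n - 1 - i) c).length = n
        rw [List.length_append, List.length_replicate, List.length_cons, length_bits]
        omega
      · rw [length_bits, val_bits (lt_of_lt_of_le h2 (Nat.div_le_self _ _))]
        exact (Nat.le_div_iff_mul_le (Nat.succ_pos i)).1 h2
    · rintro ⟨i, c⟩ hp ⟨j, d⟩ hp' heq
      rw [Finset.mem_sigma] at hp hp'
      have h2 : c < 2 ^ (n - 1 - i) / (i + 1) := Finset.mem_range.1 hp.2
      have h4 : d < 2 ^ (n - 1 - j) / (j + 1) := Finset.mem_range.1 hp'.2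
      obtain ⟨e1, e2⟩ := I1_inj heq
      have e1' : i = j := e1
      subst e1'
      have e3 : bits (n - 1 - i) c = bits (n - 1 - i) d := e2
      have e4 := congrArg val e3
      rw [val_bits (lt_of_lt_of_le h2 (Nat.div_le_self _ _)),
        val_bits (lt_of_lt_of_le h4 (Nat.div_le_self _ _))] at e4
      rw [e4]
    · intro t ht
      rw [mem_TT] at ht
      obtain ⟨hl, i, t', rfl, h⟩ := ht
      rw [List.length_append, List.length_replicate, List.length_cons] at hl
      have h1 : n - 1 - i = t'.length := by omega
      refine ⟨⟨i, val t'⟩, ?_, ?_⟩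
      · rw [Finset.mem_sigma]
        refine ⟨Finset.mem_range.2 (show i < n by omega), Finset.mem_range.2 ?_⟩
        show val t' < 2 ^ (n - 1 - i) / (i + 1)
        rw [h1]
        exact (Nat.le_div_iff_mul_le (Nat.succ_pos i)).2 h
      · show List.replicate i true ++ false :: bits (n - 1 - i) (val t') = _
        rw [h1, bits_val]
  rw [← h, Finset.card_sigma]
  exact Finset.sum_congr rfl fun i _ => Finset.card_range _

end Pool.Agent.LibRV74
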