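import Pool.Agent.LibRV74.I1

/-!
[RV74 I2] `card (TT n) / 2^n` is close to `log 2`.

`log 2 = ∑ (1/2)^(i+1) / (i+1)` (`Real.hasSum_pow_div_log_of_abs_lt_one` with `x = 1/2`). Each term of
`card_TT` divided by `2^n` is between `(1/2)^(i+1)/(i+1) - 1/2^n` and `(1/2)^(i+1)/(i+1)`
(`Nat.div_le..`, `Nat.lt_div_add_one..` / `Nat.cast_div_le`, `Nat.floor`), and the tail
`∑_{i ≥ n} (1/2)^(i+1)/(i+1) ≤ (1/2)^n`.
-/

namespace Pool.Agent.LibRV74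

open Pool.Agent.LibNexp Pool.Agent.LibBHN Pool.Agent.LibRO74

private theorem I2_term (n i : ℕ) (hi : i < n) :
    (((2 ^ (n - 1 - i) / (i + 1) : ℕ) : ℝ) / 2 ^ n ≤ (1 / 2 : ℝ) ^ (i + 1) / (i + 1)) ∧
    ((1 / 2 : ℝ) ^ (i + 1) / (i + 1) - 1 / 2 ^ n ≤ ((2 ^ (n - 1 - i) / (i + 1) : ℕ) : ℝ) / 2 ^ n) := by
  obtain ⟨l, rfl⟩ : ∃ l, n = l + (i + 1) := ⟨n - (i + 1), by omega⟩
  have e1 : l + (i + 1) - 1 - i = l := by omega
  rw [e1]
  have hp : (0 : ℝ) < 2 ^ (l + (i + 1)) := by positivity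
  have hi0 : (0 : ℝ) < (i : ℝ) + 1 := by positivity
  have e2 : (1 / 2 : ℝ) ^ (i + 1) / (i + 1) = (2 ^ l / ((i : ℝ) + 1)) / 2 ^ (l + (i + 1)) := by
    rw [pow_add (2 : ℝ) l (i + 1), one_div, inv_pow]
    field_simp
  rw [e2]
  have h1 : (((2 ^ l / (i + 1) : ℕ) : ℝ)) ≤ 2 ^ l / ((i : ℝ) + 1) := by
    have h := @Nat.cast_div_le ℝ _ _ _ (2 ^ l) (i + 1)
    push_cast at h
    exact h
  have h2 : 2 ^ l / ((i : ℝ) + 1) ≤ ((2 ^ l / (i + 1) : ℕ) : ℝ) + 1 := by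
    rw [div_le_iff₀ hi0]
    have h := Nat.lt_div_mul_add (a := 2 ^ l) (Nat.succ_pos i)
    have h3 : 2 ^ l ≤ (2 ^ l / (i + 1) + 1) * (i + 1) := by
      have h4 : 2 ^ l < 2 ^ l / (i + 1) * (i + 1) + (i + 1) := h
      nlinarith
    exact_mod_cast h3
  constructor
  · exact div_le_div_of_nonneg_right h1 hp.le
  · rw [← sub_div]
    exact div_le_div_of_nonneg_right (by linarith) hp.le

theorem lam_TT (n : ℕ) : ((TT n).card : ℝ) / 2 ^ n ≤ Real.log 2 ∧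
    Real.log 2 - (n + 1) / 2 ^ n ≤ ((TT n).card : ℝ) / 2 ^ n := by
  have hhalf : |(1 / 2 : ℝ)| < 1 := by rw [abs_of_pos (by norm_num)]; norm_num
  have hlog : -Real.log (1 - 1 / 2) = Real.log 2 := by
    rw [show (1 : ℝ) - 1 / 2 = 2⁻¹ by norm_num, Real.log_inv, neg_neg]
  have hs := Real.hasSum_pow_div_log_of_abs_lt_one hhalf
  rw [hlog] at hs
  have hup : ∑ i ∈ Finset.range n, (1 / 2 : ℝ) ^ (i + 1) / ((i : ℝ) + 1) ≤ Real.log 2 :=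
    sum_le_hasSum _ (fun i _ => by positivity) hs
  have hab := Real.abs_log_sub_add_sum_range_le hhalf n
  have hlow : Real.log 2 - 1 / 2 ^ n ≤ ∑ i ∈ Finset.range n, (1 / 2 : ℝ) ^ (i + 1) / ((i : ℝ) + 1) := by
    have h1 := (abs_le.1 hab).1
    have h2 : |(1 / 2 : ℝ)| ^ (n + 1) / (1 - |(1 / 2 : ℝ)|) = 1 / 2 ^ n := by
      rw [abs_of_pos (show (0 : ℝ) < 1 / 2 by norm_num), pow_succ, one_div, inv_pow]
      field_simp
      norm_num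
    rw [h2] at h1
    have h3 : Real.log (1 - 1 / 2) = -Real.log 2 := by linarith
    rw [h3] at h1
    linarith
  have hsum : ((TT n).card : ℝ) / 2 ^ n =
      ∑ i ∈ Finset.range n, ((2 ^ (n - 1 - i) / (i + 1) : ℕ) : ℝ) / 2 ^ n := by
    rw [card_TT, Nat.cast_sum, Finset.sum_div]
  rw [hsum]
  constructor
  · exact (Finset.sum_le_sum fun i hi => (I2_term n i (Finset.mem_range.1 hi)).1).trans hup
  · have h1 : ∑ i ∈ Finset.range n, ((1 / 2 : ℝ) ^ (i + 1) / ((i : ℝ) + 1) - 1 / 2 ^ n) ≤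
        ∑ i ∈ Finset.range n, ((2 ^ (n - 1 - i) / (i + 1) : ℕ) : ℝ) / 2 ^ n :=
      Finset.sum_le_sum fun i hi => (I2_term n i (Finset.mem_range.1 hi)).2
    rw [Finset.sum_sub_distrib, Finset.sum_const, Finset.card_range, nsmul_eq_mul] at h1
    have h2 : ((n : ℝ) + 1) / 2 ^ n = n * (1 / 2 ^ n) + 1 / 2 ^ n := by ring
    rw [h2]
    linarith

end Pool.Agent.LibRV74
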