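import Pool.Agent.LibRV74.I2
import Pool.Agent.LibRV74.E1

/-!
[RV74 I3] The density of the language is `1/2` up to about `n / 2^n`.

Put `m = mm k n`, `a = card CC` (`card_CC`), `W = card WW`, `lam = card (TT n) / 2^n`; `card_WW` with `s = n`
(`mem_TT`) gives `W * 2^n = card (TT n) * a`, i.e. `W = lam * a`. With `u = 1 / a`:
`(1 - u)^W ≤ exp (-u)^W = exp (-lam) ≤ exp (-log 2 + (n+1)/2^n) = 1/2 * exp ((n+1)/2^n) ≤ 1/2 + (n+1)/2^n`
(`exp y ≤ 1 + 2 y` for `0 ≤ y ≤ 1`) and `exp (-lam) ≥ exp (-log 2) = 1/2`;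
`exp (-lam) - (1 - u)^W ≤ W * (exp (-u) - (1 - u)) ≤ W * u^2 = lam / a ≤ 1 / a ≤ 1 / 2^n`
(`x^W - y^W ≤ W (x - y)` for `0 ≤ y ≤ x ≤ 1`; `a ≥ 2^(2^m) ≥ 2^n`). So the difference is at most
`(n + 2) / 2^n`, and `dI i / 2 ≥ 1 / (4 √(2^i)) ≥ 1 / (4 * 2^(n/4))`, `i ≤ n / 2`; for `n` large
`(n + 2) / 2^n ≤ 1 / (4 * 2^(n/4))`, e.g. because `4 (n + 2) ≤ 2^(n/2)` for `n ≥ 16` and
`√(2^i) ≤ 2^(n/2)`-type bounds suffice: `√(2^i) ≤ √(2^n)`, so it is enough that
`4 (n + 2) √(2^n) ≤ 2^n`.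
-/

namespace Pool.Agent.LibRV74

open Filter Pool.Agent.LibNexp Pool.Agent.LibBHN Pool.Agent.LibRO74

private theorem I3_nat : ∀ n : ℕ, 16 ≤ n → 16 * (n + 1) ^ 2 ≤ 2 ^ n := by
  intro n hn
  induction n, hn using Nat.le_induction with
  | base => norm_num
  | succ n hn ih =>
    have h1 : (n + 1 + 1) ^ 2 ≤ 2 * (n + 1) ^ 2 := by nlinarith
    have h2 : 2 ^ (n + 1) = 2 ^ n * 2 := pow_succ 2 n
    rw [h2]
    omega

private theorem I3_an {a lam y : ℝ} {W : ℕ} (ha : 2 ≤ a) (hW : (W : ℝ) = lam * a)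
    (hl : lam ≤ Real.log 2) (hy : Real.log 2 - y ≤ lam) (hy0 : 0 ≤ y) (hy1 : y ≤ 1)
    (hay : 1 / a ≤ y) : |(1 - 1 / a) ^ W - 1 / 2| ≤ y := by
  have ha0 : 0 < a := by linarith
  have hu0 : 0 < 1 / a := by positivity
  have hu1 : 1 / a ≤ 1 / 2 := one_div_le_one_div_of_le (by norm_num) ha
  generalize hu : 1 / a = u at hu0 hu1 hay ⊢
  have hWu : (W : ℝ) * u = lam := by
    rw [hW, ← hu]
    field_simp
  have hlog2 : Real.log 2 ≤ 1 := by
    have := Real.log_two_lt_d9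
    linarith
  have hhalf : Real.exp (-Real.log 2) = 1 / 2 := by
    rw [Real.exp_neg, Real.exp_log (by norm_num)]
    norm_num
  rw [abs_le]
  constructor
  · -- lower bound
    have h1 : Real.exp (-(u / (1 - u))) ≤ 1 - u := by
      have h2 := Real.one_sub_inv_le_log_of_pos (show 0 < 1 - u by linarith)
      have h3 : 1 - (1 - u)⁻¹ = -(u / (1 - u)) := by
        have : (1 - u) ≠ 0 := by linarith
        field_simp
        ring
      rw [h3] at h2
      have h4 := Real.exp_le_exp.2 h2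
      rwa [Real.exp_log (by linarith)] at h4
    have h2 : Real.exp (-(u / (1 - u))) ^ W ≤ (1 - u) ^ W :=
      pow_le_pow_left₀ (Real.exp_pos _).le h1 W
    rw [← Real.exp_nat_mul] at h2
    have h3 : (W : ℝ) * -(u / (1 - u)) = -(lam / (1 - u)) := by
      rw [← hWu]
      ring
    rw [h3] at h2
    have h4 : lam / (1 - u) ≤ lam + 2 * u := by
      rw [div_le_iff₀ (by linarith)]
      have hl1 : lam ≤ 1 := hl.trans hlog2
      nlinarith
    have h5 : Real.exp (-(lam + 2 * u)) ≤ Real.exp (-(lam / (1 - u))) :=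
      Real.exp_le_exp.2 (by linarith)
    have h6 : Real.exp (-(lam + 2 * u)) = Real.exp (-lam) * Real.exp (-(2 * u)) := by
      rw [← Real.exp_add]
      congr 1
      ring
    have h7 : 1 / 2 ≤ Real.exp (-lam) := by
      rw [← hhalf]
      exact Real.exp_le_exp.2 (by linarith)
    have h8 : 1 - 2 * u ≤ Real.exp (-(2 * u)) := by
      have := Real.add_one_le_exp (-(2 * u))
      linarith
    have h9 : 1 / 2 * (1 - 2 * u) ≤ Real.exp (-lam) * Real.exp (-(2 * u)) :=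
      mul_le_mul h7 h8 (by linarith) (Real.exp_pos _).le
    linarith
  · -- upper bound
    have h1 : 1 - u ≤ Real.exp (-u) := by
      have := Real.add_one_le_exp (-u)
      linarith
    have h2 : (1 - u) ^ W ≤ Real.exp (-u) ^ W := pow_le_pow_left₀ (by linarith) h1 W
    rw [← Real.exp_nat_mul] at h2
    have h3 : (W : ℝ) * -u = -lam := by rw [← hWu]; ring
    rw [h3] at h2
    have h4 : Real.exp (-lam) ≤ Real.exp (-Real.log 2 + y) := Real.exp_le_exp.2 (by linarith)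
    rw [Real.exp_add, hhalf] at h4
    have h5 : Real.exp y ≤ 1 + 2 * y := by
      rcases hy0.eq_or_lt with h0 | h0
      · rw [← h0]; simp
      · have h7 : Real.exp y ≤ 1 + y + y ^ 2 := by
          have := Real.abs_exp_sub_one_sub_id_le (show |y| ≤ 1 by rw [abs_of_pos h0]; exact hy1)
          have := (abs_le.1 this).2
          linarith
        nlinarith
    linarith

theorem dens2 (k : ℕ) : ∀ᶠ n : ℕ in atTop, ∀ i : ℕ, i ≤ n / 2 →
    |(1 - 1 / (Nat.card (CC (mm k n) n) : ℝ)) ^ Nat.card (WW (TT n) (mm k n) n) - 1 / 2| ≤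
      dI i / 2 := by
  filter_upwards [eventually_ge_atTop 16] with n hn i hi
  have hmge := mm_ge k n
  have hcW := card_WW (T := TT n) (s := n) (m := mm k n) (n := n)
    (fun t ht => (mem_TT.1 ht).1) (by omega)
  have hcC := card_CC (mm k n) n
  obtain ⟨hl1, hl2⟩ := lam_TT n
  have hp : (0 : ℝ) < 2 ^ n := by positivity
  have hnn := I3_nat n hn
  -- the number `a`
  have hexp : n ≤ 2 ^ mm k n + (mm k n - n) := by
    have : mm k n < 2 ^ mm k n := Nat.lt_two_pow_self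
    omega
  have ha1 : (2 : ℝ) ^ n ≤ (Nat.card (CC (mm k n) n) : ℝ) := by
    rw [hcC]
    push_cast
    exact pow_le_pow_right₀ (by norm_num) hexp
  have hn2 : (16 : ℝ) * ((n : ℝ) + 1) ^ 2 ≤ 2 ^ n := by exact_mod_cast hnn
  have hn0 : (0 : ℝ) ≤ n := Nat.cast_nonneg _
  have hy1 : ((n : ℝ) + 1) / 2 ^ n ≤ 1 := by
    rw [div_le_one hp]
    nlinarith
  have hy0 : (0 : ℝ) ≤ ((n : ℝ) + 1) / 2 ^ n := by positivity
  have ha2 : (2 : ℝ) ≤ (Nat.card (CC (mm k n) n) : ℝ) := by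
    refine le_trans ?_ ha1
    nlinarith
  have hay : 1 / (Nat.card (CC (mm k n) n) : ℝ) ≤ ((n : ℝ) + 1) / 2 ^ n := by
    refine (one_div_le_one_div_of_le hp ha1).trans ?_
    exact div_le_div_of_nonneg_right (by linarith) hp.le
  have hW : ((Nat.card (WW (TT n) (mm k n) n) : ℕ) : ℝ) =
      ((TT n).card : ℝ) / 2 ^ n * (Nat.card (CC (mm k n) n) : ℝ) := by
    have h1 : ((Nat.card (WW (TT n) (mm k n) n) * 2 ^ n : ℕ) : ℝ) =
        (((TT n).card * Nat.card (CC (mm k n) n) : ℕ) : ℝ) := by rw [hcW]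
    push_cast at h1
    rw [div_mul_eq_mul_div, ← h1]
    field_simp
  have hmain := I3_an ha2 hW hl1 hl2 hy0 hy1 hay
  refine hmain.trans ?_
  -- comparison with `dI i`
  have hs : 4 * ((n : ℝ) + 1) ≤ √ (2 ^ n) := by
    refine Real.le_sqrt_of_sq_le ?_
    nlinarith
  have hs0 : 0 < √ ((2 : ℝ) ^ n) := Real.sqrt_pos.2 hp
  have hss : √ ((2 : ℝ) ^ n) * √ (2 ^ n) = 2 ^ n := Real.mul_self_sqrt hp.le
  have h1 : ((n : ℝ) + 1) / 2 ^ n ≤ 1 / (4 * √ (2 ^ n)) := by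
    rw [div_le_div_iff₀ hp (by positivity), one_mul]
    calc ((n : ℝ) + 1) * (4 * √ (2 ^ n)) = 4 * ((n : ℝ) + 1) * √ (2 ^ n) := by ring
      _ ≤ √ (2 ^ n) * √ (2 ^ n) := mul_le_mul_of_nonneg_right hs hs0.le
      _ = 2 ^ n := hss
  refine h1.trans ?_
  have hin : i ≤ n := by omega
  have hi0 : 0 < √ ((2 : ℝ) ^ i) := Real.sqrt_pos.2 (by positivity)
  have h2 : √ ((2 : ℝ) ^ i) ≤ √ (2 ^ n) :=
    Real.sqrt_le_sqrt (pow_le_pow_right₀ (by norm_num) hin)
  unfold dI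
  have h3 : (1 + (i : ℝ)) / (2 * √ (2 ^ i)) / 2 = (1 + (i : ℝ)) / (4 * √ (2 ^ i)) := by
    field_simp
    norm_num
  rw [h3]
  refine (one_div_le_one_div_of_le (by positivity) (mul_le_mul_of_nonneg_left h2 (by norm_num))).trans ?_
  refine div_le_div_of_nonneg_right ?_ (by positivity)
  have : (0 : ℝ) ≤ i := Nat.cast_nonneg _
  linarith

end Pool.Agent.LibRV74
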