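import Pool.Agent.LibRV74.K3
import Pool.Agent.LibRO74.L0

/-!
[RV74 I5] The language is in the class.

Adapt `G1_one` and `al_mem` (G1.lean): the guessed strings are `z w q` and now also `t`, `z2` with
`w = t ++ z2`, `|t| = |x|`, `InT t` (`mem_TT`, `nexp_InT` reindexed).
-/

namespace Pool.Agent.LibRV74

open Pool.Agent.LibNexp Pool.Agent.LibBHN Pool.Agent.LibRO74

variable {O : List Bool → Bool}

private theorem I5_flat (c : Bool) (l : List Bool) :
    l.flatMap (fun _ => [c]) = List.replicate l.length c := by
  induction l with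
  | nil => rfl
  | cons b l ih => rw [List.flatMap_cons, ih]; rfl

private theorem I5_const (c : Bool) {k : ℕ} (i : Fin k) :
    NEXP O fun e : Fin k → List Bool => e i = List.replicate (e i).length c := by
  refine ((nexp_subst (O := O) (fun _ => [c]) (fun _ => []) []).reindex ![i, i, i]).congr fun e => ?_
  simp [I5_flat, misc_flatMap_nil]

private theorem I5_add {k : ℕ} (i j l : Fin k) :
    NEXP O fun e : Fin k → List Bool => (e i).length + (e j).length = (e l).length := by
  have h1 : NEXP O fun e : Fin 4 → List Bool => e 3 = e 0 ++ e 1 ∧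
      (e 3).length = 1 * (e 2).length + 0 := (nexp_append 0 1 3).and (nexp_lin 1 0 2 3)
  have h2 : NEXP O fun e : Fin 3 → List Bool => ∃ z : List Bool, z = e 0 ++ e 1 ∧
      z.length = 1 * (e 2).length + 0 := by
    refine nexp_ex (R := fun e z => z = e 0 ++ e 1 ∧ z.length = 1 * (e 2).length + 0) h1
      (g := fun n => n) PolyB.id ?_
    rintro e z ⟨-, h⟩
    have := len_le_size e 2
    omega
  refine (h2.reindex ![i, j, l]).congr fun e => ?_
  simp only [Matrix.cons_val_zero, Matrix.cons_val_one, Matrix.cons_val_two, Matrix.head_cons,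
    Matrix.tail_cons, one_mul, add_zero]
  constructor
  · rintro ⟨z, rfl, h⟩
    rw [← h, List.length_append]
  · intro h
    exact ⟨_, rfl, by rw [List.length_append, h]⟩

private theorem I5_M (k : ℕ) : NEXP O fun e : Fin 2 → List Bool =>
    (e 1).length = mm k (e 0).length := by
  have h2 : NEXP O fun e : Fin 2 → List Bool => ∃ P Q R : List Bool,
      P.length = 3 * (e 0).length + 2 ∧ Q.length = P.length ^ k + k ∧
        R.length = 5 * (e 0).length + 0 ∧ R.length + Q.length = (e 1).length := by
    refine nexp_ex (R := fun e P => ∃ Q R : List Bool,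
      P.length = 3 * (e 0).length + 2 ∧ Q.length = P.length ^ k + k ∧
        R.length = 5 * (e 0).length + 0 ∧ R.length + Q.length = (e 1).length) ?_
        (g := fun n => 3 * n + 2) (((PolyB.const 3).mul PolyB.id).add (PolyB.const 2)) ?_
    · refine nexp_ex (R := fun (e : Fin 3 → List Bool) Q => ∃ R : List Bool,
        (e 2).length = 3 * (e 0).length + 2 ∧ Q.length = (e 2).length ^ k + k ∧
        R.length = 5 * (e 0).length + 0 ∧ R.length + Q.length = (e 1).length) ?_
        (g := fun n => n) PolyB.id ?_
      · refine nexp_ex (R := fun (e : Fin 4 → List Bool) R =>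
          (e 2).length = 3 * (e 0).length + 2 ∧ (e 3).length = (e 2).length ^ k + k ∧
          R.length = 5 * (e 0).length + 0 ∧ R.length + (e 3).length = (e 1).length) ?_
          (g := fun n => n) PolyB.id ?_
        · exact (nexp_lin 3 2 0 2).and ((nexp_powAdd k k 2 3).and
            ((nexp_lin 5 0 0 4).and (I5_add 4 3 1)))
        · rintro e R ⟨-, -, -, h⟩
          have := len_le_size e 1
          omega
      · rintro e Q ⟨R, -, -, -, h⟩
        have := len_le_size e 1
        omega
    · rintro e P ⟨Q, R, h, -⟩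
      have := len_le_size e 0
      omega
  refine h2.congr fun e => ?_
  unfold mm
  constructor
  · rintro ⟨P, Q, R, h1, h2, h3, h4⟩
    rw [← h4, h2, h1, h3]
    ring
  · intro h
    exact ⟨List.replicate (3 * (e 0).length + 2) true,
      List.replicate ((3 * (e 0).length + 2) ^ k + k) true,
      List.replicate (5 * (e 0).length) true, by simp, by simp, by simp, by simp [h]⟩

private theorem I5_mono (k : ℕ) (n s : ℕ) (h : n ≤ s) : mm k n ≤ mm k s := by
  unfold mm
  have h1 : (3 * n + 2) ^ k ≤ (3 * s + 2) ^ k := Nat.pow_le_pow_left (by omega) _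
  omega

private theorem I5_poly (k : ℕ) : PolyB fun n => mm k n :=
  ((PolyB.const 5).mul PolyB.id).add
    (((((PolyB.const 3).mul PolyB.id).add (PolyB.const 2)).pow k).add (PolyB.const k))

private theorem I5_ex (k : ℕ) : NEXP O fun e : Fin 1 → List Bool => ∃ z w q t z2 : List Bool,
    z = e 0 ++ w ∧ w = t ++ z2 ∧ t.length = 1 * (e 0).length + 0 ∧ InT t ∧
      z.length = mm k (e 0).length ∧ q = List.replicate q.length false ∧
      q.length + (e 0).length = z.length ∧ Hit O z q := by
  have h6 : NEXP O fun e : Fin 6 → List Bool => e 1 = e 0 ++ e 2 ∧ e 2 = e 4 ++ e 5 ∧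
      (e 4).length = 1 * (e 0).length + 0 ∧ InT (e 4) ∧ (e 1).length = mm k (e 0).length ∧
      e 3 = List.replicate (e 3).length false ∧ (e 3).length + (e 0).length = (e 1).length ∧
      Hit O (e 1) (e 3) := by
    have hh : NEXP O fun e : Fin 6 → List Bool => Hit O (e 1) (e 3) := by
      refine ((nexp_hit (O := O)).reindex ![1, 3]).congr fun e => ?_
      simp
    have hM : NEXP O fun e : Fin 6 → List Bool => (e 1).length = mm k (e 0).length := by
      refine ((I5_M (O := O) k).reindex ![0, 1]).congr fun e => ?_
      simp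
    have hT : NEXP O fun e : Fin 6 → List Bool => InT (e 4) := by
      refine ((nexp_InT O).reindex ![4]).congr fun e => ?_
      simp
    exact (nexp_append 0 2 1).and ((nexp_append 4 5 2).and ((nexp_lin 1 0 0 4).and (hT.and
      (hM.and ((I5_const false 3).and ((I5_add 3 0 1).and hh))))))
  refine nexp_ex (R := fun (e : Fin 1 → List Bool) z => ∃ w q t z2 : List Bool,
    z = e 0 ++ w ∧ w = t ++ z2 ∧ t.length = 1 * (e 0).length + 0 ∧ InT t ∧
      z.length = mm k (e 0).length ∧ q = List.replicate q.length false ∧
      q.length + (e 0).length = z.length ∧ Hit O z q) ?_ (g := fun n => mm k n) (I5_poly k) ?_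
  · refine nexp_ex (R := fun (e : Fin 2 → List Bool) w => ∃ q t z2 : List Bool,
      e 1 = e 0 ++ w ∧ w = t ++ z2 ∧ t.length = 1 * (e 0).length + 0 ∧ InT t ∧
        (e 1).length = mm k (e 0).length ∧ q = List.replicate q.length false ∧
        q.length + (e 0).length = (e 1).length ∧ Hit O (e 1) q) ?_ (g := fun n => n) PolyB.id ?_
    · refine nexp_ex (R := fun (e : Fin 3 → List Bool) q => ∃ t z2 : List Bool,
        e 1 = e 0 ++ e 2 ∧ e 2 = t ++ z2 ∧ t.length = 1 * (e 0).length + 0 ∧ InT t ∧
          (e 1).length = mm k (e 0).length ∧ q = List.replicate q.length false ∧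
          q.length + (e 0).length = (e 1).length ∧ Hit O (e 1) q) ?_ (g := fun n => n)
          PolyB.id ?_
      · refine nexp_ex (R := fun (e : Fin 4 → List Bool) t => ∃ z2 : List Bool,
          e 1 = e 0 ++ e 2 ∧ e 2 = t ++ z2 ∧ t.length = 1 * (e 0).length + 0 ∧ InT t ∧
            (e 1).length = mm k (e 0).length ∧ e 3 = List.replicate (e 3).length false ∧
            (e 3).length + (e 0).length = (e 1).length ∧ Hit O (e 1) (e 3)) ?_
            (g := fun n => n) PolyB.id ?_
        · refine nexp_ex (R := fun (e : Fin 5 → List Bool) z2 =>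
            e 1 = e 0 ++ e 2 ∧ e 2 = e 4 ++ z2 ∧ (e 4).length = 1 * (e 0).length + 0 ∧
              InT (e 4) ∧ (e 1).length = mm k (e 0).length ∧
              e 3 = List.replicate (e 3).length false ∧
              (e 3).length + (e 0).length = (e 1).length ∧ Hit O (e 1) (e 3)) h6
              (g := fun n => n) PolyB.id ?_
          rintro e z2 ⟨-, h, -⟩
          have := len_le_size e 2
          rw [h, List.length_append] at this
          omega
        · rintro e t ⟨z2, -, -, h, -⟩
          have := len_le_size e 0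
          omega
      · rintro e q ⟨t, z2, -, -, -, -, -, -, h, -⟩
        have := len_le_size e 1
        omega
    · rintro e w ⟨q, t, z2, h, -⟩
      have := len_le_size e 1
      rw [h, List.length_append] at this
      omega
  · rintro e z ⟨w, q, t, z2, -, -, -, -, h, -⟩
    rw [h]
    exact I5_mono k _ _ (len_le_size e 0)

theorem al2_mem (O : List Bool → Bool) (k : ℕ) : AL2 O k ∈ NEXPLang O := by
  show NEXP O fun e : Fin 1 → List Bool => e 0 ∈ AL2 O k
  refine (I5_ex (O := O) k).congr fun e => ?_
  show _ ↔ ∃ t ∈ TT (e 0).length, ∃ z2 : List Bool,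
    (e 0 ++ (t ++ z2)).length = mm k (e 0).length ∧
      Hit O (e 0 ++ (t ++ z2)) (List.replicate (mm k (e 0).length - (e 0).length) false)
  constructor
  · rintro ⟨z, w, q, t, z2, h1, h2, h3, hT, h4, h5, h6, h7⟩
    refine ⟨t, mem_TT.2 ⟨by omega, hT⟩, z2, ?_, ?_⟩
    · rw [← h2, ← h1, h4]
    · have h8 : mm k (e 0).length - (e 0).length = q.length := by omega
      rw [← h2, ← h1, h8, ← h5]
      exact h7
  · rintro ⟨t, ht, z2, h1, h2⟩
    obtain ⟨h3, h4⟩ := mem_TT.1 ht
    refine ⟨_, _, _, t, z2, rfl, rfl, by omega, h4, h1, ?_, ?_, h2⟩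
    · rw [List.length_replicate]
    · rw [List.length_replicate]
      have h5 := mm_ge k (e 0).length
      rw [h1]
      omega

end Pool.Agent.LibRV74
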