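import Pool.Agent.LibRV74.Z2
import Pool.Agent.LibRO74.L2
import Pool.Agent.LibBHN.Str2

/-!
[RV74 K2] The relations `Fm`, `Nm` are in the class (arguments `u t' y`).

`nexp_ex` for the parts, `nexp_append`, `L2_const` (all letters equal; copy as `K2_const`), `L2_add` (lengths;
copy), `nexp_lin 1 0` (equal lengths), `nexp_valLe`, `nexp_valLt` (LibBHN/Str2); for
`b = b1 ++ false :: true :: b2`: `nexp_subst (fun b => [b]) (fun b => [b]) [false, true]` reindexed, as `h0` in
`L2_A` of LibRO74/L2.
-/

namespace Pool.Agent.LibRV74

open Pool.Agent.LibNexp Pool.Agent.LibBHN Pool.Agent.LibRO74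

variable {O : List Bool → Bool}

private theorem K2_low_le {k m : ℕ} (e : Fin (k + m) → List Bool) :
    size (low (Nat.le_add_right k m) e) ≤ size e := by
  unfold size low
  rw [Fin.sum_univ_add]
  exact Nat.le_add_right _ _

/-- Existential quantification over `m` strings of polynomial length (as in LibDual85). -/
private theorem K2_exN {k m : ℕ} {R : (Fin k → List Bool) → (Fin m → List Bool) → Prop}
    (h : NEXP O fun e : Fin (k + m) → List Bool =>
      R (low (Nat.le_add_right k m) e) (fun j => e (Fin.natAdd k j)))
    {g : ℕ → ℕ} (hg : PolyB g) (hgm : Monotone g)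
    (hb : ∀ e z, R e z → ∀ j, (z j).length ≤ g (size e)) :
    NEXP O fun e : Fin k → List Bool => ∃ z, R e z := by
  induction m with
  | zero =>
    refine h.congr fun e => ?_
    constructor
    · intro h1
      exact ⟨_, h1⟩
    · rintro ⟨z, hz⟩
      have : z = fun j => e (Fin.natAdd k j) := funext fun j => j.elim0
      rw [this] at hz
      exact hz
  | succ m ih =>
    have h1 : NEXP O fun e : Fin (k + m) → List Bool => ∃ b,
        R (low (Nat.le_add_right k m) e)
          (Fin.snoc (α := fun _ => List Bool) (fun j => e (Fin.natAdd k j)) b) := by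
      refine nexp_ex (R := fun (e : Fin (k + m) → List Bool) b =>
        R (low (Nat.le_add_right k m) e)
          (Fin.snoc (α := fun _ => List Bool) (fun j => e (Fin.natAdd k j)) b)) ?_ hg ?_
      · refine h.congr fun e => ?_
        have h2 : (fun j => e (Fin.natAdd k j) : Fin (m + 1) → List Bool) =
            Fin.snoc (α := fun _ => List Bool)
              (fun j => low (Nat.le_add_right (k + m) 1) e (Fin.natAdd k j))
              (e (Fin.last (k + m))) := by
          funext j
          refine Fin.lastCases ?_ (fun j => ?_) j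
          · rw [Fin.snoc_last]
            congr 1
          · rw [Fin.snoc_castSucc]
            unfold low
            congr 1
        rw [h2]
        exact Iff.rfl
      · intro e b hR
        have := hb _ _ hR (Fin.last m)
        rw [Fin.snoc_last] at this
        exact this.trans (hgm (K2_low_le e))
    have h2 := ih (R := fun e z => ∃ b, R e (Fin.snoc (α := fun _ => List Bool) z b)) h1 (by
      rintro e z ⟨b, hR⟩ j
      have := hb _ _ hR j.castSucc
      rw [Fin.snoc_castSucc] at this
      exact this)
    refine h2.congr fun e => ?_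
    constructor
    · rintro ⟨z, b, hR⟩
      exact ⟨_, hR⟩
    · rintro ⟨z, hz⟩
      refine ⟨fun j => z j.castSucc, z (Fin.last m), ?_⟩
      have : Fin.snoc (α := fun _ => List Bool) (fun j => z j.castSucc) (z (Fin.last m)) = z := by
        funext j
        refine Fin.lastCases ?_ (fun j => ?_) j
        · rw [Fin.snoc_last]
        · rw [Fin.snoc_castSucc]
      rw [this]
      exact hz

private theorem K2_flat (c : Bool) (l : List Bool) :
    l.flatMap (fun _ => [c]) = List.replicate l.length c := by
  induction l with
  | nil => rfl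
  | cons b l ih => rw [List.flatMap_cons, ih]; rfl

private theorem K2_const (c : Bool) {k : ℕ} (i : Fin k) :
    NEXP O fun e : Fin k → List Bool => e i = List.replicate (e i).length c := by
  refine ((nexp_subst (O := O) (fun _ => [c]) (fun _ => []) []).reindex ![i, i, i]).congr fun e => ?_
  simp [K2_flat, misc_flatMap_nil]

private theorem K2_add {k : ℕ} (i j l : Fin k) :
    NEXP O fun e : Fin k → List Bool => (e i).length + (e j).length = (e l).length := by
  have h1 : NEXP O fun e : Fin 4 → List Bool => e 3 = e 0 ++ e 1 ∧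
      (e 3).length = 1 * (e 2).length + 0 := (nexp_append 0 1 3).and (nexp_lin 1 0 2 3)
  have h2 : NEXP O fun e : Fin 3 → List Bool => ∃ z : List Bool, z = e 0 ++ e 1 ∧
      z.length = 1 * (e 2).length + 0 := by
    refine nexp_ex (R := fun e z => z = e 0 ++ e 1 ∧ z.length = 1 * (e 2).length + 0) h1
      (g := fun n => n) PolyB.id ?_
    rintro e z ⟨-, h⟩
    have := len_le_size e 2
    omega
  refine (h2.reindex ![i, j, l]).congr fun e => ?_
  simp only [Matrix.cons_val_zero, Matrix.cons_val_one, Matrix.cons_val_two, Matrix.head_cons,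
    Matrix.tail_cons, one_mul, add_zero]
  constructor
  · rintro ⟨z, rfl, h⟩
    rw [← h, List.length_append]
  · intro h
    exact ⟨_, rfl, by rw [List.length_append, h]⟩

/-- The relation between `u t' y` and the guessed strings `a b c d` of `Fm`. -/
private def K2F (e : Fin 3 → List Bool) (z : Fin 4 → List Bool) : Prop :=
  (e 2 = z 1 ++ z 0 ∧ z 1 = z 2 ++ z 3) ∧
    ((z 2 = List.replicate (z 2).length true ∧ z 3 = List.replicate (z 3).length false) ∧
      ((z 2).length + (z 3).length = (e 0).length ∧
        ((z 0).length = (e 1).length ∧ val (z 0) ≤ val (e 1))))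

private theorem K2_F : NEXP O fun e : Fin 3 → List Bool => ∃ z, K2F e z := by
  have h1 : NEXP O fun e : Fin (3 + 4) → List Bool =>
      K2F (low (Nat.le_add_right 3 4) e) (fun j => e (Fin.natAdd 3 j)) :=
    ((nexp_append 4 3 2).and (nexp_append 5 6 4)).and
      (((K2_const true 5).and (K2_const false 6)).and ((K2_add 5 6 0).and (nexp_valLe 3 1)))
  refine K2_exN (k := 3) (m := 4) (R := K2F) h1 (g := fun n => n) PolyB.id monotone_id ?_
  rintro e z ⟨⟨a1, a2⟩, -, -⟩ j
  have l2 := len_le_size e 2
  rw [a1, List.length_append] at l2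
  have b2 := congrArg List.length a2
  rw [List.length_append] at b2
  show _ ≤ size e
  fin_cases j
  · show (z 0).length ≤ _; omega
  · show (z 1).length ≤ _; omega
  · show (z 2).length ≤ _; omega
  · show (z 3).length ≤ _; omega

/-- A string contains `01`. -/
private theorem K2_01 : NEXP O fun e : Fin 1 → List Bool =>
    ∃ b1 b2 : List Bool, e 0 = b1 ++ false :: true :: b2 := by
  have h1 : NEXP O fun e : Fin (1 + 2) → List Bool =>
      (fun (e : Fin 1 → List Bool) (z : Fin 2 → List Bool) => e 0 = z 0 ++ [false, true] ++ z 1)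
        (low (Nat.le_add_right 1 2) e) (fun j => e (Fin.natAdd 1 j)) := by
    refine ((nexp_subst (O := O) (fun b => [b]) (fun b => [b]) [false, true]).reindex
      ![1, 2, 0]).congr fun e => ?_
    show e 0 = (e 1).flatMap (fun b => [b]) ++ [false, true] ++ (e 2).flatMap (fun b => [b]) ↔
      e 0 = e 1 ++ [false, true] ++ e 2
    simp
  have h2 := K2_exN (O := O) (k := 1) (m := 2)
    (R := fun (e : Fin 1 → List Bool) (z : Fin 2 → List Bool) =>
      e 0 = z 0 ++ [false, true] ++ z 1) h1 (g := fun n => n) PolyB.id monotone_id (by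
    intro e z a1 j
    have l0 := len_le_size e 0
    rw [a1, List.length_append, List.length_append] at l0
    show _ ≤ size e
    fin_cases j
    · show (z 0).length ≤ _; omega
    · show (z 1).length ≤ _; omega)
  refine h2.congr fun e => ?_
  constructor
  · rintro ⟨z, hz⟩
    refine ⟨z 0, z 1, ?_⟩
    rw [hz]
    simp
  · rintro ⟨b1, b2, hb⟩
    refine ⟨![b1, b2], ?_⟩
    show e 0 = b1 ++ [false, true] ++ b2
    rw [hb]
    simp

/-- The relation between `u t' y` and the guessed strings `b a` of `Nm`. -/
private def K2N (e : Fin 3 → List Bool) (z : Fin 2 → List Bool) : Prop :=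
  (e 2 = z 0 ++ z 1 ∧ ((z 0).length = 1 * (e 0).length + 0 ∧
    (z 1).length = 1 * (e 1).length + 0)) ∧
    ((∃ b1 b2 : List Bool, z 0 = b1 ++ false :: true :: b2) ∨
      ((e 1).length = (z 1).length ∧ val (e 1) < val (z 1)))

private theorem K2_N : NEXP O fun e : Fin 3 → List Bool => ∃ z, K2N e z := by
  have h0 : NEXP O fun e : Fin 5 → List Bool =>
      ∃ b1 b2 : List Bool, e 3 = b1 ++ false :: true :: b2 := (K2_01 (O := O)).reindex ![3]
  have h1 : NEXP O fun e : Fin (3 + 2) → List Bool =>
      K2N (low (Nat.le_add_right 3 2) e) (fun j => e (Fin.natAdd 3 j)) :=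
    ((nexp_append 3 4 2).and ((nexp_lin 1 0 0 3).and (nexp_lin 1 0 1 4))).and
      (h0.or (nexp_valLt 1 4))
  refine K2_exN (k := 3) (m := 2) (R := K2N) h1 (g := fun n => n) PolyB.id monotone_id ?_
  rintro e z ⟨⟨a1, -⟩, -⟩ j
  have l2 := len_le_size e 2
  rw [a1, List.length_append] at l2
  show _ ≤ size e
  fin_cases j
  · show (z 0).length ≤ _; omega
  · show (z 1).length ≤ _; omega

theorem nexp_Fm (O : List Bool → Bool) :
    NEXP O fun e : Fin 3 → List Bool => Fm (e 0) (e 1) (e 2) := by
  refine (K2_F (O := O)).congr fun e => ?_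
  constructor
  · rintro ⟨z, ⟨h1, h2⟩, ⟨h3, h4⟩, h5, h6, h7⟩
    refine ⟨z 0, (z 2).length, (z 3).length, ?_, h5, h6, h7⟩
    rw [← h3, ← h4, ← h2]
    exact h1
  · rintro ⟨a, j, l, h1, h2, h3, h4⟩
    refine ⟨![a, List.replicate j true ++ List.replicate l false, List.replicate j true,
      List.replicate l false], ⟨h1, rfl⟩, ⟨?_, ?_⟩, ?_, h3, h4⟩
    · show List.replicate j true = List.replicate (List.replicate j true).length true
      rw [List.length_replicate]
    · show List.replicate l false = List.replicate (List.replicate l false).length false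
      rw [List.length_replicate]
    · show (List.replicate j true).length + (List.replicate l false).length = (e 0).length
      rw [List.length_replicate, List.length_replicate]
      exact h2

theorem nexp_Nm (O : List Bool → Bool) :
    NEXP O fun e : Fin 3 → List Bool => Nm (e 0) (e 1) (e 2) := by
  refine (K2_N (O := O)).congr fun e => ?_
  constructor
  · rintro ⟨z, ⟨h1, h2, h3⟩, h4⟩
    refine ⟨z 0, z 1, h1, by omega, by omega, ?_⟩
    rcases h4 with h4 | ⟨-, h4⟩
    · exact Or.inl h4
    · exact Or.inr h4
  · rintro ⟨b, a, h1, h2, h3, h4⟩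
    refine ⟨![b, a], ⟨h1, ?_, ?_⟩, ?_⟩
    · show b.length = 1 * (e 0).length + 0
      omega
    · show a.length = 1 * (e 1).length + 0
      omega
    · rcases h4 with h4 | h4
      · exact Or.inl h4
      · exact Or.inr ⟨h3.symm, h4⟩

end Pool.Agent.LibRV74
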