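import Pool.Agent.LibRV74.K1
import Pool.Agent.LibRV74.K2

/-!
[RV74 K4] The complement of `InT` is in the class.

`¬ InT t` iff `t` is all `true`, or there are `u` (all `true`), `t'` with `t = u ++ false :: t'` (unique) and
`2^|t'| + 1 ≤ cnt (|u|+|t'|) (Fm u t')` (`cnt_Fm`). Threshold: `w0 = 0^|t'| 1 0^|u|` (`val = 2^|t'|`) and
`Suc w0 w` (`nexp_suc`: `|w| = |w0| = |u| + |t'| + 1`, `val w = val w0 + 1`; if there is no such `w`, i.e.
`|u| = |t'| = 0`, then `InT t`). `nexp_count` with `R e y = Fm (e 0) (e 1) y` (`nexp_Fm`), `nexp_ex`, `NEXP.or`.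
-/

namespace Pool.Agent.LibRV74

open Pool.Agent.LibNexp Pool.Agent.LibBHN Pool.Agent.LibRO74

private theorem K4_flat (c : Bool) (l : List Bool) :
    l.flatMap (fun _ => [c]) = List.replicate l.length c := by
  induction l with
  | nil => rfl
  | cons b l ih => rw [List.flatMap_cons, ih]; rfl

private theorem K4_const (O : List Bool → Bool) (c : Bool) {k : ℕ} (i : Fin k) :
    NEXP O fun e : Fin k → List Bool => e i = List.replicate (e i).length c := by
  refine ((nexp_subst (O := O) (fun _ => [c]) (fun _ => []) []).reindex ![i, i, i]).congr fun e => ?_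
  simp [K4_flat, misc_flatMap_nil]

private def K4_S (t u t' w0 w : List Bool) : Prop :=
  t = u ++ [false] ++ t' ∧ u = List.replicate u.length true ∧
    w0 = t'.flatMap (fun _ => [false]) ++ [true] ++ u.flatMap (fun _ => [false]) ∧ Suc w0 w ∧
    ∃ n, w.length = n + 1 ∧ val w ≤ cnt n (Fm u t')

private theorem K4_lens {t u t' w0 w : List Bool} (h : K4_S t u t' w0 w) :
    u.length ≤ t.length ∧ t'.length ≤ t.length ∧ w0.length ≤ t.length ∧ w.length ≤ t.length ∧
      w.length = (u.length + t'.length) + 1 := by
  obtain ⟨h1, -, h3, h4, -⟩ := h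
  have e1 : t.length = u.length + 1 + t'.length := by
    rw [h1]; simp; ring
  have e2 : w0.length = t'.length + 1 + u.length := by
    rw [h3, K4_flat, K4_flat]; simp; ring
  have e3 : w.length = w0.length := h4.1
  refine ⟨?_, ?_, ?_, ?_, ?_⟩ <;> omega

private theorem K4_dec (t : List Bool) : t = List.replicate t.length true ∨
    ∃ (i : ℕ) (t' : List Bool), t = List.replicate i true ++ false :: t' := by
  induction t with
  | nil => exact Or.inl rfl
  | cons b l ih =>
    cases b with
    | false => exact Or.inr ⟨0, l, rfl⟩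
    | true =>
      rcases ih with h | ⟨i, t', h⟩
      · left
        rw [List.length_cons, List.replicate_succ, ← h]
      · right
        exact ⟨i + 1, t', by rw [List.replicate_succ, List.cons_append, ← h]⟩

private theorem K4_uniq : ∀ (i j : ℕ) (a b : List Bool),
    List.replicate i true ++ false :: a = List.replicate j true ++ false :: b → i = j ∧ a = b
  | 0, 0, a, b, h => by
    simp only [List.replicate_zero, List.nil_append] at h
    exact ⟨rfl, (List.cons.inj h).2⟩
  | 0, j + 1, a, b, h => by
    rw [List.replicate_succ, List.replicate_zero, List.nil_append, List.cons_append] at h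
    exact absurd (List.cons.inj h).1 (by decide)
  | i + 1, 0, a, b, h => by
    rw [List.replicate_succ, List.replicate_zero, List.nil_append, List.cons_append] at h
    exact absurd (List.cons.inj h).1 (by decide)
  | i + 1, j + 1, a, b, h => by
    rw [List.replicate_succ, List.replicate_succ, List.cons_append, List.cons_append] at h
    have := K4_uniq i j a b (List.cons.inj h).2
    exact ⟨by omega, this.2⟩

private theorem K4_ntrue : ∀ (n i : ℕ) (a : List Bool),
    List.replicate n true ≠ List.replicate i true ++ false :: a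
  | 0, i, a, h => by
    have := congrArg List.length h
    simp at this
  | n + 1, 0, a, h => by
    rw [List.replicate_succ, List.replicate_zero, List.nil_append] at h
    exact absurd (List.cons.inj h).1 (by decide)
  | n + 1, i + 1, a, h => by
    rw [List.replicate_succ, List.replicate_succ, List.cons_append] at h
    exact K4_ntrue n i a (List.cons.inj h).2

private theorem K4_val0 (a b : ℕ) :
    val (List.replicate a false ++ [true] ++ List.replicate b false) = 2 ^ a := by
  have h := val_thr [] a b
  rw [List.nil_append, List.length_nil, zero_add] at h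
  have h2 : List.replicate a false ++ [true] ++ List.replicate b false =
      List.replicate a false ++ true :: List.replicate b false := by
    rw [List.append_assoc, List.singleton_append]
  rw [h2, h]
  simp [val]

private theorem K4_iff (t : List Bool) : ¬ InT t ↔
    (t = List.replicate t.length true ∨ ∃ u t' w0 w, K4_S t u t' w0 w) := by
  constructor
  · intro hN
    rcases K4_dec t with h | ⟨i, t', ht⟩
    · exact Or.inl h
    right
    have hlt : 2 ^ t'.length < (val t' + 1) * (i + 1) := by
      by_contra hcon
      exact hN ⟨i, t', ht, by omega⟩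
    have hv : val t' + 1 ≤ 2 ^ t'.length := cnt_val_lt t'
    have hbig : 2 ^ t'.length + 1 < 2 ^ (i + t'.length + 1) := by
      rcases Nat.eq_zero_or_pos i with hi | hi
      · subst hi
        have h1 : t'.length ≠ 0 := by
          intro h0
          rw [h0] at hlt hv
          simp at hlt hv
          omega
        have h2 : 2 ≤ 2 ^ t'.length := by
          calc 2 = 2 ^ 1 := rfl
            _ ≤ 2 ^ t'.length := Nat.pow_le_pow_right (by norm_num) (by omega)
        rw [zero_add, pow_succ]
        omega
      · have h1 : 2 ^ (1 + t'.length + 1) ≤ 2 ^ (i + t'.length + 1) :=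
          Nat.pow_le_pow_right (by norm_num) (by omega)
        have h2 : 2 ^ (1 + t'.length + 1) = 4 * 2 ^ t'.length := by
          rw [pow_add, pow_add]; ring
        have h3 : 0 < 2 ^ t'.length := by positivity
        omega
    have hS : K4_S t (List.replicate i true) t'
        (List.replicate t'.length false ++ [true] ++ List.replicate i false)
        (bits (i + t'.length + 1) (2 ^ t'.length + 1)) := by
      refine ⟨?_, ?_, ?_, ⟨?_, ?_⟩, i + t'.length, ?_, ?_⟩
      · rw [ht, List.append_assoc, List.singleton_append]
      · rw [List.length_replicate]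
      · rw [K4_flat, K4_flat, List.length_replicate]
      · rw [length_bits]; simp; ring
      · rw [val_bits hbig, K4_val0]
      · rw [length_bits]
      · have hc := cnt_Fm (List.replicate i true) t'
        rw [List.length_replicate] at hc
        rw [val_bits hbig, hc, Nat.mul_comm (i + 1)]
        exact hlt
    exact ⟨_, _, _, _, hS⟩
  · rintro (h | ⟨u, t', w0, w, hS⟩) ⟨i, t'', ht, hle⟩
    · rw [h] at ht
      exact K4_ntrue _ _ _ ht
    · have hl := (K4_lens hS).2.2.2.2
      obtain ⟨h1, h2, h3, h4, n, hn, hc⟩ := hS
      have hn' : n = u.length + t'.length := by omega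
      subst hn'
      have h5 : List.replicate i true ++ false :: t'' = List.replicate u.length true ++ false :: t' := by
        rw [← ht, ← h2, h1, List.append_assoc, List.singleton_append]
      obtain ⟨h6, h7⟩ := K4_uniq _ _ _ _ h5
      subst h7
      rw [cnt_Fm, h4.2, h3, K4_flat, K4_flat, K4_val0] at hc
      rw [h6, Nat.mul_comm] at hle
      omega

theorem nexp_notInT (O : List Bool → Bool) :
    NEXP O fun e : Fin 1 → List Bool => ¬ InT (e 0) := by
  have hF : NEXP O fun e : Fin 5 → List Bool => Fm (e 1) (e 2) (e 4) := by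
    refine ((nexp_Fm O).reindex ![1, 2, 4]).congr fun e => ?_
    simp
  have hC : NEXP O fun e : Fin 5 → List Bool => ∃ n, (e 4).length = n + 1 ∧
      val (e 4) ≤ cnt n (Fm (e 1) (e 2)) :=
    nexp_count (k := 4) (R := fun e s => Fm (e 1) (e 2) s) hF
  have h0 : NEXP O fun e : Fin 5 → List Bool => e 0 = e 1 ++ [false] ++ e 2 := by
    refine ((nexp_subst (O := O) (fun b => [b]) (fun b => [b]) [false]).reindex
      ![1, 2, 0]).congr fun e => ?_
    simp
  have hw : NEXP O fun e : Fin 5 → List Bool =>
      e 3 = (e 2).flatMap (fun _ => [false]) ++ [true] ++ (e 1).flatMap (fun _ => [false]) := by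
    refine ((nexp_subst (O := O) (fun _ => [false]) (fun _ => [false]) [true]).reindex
      ![2, 1, 3]).congr fun e => ?_
    simp
  have h5 : NEXP O fun e : Fin 5 → List Bool => K4_S (e 0) (e 1) (e 2) (e 3) (e 4) :=
    h0.and ((K4_const O true 1).and (hw.and ((nexp_suc 3 4).and hC)))
  have h4 : NEXP O fun e : Fin 4 → List Bool => ∃ w, K4_S (e 0) (e 1) (e 2) (e 3) w := by
    refine nexp_ex (k := 4) (R := fun e w => K4_S (e 0) (e 1) (e 2) (e 3) w) h5
      (g := fun n => n) PolyB.id ?_
    intro e z hz
    exact (K4_lens hz).2.2.2.1.trans (len_le_size e 0)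
  have h3 : NEXP O fun e : Fin 3 → List Bool => ∃ w0 w, K4_S (e 0) (e 1) (e 2) w0 w := by
    refine nexp_ex (k := 3) (R := fun e w0 => ∃ w, K4_S (e 0) (e 1) (e 2) w0 w) h4
      (g := fun n => n) PolyB.id ?_
    rintro e z ⟨w, hz⟩
    exact (K4_lens hz).2.2.1.trans (len_le_size e 0)
  have h2 : NEXP O fun e : Fin 2 → List Bool => ∃ t' w0 w, K4_S (e 0) (e 1) t' w0 w := by
    refine nexp_ex (k := 2) (R := fun e t' => ∃ w0 w, K4_S (e 0) (e 1) t' w0 w) h3
      (g := fun n => n) PolyB.id ?_
    rintro e z ⟨w0, w, hz⟩
    exact (K4_lens hz).2.1.trans (len_le_size e 0)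
  have h1 : NEXP O fun e : Fin 1 → List Bool => ∃ u t' w0 w, K4_S (e 0) u t' w0 w := by
    refine nexp_ex (k := 1) (R := fun e u => ∃ t' w0 w, K4_S (e 0) u t' w0 w) h2
      (g := fun n => n) PolyB.id ?_
    rintro e z ⟨t', w0, w, hz⟩
    exact (K4_lens hz).1.trans (len_le_size e 0)
  exact ((K4_const O true 0).or h1).congr fun e => (K4_iff (e 0)).symm

end Pool.Agent.LibRV74
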