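import Pool.Agent.LibRV74.K3
import Pool.Agent.LibRV74.K4
import Pool.Agent.LibRO74.L1
import Pool.Agent.LibRO74.L2

/-!
[RV74 J1] The counting relation is in the class (arguments `q x v s`).

Adapt `nexp_RB` (H1.lean): `NEXP.or` of three parts. First: `z`, `x'`, `t`, `z2` guessed (`|t| = |x|`, `InT t`:
`nexp_InT`; `mem_TT`), `x' ≠ x`, `Hit O z q`; second: dummies; third: `nexp_notInT` for `t`.
`s = false :: false :: z` etc. by `nexp_subst` with constant `[false, false]`, ...
-/

namespace Pool.Agent.LibRV74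

open Pool.Agent.LibNexp Pool.Agent.LibBHN Pool.Agent.LibRO74

private theorem J1_flatMap (l : List Bool) :
    l.flatMap (fun _ => [false]) = List.replicate l.length false := by
  induction l with
  | nil => rfl
  | cons b l ih => rw [List.flatMap_cons, ih]; rfl

private theorem J1_part1 (O : List Bool → Bool) :
    NEXP O fun e : Fin 4 → List Bool => ∃ z x' w t z2 : List Bool, e 3 = false :: false :: z ∧
      (z = x' ++ w ∧ (w = t ++ z2 ∧ (x'.length = 1 * (e 1).length + 0 ∧
        (t.length = 1 * (e 1).length + 0 ∧ (x' ≠ e 1 ∧ (InT t ∧ Hit O z (e 0))))))) := by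
  have h1 : NEXP O fun e : Fin 9 → List Bool => e 3 = false :: false :: e 4 ∧
      (e 4 = e 5 ++ e 6 ∧ (e 6 = e 7 ++ e 8 ∧ ((e 5).length = 1 * (e 1).length + 0 ∧
        ((e 7).length = 1 * (e 1).length + 0 ∧ (e 5 ≠ e 1 ∧ (InT (e 7) ∧ Hit O (e 4) (e 0))))))) := by
    have ha : NEXP O fun e : Fin 9 → List Bool => e 3 = false :: false :: e 4 := by
      refine ((nexp_subst (O := O) (fun _ => []) (fun b => [b]) [false, false]).reindex
        ![0, 4, 3]).congr fun e => ?_
      simp [misc_flatMap_nil]
    have hh : NEXP O fun e : Fin 9 → List Bool => Hit O (e 4) (e 0) := by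
      refine ((nexp_hit (O := O)).reindex ![4, 0]).congr fun e => ?_
      simp
    have ht : NEXP O fun e : Fin 9 → List Bool => InT (e 7) := by
      refine ((nexp_InT O).reindex ![7]).congr fun e => ?_
      simp
    exact ha.and ((nexp_append 5 6 4).and ((nexp_append 7 8 6).and ((nexp_lin 1 0 1 5).and
      ((nexp_lin 1 0 1 7).and ((nexp_ne 5 1).and (ht.and hh))))))
  refine nexp_ex (R := fun (e : Fin 4 → List Bool) z => ∃ x' w t z2 : List Bool,
      e 3 = false :: false :: z ∧
      (z = x' ++ w ∧ (w = t ++ z2 ∧ (x'.length = 1 * (e 1).length + 0 ∧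
        (t.length = 1 * (e 1).length + 0 ∧ (x' ≠ e 1 ∧ (InT t ∧ Hit O z (e 0)))))))) ?_
      (g := fun n => n) PolyB.id ?_
  · refine nexp_ex (R := fun (e : Fin 5 → List Bool) x' => ∃ w t z2 : List Bool,
      e 3 = false :: false :: e 4 ∧
      (e 4 = x' ++ w ∧ (w = t ++ z2 ∧ (x'.length = 1 * (e 1).length + 0 ∧
        (t.length = 1 * (e 1).length + 0 ∧ (x' ≠ e 1 ∧ (InT t ∧ Hit O (e 4) (e 0)))))))) ?_
      (g := fun n => n) PolyB.id ?_
    · refine nexp_ex (R := fun (e : Fin 6 → List Bool) w => ∃ t z2 : List Bool,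
        e 3 = false :: false :: e 4 ∧
        (e 4 = e 5 ++ w ∧ (w = t ++ z2 ∧ ((e 5).length = 1 * (e 1).length + 0 ∧
        (t.length = 1 * (e 1).length + 0 ∧ (e 5 ≠ e 1 ∧ (InT t ∧ Hit O (e 4) (e 0)))))))) ?_
        (g := fun n => n) PolyB.id ?_
      · refine nexp_ex (R := fun (e : Fin 7 → List Bool) t => ∃ z2 : List Bool,
          e 3 = false :: false :: e 4 ∧
          (e 4 = e 5 ++ e 6 ∧ (e 6 = t ++ z2 ∧ ((e 5).length = 1 * (e 1).length + 0 ∧
          (t.length = 1 * (e 1).length + 0 ∧ (e 5 ≠ e 1 ∧ (InT t ∧ Hit O (e 4) (e 0)))))))) ?_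
          (g := fun n => n) PolyB.id ?_
        · refine nexp_ex (R := fun (e : Fin 8 → List Bool) z2 =>
            e 3 = false :: false :: e 4 ∧
            (e 4 = e 5 ++ e 6 ∧ (e 6 = e 7 ++ z2 ∧ ((e 5).length = 1 * (e 1).length + 0 ∧
            ((e 7).length = 1 * (e 1).length + 0 ∧ (e 5 ≠ e 1 ∧
            (InT (e 7) ∧ Hit O (e 4) (e 0)))))))) h1 (g := fun n => n) PolyB.id ?_
          rintro e z2 ⟨-, -, h, -⟩
          have := len_le_size e 6
          rw [h, List.length_append] at this
          omega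
        · rintro e t ⟨z2, -, -, h, -⟩
          have := len_le_size e 6
          rw [h, List.length_append] at this
          omega
      · rintro e w ⟨t, z2, -, h, -⟩
        have := len_le_size e 4
        rw [h, List.length_append] at this
        omega
    · rintro e x' ⟨w, t, z2, -, h, -⟩
      have := len_le_size e 4
      rw [h, List.length_append] at this
      omega
  · rintro e z ⟨x', w, t, z2, h, -⟩
    have := len_le_size e 3
    rw [h, List.length_cons, List.length_cons] at this
    omega

private theorem J1_part2 (O : List Bool → Bool) : NEXP O fun e : Fin 4 → List Bool =>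
    ∃ c b : List Bool, e 3 = c ++ b ∧ [true, false] <+: c ∧ (c.length = 1 * (e 2).length + 1 ∧
      b = List.replicate b.length false) := by
  have h1 : NEXP O fun e : Fin 6 → List Bool => e 3 = e 4 ++ e 5 ∧ [true, false] <+: e 4 ∧
      ((e 4).length = 1 * (e 2).length + 1 ∧ e 5 = List.replicate (e 5).length false) := by
    refine NEXP.and (nexp_append 4 5 3) (NEXP.and (nexp_prefix [true, false] 4)
      (NEXP.and (nexp_lin 1 1 2 4) ?_))
    refine ((nexp_subst (O := O) (fun _ => [false]) (fun _ => []) []).reindex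
        ![5, 0, 5]).congr fun e => ?_
    simp [misc_flatMap_nil, J1_flatMap]
  refine nexp_ex (R := fun (e : Fin 4 → List Bool) c => ∃ b : List Bool, e 3 = c ++ b ∧
    [true, false] <+: c ∧ (c.length = 1 * (e 2).length + 1 ∧ b = List.replicate b.length false)) ?_
    (g := fun n => n) PolyB.id ?_
  · refine nexp_ex (R := fun (e : Fin 5 → List Bool) b => e 3 = e 4 ++ b ∧ [true, false] <+: e 4 ∧
      ((e 4).length = 1 * (e 2).length + 1 ∧ b = List.replicate b.length false)) h1
      (g := fun n => n) PolyB.id ?_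
    rintro e z ⟨h, -⟩
    have := len_le_size e 3
    rw [h, List.length_append] at this
    omega
  · rintro e z ⟨w, h, -⟩
    have := len_le_size e 3
    rw [h, List.length_append] at this
    omega

private theorem J1_part3 (O : List Bool → Bool) : NEXP O fun e : Fin 4 → List Bool =>
    ∃ r t b : List Bool, e 3 = false :: true :: r ∧ (r = t ++ b ∧
      (t.length = 1 * (e 1).length + 0 ∧ (¬ InT t ∧ b = List.replicate b.length false))) := by
  have h1 : NEXP O fun e : Fin 7 → List Bool => e 3 = false :: true :: e 4 ∧ (e 4 = e 5 ++ e 6 ∧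
      ((e 5).length = 1 * (e 1).length + 0 ∧ (¬ InT (e 5) ∧
        e 6 = List.replicate (e 6).length false))) := by
    have ha : NEXP O fun e : Fin 7 → List Bool => e 3 = false :: true :: e 4 := by
      refine ((nexp_subst (O := O) (fun _ => []) (fun b => [b]) [false, true]).reindex
        ![0, 4, 3]).congr fun e => ?_
      simp [misc_flatMap_nil]
    have ht : NEXP O fun e : Fin 7 → List Bool => ¬ InT (e 5) := by
      refine ((nexp_notInT O).reindex ![5]).congr fun e => ?_
      simp
    refine ha.and ((nexp_append 5 6 4).and ((nexp_lin 1 0 1 5).and (ht.and ?_)))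
    refine ((nexp_subst (O := O) (fun _ => [false]) (fun _ => []) []).reindex
        ![6, 0, 6]).congr fun e => ?_
    simp [misc_flatMap_nil, J1_flatMap]
  refine nexp_ex (R := fun (e : Fin 4 → List Bool) r => ∃ t b : List Bool,
    e 3 = false :: true :: r ∧ (r = t ++ b ∧
      (t.length = 1 * (e 1).length + 0 ∧ (¬ InT t ∧ b = List.replicate b.length false)))) ?_
    (g := fun n => n) PolyB.id ?_
  · refine nexp_ex (R := fun (e : Fin 5 → List Bool) t => ∃ b : List Bool,
      e 3 = false :: true :: e 4 ∧ (e 4 = t ++ b ∧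
      (t.length = 1 * (e 1).length + 0 ∧ (¬ InT t ∧ b = List.replicate b.length false)))) ?_
      (g := fun n => n) PolyB.id ?_
    · refine nexp_ex (R := fun (e : Fin 6 → List Bool) b =>
        e 3 = false :: true :: e 4 ∧ (e 4 = e 5 ++ b ∧
        ((e 5).length = 1 * (e 1).length + 0 ∧ (¬ InT (e 5) ∧
        b = List.replicate b.length false)))) h1 (g := fun n => n) PolyB.id ?_
      rintro e b ⟨-, h, -⟩
      have := len_le_size e 4
      rw [h, List.length_append] at this
      omega
    · rintro e t ⟨b, -, h, -⟩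
      have := len_le_size e 4
      rw [h, List.length_append] at this
      omega
  · rintro e r ⟨t, b, h, -⟩
    have := len_le_size e 3
    rw [h, List.length_cons, List.length_cons] at this
    omega

theorem nexp_RB2 (O : List Bool → Bool) :
    NEXP O fun e : Fin 4 → List Bool => RB2 O (e 0) (e 1) (e 2) (e 3) := by
  refine ((J1_part1 O).or ((J1_part2 O).or (J1_part3 O))).congr fun e => ?_
  unfold RB2 FF
  refine or_congr ?_ (or_congr ?_ ?_)
  · constructor
    · rintro ⟨z, x', w, t, z2, h1, h2, h3, h4, h5, h6, h7, h8⟩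
      exact ⟨z, h1, ⟨x', t, z2, by rw [← h3]; exact h2, by omega, mem_TT.2 ⟨by omega, h7⟩, h6⟩, h8⟩
    · rintro ⟨z, h1, ⟨x', t, z2, h2, h3, ht, h4⟩, h6⟩
      obtain ⟨h7, h8⟩ := mem_TT.1 ht
      exact ⟨z, x', t ++ z2, t, z2, h1, h2, rfl, by omega, by omega, h4, h8, h6⟩
  · constructor
    · rintro ⟨c, b, h1, ⟨a, rfl⟩, h3, h4⟩
      refine ⟨a, b, by rw [h1]; rfl, ?_, h4⟩
      rw [List.length_append] at h3
      simp only [List.length_cons, List.length_nil] at h3
      omega
    · rintro ⟨a, b, h1, h2, h3⟩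
      refine ⟨true :: false :: a, b, by rw [h1]; rfl, ⟨a, rfl⟩, ?_, h3⟩
      rw [List.length_cons, List.length_cons]
      omega
  · constructor
    · rintro ⟨r, t, b, h1, h2, h3, h4, h5⟩
      exact ⟨t, b, by rw [← h2]; exact h1, by omega, h4, h5⟩
    · rintro ⟨t, b, h1, h2, h3, h4⟩
      exact ⟨t ++ b, t, b, h1, rfl, by omega, h3, h4⟩

end Pool.Agent.LibRV74
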