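import Pool.Agent.LibRV74.Z2
import Pool.Agent.LibRO74.L2

/-!
[RV74 J2] The threshold relation is in the class (arguments `x v q t`).

Adapt `nexp_Thr` (H2.lean), simpler: `t = v ++ (w1 ++ true :: w2)`, `w1`, `w2` all `false`, `|w1| + |v| = |x|`,
`|t| = |M| + 3`, `|M| = mm k |x|`, `|q| + |x| = |M|`, `1 ≤ |v|`.
-/

namespace Pool.Agent.LibRV74

open Pool.Agent.LibNexp Pool.Agent.LibBHN Pool.Agent.LibRO74

private theorem J2_flat (c : Bool) (l : List Bool) :
    l.flatMap (fun _ => [c]) = List.replicate l.length c := by
  induction l with
  | nil => rfl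
  | cons b l ih => rw [List.flatMap_cons, ih]; rfl

private theorem J2_const {O : List Bool → Bool} (c : Bool) {k : ℕ} (i : Fin k) :
    NEXP O fun e : Fin k → List Bool => e i = List.replicate (e i).length c := by
  refine ((nexp_subst (O := O) (fun _ => [c]) (fun _ => []) []).reindex ![i, i, i]).congr fun e => ?_
  simp [J2_flat, misc_flatMap_nil]

private theorem J2_add {O : List Bool → Bool} {k : ℕ} (i j l : Fin k) :
    NEXP O fun e : Fin k → List Bool => (e i).length + (e j).length = (e l).length := by
  have h1 : NEXP O fun e : Fin 4 → List Bool => e 3 = e 0 ++ e 1 ∧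
      (e 3).length = 1 * (e 2).length + 0 := (nexp_append 0 1 3).and (nexp_lin 1 0 2 3)
  have h2 : NEXP O fun e : Fin 3 → List Bool => ∃ z : List Bool, z = e 0 ++ e 1 ∧
      z.length = 1 * (e 2).length + 0 := by
    refine nexp_ex (R := fun e z => z = e 0 ++ e 1 ∧ z.length = 1 * (e 2).length + 0) h1
      (g := fun n => n) PolyB.id ?_
    rintro e z ⟨-, h⟩
    have := len_le_size e 2
    omega
  refine (h2.reindex ![i, j, l]).congr fun e => ?_
  simp only [Matrix.cons_val_zero, Matrix.cons_val_one, Matrix.cons_val_two, Matrix.head_cons,
    Matrix.tail_cons, one_mul, add_zero, Matrix.cons_val]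
  constructor
  · rintro ⟨z, rfl, h⟩
    rw [← h, List.length_append]
  · intro h
    exact ⟨_, rfl, by rw [List.length_append, h]⟩

/-- `|M| = mm k |x|`. Arguments `x M`. -/
private theorem J2_M {O : List Bool → Bool} (k : ℕ) : NEXP O fun e : Fin 2 → List Bool =>
    (e 1).length = mm k (e 0).length := by
  have h2 : NEXP O fun e : Fin 2 → List Bool => ∃ P Q R : List Bool,
      P.length = 3 * (e 0).length + 2 ∧ Q.length = P.length ^ k + k ∧
        R.length = 5 * (e 0).length + 0 ∧ R.length + Q.length = (e 1).length := by
    refine nexp_ex (R := fun e P => ∃ Q R : List Bool,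
      P.length = 3 * (e 0).length + 2 ∧ Q.length = P.length ^ k + k ∧
        R.length = 5 * (e 0).length + 0 ∧ R.length + Q.length = (e 1).length) ?_
        (g := fun n => 3 * n + 2) (((PolyB.const 3).mul PolyB.id).add (PolyB.const 2)) ?_
    · refine nexp_ex (R := fun (e : Fin 3 → List Bool) Q => ∃ R : List Bool,
        (e 2).length = 3 * (e 0).length + 2 ∧ Q.length = (e 2).length ^ k + k ∧
        R.length = 5 * (e 0).length + 0 ∧ R.length + Q.length = (e 1).length) ?_
        (g := fun n => n) PolyB.id ?_
      · refine nexp_ex (R := fun (e : Fin 4 → List Bool) R =>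
          (e 2).length = 3 * (e 0).length + 2 ∧ (e 3).length = (e 2).length ^ k + k ∧
          R.length = 5 * (e 0).length + 0 ∧ R.length + (e 3).length = (e 1).length) ?_
          (g := fun n => n) PolyB.id ?_
        · exact (nexp_lin 3 2 0 2).and ((nexp_powAdd k k 2 3).and
            ((nexp_lin 5 0 0 4).and (J2_add 4 3 1)))
        · rintro e R ⟨-, -, -, h⟩
          have := len_le_size e 1
          omega
      · rintro e Q ⟨R, -, -, -, h⟩
        have := len_le_size e 1
        omega
    · rintro e P ⟨Q, R, h, -⟩
      have := len_le_size e 0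
      omega
  refine h2.congr fun e => ?_
  unfold mm
  constructor
  · rintro ⟨P, Q, R, h1, h2, h3, h4⟩
    rw [← h4, h2, h1, h3]
    ring
  · intro h
    exact ⟨List.replicate (3 * (e 0).length + 2) true,
      List.replicate ((3 * (e 0).length + 2) ^ k + k) true,
      List.replicate (5 * (e 0).length) true, by simp, by simp, by simp, by simp [h]⟩

/-- Arguments `x v p`. -/
private theorem J2_P {O : List Bool → Bool} (s : ℕ) : NEXP O fun e : Fin 3 → List Bool =>
    ∃ w : List Bool, w = List.replicate w.length false ∧ e 2 = e 1 ++ w ∧
      (e 0).length = 1 * (e 2).length + s := by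
  refine nexp_ex (R := fun e w => w = List.replicate w.length false ∧ e 2 = e 1 ++ w ∧
      (e 0).length = 1 * (e 2).length + s) ?_ (g := fun n => n) PolyB.id ?_
  · exact (J2_const false 3).and ((nexp_append 1 3 2).and (nexp_lin 1 s 2 0))
  · rintro e w ⟨-, h, -⟩
    have := len_le_size e 2
    rw [h, List.length_append] at this
    omega

/-- Arguments `p t`. -/
private theorem J2_T {O : List Bool → Bool} (β : List Bool) : NEXP O fun e : Fin 2 → List Bool =>
    ∃ w : List Bool, w = List.replicate w.length false ∧ e 1 = e 0 ++ β ++ w := by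
  refine nexp_ex (R := fun e w => w = List.replicate w.length false ∧ e 1 = e 0 ++ β ++ w) ?_
    (g := fun n => n) PolyB.id ?_
  · have h0 : NEXP O fun e : Fin 3 → List Bool => e 1 = e 0 ++ β ++ e 2 := by
      refine ((nexp_subst (O := O) (fun b => [b]) (fun b => [b]) β).reindex
        ![0, 2, 1]).congr fun e => ?_
      simp
    exact (J2_const false 2).and h0
  · rintro e w ⟨-, h⟩
    have := len_le_size e 1
    rw [h, List.length_append, List.length_append] at this
    omega

private theorem J2_ne {O : List Bool → Bool} {k : ℕ} (i : Fin k) :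
    NEXP O fun e : Fin k → List Bool => e i ≠ [] := by
  refine ((nexp_prefix (O := O) [false] i).or (nexp_prefix (O := O) [true] i)).congr fun e => ?_
  cases h : e i with
  | nil => simp
  | cons b l => cases b <;> simp

theorem nexp_Thr2 (O : List Bool → Bool) (k : ℕ) :
    NEXP O fun e : Fin 4 → List Bool => Thr2 k (e 0) (e 1) (e 2) (e 3) := by
  have h : NEXP O fun e : Fin 4 → List Bool => ∃ M p : List Bool,
      M.length = mm k (e 0).length ∧
      (∃ w : List Bool, w = List.replicate w.length false ∧ p = e 1 ++ w ∧
        (e 0).length = 1 * p.length + 0) ∧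
      (∃ w : List Bool, w = List.replicate w.length false ∧ e 3 = p ++ [true] ++ w) ∧
      e 2 = List.replicate (e 2).length false ∧ (e 2).length + (e 0).length = M.length ∧
      (e 3).length = 1 * M.length + 3 ∧ e 1 ≠ [] := by
    refine nexp_ex (R := fun e M => ∃ p : List Bool,
      M.length = mm k (e 0).length ∧
      (∃ w : List Bool, w = List.replicate w.length false ∧ p = e 1 ++ w ∧
        (e 0).length = 1 * p.length + 0) ∧
      (∃ w : List Bool, w = List.replicate w.length false ∧ e 3 = p ++ [true] ++ w) ∧
      e 2 = List.replicate (e 2).length false ∧ (e 2).length + (e 0).length = M.length ∧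
      (e 3).length = 1 * M.length + 3 ∧ e 1 ≠ []) ?_ (g := fun n => n) PolyB.id ?_
    · refine nexp_ex (R := fun (e : Fin 5 → List Bool) p =>
        (e 4).length = mm k (e 0).length ∧
        (∃ w : List Bool, w = List.replicate w.length false ∧ p = e 1 ++ w ∧
          (e 0).length = 1 * p.length + 0) ∧
        (∃ w : List Bool, w = List.replicate w.length false ∧ e 3 = p ++ [true] ++ w) ∧
        e 2 = List.replicate (e 2).length false ∧ (e 2).length + (e 0).length = (e 4).length ∧
        (e 3).length = 1 * (e 4).length + 3 ∧ e 1 ≠ []) ?_ (g := fun n => n) PolyB.id ?_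
      · refine (((J2_M (O := O) k).reindex ![0, 4]).and (((J2_P (O := O) 0).reindex ![0, 1, 5]).and
          (((J2_T (O := O) [true]).reindex ![5, 3]).and ((J2_const false 2).and
            ((J2_add 2 0 4).and ((nexp_lin 1 3 4 3).and (J2_ne 1))))))).congr fun e => ?_
        exact Iff.rfl
      · rintro e p ⟨-, ⟨w, -, -, h⟩, -⟩
        have := len_le_size e 0
        omega
    · rintro e M ⟨p, -, -, -, -, -, h, -⟩
      have := len_le_size e 3
      omega
  refine h.congr fun e => ?_
  unfold Thr2
  have hm := mm_ge k (e 0).length
  constructor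
  · rintro ⟨M, p, h0, ⟨w1, h1, h2, h3⟩, ⟨w2, h4, h5⟩, h6, h7, h8, h9⟩
    have hv : 1 ≤ (e 1).length := by
      cases h : e 1 with
      | nil => exact absurd h h9
      | cons c l => simp
    have hp := congrArg List.length h2
    rw [List.length_append] at hp
    have ht := congrArg List.length h5
    rw [List.length_append, List.length_append, List.length_singleton] at ht
    refine ⟨hv, by omega, ?_, ?_⟩
    · have e1 : mm k (e 0).length - (e 0).length = (e 2).length := by omega
      rw [e1]
      exact h6
    · have e1 : (e 0).length - (e 1).length = w1.length := by omega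
      have e2 : mm k (e 0).length + 2 - (e 0).length = w2.length := by omega
      rw [e1, e2, ← h1, ← h4, h5, h2]
      simp only [List.append_assoc, List.singleton_append]
  · rintro ⟨h1, h2, h3, h4⟩
    refine ⟨List.replicate (mm k (e 0).length) true,
      e 1 ++ List.replicate ((e 0).length - (e 1).length) false, by simp,
      ⟨List.replicate ((e 0).length - (e 1).length) false, by simp, rfl, ?_⟩,
      ⟨List.replicate (mm k (e 0).length + 2 - (e 0).length) false, by simp, ?_⟩,
      ?_, ?_, ?_, ?_⟩
    · simp only [List.length_append, List.length_replicate]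
      omega
    · rw [h4]
      simp only [List.append_assoc, List.singleton_append]
    · rw [h3]
      simp
    · rw [h3]
      simp only [List.length_replicate]
      omega
    · rw [h4]
      simp only [List.length_append, List.length_replicate, List.length_cons]
      omega
    · intro h
      rw [h] at h1
      simp at h1

end Pool.Agent.LibRV74
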