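import Pool.Agent.LibRV74.J1
import Pool.Agent.LibRV74.J2

/-!
[RV74 J3] The language `AB2` is in the class. Adapt `ab_mem` (H3.lean).
-/

namespace Pool.Agent.LibRV74

open Pool.Agent.LibNexp Pool.Agent.LibBHN Pool.Agent.LibRO74

variable {O : List Bool → Bool}

private theorem J3_low_le {k m : ℕ} (e : Fin (k + m) → List Bool) :
    size (low (Nat.le_add_right k m) e) ≤ size e := by
  unfold size low
  rw [Fin.sum_univ_add]
  exact Nat.le_add_right _ _

/-- Existential quantification over `m` strings of polynomial length (as in LibDual85). -/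
private theorem J3_exN {k m : ℕ} {R : (Fin k → List Bool) → (Fin m → List Bool) → Prop}
    (h : NEXP O fun e : Fin (k + m) → List Bool =>
      R (low (Nat.le_add_right k m) e) (fun j => e (Fin.natAdd k j)))
    {g : ℕ → ℕ} (hg : PolyB g) (hgm : Monotone g)
    (hb : ∀ e z, R e z → ∀ j, (z j).length ≤ g (size e)) :
    NEXP O fun e : Fin k → List Bool => ∃ z, R e z := by
  induction m with
  | zero =>
    refine h.congr fun e => ?_
    constructor
    · intro h1
      exact ⟨_, h1⟩
    · rintro ⟨z, hz⟩
      have : z = fun j => e (Fin.natAdd k j) := funext fun j => j.elim0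
      rw [this] at hz
      exact hz
  | succ m ih =>
    have h1 : NEXP O fun e : Fin (k + m) → List Bool => ∃ b,
        R (low (Nat.le_add_right k m) e)
          (Fin.snoc (α := fun _ => List Bool) (fun j => e (Fin.natAdd k j)) b) := by
      refine nexp_ex (R := fun (e : Fin (k + m) → List Bool) b =>
        R (low (Nat.le_add_right k m) e)
          (Fin.snoc (α := fun _ => List Bool) (fun j => e (Fin.natAdd k j)) b)) ?_ hg ?_
      · refine h.congr fun e => ?_
        have h2 : (fun j => e (Fin.natAdd k j) : Fin (m + 1) → List Bool) =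
            Fin.snoc (α := fun _ => List Bool)
              (fun j => low (Nat.le_add_right (k + m) 1) e (Fin.natAdd k j))
              (e (Fin.last (k + m))) := by
          funext j
          refine Fin.lastCases ?_ (fun j => ?_) j
          · rw [Fin.snoc_last]
            congr 1
          · rw [Fin.snoc_castSucc]
            unfold low
            congr 1
        rw [h2]
        exact Iff.rfl
      · intro e b hR
        have := hb _ _ hR (Fin.last m)
        rw [Fin.snoc_last] at this
        exact this.trans (hgm (J3_low_le e))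
    have h2 := ih (R := fun e z => ∃ b, R e (Fin.snoc (α := fun _ => List Bool) z b)) h1 (by
      rintro e z ⟨b, hR⟩ j
      have := hb _ _ hR j.castSucc
      rw [Fin.snoc_castSucc] at this
      exact this)
    refine h2.congr fun e => ?_
    constructor
    · rintro ⟨z, b, hR⟩
      exact ⟨_, hR⟩
    · rintro ⟨z, hz⟩
      refine ⟨fun j => z j.castSucc, z (Fin.last m), ?_⟩
      have : Fin.snoc (α := fun _ => List Bool) (fun j => z j.castSucc) (z (Fin.last m)) = z := by
        funext j
        refine Fin.lastCases ?_ (fun j => ?_) j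
        · rw [Fin.snoc_last]
        · rw [Fin.snoc_castSucc]
      rw [this]
      exact hz

private theorem J3_size1 (k : ℕ) (n s : ℕ) (h : n ≤ s) : mm k n ≤ mm k s := by
  unfold mm
  have h1 : (3 * n + 2) ^ k ≤ (3 * s + 2) ^ k := Nat.pow_le_pow_left (by omega) _
  omega

private theorem J3_poly (k : ℕ) : PolyB fun n => mm k n :=
  ((PolyB.const 5).mul PolyB.id).add
    (((((PolyB.const 3).mul PolyB.id).add (PolyB.const 2)).pow k).add (PolyB.const k))

private theorem J3_pair {k : ℕ} (i j l : Fin k) :
    NEXP O fun e : Fin k → List Bool => e l = pair (e i) (e j) := by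
  refine ((nexp_pairRel (O := O)).reindex ![i, j, l]).congr fun e => ?_
  simp

/-- The relation between the input and the guessed strings `x v q t`. -/
private def J3_R (O : List Bool → Bool) (k : ℕ)
    (e : Fin 1 → List Bool) (z : Fin 4 → List Bool) : Prop :=
  (e 0 = pair (z 0) (z 1) ∧ Thr2 k (z 0) (z 1) (z 2) (z 3)) ∧
    ∃ n', (z 3).length = n' + 1 ∧ val (z 3) ≤ cnt n' (RB2 O (z 2) (z 0) (z 1))

private theorem J3_nexp (O : List Bool → Bool) (k : ℕ) :
    NEXP O fun e : Fin 1 → List Bool => ∃ z, J3_R O k e z := by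
  have hR : NEXP O fun e : Fin 4 → List Bool => RB2 O (e 2) (e 0) (e 1) (e 3) := by
    refine ((nexp_RB2 O).reindex ![2, 0, 1, 3]).congr fun e => ?_
    simp
  have hC : NEXP O fun e : Fin 4 → List Bool => ∃ n, (e 3).length = n + 1 ∧
      val (e 3) ≤ cnt n (RB2 O (e 2) (e 0) (e 1)) :=
    nexp_count (k := 3) (R := fun e y => RB2 O (e 2) (e 0) (e 1) y) hR
  have hC2 : NEXP O fun e : Fin 5 → List Bool => ∃ n, (e 4).length = n + 1 ∧
      val (e 4) ≤ cnt n (RB2 O (e 3) (e 1) (e 2)) := hC.reindex ![1, 2, 3, 4]
  have hT : NEXP O fun e : Fin 5 → List Bool => Thr2 k (e 1) (e 2) (e 3) (e 4) :=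
    (nexp_Thr2 O k).reindex ![1, 2, 3, 4]
  have h1 : NEXP O fun e : Fin (1 + 4) → List Bool =>
      J3_R O k (low (Nat.le_add_right 1 4) e) (fun j => e (Fin.natAdd 1 j)) :=
    ((J3_pair 1 2 0).and hT).and hC2
  refine J3_exN (k := 1) (m := 4) (R := J3_R O k) h1
    (g := fun n => mm k n + 3) ((J3_poly k).add (PolyB.const 3))
    (fun m n h => by
      have := J3_size1 k m n h
      simp only; omega) ?_
  rintro e z ⟨⟨a1, a2, a3, a4, a5⟩, -⟩ j
  have l0 := len_le_size e 0
  have b1 := congrArg List.length a1
  rw [length_pair] at b1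
  have hx : (z 0).length ≤ size e := by omega
  have hm := J3_size1 k _ _ hx
  have h5 : 5 * (z 0).length ≤ mm k (z 0).length := mm_ge k _
  have b4 := congrArg List.length a4
  rw [List.length_replicate] at b4
  have b5 := congrArg List.length a5
  rw [List.length_append, List.length_append, List.length_cons, List.length_replicate,
    List.length_replicate] at b5
  have hs := mm_ge k (size e)
  show _ ≤ mm k (size e) + 3
  fin_cases j
  · show (z 0).length ≤ _; omega
  · show (z 1).length ≤ _; omega
  · show (z 2).length ≤ _; omega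
  · show (z 3).length ≤ _; omega

theorem ab2_mem (O : List Bool → Bool) (k : ℕ) : AB2 O k ∈ NEXPLang O := by
  refine (J3_nexp O k).congr fun e => ?_
  constructor
  · rintro ⟨z, ⟨h1, h2⟩, h3⟩
    exact ⟨z 0, z 1, z 2, z 3, h1, h2, h3⟩
  · rintro ⟨x, v, q, t, h1, h2, h3⟩
    exact ⟨![x, v, q, t], ⟨h1, h2⟩, h3⟩

end Pool.Agent.LibRV74
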