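import Pool.Agent.LibRV74.Z2
import Pool.Agent.LibRO74.L1
import Pool.Agent.LibRO74.L2

/-!
[RV74 J4] Arithmetic of the threshold and of the counting relation. Adapt `cnt_RB`, `val_Thr` (H4.lean).

`cnt_RB2`: split the strings of length `m + 2` by their first two letters. `bits (m+2) i` is
`decide (i % 2 = 1) :: decide (i / 2 % 2 = 1) :: bits m (i / 4)`. The third part: strings `t ++ 0^(m-n)` with
`|t| = n`, `¬ InT t`: there are `2^n - card (TT n)` of them (`mem_TT`), `n = |x| ≤ m`.
-/

namespace Pool.Agent.LibRV74

open Pool.Agent.LibNexp Pool.Agent.LibBHN Pool.Agent.LibRO74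

private theorem J4_val_rep (n : ℕ) : val (List.replicate n false) = 0 := by
  induction n with
  | zero => rfl
  | succ n ih => rw [List.replicate_succ, val, ih]; rfl

private theorem J4_val_append (a b : List Bool) :
    val (a ++ b) = val a + 2 ^ a.length * val b := by
  induction a with
  | nil => simp [val]
  | cons c a ih =>
    rw [List.cons_append, val, val, ih, List.length_cons, pow_succ]
    ring

private theorem J4_split (m : ℕ) (P : List Bool → Prop) :
    cnt (m + 1) P = cnt m (fun z => P (false :: z)) + cnt m (fun z => P (true :: z)) := by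
  classical
  unfold cnt
  have hev : ∀ t : ℕ, bits (m + 1) (2 * t) = false :: bits m t := by
    intro t
    have h1 : (2 * t) % 2 = 0 := by omega
    have h2 : 2 * t / 2 = t := by omega
    rw [bits, h1, h2]
    rfl
  have hod : ∀ t : ℕ, bits (m + 1) (2 * t + 1) = true :: bits m t := by
    intro t
    have h1 : (2 * t + 1) % 2 = 1 := by omega
    have h2 : (2 * t + 1) / 2 = t := by omega
    rw [bits, h1, h2]
    rfl
  have hsplit : (Finset.range (2 ^ (m + 1))).filter (fun t => P (bits (m + 1) t)) =
      ((Finset.range (2 ^ m)).filter (fun t => P (false :: bits m t))).image (fun t => 2 * t) ∪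
      ((Finset.range (2 ^ m)).filter (fun t => P (true :: bits m t))).image
        (fun t => 2 * t + 1) := by
    ext t
    simp only [Finset.mem_filter, Finset.mem_range, Finset.mem_union, Finset.mem_image]
    constructor
    · rintro ⟨h1, h2⟩
      rw [pow_succ] at h1
      rcases Nat.even_or_odd' t with ⟨u, rfl | rfl⟩
      · exact Or.inl ⟨u, ⟨by omega, by rw [← hev]; exact h2⟩, rfl⟩
      · exact Or.inr ⟨u, ⟨by omega, by rw [← hod]; exact h2⟩, rfl⟩
    · rintro (⟨u, ⟨h1, h2⟩, rfl⟩ | ⟨u, ⟨h1, h2⟩, rfl⟩)
      · exact ⟨by rw [pow_succ]; omega, by rw [hev]; exact h2⟩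
      · exact ⟨by rw [pow_succ]; omega, by rw [hod]; exact h2⟩
  have hdisj : Disjoint
      (((Finset.range (2 ^ m)).filter (fun t => P (false :: bits m t))).image (fun t => 2 * t))
      (((Finset.range (2 ^ m)).filter (fun t => P (true :: bits m t))).image
        (fun t => 2 * t + 1)) := by
    rw [Finset.disjoint_left]
    intro t h1 h2
    rw [Finset.mem_image] at h1 h2
    obtain ⟨u, -, hu⟩ := h1
    obtain ⟨w, -, hw⟩ := h2
    omega
  have hA : ((Finset.range (2 ^ (m + 1))).filter (fun t => P (bits (m + 1) t))).card =
      ((Finset.range (2 ^ m)).filter (fun t => P (false :: bits m t))).card +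
      ((Finset.range (2 ^ m)).filter (fun t => P (true :: bits m t))).card := by
    rw [hsplit, Finset.card_union_of_disjoint hdisj,
      Finset.card_image_of_injective _ (fun a b h => by simpa using h),
      Finset.card_image_of_injective _ (fun a b h => by simpa using h)]
  have e1 : ((Finset.range (2 ^ (m + 1))).filter (fun t => P (bits (m + 1) t))).card =
      (@Finset.filter ℕ (fun t => P (bits (m + 1) t)) (fun _ => Classical.propDecidable _)
        (Finset.range (2 ^ (m + 1)))).card := by
    refine congrArg Finset.card ?_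
    ext t
    simp only [Finset.mem_filter]
  have e2 : ((Finset.range (2 ^ m)).filter (fun t => P (false :: bits m t))).card =
      (@Finset.filter ℕ (fun t => P (false :: bits m t)) (fun _ => Classical.propDecidable _)
        (Finset.range (2 ^ m))).card := by
    refine congrArg Finset.card ?_
    ext t
    simp only [Finset.mem_filter]
  have e3 : ((Finset.range (2 ^ m)).filter (fun t => P (true :: bits m t))).card =
      (@Finset.filter ℕ (fun t => P (true :: bits m t)) (fun _ => Classical.propDecidable _)
        (Finset.range (2 ^ m))).card := by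
    refine congrArg Finset.card ?_
    ext t
    simp only [Finset.mem_filter]
  rw [← e1, ← e2, ← e3]
  exact hA

private theorem J4_congr {m : ℕ} {P Q : List Bool → Prop}
    (h : ∀ t < 2 ^ m, (P (bits m t) ↔ Q (bits m t))) : cnt m P = cnt m Q := by
  unfold cnt
  refine congrArg Finset.card ?_
  ext t
  simp only [Finset.mem_filter, Finset.mem_range]
  exact and_congr_right fun ht => h t ht

/-- Strings `t ++ 0..0` with `P t`. -/
private theorem J4_pad {m n : ℕ} (hn : n ≤ m) (P : List Bool → Prop) :
    cnt m (fun z => ∃ a b : List Bool, z = a ++ b ∧ a.length = n ∧ P a ∧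
      b = List.replicate b.length false) = cnt n P := by
  unfold cnt
  refine congrArg Finset.card ?_
  ext t
  simp only [Finset.mem_filter, Finset.mem_range]
  have hle : 2 ^ n ≤ 2 ^ m := Nat.pow_le_pow_right (by norm_num) hn
  constructor
  · rintro ⟨h0, a, b, h1, h2, hP, h3⟩
    have h4 := val_bits h0
    rw [h1, J4_val_append, h3, J4_val_rep, mul_zero, add_zero] at h4
    have h5 : t < 2 ^ n := by
      rw [← h4, ← h2]
      exact cnt_val_lt a
    refine ⟨h5, ?_⟩
    have h6 : bits n t = a := by
      rw [← h4, ← h2]
      exact bits_val a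
    rw [h6]
    exact hP
  · rintro ⟨h, hP⟩
    refine ⟨lt_of_lt_of_le h hle, bits n t, List.replicate (m - n) false, ?_, length_bits n t, hP,
      by simp⟩
    have h5 : (bits n t ++ List.replicate (m - n) false).length = m := by
      rw [List.length_append, length_bits, List.length_replicate]
      omega
    have h6 : val (bits n t ++ List.replicate (m - n) false) = t := by
      rw [J4_val_append, J4_val_rep, mul_zero, add_zero, val_bits h]
    have h7 := bits_val (bits n t ++ List.replicate (m - n) false)
    rwa [h5, h6] at h7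

private theorem J4_card_TT (n : ℕ) : cnt n (fun t => ¬ InT t) + (TT n).card = 2 ^ n := by
  classical
  have h1 : (TT n).card = ((Finset.range (2 ^ n)).filter (fun t => InT (bits n t))).card := by
    symm
    refine Finset.card_bij (fun t _ => bits n t) ?_ ?_ ?_
    · intro t ht
      rw [Finset.mem_filter] at ht
      exact mem_TT.2 ⟨length_bits n t, ht.2⟩
    · intro a ha b hb hab
      rw [Finset.mem_filter, Finset.mem_range] at ha hb
      have e1 := val_bits ha.1
      have e2 := val_bits hb.1
      rw [← e1, ← e2]
      exact congrArg val hab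
    · intro t ht
      obtain ⟨h2, h3⟩ := mem_TT.1 ht
      refine ⟨val t, ?_, ?_⟩
      · rw [Finset.mem_filter, Finset.mem_range]
        refine ⟨?_, ?_⟩
        · rw [← h2]; exact cnt_val_lt t
        · have h4 := bits_val t
          rw [h2] at h4
          rw [h4]; exact h3
      · have h4 := bits_val t
        rw [h2] at h4
        exact h4
  have h2 : cnt n (fun t => ¬ InT t) =
      ((Finset.range (2 ^ n)).filter (fun t => ¬ InT (bits n t))).card := by
    unfold cnt
    refine congrArg Finset.card ?_
    ext t
    simp only [Finset.mem_filter]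
  rw [h1, h2, add_comm, Finset.card_filter_add_card_filter_not, Finset.card_range]

private theorem J4_cnt_false (m : ℕ) {P : List Bool → Prop} (h : ∀ z, ¬ P z) : cnt m P = 0 := by
  unfold cnt
  rw [Finset.card_eq_zero]
  ext t
  simp only [Finset.mem_filter]
  constructor
  · rintro ⟨-, h1⟩
    exact absurd h1 (h _)
  · intro h1
    simp at h1

private theorem J4_cnt_true (m : ℕ) : cnt m (fun _ => True) = 2 ^ m := by
  unfold cnt
  refine Eq.trans (congrArg Finset.card ?_) (Finset.card_range (2 ^ m))
  ext t
  simp only [Finset.mem_filter]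
  exact ⟨fun h => h.1, fun h => ⟨h, trivial⟩⟩

theorem cnt_RB2 {O : List Bool → Bool} {m : ℕ} {q x v : List Bool}
    (hv : 1 ≤ v.length) (hm : v.length ≤ m + 1) (hx : x.length ≤ m) :
    cnt (m + 2) (RB2 O q x v) + (TT x.length).card =
      cnt m (fun z => FF (TT x.length) x z ∧ Hit O z q) + 2 ^ (v.length - 1) +
        2 ^ x.length := by
  rw [J4_split (m + 1) (RB2 O q x v), J4_split m (fun z => RB2 O q x v (false :: z)),
    J4_split m (fun z => RB2 O q x v (true :: z))]
  have h1 : cnt m (fun z => RB2 O q x v (false :: false :: z)) =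
      cnt m (fun z => FF (TT x.length) x z ∧ Hit O z q) := by
    refine J4_congr fun t _ => ?_
    constructor
    · rintro (⟨z, h1, h2⟩ | ⟨a, b, h1, -⟩ | ⟨a, b, h1, -⟩)
      · rw [List.cons.injEq, List.cons.injEq] at h1
        rw [h1.2.2]; exact h2
      · simp at h1
      · simp at h1
    · intro h
      exact Or.inl ⟨_, rfl, h⟩
  have h2 : cnt m (fun z => RB2 O q x v (false :: true :: z)) =
      cnt x.length (fun t => ¬ InT t) := by
    rw [← J4_pad hx (fun t => ¬ InT t)]
    refine J4_congr fun t _ => ?_
    constructor
    · rintro (⟨z, h1, h2⟩ | ⟨a, b, h1, -⟩ | ⟨a, b, h1, h2, h3, h4⟩)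
      · simp at h1
      · simp at h1
      · rw [List.cons.injEq, List.cons.injEq] at h1
        exact ⟨a, b, h1.2.2, h2, h3, h4⟩
    · rintro ⟨a, b, h1, h2, h3, h4⟩
      exact Or.inr (Or.inr ⟨a, b, by rw [h1], h2, h3, h4⟩)
  have h3 : cnt m (fun z => RB2 O q x v (true :: false :: z)) = 2 ^ (v.length - 1) := by
    rw [← J4_cnt_true (v.length - 1), ← J4_pad (m := m) (by omega) (fun _ => True)]
    refine J4_congr fun t _ => ?_
    constructor
    · rintro (⟨z, h1, h2⟩ | ⟨a, b, h1, h2, h3⟩ | ⟨a, b, h1, -⟩)
      · simp at h1
      · rw [List.cons.injEq, List.cons.injEq] at h1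
        exact ⟨a, b, h1.2.2, by omega, trivial, h3⟩
      · simp at h1
    · rintro ⟨a, b, h1, h2, -, h3⟩
      exact Or.inr (Or.inl ⟨a, b, by rw [h1], by omega, h3⟩)
  have h4 : cnt m (fun z => RB2 O q x v (true :: true :: z)) = 0 := by
    refine J4_cnt_false m fun z => ?_
    rintro (⟨z, h1, h2⟩ | ⟨a, b, h1, -⟩ | ⟨a, b, h1, -⟩)
    · simp at h1
    · simp at h1
    · simp at h1
  have h5 := J4_card_TT x.length
  rw [h1, h2, h3, h4]
  omega

theorem val_Thr2 {k : ℕ} {x v q t : List Bool} (h : Thr2 k x v q t) :
    val t = val v + 2 ^ x.length ∧ t.length = mm k x.length + 3 := by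
  obtain ⟨h1, h2, -, h4⟩ := h
  have h5 := mm_ge k x.length
  constructor
  · rw [h4, J4_val_append, J4_val_append, J4_val_rep, List.length_replicate, val, J4_val_rep,
      zero_add, mul_zero, add_zero]
    have e : v.length + (x.length - v.length) = x.length := by omega
    rw [← mul_assoc, ← pow_add, e]
    simp
  · rw [h4]
    simp only [List.length_append, List.length_replicate, List.length_cons]
    omega

end Pool.Agent.LibRV74
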