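import Pool.Agent.LibRV74.Z2

/-!
[RV74 K1] Counting the strings `Fm` and `Nm`.

A string `y` of length `|u| + |t'|` is `b ++ a` in a unique way; `b` is `1^j 0^l` iff it does not contain `01`
(induction), so exactly one of `Fm u t' y`, `Nm u t' y` holds (`cnt_Nm`: complement of a filter in
`range (2 ^ (|u| + |t'|))`, `cnt` is the card of a filter, `length_bits`). `cnt_Fm`: the strings with `Fm` are in
bijection with `j ≤ |u|` and `c ≤ val t'` (`a = bits |t'| c`, `val_bits`, `bits_val`; `val t' < 2^|t'|`: `cnt_val_lt`).
-/

namespace Pool.Agent.LibRV74

open Pool.Agent.LibNexp Pool.Agent.LibBHN Pool.Agent.LibRO74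

private theorem K1_or : ∀ b : List Bool,
    (∃ j l : ℕ, b = List.replicate j true ++ List.replicate l false) ∨
      ∃ b1 b2 : List Bool, b = b1 ++ false :: true :: b2 := by
  intro b
  induction b with
  | nil => exact Or.inl ⟨0, 0, rfl⟩
  | cons x b ih =>
    rcases ih with ⟨j, l, rfl⟩ | ⟨b1, b2, rfl⟩
    · cases x with
      | true => exact Or.inl ⟨j + 1, l, rfl⟩
      | false =>
        cases j with
        | zero => exact Or.inl ⟨0, l + 1, rfl⟩
        | succ j => exact Or.inr ⟨[], List.replicate j true ++ List.replicate l false, rfl⟩
    · exact Or.inr ⟨x :: b1, b2, rfl⟩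

private theorem K1_not : ∀ (b1 b2 : List Bool) (j l : ℕ),
    b1 ++ false :: true :: b2 = List.replicate j true ++ List.replicate l false → False := by
  intro b1 b2
  induction b1 with
  | nil =>
    intro j l h
    cases j with
    | zero =>
      have h1 : true ∈ List.replicate 0 true ++ List.replicate l false := by
        rw [← h]
        simp
      simp at h1
    | succ j => simp [List.replicate_succ] at h
  | cons x b1 ih =>
    intro j l h
    cases j with
    | zero =>
      have h1 : true ∈ List.replicate 0 true ++ List.replicate l false := by
        rw [← h]
        simp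
      simp at h1
    | succ j =>
      rw [List.replicate_succ, List.cons_append, List.cons_append, List.cons.injEq] at h
      exact ih j l h.2

private theorem K1_iff (u t' y : List Bool) (hy : y.length = u.length + t'.length) :
    Nm u t' y ↔ ¬ Fm u t' y := by
  constructor
  · rintro ⟨b, a, rfl, hb, ha, h⟩ ⟨a', j, l, h1, h2, h3, h4⟩
    have hlen : b.length = (List.replicate j true ++ List.replicate l false).length := by
      simp [hb, h2]
    obtain ⟨h5, h6⟩ := List.append_inj h1 hlen
    subst h6
    rcases h with ⟨b1, b2, h7⟩ | h7
    · exact K1_not b1 b2 j l (h7.symm.trans h5)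
    · omega
  · intro h
    refine ⟨y.take u.length, y.drop u.length, (List.take_append_drop _ _).symm, ?_, ?_, ?_⟩
    · rw [List.length_take]; omega
    · rw [List.length_drop]; omega
    · by_contra hcon
      rw [not_or, not_lt] at hcon
      apply h
      rcases K1_or (y.take u.length) with ⟨j, l, h1⟩ | h1
      · refine ⟨y.drop u.length, j, l, ?_, ?_, ?_, hcon.2⟩
        · rw [← h1, List.take_append_drop]
        · have h2 := congrArg List.length h1
          rw [List.length_take] at h2
          simp at h2
          omega
        · rw [List.length_drop]; omega
      · exact absurd h1 hcon.1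

private theorem K1_val (j l : ℕ) :
    val (List.replicate j true ++ List.replicate l false) + 1 = 2 ^ j := by
  rw [val_true]
  have h : val (List.replicate l false) = 0 := by
    have h1 := val_false l []
    simpa [val] using h1
  rw [h]
  ring

theorem cnt_Fm (u t' : List Bool) :
    cnt (u.length + t'.length) (Fm u t') = (u.length + 1) * (val t' + 1) := by
  classical
  have hlt := cnt_val_lt t'
  let L : ℕ × ℕ → List Bool := fun p =>
    (List.replicate p.1 true ++ List.replicate (u.length - p.1) false) ++ bits t'.length p.2
  have hL : ∀ p : ℕ × ℕ, p.1 < u.length + 1 → (L p).length = u.length + t'.length := by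
    intro p hp
    simp only [L, List.length_append, List.length_replicate, length_bits]
    omega
  have hcard : ((Finset.range (u.length + 1)) ×ˢ (Finset.range (val t' + 1))).card =
      ((Finset.range (2 ^ (u.length + t'.length))).filter
        fun m => Fm u t' (bits (u.length + t'.length) m)).card := by
    refine Finset.card_nbij (fun p => val (L p)) ?_ ?_ ?_
    · intro p hp
      rw [Finset.mem_coe, Finset.mem_product, Finset.mem_range, Finset.mem_range] at hp
      rw [Finset.mem_coe, Finset.mem_filter, Finset.mem_range]
      have h1 := hL p hp.1
      have h2 := cnt_val_lt (L p)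
      have h3 := bits_val (L p)
      rw [h1] at h2 h3
      refine ⟨h2, ?_⟩
      rw [h3]
      refine ⟨bits t'.length p.2, p.1, u.length - p.1, rfl, by omega, length_bits _ _, ?_⟩
      rw [val_bits (by omega)]
      omega
    · intro p hp p' hp' hpp
      rw [Finset.mem_coe, Finset.mem_product, Finset.mem_range, Finset.mem_range] at hp hp'
      have h1 : L p = L p' := val_inj ((hL p hp.1).trans (hL p' hp'.1).symm) hpp
      have hlen : (List.replicate p.1 true ++ List.replicate (u.length - p.1) false).length =
          (List.replicate p'.1 true ++ List.replicate (u.length - p'.1) false).length := by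
        simp only [List.length_append, List.length_replicate]
        omega
      obtain ⟨h2, h3⟩ := List.append_inj h1 hlen
      have h4 := congrArg val h3
      rw [val_bits (by omega), val_bits (by omega)] at h4
      have h5 := congrArg val h2
      have h6 := K1_val p.1 (u.length - p.1)
      have h7 := K1_val p'.1 (u.length - p'.1)
      rw [h5, h7] at h6
      exact Prod.ext (Nat.pow_right_injective (le_refl 2) h6).symm h4
    · intro m hm
      rw [Finset.mem_coe, Finset.mem_filter, Finset.mem_range] at hm
      obtain ⟨hm1, a, j, l, h1, h2, h3, h4⟩ := hm
      refine ⟨(j, val a), ?_, ?_⟩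
      · rw [Finset.mem_coe, Finset.mem_product, Finset.mem_range, Finset.mem_range]
        exact ⟨by show j < _; omega, by show val a < _; omega⟩
      · show val (L (j, val a)) = m
        have h5 : L (j, val a) = bits (u.length + t'.length) m := by
          show (List.replicate j true ++ List.replicate (u.length - j) false) ++
            bits t'.length (val a) = _
          rw [h1, ← h3, bits_val]
          have h6 : u.length - j = l := by omega
          rw [h6]
        rw [h5, val_bits hm1]
  rw [Finset.card_product, Finset.card_range, Finset.card_range] at hcard
  rw [hcard]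
  unfold cnt
  refine congrArg Finset.card ?_
  ext m
  simp only [Finset.mem_filter]

theorem cnt_Nm (u t' : List Bool) :
    cnt (u.length + t'.length) (Nm u t') + cnt (u.length + t'.length) (Fm u t') =
      2 ^ (u.length + t'.length) := by
  classical
  have h1 : cnt (u.length + t'.length) (Nm u t') =
      ((Finset.range (2 ^ (u.length + t'.length))).filter
        fun m => ¬ Fm u t' (bits (u.length + t'.length) m)).card := by
    unfold cnt
    refine congrArg Finset.card ?_
    ext m
    simp only [Finset.mem_filter]
    rw [K1_iff u t' _ (length_bits _ _)]
  have h2 : cnt (u.length + t'.length) (Fm u t') =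
      ((Finset.range (2 ^ (u.length + t'.length))).filter
        fun m => Fm u t' (bits (u.length + t'.length) m)).card := by
    unfold cnt
    refine congrArg Finset.card ?_
    ext m
    simp only [Finset.mem_filter]
  rw [h1, h2, add_comm, Finset.card_filter_add_card_filter_not, Finset.card_range]

end Pool.Agent.LibRV74
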