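import Pool.Agent.LibRV74.K1
import Pool.Agent.LibRV74.K2

/-!
[RV74 K3] `InT` is in the class.

`InT t` iff there are `u` (all `true`), `t'` with `t = u ++ false :: t'` and, for
`w = 0^|t'| 1^|u| 0` (length `|u| + |t'| + 1`, `val w = 2^(|u|+|t'|) - 2^|t'|`), `val w ≤ cnt (|u|+|t'|) (Nm u t')`
(`cnt_Nm`, `cnt_Fm`). `nexp_count` with `R e y = Nm (e 0) (e 1) y` (`nexp_Nm`), then `nexp_ex` for `u t' w` as in
`rlang_mem` (LibRO74/L3); lengths `≤ |t|`.
-/

namespace Pool.Agent.LibRV74

open Pool.Agent.LibNexp Pool.Agent.LibBHN Pool.Agent.LibRO74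

private theorem K3_flat (c : Bool) (l : List Bool) :
    l.flatMap (fun _ => [c]) = List.replicate l.length c := by
  induction l with
  | nil => rfl
  | cons b l ih => rw [List.flatMap_cons, ih]; rfl

private theorem K3_const {O : List Bool → Bool} (c : Bool) {k : ℕ} (i : Fin k) :
    NEXP O fun e : Fin k → List Bool => e i = List.replicate (e i).length c := by
  refine ((nexp_subst (O := O) (fun _ => [c]) (fun _ => []) []).reindex ![i, i, i]).congr fun e => ?_
  simp [K3_flat, misc_flatMap_nil]

private theorem K3_append (a b : List Bool) :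
    val (a ++ b) = val a + 2 ^ a.length * val b := by
  induction a with
  | nil => simp [val]
  | cons c a ih =>
    rw [List.cons_append, val, val, ih, List.length_cons, pow_succ]
    ring

private theorem K3_false (n : ℕ) : val (List.replicate n false) = 0 := by
  induction n with
  | zero => rfl
  | succ n ih => rw [List.replicate_succ, val, ih]; rfl

private theorem K3_true (n : ℕ) : val (List.replicate n true) + 1 = 2 ^ n := by
  induction n with
  | zero => rfl
  | succ n ih =>
    rw [List.replicate_succ, val, pow_succ, ← ih]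
    simp
    ring

private theorem K3_val (i m : ℕ) :
    val (List.replicate m false ++ (List.replicate i true ++ [false])) + 2 ^ m = 2 ^ (i + m) := by
  have h1 : val [false] = 0 := K3_false 1
  rw [K3_append, K3_append, K3_false, h1, List.length_replicate, pow_add, ← K3_true i]
  ring

private theorem K3_iff (t : List Bool) : InT t ↔
    ∃ u t' p w : List Bool, t = p ++ t' ∧ p = u ++ [false] ∧ u = List.replicate u.length true ∧
      w = List.replicate t'.length false ++ p ∧
      ∃ n, w.length = n + 1 ∧ val w ≤ cnt n (Nm u t') := by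
  constructor
  · rintro ⟨i, t', ht, hv⟩
    refine ⟨List.replicate i true, t', List.replicate i true ++ [false],
      List.replicate t'.length false ++ (List.replicate i true ++ [false]), ?_, rfl, by simp, rfl,
      i + t'.length, ?_, ?_⟩
    · rw [ht]; simp
    · simp; ring
    · have h1 := cnt_Nm (List.replicate i true) t'
      rw [cnt_Fm, List.length_replicate] at h1
      have h2 := K3_val i t'.length
      have h3 : (i + 1) * (val t' + 1) ≤ 2 ^ t'.length := by
        rw [mul_comm]; exact hv
      omega
  · rintro ⟨u, t', p, w, h1, h2, h3, h4, n, h5, h6⟩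
    refine ⟨u.length, t', ?_, ?_⟩
    · rw [← h3, h1, h2]; simp
    · have hn : n = u.length + t'.length := by
        rw [h4, h2] at h5
        simp only [List.length_append, List.length_replicate, List.length_singleton] at h5
        omega
      have h7 := cnt_Nm u t'
      rw [cnt_Fm] at h7
      have h8 := K3_val u.length t'.length
      rw [← h3, ← h2, ← h4] at h8
      rw [hn] at h6
      have h9 : (val t' + 1) * (u.length + 1) = (u.length + 1) * (val t' + 1) := mul_comm _ _
      omega

theorem nexp_InT (O : List Bool → Bool) : NEXP O fun e : Fin 1 → List Bool => InT (e 0) := by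
  have hR : NEXP O fun e : Fin 5 → List Bool => Nm (e 1) (e 2) (e 4) := by
    refine ((nexp_Nm O).reindex ![1, 2, 4]).congr fun e => ?_
    simp
  have hC : NEXP O fun e : Fin 5 → List Bool => ∃ n, (e 4).length = n + 1 ∧
      val (e 4) ≤ cnt n (Nm (e 1) (e 2)) :=
    nexp_count (k := 4) (R := fun e s => Nm (e 1) (e 2) s) hR
  have hp : NEXP O fun e : Fin 5 → List Bool => e 3 = e 1 ++ [false] := by
    refine ((nexp_subst (O := O) (fun b => [b]) (fun _ => []) [false]).reindex
      ![1, 1, 3]).congr fun e => ?_
    simp [misc_flatMap_nil]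
  have hw : NEXP O fun e : Fin 5 → List Bool => e 4 = List.replicate (e 2).length false ++ e 3 := by
    refine ((nexp_subst (O := O) (fun _ => [false]) (fun b => [b]) []).reindex
      ![2, 3, 4]).congr fun e => ?_
    simp [K3_flat]
  have h5 : NEXP O fun e : Fin 5 → List Bool => e 0 = e 3 ++ e 2 ∧ e 3 = e 1 ++ [false] ∧
      e 1 = List.replicate (e 1).length true ∧ e 4 = List.replicate (e 2).length false ++ e 3 ∧
      ∃ n, (e 4).length = n + 1 ∧ val (e 4) ≤ cnt n (Nm (e 1) (e 2)) :=
    (nexp_append 3 2 0).and (hp.and ((K3_const true 1).and (hw.and hC)))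
  have h4 : NEXP O fun e : Fin 4 → List Bool => ∃ w : List Bool, e 0 = e 3 ++ e 2 ∧
      e 3 = e 1 ++ [false] ∧ e 1 = List.replicate (e 1).length true ∧
      w = List.replicate (e 2).length false ++ e 3 ∧
      ∃ n, w.length = n + 1 ∧ val w ≤ cnt n (Nm (e 1) (e 2)) := by
    refine nexp_ex (k := 4) (R := fun e w => e 0 = e 3 ++ e 2 ∧
      e 3 = e 1 ++ [false] ∧ e 1 = List.replicate (e 1).length true ∧
      w = List.replicate (e 2).length false ++ e 3 ∧
      ∃ n, w.length = n + 1 ∧ val w ≤ cnt n (Nm (e 1) (e 2))) h5 (g := fun n => n) PolyB.id ?_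
    rintro e w ⟨h1, -, -, h2, -⟩
    have h3 := len_le_size e 0
    rw [h1] at h3
    rw [h2]
    simp only [List.length_append, List.length_replicate] at h3 ⊢
    omega
  have h3 : NEXP O fun e : Fin 3 → List Bool => ∃ p w : List Bool, e 0 = p ++ e 2 ∧
      p = e 1 ++ [false] ∧ e 1 = List.replicate (e 1).length true ∧
      w = List.replicate (e 2).length false ++ p ∧
      ∃ n, w.length = n + 1 ∧ val w ≤ cnt n (Nm (e 1) (e 2)) := by
    refine nexp_ex (k := 3) (R := fun e p => ∃ w : List Bool, e 0 = p ++ e 2 ∧
      p = e 1 ++ [false] ∧ e 1 = List.replicate (e 1).length true ∧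
      w = List.replicate (e 2).length false ++ p ∧
      ∃ n, w.length = n + 1 ∧ val w ≤ cnt n (Nm (e 1) (e 2))) h4 (g := fun n => n) PolyB.id ?_
    rintro e p ⟨w, h1, -⟩
    have h3 := len_le_size e 0
    rw [h1] at h3
    simp only [List.length_append] at h3
    omega
  have h2 : NEXP O fun e : Fin 2 → List Bool => ∃ t' p w : List Bool, e 0 = p ++ t' ∧
      p = e 1 ++ [false] ∧ e 1 = List.replicate (e 1).length true ∧
      w = List.replicate t'.length false ++ p ∧
      ∃ n, w.length = n + 1 ∧ val w ≤ cnt n (Nm (e 1) t') := by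
    refine nexp_ex (k := 2) (R := fun e t' => ∃ p w : List Bool, e 0 = p ++ t' ∧
      p = e 1 ++ [false] ∧ e 1 = List.replicate (e 1).length true ∧
      w = List.replicate t'.length false ++ p ∧
      ∃ n, w.length = n + 1 ∧ val w ≤ cnt n (Nm (e 1) t')) h3 (g := fun n => n) PolyB.id ?_
    rintro e t' ⟨p, w, h1, -⟩
    have h3 := len_le_size e 0
    rw [h1] at h3
    simp only [List.length_append] at h3
    omega
  have h1 : NEXP O fun e : Fin 1 → List Bool => ∃ u t' p w : List Bool, e 0 = p ++ t' ∧
      p = u ++ [false] ∧ u = List.replicate u.length true ∧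
      w = List.replicate t'.length false ++ p ∧
      ∃ n, w.length = n + 1 ∧ val w ≤ cnt n (Nm u t') := by
    refine nexp_ex (k := 1) (R := fun e u => ∃ t' p w : List Bool, e 0 = p ++ t' ∧
      p = u ++ [false] ∧ u = List.replicate u.length true ∧
      w = List.replicate t'.length false ++ p ∧
      ∃ n, w.length = n + 1 ∧ val w ≤ cnt n (Nm u t')) h2 (g := fun n => n) PolyB.id ?_
    rintro e u ⟨t', p, w, h1, h2, -⟩
    have h3 := len_le_size e 0
    rw [h1, h2] at h3
    simp only [List.length_append] at h3
    omega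
  exact h1.congr fun e => (K3_iff (e 0)).symm

end Pool.Agent.LibRV74
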