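import Pool.Agent.LibRO74.F3
import Pool.Agent.LibRO74.M4
import Pool.Agent.LibRO74.N1

/-!
The number of errors for the first language: definitions.
-/

namespace Pool.Agent.LibRV74

open Pool.Agent.LibNexp Pool.Agent.LibBHN Pool.Agent.LibRO74

/-- The number of errors of `p` (within `T0` steps, with advice `v`) for the complement of `RLang`. -/
noncomputable def errG (O : List Bool → Bool) (k : ℕ) (p : Prog) (T0 n : ℕ) (v : List Bool) : ℕ :=
  Nat.card {x : List Bool // x.length = n ∧ (x ∈ RLang O k ↔ Acc O p T0 (pair x v))}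

/-- `⌊2^(i+1) / (i+1)^2⌋`. -/
def eI (i : ℕ) : ℕ := 2 ^ (i + 1) / (i + 1) ^ 2

/-- The oracles for which `p` has few errors with some advice. -/
def BadH (p : Prog) (c k n a : ℕ) : Set (List Bool → Bool) :=
  {O | ∃ (v : List Bool) (i : ℕ), v.length + i + a ≤ n ∧
    errG O k p (tim c k n v.length) n v ≤ eI i}

end Pool.Agent.LibRV74
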