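import Pool.Agent.LibRV74.P0

/-!
[RV74 P1] The hole property with `e` errors. Adapt `F1_one`, `hole` (LibRO74/F1.lean).

Let `i = (hits f).card` and `x_s = 1^j 0 bits w (i + s + 2^(w-1) - 4^r)`, `1 ≤ s ≤ 2e+1` (distinct strings of
length `n`, the numbers are `< 2^w`). None is in the language for `f` (`rlang_iff`, `proj_le`), so at most
`e` of them are not accepted; `C f` = the blocks (`F1_card`) of the queries (`acc_use`) of the accepted ones,
at most `(2e+1) T`. If `f' = plant D f ∈ F`, then `(hits f').card = i + |D|` is congruent to `i` modulo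
`2e+1`, so `|D| ≥ 2e+1`, all `x_s` are in the language for `f'` (`proj_eq`), and the at least `e+1`
accepted ones are still accepted: `errG > e`.
-/

namespace Pool.Agent.LibRV74

open Finset Pool.Agent.LibNexp Pool.Agent.LibBHN Pool.Agent.LibRO74

private theorem P1_card {m r T : ℕ} (Q : Finset (List Bool)) (hQ : Q.card ≤ T) :
    ∃ C : Finset (GG m), C.card ≤ T ∧ ∀ g : GG m, ∀ i : Fin (kk m r), io m r (g, i) ∈ Q → g ∈ C := by
  classical
  refine ⟨univ.filter fun g => ∃ i, io m r (g, i) ∈ Q, ?_, ?_⟩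
  · refine le_trans ?_ hQ
    have h : ∀ g : GG m, g ∈ (univ.filter fun g : GG m => ∃ i, io m r (g, i) ∈ Q) →
        ∃ i, io m r (g, i) ∈ Q := by
      intro g hg
      exact (mem_filter.1 hg).2
    refine Finset.card_le_card_of_injOn
      (fun g => if h : ∃ i, io m r (g, i) ∈ Q then io m r (g, h.choose) else []) ?_ ?_
    · intro g hg
      have h1 := h g (by simpa using hg)
      simp only [h1, dite_true]
      exact h1.choose_spec
    · intro g hg g' hg' he
      have h1 := h g (by simpa using hg)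
      have h2 := h g' (by simpa using hg')
      simp only [h1, h2, dite_true] at he
      have h3 := io_injective m r he
      exact (Prod.mk.inj h3).1
  · intro g i hi
    exact mem_filter.2 ⟨mem_univ _, i, hi⟩

private theorem P1_le {O : List Bool → Bool} {k : ℕ} {p : Prog} {T n : ℕ} {v : List Bool}
    (A : Finset (List Bool))
    (h : ∀ x ∈ A, x.length = n ∧ (x ∈ RLang O k ↔ Acc O p T (pair x v))) :
    A.card ≤ errG O k p T n v := by
  classical
  unfold errG
  have hfin : Finite {x : List Bool // x.length = n ∧ (x ∈ RLang O k ↔ Acc O p T (pair x v))} := by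
    have h1 : ({x : List Bool | x.length = n}).Finite := List.finite_length_eq Bool n
    have h2 : ({x : List Bool | x.length = n ∧ (x ∈ RLang O k ↔ Acc O p T (pair x v))}).Finite :=
      h1.subset fun x hx => hx.1
    exact h2.to_subtype
  have hc : Nat.card A = A.card := by simp
  rw [← hc]
  refine Nat.card_le_card_of_injective
    (fun a : A => (⟨a.1, h a.1 a.2⟩ :
      {x : List Bool // x.length = n ∧ (x ∈ RLang O k ↔ Acc O p T (pair x v))})) ?_
  intro a b hab
  have h1 := congrArg Subtype.val hab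
  exact Subtype.ext h1

private theorem P1_one {k n j w r m e : ℕ} (hn : n = j + 1 + w) (hj : 2 * j ≤ w) (hw : 2 ≤ w)
    (hr : r = w - j) (hm : m = mm k n) (he : 2 * e + 1 ≤ 2 ^ (w - 2)) (p : Prog) (T : ℕ)
    (v : List Bool) (O : List Bool → Bool) (f : GG m → AA m r) (hnd0 : NoDup m r f)
    (h2 : 4 ^ r < (hits (top m r) f).card + 2 ^ (w - 2))
    (h3 : (hits (top m r) f).card < 4 ^ r + 2 ^ (w - 2))
    (h4 : errG (ov m r f O) k p T n v ≤ e) :
    ∃ C : Finset (GG m), C.card ≤ (2 * e + 1) * T ∧ ∀ D : Finset (GG m), 2 * e + 1 ≤ D.card →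
      Disjoint D (hits (top m r) f) → Disjoint D C → NoDup m r (plant (top m r) D f) →
      ¬ errG (ov m r (plant (top m r) D f) O) k p T n v ≤ e := by
  classical
  obtain ⟨w', rfl⟩ : ∃ w', w = w' + 2 := ⟨w - 2, by omega⟩
  have hwa : w' + 2 - 2 = w' := rfl
  have hwb : w' + 2 - 1 = w' + 1 := rfl
  rw [hwa] at he h2 h3
  have hp1 : 2 ^ (w' + 1) = 2 * 2 ^ w' := by rw [pow_succ]; ring
  have hp2 : 2 ^ (w' + 2) = 4 * 2 ^ w' := by rw [pow_succ, pow_succ]; ring
  have hw1 : 1 ≤ w' + 2 := by omega
  let N : ℕ → ℕ := fun s => (hits (top m r) f).card + s + 2 ^ (w' + 1) - 4 ^ r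
  have hNlt : ∀ s, s ≤ 2 * e + 1 → N s < 2 ^ (w' + 2) := by
    intro s hs
    show (hits (top m r) f).card + s + 2 ^ (w' + 1) - 4 ^ r < 2 ^ (w' + 2)
    omega
  have hNeq : ∀ s, 4 ^ r + N s = (hits (top m r) f).card + s + 2 ^ (w' + 1) := by
    intro s
    show 4 ^ r + ((hits (top m r) f).card + s + 2 ^ (w' + 1) - 4 ^ r) = _
    omega
  let X : ℕ → List Bool := fun s => List.replicate j true ++ false :: bits (w' + 2) (N s)
  have hXlen : ∀ s, (X s).length = n := by
    intro s
    show (List.replicate j true ++ false :: bits (w' + 2) (N s)).length = n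
    simp only [List.length_append, List.length_replicate, List.length_cons, length_bits]
    omega
  have hXinj : Set.InjOn X (Finset.Icc 1 (2 * e + 1) : Finset ℕ) := by
    intro s hs t ht hst
    have hs2 : s ≤ 2 * e + 1 := (Finset.mem_Icc.1 (Finset.mem_coe.1 hs)).2
    have ht2 : t ≤ 2 * e + 1 := (Finset.mem_Icc.1 (Finset.mem_coe.1 ht)).2
    have h1 : List.replicate j true ++ false :: bits (w' + 2) (N s) =
        List.replicate j true ++ false :: bits (w' + 2) (N t) := hst
    have h5 := List.append_cancel_left h1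
    have h6 : bits (w' + 2) (N s) = bits (w' + 2) (N t) := (List.cons.inj h5).2
    have h7 : N s = N t := by
      rw [← val_bits (hNlt s hs2), ← val_bits (hNlt t ht2), h6]
    have h8 := hNeq s
    have h9 := hNeq t
    omega
  -- membership
  have hmem : ∀ (g : GG m → AA m r), NoDup m r g → ∀ s, s ≤ 2 * e + 1 →
      (X s ∈ RLang (ov m r g O) k ↔ (hits (top m r) f).card + s ≤ (hits (top m r) g).card) := by
    intro g hg s hs
    have hlen : (bits (w' + 2) (N s)).length = w' + 2 := by simp
    have h5 := rlang_iff hn hj hw1 hr hm g O hlen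
    rw [val_bits (hNlt s hs)] at h5
    have h6 : (univ.filter fun z : List.Vector Bool m => ∃ y, g (z, y) = top m r).card =
        (hits (top m r) g).card := by
      refine Eq.trans ?_ (proj_eq (top m r) g hg)
      congr
    have h7 : X s ∈ RLang (ov m r g O) k ↔
        4 ^ r + N s ≤ (univ.filter fun z : List.Vector Bool m => ∃ y, g (z, y) = top m r).card +
          2 ^ (w' + 2 - 1) := by
      refine Iff.trans h5 (Iff.of_eq ?_)
      congr
    rw [h7, h6, hNeq s, hwb]
    omega
  -- the accepted ones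
  let A : Finset ℕ := (Finset.Icc 1 (2 * e + 1)).filter
    fun s => Acc (ov m r f O) p T (pair (X s) v)
  let B : Finset ℕ := (Finset.Icc 1 (2 * e + 1)).filter
    fun s => ¬ Acc (ov m r f O) p T (pair (X s) v)
  have hAB : A.card + B.card = 2 * e + 1 := by
    have h5 := Finset.card_filter_add_card_filter_not (s := Finset.Icc 1 (2 * e + 1))
      (fun s => Acc (ov m r f O) p T (pair (X s) v))
    rw [Nat.card_Icc] at h5
    show ((Finset.Icc 1 (2 * e + 1)).filter
      fun s => Acc (ov m r f O) p T (pair (X s) v)).card + ((Finset.Icc 1 (2 * e + 1)).filter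
      fun s => ¬ Acc (ov m r f O) p T (pair (X s) v)).card = _
    omega
  have hB : B.card ≤ e := by
    refine le_trans ?_ h4
    have h5 : (B.image X).card = B.card := by
      refine Finset.card_image_of_injOn (hXinj.mono ?_)
      intro s hs
      exact Finset.mem_coe.2 (Finset.mem_filter.1 (Finset.mem_coe.1 hs)).1
    rw [← h5]
    refine P1_le _ fun x hx => ?_
    obtain ⟨s, hs, rfl⟩ := Finset.mem_image.1 hx
    obtain ⟨hs1, hs2⟩ := Finset.mem_filter.1 hs
    obtain ⟨hs3, hs4⟩ := Finset.mem_Icc.1 hs1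
    refine ⟨hXlen s, ?_⟩
    rw [hmem f hnd0 s hs4]
    constructor
    · intro h
      omega
    · intro h
      exact absurd h hs2
  have hA : e + 1 ≤ A.card := by omega
  have hch : ∀ s : ℕ, ∃ C : Finset (GG m), C.card ≤ T ∧
      (Acc (ov m r f O) p T (pair (X s) v) → ∀ D : Finset (GG m), Disjoint D C →
        Acc (ov m r (plant (top m r) D f) O) p T (pair (X s) v)) := by
    intro s
    by_cases hs : Acc (ov m r f O) p T (pair (X s) v)
    · obtain ⟨Q, hQ, hQ2⟩ := acc_use hs
      obtain ⟨C, hC, hC2⟩ := P1_card (m := m) (r := r) Q hQ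
      refine ⟨C, hC, fun _ D hDC => hQ2 _ ?_⟩
      intro q hq
      by_cases hp : ∃ q', io m r q' = q
      · obtain ⟨⟨g, i⟩, rfl⟩ := hp
        rw [ov_io, ov_io]
        have hgC : g ∈ C := hC2 g i hq
        have hgD : g ∉ D := fun h => Finset.disjoint_left.1 hDC h hgC
        simp [plant, hgD]
      · have hp' : ∀ q', io m r q' ≠ q := fun q' hq' => hp ⟨q', hq'⟩
        rw [ov_of m r _ O hp', ov_of m r _ O hp']
    · exact ⟨∅, by simp, fun h => absurd h hs⟩
  choose C hC1 hC2 using hch
  refine ⟨(Finset.Icc 1 (2 * e + 1)).biUnion C, ?_, ?_⟩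
  · have h5 := Finset.card_biUnion_le_card_mul (Finset.Icc 1 (2 * e + 1)) C T
      (fun s _ => hC1 s)
    rw [Nat.card_Icc] at h5
    have h6 : 2 * e + 1 + 1 - 1 = 2 * e + 1 := by omega
    rw [h6] at h5
    exact h5
  · intro D hD hDh hDC hnd hle
    have h5 : (A.image X).card = A.card := by
      refine Finset.card_image_of_injOn (hXinj.mono ?_)
      intro s hs
      exact Finset.mem_coe.2 (Finset.mem_filter.1 (Finset.mem_coe.1 hs)).1
    have h6 : (A.image X).card ≤ errG (ov m r (plant (top m r) D f) O) k p T n v := by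
      refine P1_le _ fun x hx => ?_
      obtain ⟨s, hs, rfl⟩ := Finset.mem_image.1 hx
      obtain ⟨hs1, hs2⟩ := Finset.mem_filter.1 hs
      obtain ⟨hs3, hs4⟩ := Finset.mem_Icc.1 hs1
      refine ⟨hXlen s, ?_⟩
      have h7 : X s ∈ RLang (ov m r (plant (top m r) D f) O) k := by
        rw [hmem _ hnd s hs4, hits_plant, Finset.card_union_of_disjoint hDh.symm]
        omega
      refine ⟨fun _ => hC2 s hs2 D ?_, fun _ => h7⟩
      exact Finset.disjoint_left.2 fun g hg hg2 =>
        Finset.disjoint_left.1 hDC hg (Finset.mem_biUnion.2 ⟨s, hs1, hg2⟩)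
    omega

theorem holeE {k n j w r m e c0 : ℕ} (hn : n = j + 1 + w) (hj : 2 * j ≤ w) (hw : 2 ≤ w)
    (hr : r = w - j) (hm : m = mm k n) (he : 2 * e + 1 ≤ 2 ^ (w - 2)) (p : Prog) (T : ℕ)
    (v : List Bool) (O : List Bool → Bool) {F : Finset (GG m → AA m r)}
    (hF : ∀ f ∈ F, NoDup m r f ∧ 4 ^ r < (hits (top m r) f).card + 2 ^ (w - 2) ∧
      (hits (top m r) f).card < 4 ^ r + 2 ^ (w - 2) ∧
      (hits (top m r) f).card % (2 * e + 1) = c0 ∧ errG (ov m r f O) k p T n v ≤ e) :
    ∃ C : (GG m → AA m r) → Finset (GG m), (∀ f ∈ F, (C f).card ≤ (2 * e + 1) * T) ∧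
      ∀ f ∈ F, ∀ D : Finset (GG m), D.Nonempty → Disjoint D (hits (top m r) f) →
        Disjoint D (C f) → plant (top m r) D f ∉ F := by
  classical
  have h : ∀ f : GG m → AA m r, ∃ C : Finset (GG m), f ∈ F → C.card ≤ (2 * e + 1) * T ∧
      ∀ D : Finset (GG m), 2 * e + 1 ≤ D.card → Disjoint D (hits (top m r) f) → Disjoint D C →
      NoDup m r (plant (top m r) D f) →
      ¬ errG (ov m r (plant (top m r) D f) O) k p T n v ≤ e := by
    intro f
    by_cases hf : f ∈ F
    · obtain ⟨a, b, c, -, d⟩ := hF f hf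
      obtain ⟨C, hC⟩ := P1_one hn hj hw hr hm he p T v O f a b c d
      exact ⟨C, fun _ => hC⟩
    · exact ⟨∅, fun h => absurd h hf⟩
  choose C hC using h
  refine ⟨C, fun f hf => (hC f hf).1, fun f hf D hD hDh hDC hm' => ?_⟩
  obtain ⟨-, -, -, hcf, -⟩ := hF _ hf
  obtain ⟨a, -, -, hc, b⟩ := hF _ hm'
  refine (hC f hf).2 D ?_ hDh hDC a b
  rw [hits_plant, Finset.card_union_of_disjoint hDh.symm] at hc
  have hpos := hD.card_pos
  have hmod : (hits (top m r) f).card ≡ (hits (top m r) f).card + D.card [MOD (2 * e + 1)] := by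
    show (hits (top m r) f).card % (2 * e + 1) = _
    rw [hcf, hc]
  have hd : 2 * e + 1 ∣ D.card := by
    have h5 := (Nat.modEq_iff_dvd' (Nat.le_add_right _ _)).1 hmod
    rwa [Nat.add_sub_cancel_left] at h5
  exact Nat.le_of_dvd hpos hd

end Pool.Agent.LibRV74
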