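import Pool.Agent.LibRV74.P1

/-!
[RV74 P2] One advice in a fibre, with `e` errors. Adapt `fv_card` (LibRO74/F2.lean).

Split the set by the residue `c0 < 2e+1` of `(hits f).card` modulo `2e+1`; each part is bounded by `cube`
(`holeE`, `lo = 4^r - 2^(w-2)`, `J = 2^(w-1)`, `T := (2e+1) * tim c k n v.length`, `2e+1 ≤ 2^(w-2) ≤ 2^n`,
`2 * 2^(w-1) * 2^(w-2) ≤ 4^n`).
-/

namespace Pool.Agent.LibRV74

open Finset Pool.Agent.LibNexp Pool.Agent.LibBHN Pool.Agent.LibRO74

private theorem P2_tim_mono {c k n a b : ℕ} (h : a ≤ b) : tim c k n a ≤ tim c k n b := by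
  unfold tim
  refine Nat.pow_le_pow_right (by norm_num) ?_
  have h2 : (2 * n + 2 + a) ^ k ≤ (2 * n + 2 + b) ^ k := Nat.pow_le_pow_left (by omega) _
  have h1 : 2 ^ ((2 * n + 2 + a) ^ k + k) ≤ 2 ^ ((2 * n + 2 + b) ^ k + k) :=
    Nat.pow_le_pow_right (by norm_num) (by omega)
  omega

open Classical in
theorem fvE_card {c k n j w r m e : ℕ} (hn : n = j + 1 + w) (hj : 2 * j ≤ w) (hw : 2 ≤ w)
    (hr : r = w - j) (hm : m = mm k n) (he : 2 * e + 1 ≤ 2 ^ (w - 2))
    (hT : 8 * 4 ^ n * tim c k n n + 2 * 4 ^ n ≤ 2 ^ (2 ^ m)) (p : Prog) (O : List Bool → Bool)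
    (v : List Bool) (hv : v.length ≤ n) :
    (univ.filter fun f : GG m → AA m r =>
      NoDup m r f ∧ 4 ^ r < (hits (top m r) f).card + 2 ^ (w - 2) ∧
      (hits (top m r) f).card < 4 ^ r + 2 ^ (w - 2) ∧
      errG (ov m r f O) k p (tim c k n v.length) n v ≤ e).card * 2 ^ r ≤
      (2 * e + 1) * (8 * Fintype.card (AA m r) ^ Fintype.card (GG m)) := by
  obtain ⟨hGA, hA⟩ := card_eq (k := k) hn hr hm
  set F := univ.filter fun f : GG m → AA m r =>
      NoDup m r f ∧ 4 ^ r < (hits (top m r) f).card + 2 ^ (w - 2) ∧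
      (hits (top m r) f).card < 4 ^ r + 2 ^ (w - 2) ∧
      errG (ov m r f O) k p (tim c k n v.length) n v ≤ e with hFdef
  have hmem : ∀ f ∈ F, NoDup m r f ∧ 4 ^ r < (hits (top m r) f).card + 2 ^ (w - 2) ∧
      (hits (top m r) f).card < 4 ^ r + 2 ^ (w - 2) ∧
      errG (ov m r f O) k p (tim c k n v.length) n v ≤ e := by
    intro f hf
    exact (mem_filter.1 hf).2
  have hpart : ∀ c0 : ℕ, (F.filter fun f => (hits (top m r) f).card % (2 * e + 1) = c0).card *
      2 ^ r ≤ 8 * Fintype.card (AA m r) ^ Fintype.card (GG m) := by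
    intro c0
    set F0 := F.filter fun f => (hits (top m r) f).card % (2 * e + 1) = c0 with hF0
    have hmem0 : ∀ f ∈ F0, NoDup m r f ∧ 4 ^ r < (hits (top m r) f).card + 2 ^ (w - 2) ∧
        (hits (top m r) f).card < 4 ^ r + 2 ^ (w - 2) ∧
        (hits (top m r) f).card % (2 * e + 1) = c0 ∧
        errG (ov m r f O) k p (tim c k n v.length) n v ≤ e := by
      intro f hf
      obtain ⟨hf1, hf2⟩ := mem_filter.1 hf
      obtain ⟨a1, a2, a3, a4⟩ := hmem f hf1
      exact ⟨a1, a2, a3, hf2, a4⟩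
    obtain ⟨C, hC, hCF⟩ := holeE hn hj hw hr hm he p (tim c k n v.length) v O hmem0
    have h2w : 2 ^ (w - 1) = 2 * 2 ^ (w - 2) := by
      rw [← pow_succ']
      congr 1
      omega
    refine cube (top m r) (r := r) (T := (2 * e + 1) * tim c k n v.length)
      (lo := 4 ^ r - 2 ^ (w - 2)) (J := 2 ^ (w - 1)) hA hGA ?_ ?_ C hC hCF
    · have hG : Fintype.card (GG m) = 2 ^ m * 2 ^ (2 ^ m) := by
        simp [GG]
      have h1 : 2 ^ (2 ^ m) ≤ 2 ^ m * 2 ^ (2 ^ m) := Nat.le_mul_of_pos_left _ (by positivity)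
      have h42 : (4 : ℕ) ^ n = 2 ^ n * 2 ^ n := by
        rw [← mul_pow]
        norm_num
      have h2 : 2 * 2 ^ (w - 1) * ((2 * e + 1) * tim c k n v.length) ≤
          4 ^ n * tim c k n n := by
        have h21 : 2 * 2 ^ (w - 1) = 2 ^ w := by
          rw [← pow_succ']
          congr 1
          omega
        calc 2 * 2 ^ (w - 1) * ((2 * e + 1) * tim c k n v.length)
            ≤ 2 ^ n * (2 ^ n * tim c k n n) := by
              rw [h21]
              refine Nat.mul_le_mul (Nat.pow_le_pow_right (by norm_num) (by omega)) ?_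
              refine Nat.mul_le_mul (he.trans ?_) (P2_tim_mono hv)
              exact Nat.pow_le_pow_right (by norm_num) (by omega)
          _ = 4 ^ n * tim c k n n := by
              rw [h42, Nat.mul_assoc]
      have h3 : 4 ^ r ≤ 4 ^ n := Nat.pow_le_pow_right (by norm_num) (by omega)
      have h4 : 2 ^ (w - 1) ≤ 4 ^ n := by
        calc 2 ^ (w - 1) ≤ 2 ^ n := Nat.pow_le_pow_right (by norm_num) (by omega)
          _ ≤ 4 ^ n := Nat.pow_le_pow_left (by norm_num) _
      have h5 : 8 * 4 ^ n * tim c k n n = 8 * (4 ^ n * tim c k n n) := Nat.mul_assoc _ _ _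
      rw [h5] at hT
      rw [hG]
      omega
    · intro f hf
      obtain ⟨-, h5, h6, -⟩ := hmem0 f hf
      rw [h2w]
      generalize (2 : ℕ) ^ (w - 2) = W at *
      generalize (4 : ℕ) ^ r = R at *
      constructor <;> omega
  have hcard : F.card = ∑ c0 ∈ range (2 * e + 1),
      (F.filter fun f => (hits (top m r) f).card % (2 * e + 1) = c0).card := by
    refine Finset.card_eq_sum_card_fiberwise fun f _ => ?_
    rw [Finset.mem_coe, mem_range]
    exact Nat.mod_lt _ (by omega)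
  rw [hcard, Finset.sum_mul]
  calc ∑ c0 ∈ range (2 * e + 1),
        (F.filter fun f => (hits (top m r) f).card % (2 * e + 1) = c0).card * 2 ^ r
      ≤ ∑ _c0 ∈ range (2 * e + 1), 8 * Fintype.card (AA m r) ^ Fintype.card (GG m) :=
        Finset.sum_le_sum fun c0 _ => hpart c0
    _ = (2 * e + 1) * (8 * Fintype.card (AA m r) ^ Fintype.card (GG m)) := by
        rw [Finset.sum_const, card_range, smul_eq_mul]

end Pool.Agent.LibRV74
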