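import Pool.Agent.LibRV74.P2

/-!
[RV74 P3] The bound in a fibre, with errors. Adapt `fibreW`, `fibreT` (LibRO74/F3.lean).

The bad `f`: outside the window (`chern` of LibRO74/T1 with `lam = 4^r`, `d = 2^(w-2)`), with a duplicate
(as in `fibreW`), or in the set of `fvE_card` for some `i ≤ n - a` (`e = eI i`) and some `v` with
`|v| ≤ n - a - i` (`strs_le (n - a - i)`: at most `2^(n-a-i+1)`). The sum over `i`:
`2^(n-a-i+1) * (2 eI i + 1) ≤ 2^(n-a+1) * (4/(i+1)^2 + 2^(-i))`, and `∑ 1/(i+1)^2 ≤ 2`, `∑ 2^(-i) ≤ 2`: at most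
`10 * 2^(n-a+1)`.
-/

namespace Pool.Agent.LibRV74

open Finset Pool.Agent.LibNexp Pool.Agent.LibBHN Pool.Agent.LibRO74

private theorem P3_sq (N : ℕ) : ∑ i ∈ range N, 1 / ((i : ℝ) + 1) ^ 2 ≤ 2 - 1 / (N : ℝ) := by
  induction N with
  | zero => simp
  | succ N ih =>
    rw [Finset.sum_range_succ]
    rcases Nat.eq_zero_or_pos N with h | h
    · subst h
      norm_num
    · have hN : (0 : ℝ) < N := by exact_mod_cast h
      have h1 : 1 / ((N : ℝ) + 1) ^ 2 ≤ 1 / (N : ℝ) - 1 / ((N : ℝ) + 1) := by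
        rw [div_sub_div _ _ hN.ne' (by positivity),
          div_le_div_iff₀ (by positivity) (by positivity)]
        nlinarith
      push_cast
      linarith

private theorem P3_geo (N : ℕ) : ∑ i ∈ range N, 1 / (2 : ℝ) ^ i ≤ 2 := by
  have h : ∑ i ∈ range N, 1 / (2 : ℝ) ^ i = 2 - 2 / 2 ^ N := by
    induction N with
    | zero => norm_num
    | succ N ih =>
      rw [Finset.sum_range_succ, ih, pow_succ]
      field_simp
      ring
  rw [h]
  have h2 : (0 : ℝ) < 2 / 2 ^ N := by positivity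
  linarith

private theorem P3_term {b i : ℕ} (hi : i ≤ b) :
    (2 : ℝ) ^ (b - i + 1) * (2 * (eI i : ℝ) + 1) ≤
      2 ^ (b + 1) * (4 / ((i : ℝ) + 1) ^ 2 + 1 / 2 ^ i) := by
  have h1 : (eI i : ℝ) ≤ 2 ^ (i + 1) / ((i : ℝ) + 1) ^ 2 := by
    have h := Nat.cast_div_le (α := ℝ) (m := 2 ^ (i + 1)) (n := (i + 1) ^ 2)
    push_cast at h
    exact h
  have h2 : (2 : ℝ) ^ (b + 1) = 2 ^ (b - i + 1) * 2 ^ i := by
    rw [← pow_add]
    congr 1
    omega
  have h3 : (2 : ℝ) ^ (b + 1) * (4 / ((i : ℝ) + 1) ^ 2 + 1 / 2 ^ i) =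
      2 ^ (b - i + 1) * (2 * (2 ^ (i + 1) / ((i : ℝ) + 1) ^ 2) + 1) := by
    rw [h2]
    have h4 : (2 : ℝ) ^ i ≠ 0 := by positivity
    have h5 : ((i : ℝ) + 1) ≠ 0 := by positivity
    rw [pow_succ]
    field_simp
    ring
  rw [h3]
  refine mul_le_mul_of_nonneg_left ?_ (by positivity)
  linarith

private theorem P3_sum (b : ℕ) (s : Finset ℕ) (hs : s ⊆ range (b + 1)) :
    ∑ i ∈ s, (2 : ℝ) ^ (b - i + 1) * (2 * (eI i : ℝ) + 1) ≤ 10 * 2 ^ (b + 1) := by
  have h1 : ∑ i ∈ s, (2 : ℝ) ^ (b - i + 1) * (2 * (eI i : ℝ) + 1) ≤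
      ∑ i ∈ range (b + 1), (2 : ℝ) ^ (b - i + 1) * (2 * (eI i : ℝ) + 1) :=
    Finset.sum_le_sum_of_subset_of_nonneg hs (fun i _ _ => by positivity)
  have h2 : ∑ i ∈ range (b + 1), (2 : ℝ) ^ (b - i + 1) * (2 * (eI i : ℝ) + 1) ≤
      ∑ i ∈ range (b + 1), 2 ^ (b + 1) * (4 * (1 / ((i : ℝ) + 1) ^ 2) + 1 / 2 ^ i) := by
    refine Finset.sum_le_sum fun i hi => ?_
    rw [mul_one_div]
    exact P3_term (by rw [Finset.mem_range] at hi; omega)
  have h3 : ∑ i ∈ range (b + 1), (2 : ℝ) ^ (b + 1) * (4 * (1 / ((i : ℝ) + 1) ^ 2) + 1 / 2 ^ i) =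
      2 ^ (b + 1) * (4 * (∑ i ∈ range (b + 1), 1 / ((i : ℝ) + 1) ^ 2) +
        ∑ i ∈ range (b + 1), 1 / (2 : ℝ) ^ i) := by
    rw [← Finset.mul_sum, Finset.sum_add_distrib, ← Finset.mul_sum]
  have h4 := P3_sq (b + 1)
  have h5 := P3_geo (b + 1)
  have h6 : (0 : ℝ) ≤ 1 / ((b + 1 : ℕ) : ℝ) := by positivity
  have h7 : 4 * (∑ i ∈ range (b + 1), 1 / ((i : ℝ) + 1) ^ 2) +
        ∑ i ∈ range (b + 1), 1 / (2 : ℝ) ^ i ≤ 10 := by linarith
  have h8 : (2 : ℝ) ^ (b + 1) * (4 * (∑ i ∈ range (b + 1), 1 / ((i : ℝ) + 1) ^ 2) +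
        ∑ i ∈ range (b + 1), 1 / (2 : ℝ) ^ i) ≤ 2 ^ (b + 1) * 10 :=
    mul_le_mul_of_nonneg_left h7 (by positivity)
  linarith

private theorem P3_dup {m r : ℕ} (h : 2 * r ≤ m) {X P : ℝ}
    (hX : X * ((2 : ℝ) ^ (2 ^ m + (m - 2 * r))) ^ 2 ≤ 2 ^ m * (2 ^ (2 ^ m)) ^ 2 * P) :
    X ≤ 4 ^ (2 * r) / 2 ^ m * P := by
  have e1 : ((2 : ℝ) ^ (2 ^ m + (m - 2 * r))) ^ 2 = (2 ^ (2 ^ m)) ^ 2 * 2 ^ (2 * (m - 2 * r)) := by
    rw [pow_add, mul_pow, ← pow_mul (2 : ℝ) (m - 2 * r) 2, mul_comm (m - 2 * r) 2]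
  have e2 : (2 : ℝ) ^ (2 * (m - 2 * r)) * 4 ^ (2 * r) = 2 ^ m * 2 ^ m := by
    rw [show (4 : ℝ) = 2 ^ 2 by norm_num, ← pow_mul, ← pow_add, ← pow_add]
    congr 1
    omega
  have hA : (0 : ℝ) < (2 ^ (2 ^ m)) ^ 2 := by positivity
  have hB : (0 : ℝ) < 2 ^ (2 * (m - 2 * r)) := by positivity
  have hM : (0 : ℝ) < 2 ^ m := by positivity
  rw [e1] at hX
  have h1 : X * 2 ^ (2 * (m - 2 * r)) ≤ 2 ^ m * P := by
    refine le_of_mul_le_mul_left ?_ hA
    linarith [hX]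
  rw [div_mul_eq_mul_div, le_div_iff₀ hM]
  refine le_of_mul_le_mul_left ?_ hB
  calc 2 ^ (2 * (m - 2 * r)) * (X * 2 ^ m) = (X * 2 ^ (2 * (m - 2 * r))) * 2 ^ m := by ring
    _ ≤ (2 ^ m * P) * 2 ^ m := mul_le_mul_of_nonneg_right h1 hM.le
    _ = (2 ^ m * 2 ^ m) * P := by ring
    _ = 2 ^ (2 * (m - 2 * r)) * (4 ^ (2 * r) * P) := by rw [← e2]; ring

open Classical in
theorem fibreE {c k n j w r m a : ℕ} (hn : n = j + 1 + w) (hj : 2 * j ≤ w) (hw : 2 ≤ w)
    (hr : r = w - j) (hm : m = mm k n) (he : ∀ i, i + a ≤ n → 2 * eI i + 1 ≤ 2 ^ (w - 2))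
    (hT : 8 * 4 ^ n * tim c k n n + 2 * 4 ^ n ≤ 2 ^ (2 ^ m)) (p : Prog) (O : List Bool → Bool) :
    ((univ.filter fun f : GG m → AA m r => ov m r f O ∈ BadH p c k n a).card : ℝ) ≤
      (10 * (2 ^ (n - a + 1) * (8 / 2 ^ r)) +
        2 * Real.exp (-(((2 : ℝ) ^ (w - 2)) ^ 2 / (4 * 4 ^ r))) +
        4 ^ (2 * r) / 2 ^ m) * (Fintype.card (AA m r) : ℝ) ^ Fintype.card (GG m) := by
  have hrm : 2 * r ≤ m := by
    have h1 : r ≤ n := by omega
    have h2 : 2 * n ≤ m := by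
      have := mm_ge k n
      omega
    omega
  have hd4 : 2 ^ (w - 2) ≤ 4 ^ r := by
    have h1 : 2 ^ (w - 2) ≤ 2 ^ (2 * r) := Nat.pow_le_pow_right (by norm_num) (by omega)
    have h2 : (4 : ℕ) ^ r = 2 ^ (2 * r) := by rw [pow_mul]; norm_num
    omega
  have hW := chern (G := GG m) (A := AA m r) (top m r) (lam := 4 ^ r) (d := 2 ^ (w - 2))
    (card_eq hn hr hm).1 (Nat.one_le_pow _ _ (by norm_num)) hd4
  choose S hS hSm using strs_le
  set I : Finset ℕ := (range (n + 1)).filter fun i => i + a ≤ n with hI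
  set B : ℕ → List Bool → Finset (GG m → AA m r) := fun i v =>
    univ.filter fun f : GG m → AA m r =>
      NoDup m r f ∧ 4 ^ r < (hits (top m r) f).card + 2 ^ (w - 2) ∧
      (hits (top m r) f).card < 4 ^ r + 2 ^ (w - 2) ∧
      errG (ov m r f O) k p (tim c k n v.length) n v ≤ eI i with hB
  -- the three parts
  have hsub : (univ.filter fun f : GG m → AA m r => ov m r f O ∈ BadH p c k n a) ⊆
      ((univ.filter fun f : GG m → AA m r =>
        ¬ (4 ^ r < (hits (top m r) f).card + 2 ^ (w - 2) ∧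
          (hits (top m r) f).card < 4 ^ r + 2 ^ (w - 2))) ∪
      (univ.filter fun f : GG m → AA m r =>
        ∃ z y y', f (z, y) = top m r ∧ f (z, y') = top m r ∧ y ≠ y')) ∪
      (I.biUnion fun i => ((S (n - a - i)).filter fun v => v.length ≤ n).biUnion fun v =>
        B i v) := by
    intro f hf
    rw [Finset.mem_filter] at hf
    obtain ⟨-, v, i, hv, hgood⟩ := hf
    rw [Finset.mem_union, Finset.mem_union]
    by_cases h1 : (4 ^ r < (hits (top m r) f).card + 2 ^ (w - 2) ∧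
          (hits (top m r) f).card < 4 ^ r + 2 ^ (w - 2))
    · by_cases h2 : ∃ z y y', f (z, y) = top m r ∧ f (z, y') = top m r ∧ y ≠ y'
      · left; right
        rw [Finset.mem_filter]
        exact ⟨Finset.mem_univ _, h2⟩
      · right
        rw [Finset.mem_biUnion]
        refine ⟨i, ?_, ?_⟩
        · rw [hI, Finset.mem_filter, Finset.mem_range]
          omega
        · rw [Finset.mem_biUnion]
          refine ⟨v, ?_, ?_⟩
          · rw [Finset.mem_filter]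
            exact ⟨hSm _ v (by omega), by omega⟩
          · rw [hB, Finset.mem_filter]
            refine ⟨Finset.mem_univ _, ?_, h1.1, h1.2, hgood⟩
            intro z y y' ha hb
            by_contra hne
            exact h2 ⟨z, y, y', ha, hb, hne⟩
    · left; left
      rw [Finset.mem_filter]
      exact ⟨Finset.mem_univ _, h1⟩
  have hcard := (Finset.card_le_card hsub).trans ((Finset.card_union_le _ _).trans
    (Nat.add_le_add_right (Finset.card_union_le _ _) _))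
  have hDp := dup_card (Z := List.Vector Bool m) (Y := List.Vector Bool (2 ^ m)) (A := AA m r)
    (top m r)
  have hP : (0 : ℝ) ≤ (Fintype.card (AA m r) : ℝ) ^ Fintype.card (GG m) := by positivity
  have hF : ∀ i ∈ I, ∀ v ∈ (S (n - a - i)).filter fun v => v.length ≤ n,
      ((B i v).card : ℝ) ≤ (2 * (eI i : ℝ) + 1) *
        (8 / 2 ^ r * (Fintype.card (AA m r) : ℝ) ^ Fintype.card (GG m)) := by
    intro i hi v hv
    rw [hI, Finset.mem_filter] at hi
    have h := fvE_card hn hj hw hr hm (he i hi.2) hT p O v (Finset.mem_filter.mp hv).2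
    have h' : ((B i v).card : ℝ) * 2 ^ r ≤
        (2 * (eI i : ℝ) + 1) * (8 * (Fintype.card (AA m r) : ℝ) ^ Fintype.card (GG m)) := by
      exact_mod_cast h
    have h2 : (2 * (eI i : ℝ) + 1) *
        (8 / 2 ^ r * (Fintype.card (AA m r) : ℝ) ^ Fintype.card (GG m)) =
        (2 * (eI i : ℝ) + 1) * (8 * (Fintype.card (AA m r) : ℝ) ^ Fintype.card (GG m)) / 2 ^ r := by
      ring
    rw [h2, le_div_iff₀ (by positivity)]
    exact h'
  -- the union over the advice strings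
  have hB1 : ∀ i ∈ I, ((((S (n - a - i)).filter fun v => v.length ≤ n).biUnion fun v =>
        B i v).card : ℝ) ≤ (2 : ℝ) ^ (n - a - i + 1) * (2 * (eI i : ℝ) + 1) *
        (8 / 2 ^ r * (Fintype.card (AA m r) : ℝ) ^ Fintype.card (GG m)) := by
    intro i hi
    refine (Nat.cast_le.mpr Finset.card_biUnion_le).trans ?_
    rw [Nat.cast_sum]
    refine (Finset.sum_le_sum (hF i hi)).trans ?_
    rw [Finset.sum_const, nsmul_eq_mul, mul_assoc]
    refine mul_le_mul_of_nonneg_right ?_ (by positivity)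
    have h1 : ((S (n - a - i)).filter fun v => v.length ≤ n).card ≤ 2 ^ (n - a - i + 1) :=
      (Finset.card_filter_le _ _).trans (hS _)
    exact_mod_cast h1
  have hB2 : ((I.biUnion fun i => ((S (n - a - i)).filter fun v => v.length ≤ n).biUnion fun v =>
        B i v).card : ℝ) ≤ 10 * (2 ^ (n - a + 1) * (8 / 2 ^ r)) *
        (Fintype.card (AA m r) : ℝ) ^ Fintype.card (GG m) := by
    refine (Nat.cast_le.mpr Finset.card_biUnion_le).trans ?_
    rw [Nat.cast_sum]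
    refine (Finset.sum_le_sum hB1).trans ?_
    rw [← Finset.sum_mul]
    have h1 := P3_sum (n - a) I (by
      intro i hi
      rw [hI, Finset.mem_filter] at hi
      rw [Finset.mem_range]
      omega)
    refine (mul_le_mul_of_nonneg_right h1 (by positivity)).trans (le_of_eq ?_)
    ring
  have hD' : (((univ.filter fun f : GG m → AA m r =>
        ∃ z y y', f (z, y) = top m r ∧ f (z, y') = top m r ∧ y ≠ y').card : ℕ) : ℝ) ≤
      4 ^ (2 * r) / 2 ^ m * (Fintype.card (AA m r) : ℝ) ^ Fintype.card (GG m) := by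
    refine P3_dup hrm ?_
    have hZ : Fintype.card (List.Vector Bool m) = 2 ^ m := by
      rw [card_vector, Fintype.card_bool]
    have hY : Fintype.card (List.Vector Bool (2 ^ m)) = 2 ^ (2 ^ m) := by
      rw [card_vector, Fintype.card_bool]
    rw [hZ, hY] at hDp
    have hA : ((Fintype.card (AA m r) : ℕ) : ℝ) = 2 ^ (2 ^ m + (m - 2 * r)) := by
      rw [card_AA]
      push_cast
      rfl
    rw [← hA]
    have h := (Nat.cast_le (α := ℝ)).mpr hDp
    push_cast at h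
    exact_mod_cast h
  push_cast at hW
  have hc := (Nat.cast_le (α := ℝ)).mpr hcard
  rw [Nat.cast_add, Nat.cast_add] at hc
  refine hc.trans ?_
  rw [add_mul, add_mul]
  linarith

end Pool.Agent.LibRV74
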