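import Pool.Agent.LibRV74.P0
import Pool.Agent.LibRO74.T3
import Pool.Agent.LibRO74.T4

/-!
[RV74 P4] Numerical.

`term2E`: exactly the proof of `term2` (LibRO74/T4): there only `2^(r+m+2) = 2^(w-2)` is used.
`eI_le`: `eI i ≤ 2^(i+1)`, so `2 eI i + 1 ≤ 2^(i+3) ≤ 2^(n - aa q n + 3)`, `2^(aa q n) ≥ n`
(`aa q n ≥ log_2 n`), `2^(w-2) = 2^n / 2^(j+3)`, `2^(j+3) = 128 * 2^(log2 log2 n) ≤ 128 * log2 n`: enough
`1024 * Nat.log 2 n ≤ n`. `largeE`: as `large` (LibRO74/N1): `8 * 4^n * tim = 2^(3 + 2n + X + c)`,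
`2^(mm k n) ≥ (5n+1) X ≥ X + 5n`, and one more factor 2.
-/

namespace Pool.Agent.LibRV74

open Filter Pool.Agent.LibRO74

private theorem P4_pow (l : ℕ) (hl : 5 ≤ l) : 3 * (l + 4) + 3 ≤ 2 ^ l := by
  induction l, hl using Nat.le_induction with
  | base => norm_num
  | succ m hm ih => rw [pow_succ]; omega

private theorem P4_small (n : ℕ) (hn : 32 ≤ n) :
    3 * (Nat.log 2 (Nat.log 2 n) + 4) + 3 ≤ n := by
  have h5 : 5 ≤ Nat.log 2 n := by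
    have := Nat.log_mono_right (b := 2) hn
    have h32 : Nat.log 2 32 = 5 := by
      rw [show (32 : ℕ) = 2 ^ 5 by norm_num, Nat.log_pow (by norm_num)]
    omega
  have h1 : Nat.log 2 (Nat.log 2 n) ≤ Nat.log 2 n := Nat.log_le_self _ _
  have h2 := P4_pow (Nat.log 2 n) h5
  have h3 : 2 ^ Nat.log 2 n ≤ n := Nat.pow_log_le_self 2 (by omega)
  omega

private theorem P4_sq (m : ℕ) (h : 4 ≤ m) : m ^ 2 ≤ 2 ^ m := by
  induction m, h using Nat.le_induction with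
  | base => norm_num
  | succ k hk ih =>
    have h1 : (k + 1) ^ 2 ≤ 2 * k ^ 2 := by nlinarith
    have h2 : 2 ^ (k + 1) = 2 * 2 ^ k := by ring
    omega

private theorem P4_log (m : ℕ) (h : 4 ≤ m) : 2 * Nat.log 2 m ≤ m := by
  have h1 : 2 ^ Nat.log 2 m ≤ m := Nat.pow_log_le_self 2 (by omega)
  have h2 : 2 ^ (2 * Nat.log 2 m) ≤ 2 ^ m := by
    calc 2 ^ (2 * Nat.log 2 m) = (2 ^ Nat.log 2 m) ^ 2 := by rw [← pow_mul, mul_comm]
      _ ≤ m ^ 2 := Nat.pow_le_pow_left h1 2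
      _ ≤ 2 ^ m := P4_sq m h
  exact (Nat.pow_le_pow_iff_right (by norm_num)).mp h2

private theorem P4_aa (q n : ℕ) : Nat.log 2 n ≤ aa q n := by
  have h1 : ((Nat.log 2 n : ℕ) : ℝ) ≤ Real.logb 2 n := by
    have := Real.natLog_le_logb n 2
    exact_mod_cast this
  have h0 : (0 : ℝ) ≤ Real.logb 2 n := le_trans (Nat.cast_nonneg _) h1
  have h2 : Real.logb 2 n ≤ (1 + 1 / ((q : ℝ) + 1)) * Real.logb 2 n := by
    have h3 : (0 : ℝ) ≤ 1 / ((q : ℝ) + 1) := by positivity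
    nlinarith
  have h4 : (1 + 1 / ((q : ℝ) + 1)) * Real.logb 2 n ≤ (aa q n : ℝ) := Nat.le_ceil _
  exact_mod_cast (h1.trans (h2.trans h4))

theorem term2E : ∀ᶠ n : ℕ in atTop, ∀ j w r : ℕ,
    j = Nat.log 2 (Nat.log 2 n) + 4 → n = j + 1 + w → r = w - j →
    2 * Real.exp (-(((2 : ℝ) ^ (w - 2)) ^ 2 / (4 * 4 ^ r))) ≤ 2 / (n : ℝ) ^ 2 := by
  filter_upwards [eventually_ge_atTop 32] with n hn
  intro j w r hj hw hr
  have hs := P4_small n hn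
  rw [← hj] at hs
  set l := Nat.log 2 n with hl
  have h5 : 5 ≤ l := by
    have := Nat.log_mono_right (b := 2) hn
    have h32 : Nat.log 2 32 = 5 := by
      rw [show (32 : ℕ) = 2 ^ 5 by norm_num, Nat.log_pow (by norm_num)]
    omega
  obtain ⟨m, hm⟩ : ∃ m, Nat.log 2 l = m := ⟨_, rfl⟩
  rw [hm] at hj
  have hwr : w - 2 = r + m + 2 := by omega
  have hlm : (l : ℝ) ≤ (2 : ℝ) ^ (m + 1) := by
    have h1 : l < 2 ^ (Nat.log 2 l + 1) := Nat.lt_pow_succ_log_self (by norm_num) l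
    rw [hm] at h1
    have h2 : (l : ℝ) ≤ ((2 ^ (m + 1) : ℕ) : ℝ) := by exact_mod_cast h1.le
    simpa using h2
  have hE : (l : ℝ) ^ 2 ≤ ((2 : ℝ) ^ (w - 2)) ^ 2 / (4 * 4 ^ r) := by
    rw [le_div_iff₀ (by positivity)]
    have h1 : (l : ℝ) ^ 2 ≤ ((2 : ℝ) ^ (m + 1)) ^ 2 :=
      pow_le_pow_left₀ (Nat.cast_nonneg _) hlm 2
    have h2 : ((2 : ℝ) ^ (m + 1)) ^ 2 * (4 * 4 ^ r) = ((2 : ℝ) ^ (w - 2)) ^ 2 := by
      have h4 : (4 : ℝ) ^ r = (2 : ℝ) ^ r * (2 : ℝ) ^ r := by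
        rw [← mul_pow]; norm_num
      rw [h4, hwr]
      ring
    have h3 : (0 : ℝ) ≤ 4 * 4 ^ r := by positivity
    calc (l : ℝ) ^ 2 * (4 * 4 ^ r) ≤ ((2 : ℝ) ^ (m + 1)) ^ 2 * (4 * 4 ^ r) :=
          mul_le_mul_of_nonneg_right h1 h3
      _ = ((2 : ℝ) ^ (w - 2)) ^ 2 := h2
  have hnpos : (0 : ℝ) < (n : ℝ) := by
    have : 0 < n := by omega
    exact_mod_cast this
  have hn2 : (n : ℝ) ^ 2 ≤ Real.exp ((l : ℝ) ^ 2) := by
    have h1 : n < 2 ^ (l + 1) := Nat.lt_pow_succ_log_self (by norm_num) n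
    have h2 : (n : ℝ) ≤ (2 : ℝ) ^ (l + 1) := by
      have : (n : ℝ) ≤ ((2 ^ (l + 1) : ℕ) : ℝ) := by exact_mod_cast h1.le
      simpa using this
    have h3 : (2 : ℝ) ≤ Real.exp 1 := by
      have := Real.add_one_le_exp (1 : ℝ)
      linarith
    have h4 : (n : ℝ) ≤ Real.exp ((l : ℝ) + 1) := by
      calc (n : ℝ) ≤ (2 : ℝ) ^ (l + 1) := h2
        _ ≤ (Real.exp 1) ^ (l + 1) := pow_le_pow_left₀ (by norm_num) h3 _
        _ = Real.exp ((l : ℝ) + 1) := by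
            rw [← Real.exp_nat_mul]
            congr 1
            push_cast
            ring
    calc (n : ℝ) ^ 2 ≤ (Real.exp ((l : ℝ) + 1)) ^ 2 := pow_le_pow_left₀ hnpos.le h4 2
      _ = Real.exp (2 * ((l : ℝ) + 1)) := by
          rw [← Real.exp_nat_mul]
          norm_num
      _ ≤ Real.exp ((l : ℝ) ^ 2) := by
          apply Real.exp_le_exp.2
          have h6 : (5 : ℝ) ≤ (l : ℝ) := by exact_mod_cast h5
          nlinarith
  have hexp : Real.exp (-(((2 : ℝ) ^ (w - 2)) ^ 2 / (4 * 4 ^ r))) ≤ 1 / (n : ℝ) ^ 2 := by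
    calc Real.exp (-(((2 : ℝ) ^ (w - 2)) ^ 2 / (4 * 4 ^ r)))
        ≤ Real.exp (-((l : ℝ) ^ 2)) := Real.exp_le_exp.2 (by linarith)
      _ = 1 / Real.exp ((l : ℝ) ^ 2) := by rw [Real.exp_neg, one_div]
      _ ≤ 1 / (n : ℝ) ^ 2 := one_div_le_one_div_of_le (by positivity) hn2
  have e2 : 2 / (n : ℝ) ^ 2 = 2 * (1 / (n : ℝ) ^ 2) := by ring
  rw [e2]
  linarith

theorem eI_le (q : ℕ) : ∀ᶠ n : ℕ in atTop, ∀ j w : ℕ,
    j = Nat.log 2 (Nat.log 2 n) + 4 → n = j + 1 + w →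
    ∀ i, i + aa q n ≤ n → 2 * eI i + 1 ≤ 2 ^ (w - 2) := by
  filter_upwards [eventually_ge_atTop (2 ^ 20)] with n hn
  intro j w hj hw i hi
  have h20 : 20 ≤ Nat.log 2 n := by
    have := Nat.log_mono_right (b := 2) hn
    rw [Nat.log_pow (by norm_num)] at this
    exact this
  have h1 := P4_log (Nat.log 2 n) (by omega)
  have h2 := P4_aa q n
  have h3 : i + 3 ≤ w - 2 := by omega
  have h4 : eI i ≤ 2 ^ (i + 1) := Nat.div_le_self _ _
  have h5 : 1 ≤ 2 ^ (i + 1) := Nat.one_le_two_pow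
  calc 2 * eI i + 1 ≤ 4 * 2 ^ (i + 1) := by omega
    _ = 2 ^ (i + 3) := by ring
    _ ≤ 2 ^ (w - 2) := Nat.pow_le_pow_right (by norm_num) h3

theorem largeE (c k : ℕ) : ∀ᶠ n : ℕ in atTop,
    8 * 4 ^ n * tim c k n n + 2 * 4 ^ n ≤ 2 ^ (2 ^ mm k n) := by
  filter_upwards [eventually_ge_atTop (c + 4)] with n h1
  have e0 : 2 * n + 2 + n = 3 * n + 2 := by ring
  set X : ℕ := 2 ^ ((3 * n + 2) ^ k + k) with hX
  have hXpos : 1 ≤ X := Nat.one_le_two_pow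
  have hM : 2 ^ mm k n = 2 ^ (5 * n) * X := by
    unfold mm
    rw [pow_add]
  have h5 : 5 * n < 2 ^ (5 * n) := Nat.lt_two_pow_self
  have h6 : (5 * n + 1) * X ≤ 2 ^ mm k n := by
    rw [hM]
    exact Nat.mul_le_mul_right _ h5
  have h7 : X + 5 * n ≤ 2 ^ mm k n := by
    have : 5 * n ≤ 5 * n * X := Nat.le_mul_of_pos_right _ hXpos
    have h8 : (5 * n + 1) * X = 5 * n * X + X := by ring
    omega
  set M : ℕ := 2 ^ mm k n with hMdef
  have e4 : (8 : ℕ) * 4 ^ n = 2 ^ (3 + 2 * n) := by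
    rw [pow_add, pow_mul]
    norm_num
  have e1 : 8 * 4 ^ n * tim c k n n = 2 ^ (3 + 2 * n + (X + c)) := by
    unfold tim
    rw [e0, ← hX, pow_add 2 (3 + 2 * n), e4]
  have e2 : 2 * 4 ^ n = 2 ^ (1 + 2 * n) := by
    rw [pow_add, pow_one, pow_mul]
    norm_num
  have e3 : 2 ^ M = 2 ^ (M - 1) + 2 ^ (M - 1) := by
    rw [← two_mul, ← pow_succ']
    congr 1
    omega
  rw [e1, e2, e3]
  apply Nat.add_le_add
  · apply Nat.pow_le_pow_right (by norm_num)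
    omega
  · apply Nat.pow_le_pow_right (by norm_num)
    omega

end Pool.Agent.LibRV74
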