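import Pool.Agent.LibRV74.P3
import Pool.Agent.LibRV74.P4
import Pool.Agent.LibRO74.Q5
import Pool.Agent.LibRO74.T5

/-!
[RV74 P5] Few errors are unlikely at all large lengths.

`badH_dep`: adapt `badG_dep` (LibRO74/M4; `errG` is the card of equal subtypes, see F4.lean). `ae_badH`: adapt
`rnd_of`, `rnd_badT` (LibRO74/Q5: `rnd_inter_le`, `io_injective`, `count_curry`, `card_cells`, `H = univ`)
and `ae_badT` (LibRO74/Q7): `fibreE` with `j = log2 log2 n + 4`, `w = n - j - 1`, `r = w - j`, `a = aa q n`;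
`term1 q` (times 10), `term2E`, `term3`, `eI_le`, `largeE`, `loglog_small`, `bcS`.
-/

namespace Pool.Agent.LibRV74

open MeasureTheory Filter Pool.Agent.LibNexp Pool.Agent.LibBHN Pool.Agent.LibRO74

private theorem P5_tim {c k n a : ℕ} (h : a ≤ n) : tim c k n a ≤ tim c k n n := by
  unfold tim
  have h1 : 2 * n + 2 + a ≤ 2 * n + 2 + n := by omega
  have h3 : (2 * n + 2 + a) ^ k ≤ (2 * n + 2 + n) ^ k := Nat.pow_le_pow_left h1 k
  have h2 : 2 ^ ((2 * n + 2 + a) ^ k + k) ≤ 2 ^ ((2 * n + 2 + n) ^ k + k) :=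
    Nat.pow_le_pow_right (by norm_num) (by omega)
  exact Nat.pow_le_pow_right (by norm_num) (by omega)

theorem badH_dep (p : Prog) (c k n a : ℕ) : ∃ M, Dep M (BadH p c k n a) := by
  refine ⟨max (2 * 2 ^ mm k n + 2 * mm k n + 1) (3 * n + 2 + tim c k n n), ?_⟩
  rintro O O' hO ⟨v, i, hv, hg⟩
  have hO' : ∀ s, s.length ≤ max (2 * 2 ^ mm k n + 2 * mm k n + 1) (3 * n + 2 + tim c k n n) →
      O' s = O s := fun s hs => (hO s hs).symm
  have hvn : v.length ≤ n := by omega
  have ht : tim c k n v.length ≤ tim c k n n := P5_tim hvn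
  have hE : errG O' k p (tim c k n v.length) n v = errG O k p (tim c k n v.length) n v := by
    unfold errG
    refine Nat.card_congr (Equiv.subtypeEquivRight fun x => ?_)
    refine and_congr_right fun hx => ?_
    have h1 : x ∈ RLang O' k ↔ x ∈ RLang O k :=
      ⟨rlang_agree (le_max_left _ _) hO' hx, rlang_agree (le_max_left _ _) hO hx⟩
    have hl : (pair x v).length + tim c k n v.length ≤
        max (2 * 2 ^ mm k n + 2 * mm k n + 1) (3 * n + 2 + tim c k n n) := by
      rw [length_pair, hx]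
      refine le_trans ?_ (le_max_right _ _)
      omega
    have h2 : Acc O' p (tim c k n v.length) (pair x v) ↔ Acc O p (tim c k n v.length) (pair x v) :=
      ⟨acc_agree fun s hs => hO' s (hs.trans hl), acc_agree fun s hs => hO s (hs.trans hl)⟩
    rw [h1, h2]
  refine ⟨v, i, hv, ?_⟩
  rw [hE]
  exact hg

open Classical in
private theorem P5_of (p : Prog) {c k n r a : ℕ} {b : ℝ}
    (hb : ∀ O : List Bool → Bool,
      ((Finset.univ.filter fun f : GG (mm k n) → AA (mm k n) r =>
        ov (mm k n) r f O ∈ BadH p c k n a).card : ℝ) ≤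
        b * (Fintype.card (AA (mm k n) r) : ℝ) ^ Fintype.card (GG (mm k n)))
    (hE : MeasurableSet (BadH p c k n a)) :
    rnd (BadH p c k n a) ≤ ENNReal.ofReal b := by
  have h : rnd (BadH p c k n a ∩ Set.univ) ≤ ENNReal.ofReal b * rnd Set.univ := by
    refine rnd_inter_le (io_injective (mm k n) r) hE MeasurableSet.univ ?_ ?_
    · intro g O
      exact ⟨fun _ => trivial, fun _ => trivial⟩
    · intro O
      have h1 := hb O
      rw [card_cells]
      refine le_trans (le_of_eq ?_) h1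
      exact congrArg (fun x : ℕ => (x : ℝ)) (count_curry (mm k n) r O (BadH p c k n a) _)
  rwa [Set.inter_univ, measure_univ, mul_one] at h

theorem ae_badH (p : Prog) (c k q : ℕ) :
    ∀ᵐ O ∂rnd, ∀ᶠ n : ℕ in atTop, O ∉ BadH p c k n (aa q n) := by
  obtain ⟨f, hf, h1⟩ := term1 q
  have hs : Summable fun n : ℕ => 10 * f n + 2 / (n : ℝ) ^ 2 + 1 / (n : ℝ) ^ 2 := by
    have h2 : Summable fun n : ℕ => 1 / (n : ℝ) ^ 2 :=
      Real.summable_one_div_nat_pow.2 (by norm_num)
    have h3 : Summable fun n : ℕ => 2 / (n : ℝ) ^ 2 := by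
      refine (h2.mul_left 2).congr fun n => ?_
      ring
    exact ((hf.mul_left 10).add h3).add h2
  refine bcS hs ?_
  filter_upwards [h1, term2E, term3 k, largeE c k, loglog_small, eI_le q] with n h1 h2 h3 h4 h5 h6
  obtain ⟨M', hM'⟩ := badH_dep p c k n (aa q n)
  set j := Nat.log 2 (Nat.log 2 n) + 4 with hj
  have hn : n = j + 1 + (n - j - 1) := by omega
  refine (P5_of p (fun O => fibreE (a := aa q n) hn (by omega) (by omega) rfl rfl
    (h6 j _ hj hn) h4 p O) (measurable_of_agree M' hM')).trans ?_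
  refine ENNReal.ofReal_le_ofReal ?_
  exact add_le_add (add_le_add (mul_le_mul_of_nonneg_left (h1 j _ _ hj hn rfl) (by norm_num))
    (h2 j _ _ hj hn rfl)) (h3 j _ _ hj hn rfl)

end Pool.Agent.LibRV74
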