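import Pool.Agent.LibRV74.P5
import Pool.Agent.LibRO74.Main

/-!
The number of errors for the first language, for almost all oracles.
-/

namespace Pool.Agent.LibRV74

open MeasureTheory Filter Pool.Agent.LibNexp Pool.Agent.LibBHN Pool.Agent.LibRO74

/-- Outside the bad event every advice gives more than `eI i` errors. -/
theorem of_notMemH {O : List Bool → Bool} {p : Prog} {c k n a i : ℕ} {B : Set (List Bool)}
    (hp : ∀ e : Fin 1 → List Bool, (∀ t σ', Run O p t (init e) σ' → e 0 ∈ B) ∧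
      (e 0 ∈ B → ∃ t σ', t ≤ 2 ^ (2 ^ (size e ^ k + k) + c) ∧ Run O p t (init e) σ'))
    (hn : O ∉ BadH p c k n a) (v : List Bool) (hv : v.length + i + a ≤ n) :
    eI i + 1 ≤
      Nat.card {z : List Bool // z.length = n ∧
        ¬ (z ∈ (RLang O k)ᶜ ↔ z ∈ {x | pair x v ∈ B})} := by
  by_contra hcon
  push Not at hcon
  refine hn ⟨v, i, hv, le_trans (le_of_eq ?_) (Nat.lt_succ_iff.1 hcon)⟩
  unfold errG
  refine Nat.card_congr (Equiv.subtypeEquivRight fun x => ?_)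
  refine and_congr_right fun hx => ?_
  have hs : size (fun _ : Fin 1 => pair x v) = 2 * n + 2 + v.length := by
    simp only [size, Finset.univ_unique, Finset.sum_singleton, length_pair, hx]
    ring
  have h2 := hp fun _ => pair x v
  have h3 : pair x v ∈ B ↔ Acc O p (tim c k n v.length) (pair x v) := by
    constructor
    · intro h
      obtain ⟨t, σ', ht, h4⟩ := h2.2 h
      rw [hs] at ht
      exact ⟨t, σ', ht, h4⟩
    · rintro ⟨t, σ', -, h4⟩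
      exact h2.1 t σ' h4
  rw [← h3]
  simp only [Set.mem_compl_iff, Set.mem_setOf_eq]
  tauto

theorem eI_ge {r : ℝ} (hr : 0 ≤ r) : (2 : ℝ) ^ r / (1 + r) ^ 2 ≤ ((eI ⌊r⌋₊ + 1 : ℕ) : ℝ) := by
  have h1 : (⌊r⌋₊ : ℝ) ≤ r := Nat.floor_le hr
  have h2 : r < ⌊r⌋₊ + 1 := Nat.lt_floor_add_one r
  have h3 : (2 : ℝ) ^ r ≤ 2 ^ (⌊r⌋₊ + 1) := by
    rw [← Real.rpow_natCast]
    exact Real.rpow_le_rpow_of_exponent_le (by norm_num) (by push_cast; exact h2.le)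
  have h4 : 2 ^ (⌊r⌋₊ + 1) < (⌊r⌋₊ + 1) ^ 2 * (eI ⌊r⌋₊ + 1) := by
    unfold eI
    exact Nat.lt_mul_div_succ _ (by positivity)
  have h5 : (2 : ℝ) ^ (⌊r⌋₊ + 1) ≤ ((⌊r⌋₊ : ℝ) + 1) ^ 2 * ((eI ⌊r⌋₊ + 1 : ℕ) : ℝ) := by
    exact_mod_cast h4.le
  have h6 : ((⌊r⌋₊ : ℝ) + 1) ^ 2 ≤ (1 + r) ^ 2 := by
    have h7 : (0 : ℝ) ≤ ⌊r⌋₊ := Nat.cast_nonneg _
    nlinarith
  rw [div_le_iff₀ (by positivity), mul_comm]
  refine h3.trans (h5.trans ?_)
  exact mul_le_mul_of_nonneg_right h6 (by positivity)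

theorem aa_le2 {ε r : ℝ} {q n : ℕ} (hq : 1 / ((q : ℝ) + 1) ≤ ε) (hn : 1 ≤ n) {v : List Bool}
    (hr : 0 ≤ r) (h : (v.length : ℝ) + (1 + ε) * Real.logb 2 n + r ≤ n) :
    v.length + ⌊r⌋₊ + aa q n ≤ n := by
  have h1 : (⌊r⌋₊ : ℝ) ≤ r := Nat.floor_le hr
  have h0 : 0 ≤ Real.logb 2 n := Real.logb_nonneg (by norm_num) (by exact_mod_cast hn)
  have hε : 0 < 1 / ((q : ℝ) + 1) := by positivity
  have h3 : 0 ≤ (1 + ε) * Real.logb 2 n := by
    have : 0 ≤ 1 + ε := by linarith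
    positivity
  have hv' : ((v.length + ⌊r⌋₊ : ℕ) : ℝ) ≤ n := by push_cast; linarith
  have hv : v.length + ⌊r⌋₊ ≤ n := by exact_mod_cast hv'
  have h4 : (1 + 1 / ((q : ℝ) + 1)) * Real.logb 2 n ≤ ((n - (v.length + ⌊r⌋₊) : ℕ) : ℝ) := by
    rw [Nat.cast_sub hv]
    push_cast
    nlinarith
  have h2 : aa q n ≤ n - (v.length + ⌊r⌋₊) := Nat.ceil_le.2 h4
  omega

theorem main2 : ∀ᵐ O ∂rnd, ∀ k : ℕ, RLang O k ∈ NEXPLang O ∧
    ∀ (c : ℕ) (B : Set (List Bool)),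
      NTime O (fun n => 2 ^ (2 ^ (n ^ k + k) + c)) (fun e : Fin 1 → List Bool => e 0 ∈ B) →
      (∀ ε : ℝ, 0 < ε → ∀ᶠ n : ℕ in atTop, ∀ (v : List Bool) (r : ℝ), 0 ≤ r →
        (v.length : ℝ) + (1 + ε) * Real.logb 2 n + r ≤ n →
        2 ^ r / (1 + r) ^ 2 ≤
          (Nat.card {z : List Bool // z.length = n ∧
            ¬ (z ∈ ((RLang O k)ᶜ : Set (List Bool)) ↔ z ∈ {x | pair x v ∈ B})} : ℝ)) ∧
      ∃ᶠ n : ℕ in atTop, ∀ v : List Bool, v.length + 10 ≤ n →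
        ∃ x : List Bool, x.length = n ∧ ¬ (x ∉ RLang O k ↔ pair x v ∈ B) := by
  filter_upwards [LibRO74.main, ae_all_iff.2 fun p : Prog => ae_all_iff.2 fun c : ℕ =>
    ae_all_iff.2 fun k : ℕ => ae_all_iff.2 fun q : ℕ => ae_badH p c k q] with O hM hO k
  refine ⟨(hM k).1, fun c B hB => ⟨fun ε hε => ?_, ((hM k).2 c B hB).2⟩⟩
  obtain ⟨p, hp⟩ := hB
  obtain ⟨q, hq⟩ := exists_nat_one_div_lt hε
  filter_upwards [hO p c k q, eventually_ge_atTop 1] with n hn h1 v r hr hv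
  refine (eI_ge hr).trans ?_
  exact_mod_cast of_notMemH hp hn v (aa_le2 hq.le h1 hr hv)

end Pool.Agent.LibRV74
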