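import Pool.Agent.LibRO74.M3
import Pool.Agent.LibRO74.Q1
import Pool.Agent.LibRO74.Q3
import Pool.Agent.LibRO74.N1

/-!
Average-case hardness: definitions.
-/

namespace Pool.Agent.LibRV74

open Pool.Agent.LibNexp Pool.Agent.LibBHN Pool.Agent.LibRO74

/-! Finite part: `u x g` is the content of the block `g` of `x`. -/

section fin

variable {X W A : Type}

open Classical in
/-- `1` if the family `ω` of block contents has a hit, else `0`. -/
noncomputable def hh (top : A) (ω : W → A) : ℝ := if ∃ g, ω g = top then 1 else 0

open Classical in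
/-- The hits of `u` on the background `w`. -/
noncomputable def mix (top : A) (u w : X → W → A) : X → W → A :=
  fun x g => if u x g = top then top else w x g

open Classical in
/-- `1` if `x` is accepted after its hits are removed, else `0`. -/
noncomputable def bb (top a0 : A) (acc : X → (X → W → A) → Prop) (w : X → W → A) (x : X)
    (u : X → W → A) : ℝ :=
  if acc x (mix top (Function.update u x fun _ => a0) w) then 1 else 0

/-- Acceptance depends on at most `T` blocks. -/
def Loc (T : ℕ) (acc : X → (X → W → A) → Prop) : Prop :=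
  ∀ x f, acc x f → ∃ C : Finset (X × W), C.card ≤ T ∧
    ∀ f' : X → W → A, (∀ q ∈ C, f' q.1 q.2 = f q.1 q.2) → acc x f'

open Classical in
/-- Some `x` is accepted without its hits, but not with them. -/
def Coll (top a0 : A) (acc : X → (X → W → A) → Prop) (w : X → W → A) (u : X → W → A) : Prop :=
  ∃ x, acc x (mix top (Function.update u x fun _ => a0) w) ∧ ¬ acc x (mix top u w)

end fin

/-! The language and its blocks. -/

/-- The language: `x` is in it if some `z = x t z2` of length `mm k |x|` with `t ∈ T` is hit. -/
def AL (O : List Bool → Bool) (k : ℕ) (T : Finset (List Bool)) : Set (List Bool) :=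
  {x | ∃ t ∈ T, ∃ z2 : List Bool, (x ++ (t ++ z2)).length = mm k x.length ∧
    Hit O (x ++ (t ++ z2)) (List.replicate (mm k x.length - x.length) false)}

/-- The strings of length `n`. -/
abbrev XX (n : ℕ) : Type := List.Vector Bool n

/-- The strings of length `l` which start with an element of `T`. -/
def WZ (T : Finset (List Bool)) (l : ℕ) : Type :=
  {z : List.Vector Bool l // ∃ t ∈ T, ∃ z2 : List Bool, z.1 = t ++ z2}

noncomputable instance (T : Finset (List Bool)) (l : ℕ) : Fintype (WZ T l) := by
  unfold WZ; exact Fintype.ofFinite _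

noncomputable instance (T : Finset (List Bool)) (l : ℕ) : DecidableEq (WZ T l) :=
  Classical.decEq _

/-- The blocks of one `x`. -/
abbrev WW (T : Finset (List Bool)) (m n : ℕ) : Type := WZ T (m - n) × List.Vector Bool (2 ^ m)

/-- The contents of a block. -/
abbrev CC (m n : ℕ) : Type := Fin (2 ^ m + (m - n)) → Bool

/-- All ones. -/
def tp (m n : ℕ) : CC m n := fun _ => true

/-- The string of a cell. -/
def iA (T : Finset (List Bool)) (m n : ℕ)
    (q : (XX n × WW T m n) × Fin (2 ^ m + (m - n))) : List Bool :=
  cell (q.2 + 1) (q.1.1.1 ++ q.1.2.1.1.1) q.1.2.2.1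

/-- The oracle with the given contents in the blocks, and `O` elsewhere. -/
noncomputable def oA (T : Finset (List Bool)) (m n : ℕ) (f : XX n → WW T m n → CC m n)
    (O : List Bool → Bool) : List Bool → Bool :=
  Function.extend (iA T m n) (fun q => f q.1.1 q.1.2 q.2) O

/-- The number of errors of the program `p` (within `T0` steps, with advice `v`) at length `n`. -/
noncomputable def errA (O : List Bool → Bool) (k : ℕ) (T : Finset (List Bool)) (p : Prog)
    (T0 n : ℕ) (v : List Bool) : ℕ :=
  Nat.card {x : List Bool // x.length = n ∧ (x ∈ AL O k T ↔ Acc O p T0 (pair x v))}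

/-- The oracles for which `p` has few errors at length `n` with some short advice. -/
def BadA (p : Prog) (c k : ℕ) (T : Finset (List Bool)) (δ : ℝ) (n a : ℕ) :
    Set (List Bool → Bool) :=
  {O | ∃ v : List Bool, 2 * v.length + a ≤ n ∧
    (errA O k T p (tim c k n v.length) n v : ℝ) < (1 / 2 - δ) * 2 ^ n}

/-- The bound for one `v`. -/
noncomputable def bdA (δ : ℝ) (n T0 a : ℕ) : ℝ :=
  36 / ((δ / 2) ^ 2 * √(2 ^ n)) + (32 / (δ / 2) ^ 2 + 2 ^ n) * (T0 / a)

/-- `⌈2 (1 + 1/(q+1)) log n⌉`. -/
noncomputable def aA (q n : ℕ) : ℕ := ⌈2 * (1 + 1 / ((q : ℝ) + 1)) * Real.logb 2 n⌉₊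

end Pool.Agent.LibRV74
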