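import Pool.Agent.LibRV74.Z0

/-!
The upper bound: definitions.
-/

namespace Pool.Agent.LibRV74

open Pool.Agent.LibNexp Pool.Agent.LibBHN Pool.Agent.LibRO74

/-- `z = x' t z2` with `|x'| = n` and `t ∈ T`. -/
def FA (T : Finset (List Bool)) (n : ℕ) (z : List Bool) : Prop :=
  ∃ x' t z2 : List Bool, z = x' ++ (t ++ z2) ∧ x'.length = n ∧ t ∈ T

/-- `z = x' t z2` with `|x'| = |x|`, `t ∈ T` and `x' ≠ x`. -/
def FF (T : Finset (List Bool)) (x z : List Bool) : Prop :=
  ∃ x' t z2 : List Bool, z = x' ++ (t ++ z2) ∧ x'.length = x.length ∧ t ∈ T ∧ x' ≠ x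

/-- `false z` with `z` of this form and hit, or `true a 0..0` with `|a| + 1 = |v|`. -/
def RB (O : List Bool → Bool) (T : Finset (List Bool)) (q x v s : List Bool) : Prop :=
  (∃ z, s = false :: z ∧ FF T x z ∧ Hit O z q) ∨
    ∃ a b : List Bool, s = true :: (a ++ b) ∧ a.length + 1 = v.length ∧
      b = List.replicate b.length false

/-- The string `q` of zeros and the threshold `t`. -/
def Thr (k s : ℕ) (β x v q t : List Bool) : Prop :=
  1 ≤ v.length ∧ s + v.length ≤ x.length ∧
    q = List.replicate (mm k x.length - x.length) false ∧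
    t = v ++ (List.replicate (x.length - s - v.length) false ++
      (β ++ List.replicate (mm k x.length + 2 - (x.length - s) - β.length) false))

/-- The complement with advice: at least `val v + 2^(|x|-s) val β - 2^(|v|-1)` hit strings `x' t z2`
with `x' ≠ x`. -/
def AB (O : List Bool → Bool) (k s : ℕ) (T : Finset (List Bool)) (β : List Bool) :
    Set (List Bool) :=
  {w | ∃ x v q t : List Bool, w = pair x v ∧ Thr k s β x v q t ∧
    ∃ n', t.length = n' + 1 ∧ val t ≤ cnt n' (RB O T q x v)}

/-- The number of hit strings `x' t z2` with `|x'| = n`. -/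
noncomputable def nCt (O : List Bool → Bool) (k : ℕ) (T : Finset (List Bool)) (n : ℕ) : ℕ :=
  cnt (mm k n) fun z => FA T n z ∧ Hit O z (List.replicate (mm k n - n) false)

/-- The number of hit strings is far from the mean. -/
def BadC (k s : ℕ) (T : Finset (List Bool)) (n : ℕ) : Set (List Bool → Bool) :=
  {O | ¬ (2 ^ (n - s) * T.card ≤ nCt O k T n + 2 ^ (n / 2 + Nat.log 2 n - 1) ∧
    nCt O k T n < 2 ^ (n - s) * T.card + 2 ^ (n / 2 + Nat.log 2 n - 1))}

end Pool.Agent.LibRV74
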