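import Pool.Agent.LibRV74.Z1

/-!
One language for all error bounds: definitions.
-/

namespace Pool.Agent.LibRV74

open Pool.Agent.LibNexp Pool.Agent.LibBHN Pool.Agent.LibRO74

/-- `t = 1^i 0 t'` with `(val t' + 1) (i + 1) ≤ 2^|t'|`. About `2^n log 2` strings of length `n`. -/
def InT (t : List Bool) : Prop :=
  ∃ (i : ℕ) (t' : List Bool), t = List.replicate i true ++ false :: t' ∧
    (val t' + 1) * (i + 1) ≤ 2 ^ t'.length

open Classical in
/-- The strings of length `n` with `InT`. -/
noncomputable def TT (n : ℕ) : Finset (List Bool) :=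
  ((Finset.univ : Finset (List.Vector Bool n)).image fun x => x.1).filter InT

theorem mem_TT {n : ℕ} {t : List Bool} : t ∈ TT n ↔ t.length = n ∧ InT t := by
  classical
  unfold TT
  rw [Finset.mem_filter, Finset.mem_image]
  refine and_congr ?_ Iff.rfl
  constructor
  · rintro ⟨x, -, rfl⟩
    exact x.2
  · intro h
    exact ⟨⟨t, h⟩, Finset.mem_univ _, rfl⟩

/-- The language. -/
def AL2 (O : List Bool → Bool) (k : ℕ) : Set (List Bool) :=
  {x | x ∈ AL O k (TT x.length)}

/-- The error bound `(1 + i) 2^(-i/2) / 2`. -/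
noncomputable def dI (i : ℕ) : ℝ := (1 + i) / (2 * √(2 ^ i))

/-- `y = b a` with `|b| = |u|`, `|a| = |t'|`, `b = 1..1 0..0` and `val a ≤ val t'`. -/
def Fm (u t' y : List Bool) : Prop :=
  ∃ (a : List Bool) (j l : ℕ), y = (List.replicate j true ++ List.replicate l false) ++ a ∧
    j + l = u.length ∧ a.length = t'.length ∧ val a ≤ val t'

/-- `y = b a` with `|b| = |u|`, `|a| = |t'|`, and `b` contains `01` or `val t' < val a`. -/
def Nm (u t' y : List Bool) : Prop :=
  ∃ b a : List Bool, y = b ++ a ∧ b.length = u.length ∧ a.length = t'.length ∧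
    ((∃ b1 b2 : List Bool, b = b1 ++ false :: true :: b2) ∨ val t' < val a)

/-- Hit strings with prefix `≠ x`, `2^(|v|-1)` dummies, and the strings without `InT`. -/
def RB2 (O : List Bool → Bool) (q x v s : List Bool) : Prop :=
  (∃ z, s = false :: false :: z ∧ FF (TT x.length) x z ∧ Hit O z q) ∨
    ((∃ a b : List Bool, s = true :: false :: (a ++ b) ∧ a.length + 1 = v.length ∧
      b = List.replicate b.length false) ∨
    ∃ t b : List Bool, s = false :: true :: (t ++ b) ∧ t.length = x.length ∧ ¬ InT t ∧
      b = List.replicate b.length false)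

/-- The string `q` of zeros and the threshold `t`. -/
def Thr2 (k : ℕ) (x v q t : List Bool) : Prop :=
  1 ≤ v.length ∧ v.length ≤ x.length ∧
    q = List.replicate (mm k x.length - x.length) false ∧
    t = v ++ (List.replicate (x.length - v.length) false ++
      true :: List.replicate (mm k x.length + 2 - x.length) false)

/-- The complement with advice. -/
def AB2 (O : List Bool → Bool) (k : ℕ) : Set (List Bool) :=
  {w | ∃ x v q t : List Bool, w = pair x v ∧ Thr2 k x v q t ∧
    ∃ n', t.length = n' + 1 ∧ val t ≤ cnt n' (RB2 O q x v)}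

end Pool.Agent.LibRV74
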